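import Pool.Agent.H43.SI.Hb
import Pool.Agent.H43.HL.Defs
import Pool.Agent.H26.LDP.Defs

/-!
# Values `m^3+k` with exactly two prime factors, `m <= M = (log k)^C` (H43/TP): definitions and plan

MP_4d57ea_nt, proposal 99. `l = log X`, `P = ⌊l^A⌋`, `P2 = ⌊l^(2A)⌋`.

* Elementary part: `Ram`, `Loc`, `Mw`, `L2m` (Ramanujan sums and the local model `lq`), `Plg`, `Gal`, `Tra` (transfer
  theorem: cubic averages from sums over residue classes in short windows), `Mt`, `Sing`, `Or` (singular series),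
  `Mert`.
* Dirichlet polynomials: `Mom`, `Bset` (primes of `(D,D']`), `Ker`, `Hm`, `Rest` (Halasz-Montgomery on sets of small
  measure), `Sa`, `Sb`, `Sp`, `Fr`, `Ply`, `Si`, `Six`, `Ap`, `Pc`, `Add`, `Th`, `Blk`.
* `Fa`, `Fms`, `Cnt`, `Rel`: assembly.
-/

namespace Pool.Agent.H43.TP

open Finset

/-- the Dirichlet polynomial of the primes of `(D,D']` at `1+it` -/
noncomputable def pp {q : ℕ} (χ : DirichletCharacter ℂ q) (D D' : ℕ) (t : ℝ) : ℂ :=
  ∑ p ∈ (Ioc D D').filter Nat.Prime, χ p * (p : ℂ) ^ (-(1 + (t : ℂ) * Complex.I))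

/-- `χ` on the primes of `(D,D']`, as an arithmetic function -/
noncomputable def pa {q : ℕ} (χ : DirichletCharacter ℂ q) (D D' : ℕ) : ArithmeticFunction ℂ :=
  ⟨fun n => if n ∈ (Ioc D D').filter Nat.Prime then χ n else 0, by simp⟩

/-- the sum of `Λ(n/p)` over the primes `p ∣ n` of `(D,D']` -/
noncomputable def gg (D D' n : ℕ) : ℝ :=
  ∑ p ∈ (Ioc D D').filter (fun p => p.Prime ∧ p ∣ n), ArithmeticFunction.vonMangoldt (n / p)

/-- the sum of `log (n/p)` over the primes `p ∣ n` of `(D,D']` with `n/p` prime -/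
noncomputable def ge (D D' n : ℕ) : ℝ :=
  ∑ p ∈ (Ioc D D').filter (fun p => p.Prime ∧ p ∣ n ∧ (n / p).Prime), Real.log ((n / p : ℕ) : ℝ)

/-- the sum of `1/p` over the primes of `(D,D']` -/
noncomputable def kap (D D' : ℕ) : ℝ := ∑ p ∈ (Ioc D D').filter Nat.Prime, 1 / (p : ℝ)

/-- the Ramanujan sum `c_r(n)` -/
def crd (r n : ℕ) : ℤ :=
  ∑ d ∈ r.divisors.filter (fun d => d ∣ n), (d : ℤ) * ArithmeticFunction.moebius (r / d)

/-- the local model of the primes: `Σ_{r<=Q} μ(r)/φ(r) c_r(n)` -/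
noncomputable def lq (Q n : ℕ) : ℝ :=
  ∑ r ∈ Icc 1 Q, ((ArithmeticFunction.moebius r : ℤ) : ℝ) / (r.totient : ℝ) * (crd r n : ℝ)

/-- `μ(r)/φ(r)` times the mean of `c_r(m^3+k)` over `m mod r` -/
noncomputable def ar (r k : ℕ) : ℝ :=
  ((ArithmeticFunction.moebius r : ℤ) : ℝ) / (r.totient : ℝ) *
    ((1 / (r : ℝ)) * ∑ m ∈ range r, (crd r (m ^ 3 + k) : ℝ))

/-- the product of the primes up to `y` -/
def Wy (y : ℕ) : ℕ := ∏ p ∈ (Icc 1 y).filter Nat.Prime, p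

/-- `n = p1 p2`, both prime, `(log X)^A < p1 <= (log X)^(2A)` -/
def E2 (A X n : ℕ) : Prop := ∃ p1 p2 : ℕ, p1.Prime ∧ p2.Prime ∧ (Real.log X) ^ A < p1 ∧
  (p1 : ℝ) ≤ (Real.log X) ^ (2 * A) ∧ n = p1 * p2

open Classical in
/-- number of `1 <= m <= M` with `m^3+k = p1 p2` -/
noncomputable def cE (A X M k : ℕ) : ℕ := ((Icc 1 M).filter (fun m => E2 A X (m ^ 3 + k))).card

end Pool.Agent.H43.TP
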