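import Pool.Agent.H43.SI.Psi
import Pool.Agent.H43.TP.Defs
import Pool.Agent.H75.AP.MertensB

/-!
# [H43 TP MERT] The sum of `1/p` over `(log X)^A < p <= (log X)^(2A)` tends to `log 2`

PROOF. The upper half is `mertens_ratio` of `H75/AP/MertensB.lean`; the lower half is proved in the same way (pieces
`(t, t^(1+δ)]`) from `logp_lower`.
-/

namespace Pool.Agent.H43.TP

open Finset

open Pool.Agent.H75.AP Pool.Agent.H75.AP.MertB

lemma mert_piece : ∃ C : ℝ, 0 < C ∧ ∀ a b : ℝ, 1 < a → a ≤ b →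
    (Real.log b - Real.log a - C) / Real.log b ≤ ∑ p ∈ PI a b, 1 / (p : ℝ) := by
  obtain ⟨C, hC, h⟩ := logp_lower
  refine ⟨C, hC, ?_⟩
  intro a b ha hab
  have hL : 0 < Real.log b := Real.log_pos (by linarith)
  rw [div_le_iff₀ hL]
  refine le_trans (h a b ha.le hab) ?_
  rw [Finset.sum_mul]
  refine Finset.sum_le_sum fun p hp => ?_
  rw [mem_PI (by linarith)] at hp
  have hp0 : (0 : ℝ) < p := by linarith [hp.2.1]
  have h1 : Real.log p ≤ Real.log b := Real.log_le_log hp0 hp.2.2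
  rw [one_div, ← div_eq_inv_mul]
  exact div_le_div_of_nonneg_right h1 hp0.le

theorem mert_ratio_low (R ε : ℝ) (hR : 1 < R) (hε : 0 < ε) : ∃ u0 : ℝ, 1 < u0 ∧ ∀ u v : ℝ,
    u0 ≤ u → u ^ R ≤ v → Real.log R - ε ≤ ∑ p ∈ PI u v, 1 / (p : ℝ) := by
  obtain ⟨C, hC, hp⟩ := mert_piece
  have hl : 0 < Real.log R := Real.log_pos hR
  obtain ⟨n, hn⟩ := exists_nat_ge (max (Real.log R) (2 * Real.log R ^ 2 / ε) + 1)
  have hn1 : Real.log R ≤ n := by
    have := le_max_left (Real.log R) (2 * Real.log R ^ 2 / ε); linarith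
  have hn2 : 2 * Real.log R ^ 2 / ε ≤ n := by
    have := le_max_right (Real.log R) (2 * Real.log R ^ 2 / ε); linarith
  have hn0 : (0 : ℝ) < n := lt_of_lt_of_le hl hn1
  set x : ℝ := Real.log R / n with hx
  have hx0 : 0 < x := by positivity
  have hx1 : x ≤ 1 := by rw [hx, div_le_one hn0]; exact hn1
  have hexp : x - x ^ 2 ≤ 1 - Real.exp (-x) := by
    have := Real.abs_exp_sub_one_sub_id_le (x := -x) (by rw [abs_neg, abs_of_pos hx0]; exact hx1)
    have := (abs_le.1 this).2
    nlinarith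
  have hnx : n * x = Real.log R := by rw [hx]; field_simp
  have hmain : Real.log R - ε / 2 ≤ n * (1 - Real.exp (-x)) := by
    have h1 : n * (x - x ^ 2) ≤ n * (1 - Real.exp (-x)) := mul_le_mul_of_nonneg_left hexp hn0.le
    have h2 : n * (x - x ^ 2) = Real.log R - Real.log R * x := by
      rw [mul_sub, pow_two, ← mul_assoc, hnx]
    have h3 : Real.log R * x ≤ ε / 2 := by
      rw [hx, mul_div_assoc', div_le_iff₀ hn0]
      rw [div_le_iff₀ hε] at hn2
      nlinarith
    linarith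
  refine ⟨Real.exp (2 * n * C / ε + 1), ?_, ?_⟩
  · exact Real.one_lt_exp_iff.2 (by positivity)
  intro u v hu hv
  have hu1 : 1 < u := lt_of_lt_of_le (Real.one_lt_exp_iff.2 (by positivity)) hu
  set L := Real.log u with hL
  have hL1 : 2 * n * C / ε + 1 ≤ L := by
    rw [hL, Real.le_log_iff_exp_le (by linarith)]; exact hu
  have hL0 : 0 < L := by
    have : 0 ≤ 2 * n * C / ε := by positivity
    linarith
  -- induction over the pieces
  have key : ∀ k : ℕ, k * (1 - Real.exp (-x) - C / L) ≤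
      ∑ p ∈ PI u (Real.exp (L * Real.exp (k * x))), 1 / (p : ℝ) := by
    intro k
    induction k with
    | zero =>
      simp only [Nat.cast_zero, zero_mul]
      exact Finset.sum_nonneg fun p _ => by positivity
    | succ k ih =>
      have hk0 : (0 : ℝ) ≤ k * x := by positivity
      have he1 : 1 ≤ Real.exp (k * x) := Real.one_le_exp hk0
      have h1 : u ≤ Real.exp (L * Real.exp (k * x)) := by
        rw [← Real.log_le_iff_le_exp (by linarith), ← hL]
        nlinarith
      have h2 : Real.exp (L * Real.exp (k * x)) ≤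
          Real.exp (L * Real.exp ((k + 1 : ℕ) * x)) := by
        apply Real.exp_le_exp.2
        apply mul_le_mul_of_nonneg_left _ hL0.le
        apply Real.exp_le_exp.2
        push_cast
        nlinarith
      rw [sum_split (by linarith) h1 h2]
      have h3 := hp (Real.exp (L * Real.exp (k * x))) (Real.exp (L * Real.exp ((k + 1 : ℕ) * x)))
        (lt_of_lt_of_le hu1 h1) h2
      rw [Real.log_exp, Real.log_exp] at h3
      have h4 : 1 - Real.exp (-x) - C / L ≤ (L * Real.exp ((k + 1 : ℕ) * x) - L * Real.exp (k * x) - C) /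
          (L * Real.exp ((k + 1 : ℕ) * x)) := by
        rw [le_div_iff₀ (by positivity)]
        have h5 : Real.exp (k * x) = Real.exp ((k + 1 : ℕ) * x) * Real.exp (-x) := by
          rw [← Real.exp_add]; congr 1; push_cast; ring
        rw [h5]
        have h6 : (1 - Real.exp (-x) - C / L) * (L * Real.exp ((k + 1 : ℕ) * x)) =
            L * Real.exp ((k + 1 : ℕ) * x) - L * (Real.exp ((k + 1 : ℕ) * x) * Real.exp (-x)) -
              C * Real.exp ((k + 1 : ℕ) * x) := by
          field_simp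
        rw [h6]
        have h7 : 1 ≤ Real.exp ((k + 1 : ℕ) * x) := Real.one_le_exp (by positivity)
        nlinarith
      have h7 : ((k + 1 : ℕ) : ℝ) * (1 - Real.exp (-x) - C / L) =
          k * (1 - Real.exp (-x) - C / L) + (1 - Real.exp (-x) - C / L) := by
        push_cast; ring
      rw [h7]
      linarith
  have h1 := key n
  have h2 : Real.exp (L * Real.exp (n * x)) = u ^ R := by
    rw [hnx, Real.exp_log (by linarith), Real.rpow_def_of_pos (by linarith)]
  rw [h2] at h1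
  have h3 := sum_mono (by linarith : (0 : ℝ) ≤ u) hv
  have h4 : n * (C / L) ≤ ε / 2 := by
    rw [mul_div_assoc', div_le_iff₀ hL0]
    have h5 : 2 * n * C / ε ≤ L := by linarith
    rw [div_le_iff₀ hε] at h5
    linarith
  have h5 : n * (1 - Real.exp (-x) - C / L) = n * (1 - Real.exp (-x)) - n * (C / L) := by ring
  linarith

theorem mert (A : ℕ) (hA : 1 ≤ A) (ε : ℝ) (hε : 0 < ε) : ∃ X0 : ℕ, ∀ X : ℕ, X0 ≤ X →
    |kap ⌊(Real.log X) ^ A⌋₊ ⌊(Real.log X) ^ (2 * A)⌋₊ - Real.log 2| ≤ ε := by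
  obtain ⟨u1, hu1, h1⟩ := mertens_ratio 2 ε (by norm_num) hε
  obtain ⟨u2, hu2, h2⟩ := mert_ratio_low 2 ε (by norm_num) hε
  refine ⟨⌈Real.exp (u1 + u2)⌉₊, fun X hX => ?_⟩
  have hX1 : Real.exp (u1 + u2) ≤ X := le_trans (Nat.le_ceil _) (by exact_mod_cast hX)
  have hX0 : (0 : ℝ) < X := lt_of_lt_of_le (Real.exp_pos _) hX1
  have hlog : u1 + u2 ≤ Real.log X := by
    rw [Real.le_log_iff_exp_le hX0]
    exact hX1
  set z : ℝ := (Real.log X) ^ A with hz
  have hlog1 : 1 ≤ Real.log X := by linarith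
  have hzl : Real.log X ≤ z := by
    rw [hz]
    calc Real.log X = (Real.log X) ^ 1 := (pow_one _).symm
      _ ≤ (Real.log X) ^ A := pow_le_pow_right₀ hlog1 hA
  have hz0 : 0 < z := by linarith
  have hz2 : (Real.log X) ^ (2 * A) = z ^ 2 := by
    rw [hz, ← pow_mul, mul_comm]
  have hz2' : z ^ (2 : ℝ) = z ^ 2 := by norm_cast
  rw [hz2]
  have hk : kap ⌊z⌋₊ ⌊z ^ 2⌋₊ = ∑ p ∈ PI z (z ^ 2), 1 / (p : ℝ) := by
    unfold kap
    refine Finset.sum_congr ?_ fun _ _ => rfl
    ext p
    rw [Finset.mem_filter, Finset.mem_Ioc, mem_PI hz0.le, Nat.floor_lt hz0.le, Nat.le_floor_iff (by positivity)]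
    tauto
  rw [hk]
  have h3 := h1 z (z ^ 2) (by linarith) (by rw [hz2'])
  have h4 := h2 z (z ^ 2) (by linarith) (by rw [hz2'])
  rw [abs_le]
  constructor <;> linarith

end Pool.Agent.H43.TP
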