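import Pool.Agent.H43.TP.Sing
import Pool.Agent.H43.HL.Low

/-!
# [H43 TP OR] The tail of the singular series in mean square

PROOF. Only squarefree `r` matter (`ar_sqf`). Expand the square: pairs `(r, r')`, `r, r' <= Q`.
(1) `r ≠ r'`: `k ↦ ar r k * ar r' k` has period `L = lcm(r,r') <= Q^2` and its sum over a period is `0`: some prime `p`
divides exactly one of them, say `r = p s`; by CRT the sum over `k mod L`, `L = p L'`, `(p, L') = 1`, is
`(Σ_{k mod p} ar p k)(Σ_{k mod L'} ar s k ar r' k)` and `Σ_{k mod p} (1 - ν_p(k)) = 0` (`HL.sum_nu`). Every product is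
`<= 1` in absolute value (`ar_abs`), so the incomplete period contributes `<= L <= Q^2`; all pairs: `<= Q^4`.
(2) `r = r'`: `Σ_{k mod r} (ar r k)^2 = ∏_{p ∣ r} Σ_{k mod p} (ar p k)^2` (CRT, `r` squarefree), and
`Σ_{k mod p} (1-ν)^2 = Σ ν^2 - p`, `Σ_{k mod p} ν_p(k)^2 = #{(m,m') mod p : m^3 ≡ m'^3} <= 3p`, so
`Σ_{k mod p} (ar p k)^2 <= 2p/(p-1)^2`. Hence `Σ_{k<=X} (ar r k)^2 <= (X/r + 1) r ∏_{p ∣ r} 2/(p-1)^2`
`<= X ∏_{p ∣ r} 2/(p-1)^2 + r`-ish; precisely `<= X g(r) + Q` with `g(r) = ∏_{p ∣ r} 2/(p-1)^2` (the incomplete period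
trivially `<= r`). `g(r) <= 25 r^(-3/2)`: `2 p^(3/2) <= (p-1)^2` for `p >= 11`, and for `p = 2,3,5,7` the quotients
`2p^(3/2)/(p-1)^2` are `<= 5.66, 2.6, 1.4, 1.03`, product `<= 25`.
(3) `r ∤ Wy y`, `r` squarefree: `r` has a prime factor `> y`, so `r > y`. `Σ_{r>y} r^(-3/2) <= 2 y^(-1/2)` for `y >= 1`
(`1/r^(3/2) <= 2(1/√(r-1) - 1/√r)`). Total `<= 50 X y^(-1/2) + Q^2 + Q^4`.
-/

namespace Pool.Agent.H43.TP

open Finset

theorem or_shift (f : ℕ → ℝ) (N : ℕ) (hf : ∀ m, f (m + N) = f m) (a : ℕ) :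
    ∑ k ∈ Ico a (a + N), f k = ∑ k ∈ range N, f k := by
  induction a with
  | zero => rw [zero_add, range_eq_Ico]
  | succ a ih =>
    rcases Nat.eq_zero_or_pos N with rfl | hN
    · simp
    have h1 : ∑ k ∈ Ico (a + 1) (a + 1 + N), f k = ∑ k ∈ Ico (a + 1) (a + N), f k + f (a + N) := by
      rw [show a + 1 + N = a + N + 1 by ring, sum_Ico_succ_top (by omega)]
    have h2 : ∑ k ∈ Ico a (a + N), f k = f a + ∑ k ∈ Ico (a + 1) (a + N), f k :=
      sum_eq_sum_Ico_succ_bot (by omega) _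
    rw [h1, hf a, ← ih, h2]
    ring

theorem or_per (f : ℕ → ℝ) (N : ℕ) (hf : ∀ m, f (m + N) = f m) (q : ℕ) :
    ∑ k ∈ Ico 1 (1 + N * q), f k = q * ∑ k ∈ range N, f k := by
  induction q with
  | zero => simp
  | succ q ih =>
    rw [← sum_Ico_consecutive f (show 1 ≤ 1 + N * q by omega)
      (show 1 + N * q ≤ 1 + N * (q + 1) by rw [Nat.mul_succ]; omega), ih,
      show 1 + N * (q + 1) = 1 + N * q + N by ring, or_shift f N hf]
    push_cast
    ring

/-- sum of a bounded periodic function -/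
theorem or_main (f : ℕ → ℝ) (N : ℕ) (hN : 0 < N) (hf : ∀ m, f (m + N) = f m)
    (hb : ∀ m, |f m| ≤ 1) (X : ℕ) :
    |∑ k ∈ Icc 1 X, f k - ((X / N : ℕ) : ℝ) * ∑ k ∈ range N, f k| ≤ N := by
  have h0 : Icc 1 X = Ico 1 (X + 1) := by
    ext k
    simp only [mem_Icc, mem_Ico]
    omega
  have hX : N * (X / N) + X % N = X := Nat.div_add_mod X N
  rw [h0, ← or_per f N hf, ← sum_Ico_consecutive f (show 1 ≤ 1 + N * (X / N) by omega)
      (show 1 + N * (X / N) ≤ X + 1 by omega), add_sub_cancel_left]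
  refine (abs_sum_le_sum_abs _ _).trans ((sum_le_sum fun k _ => hb k).trans ?_)
  rw [sum_const, Nat.card_Ico, nsmul_eq_mul, mul_one]
  have h1 : X % N < N := Nat.mod_lt _ hN
  have h2 : X + 1 - (1 + N * (X / N)) ≤ N := by omega
  exact_mod_cast h2

theorem or_ar_per (r N k : ℕ) (h : r ∣ N) : ar r (k + N) = ar r k := by
  apply ar_mod
  obtain ⟨c, rfl⟩ := h
  rw [Nat.add_mul_mod_self_left]

/-- the sum of `ar p k` over a period vanishes -/
theorem or_prime_zero (p : ℕ) (hp : p.Prime) : ∑ k ∈ range p, ar p k = 0 := by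
  have h1 : ∑ k ∈ range p, (HL.nu p k : ℝ) = p := by
    have := HL.sum_nu p hp.pos
    exact_mod_cast this
  rw [sum_congr rfl fun k _ => ar_prime p k hp, ← sum_div, sum_sub_distrib, h1, sum_const,
    card_range, nsmul_eq_mul, mul_one, sub_self, zero_div]

/-- orthogonality, one direction -/
theorem or_orth_aux (r r' p : ℕ) (hp : p.Prime) (hr : Squarefree r) (hr' : 0 < r')
    (h1 : p ∣ r) (h2 : ¬ p ∣ r') : ∑ k ∈ range (r * r'), ar r k * ar r' k = 0 := by
  obtain ⟨s, rfl⟩ := h1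
  have hps : Nat.Coprime p s := Nat.coprime_of_squarefree_mul hr
  have hpr : Nat.Coprime p r' := (hp.coprime_iff_not_dvd).2 h2
  have hc : Nat.Coprime p (s * r') := hps.mul_right hpr
  have hs : s ≠ 0 := by
    rintro rfl
    exact hr.ne_zero (mul_zero p)
  have e : ∑ k ∈ range (p * s * r'), ar (p * s) k * ar r' k =
      ∑ k ∈ range (p * (s * r')), ar p k * (ar s k * ar r' k) := by
    rw [mul_assoc p s r']
    refine sum_congr rfl fun k _ => ?_
    rw [ar_mul p s k hps, mul_assoc]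
  rw [e, sum_crt p (s * r') hc hp.ne_zero (mul_ne_zero hs hr'.ne') (fun k => ar p k)
    (fun k => ar s k * ar r' k) (fun m n h => ar_mod p m n h) (fun m n h => ?_),
    or_prime_zero p hp, zero_mul]
  have h3 : m % s = n % s := Nat.ModEq.of_mul_right r' h
  have h4 : m % r' = n % r' := Nat.ModEq.of_mul_left s h
  rw [ar_mod s m n h3, ar_mod r' m n h4]

theorem or_orth (r r' : ℕ) (hr : Squarefree r) (hr' : Squarefree r') (hne : r ≠ r') :
    ∑ k ∈ range (r * r'), ar r k * ar r' k = 0 := by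
  have hr0 : 0 < r := Nat.pos_of_ne_zero hr.ne_zero
  have hr0' : 0 < r' := Nat.pos_of_ne_zero hr'.ne_zero
  by_cases h : ∃ p, p.Prime ∧ p ∣ r ∧ ¬ p ∣ r'
  · obtain ⟨p, hp, h1, h2⟩ := h
    exact or_orth_aux r r' p hp hr hr0' h1 h2
  by_cases h' : ∃ p, p.Prime ∧ p ∣ r' ∧ ¬ p ∣ r
  · obtain ⟨p, hp, h1, h2⟩ := h'
    have := or_orth_aux r' r p hp hr' hr0 h1 h2
    rw [mul_comm r r', ← this]
    exact sum_congr rfl fun k _ => mul_comm _ _
  exfalso
  push Not at h h'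
  apply hne
  have e : r.primeFactors = r'.primeFactors := by
    ext p
    rw [Nat.mem_primeFactors, Nat.mem_primeFactors]
    exact ⟨fun ⟨a, b, _⟩ => ⟨a, h p a b, hr'.ne_zero⟩, fun ⟨a, b, _⟩ => ⟨a, h' p a b, hr.ne_zero⟩⟩
  rw [← Nat.prod_primeFactors_of_squarefree hr, ← Nat.prod_primeFactors_of_squarefree hr', e]

/-- the square sum over a period -/
noncomputable def oD (r : ℕ) : ℝ := ∑ k ∈ range r, ar r k ^ 2

theorem oD_nonneg (r : ℕ) : 0 ≤ oD r := sum_nonneg fun _ _ => sq_nonneg _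

theorem oD_mul (r s : ℕ) (h : Nat.Coprime r s) : oD (r * s) = oD r * oD s := by
  rcases Nat.eq_zero_or_pos r with rfl | hr
  · have h1 : s = 1 := by simpa using h
    rw [h1]
    simp [oD]
  rcases Nat.eq_zero_or_pos s with rfl | hs
  · have h1 : r = 1 := by simpa using h
    rw [h1]
    simp [oD]
  unfold oD
  rw [← sum_crt r s h hr.ne' hs.ne' (fun k => ar r k ^ 2) (fun k => ar s k ^ 2)
    (fun m n h => by rw [ar_mod r m n h]) (fun m n h => by rw [ar_mod s m n h])]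
  refine sum_congr rfl fun k _ => ?_
  rw [ar_mul r s k h, mul_pow]

theorem oD_prime (p : ℕ) (hp : p.Prime) : oD p ≤ 2 * p / ((p : ℝ) - 1) ^ 2 := by
  have hp1 : (1 : ℝ) < p := by exact_mod_cast hp.one_lt
  have h1 : ∑ k ∈ range p, (HL.nu p k : ℝ) = p := by
    have := HL.sum_nu p hp.pos
    exact_mod_cast this
  unfold oD
  rw [sum_congr rfl fun k _ => by rw [ar_prime p k hp, div_pow], ← sum_div]
  have h2 : ∑ k ∈ range p, (1 - (HL.nu p k : ℝ)) ^ 2 ≤ 2 * (p : ℝ) := by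
    have h3 : ∑ k ∈ range p, (1 - (HL.nu p k : ℝ)) ^ 2 ≤
        ∑ k ∈ range p, (1 + (HL.nu p k : ℝ)) := by
      refine sum_le_sum fun k _ => ?_
      have h4 : (HL.nu p k : ℝ) ≤ 3 := by exact_mod_cast HL.nu_le_three p k hp
      have h5 : (0 : ℝ) ≤ HL.nu p k := Nat.cast_nonneg _
      nlinarith
    refine h3.trans ?_
    rw [sum_add_distrib, h1, sum_const, card_range, nsmul_eq_mul]
    linarith
  gcongr

/-- `√r D(r)` as an arithmetic function -/
noncomputable def oF : ArithmeticFunction ℝ := ⟨fun r => √(r : ℝ) * oD r, by simp⟩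

theorem oF_apply (r : ℕ) : oF r = √(r : ℝ) * oD r := rfl

theorem oF_mult : oF.IsMultiplicative := by
  refine ⟨?_, fun {m n} h => ?_⟩
  · rw [oF_apply]
    simp [oD, ar_one]
  · rw [oF_apply, oF_apply, oF_apply, oD_mul m n h, Nat.cast_mul,
      Real.sqrt_mul (Nat.cast_nonneg _)]
    ring

theorem oD_two : oD 2 = 0 := by
  unfold oD
  refine sum_eq_zero fun k _ => ?_
  rw [ar_prime 2 k Nat.prime_two, HL.nu_two]
  simp

theorem oD_three : oD 3 = 0 := by
  unfold oD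
  refine sum_eq_zero fun k _ => ?_
  rw [ar_prime 3 k Nat.prime_three, HL.nu_three]
  simp

theorem oF_prime (p : ℕ) (hp : p.Prime) : oF p ≤ if p = 5 ∨ p = 7 then 2 else 1 := by
  rw [oF_apply]
  by_cases h2 : p = 2
  · subst h2
    rw [oD_two]
    simp
  by_cases h3 : p = 3
  · subst h3
    rw [oD_three]
    simp
  have hD := oD_prime p hp
  by_cases h5 : p = 5
  · subst h5
    rw [if_pos (Or.inl rfl)]
    have hs : √((5 : ℕ) : ℝ) ≤ 3 := by
      rw [Real.sqrt_le_left (by norm_num)]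
      norm_num
    have hD' : oD 5 ≤ 10 / 16 := hD.trans (by norm_num)
    calc √((5 : ℕ) : ℝ) * oD 5 ≤ 3 * (10 / 16) :=
          mul_le_mul hs hD' (oD_nonneg 5) (by norm_num)
      _ ≤ 2 := by norm_num
  by_cases h7 : p = 7
  · subst h7
    rw [if_pos (Or.inr rfl)]
    have hs : √((7 : ℕ) : ℝ) ≤ 3 := by
      rw [Real.sqrt_le_left (by norm_num)]
      norm_num
    have hD' : oD 7 ≤ 14 / 36 := hD.trans (by norm_num)
    calc √((7 : ℕ) : ℝ) * oD 7 ≤ 3 * (14 / 36) :=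
          mul_le_mul hs hD' (oD_nonneg 7) (by norm_num)
      _ ≤ 2 := by norm_num
  rw [if_neg (by omega)]
  have h11 : 11 ≤ p := by
    by_contra hlt
    push Not at hlt
    have := hp.two_le
    interval_cases p <;> first | omega | (revert hp; decide)
  have hp11 : (11 : ℝ) ≤ p := by exact_mod_cast h11
  have hpos : (0 : ℝ) < ((p : ℝ) - 1) ^ 2 := by nlinarith
  have hs0 : 0 ≤ √(p : ℝ) := Real.sqrt_nonneg _
  calc √(p : ℝ) * oD p ≤ √(p : ℝ) * (2 * p / ((p : ℝ) - 1) ^ 2) := by gcongr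
    _ = (√(p : ℝ) * (2 * p)) / ((p : ℝ) - 1) ^ 2 := by ring
    _ ≤ 1 := by
        rw [div_le_one hpos]
        refine le_of_sq_le_sq ?_ hpos.le
        rw [mul_pow, Real.sq_sqrt (by linarith)]
        have h4 : 0 ≤ ((p : ℝ) - 11) := by linarith
        nlinarith [mul_nonneg h4 h4, mul_nonneg (mul_nonneg h4 h4) h4,
          mul_nonneg (mul_nonneg (mul_nonneg h4 h4) h4) h4]

theorem oF_le (r : ℕ) (hr : Squarefree r) : oF r ≤ 4 := by
  have h1 : oF r = ∏ p ∈ r.primeFactors, oF p := by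
    conv_lhs => rw [← Nat.prod_primeFactors_of_squarefree hr]
    exact (oF_mult.map_prod_of_subset_primeFactors r _ (Subset.refl _))
  rw [h1]
  have h2 : ∏ p ∈ r.primeFactors, oF p ≤
      ∏ p ∈ r.primeFactors, (if p = 5 ∨ p = 7 then (2 : ℝ) else 1) := by
    refine prod_le_prod (fun p _ => ?_) fun p hp => oF_prime p (Nat.prime_of_mem_primeFactors hp)
    rw [oF_apply]
    exact mul_nonneg (Real.sqrt_nonneg _) (oD_nonneg p)
  refine h2.trans ?_
  rw [← prod_filter, prod_const]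
  have h3 : (r.primeFactors.filter fun p => p = 5 ∨ p = 7).card ≤ 2 := by
    have : (r.primeFactors.filter fun p => p = 5 ∨ p = 7) ⊆ {5, 7} := by
      intro p hp
      rcases (mem_filter.1 hp).2 with h | h <;> simp [h]
    exact (card_le_card this).trans (by simp)
  calc (2 : ℝ) ^ (r.primeFactors.filter fun p => p = 5 ∨ p = 7).card ≤ 2 ^ 2 :=
        pow_le_pow_right₀ (by norm_num) h3
    _ = 4 := by norm_num

/-- `y < r` for the relevant `r` -/
theorem or_lt (y r : ℕ) (hr : Squarefree r) (h : ¬ r ∣ Wy y) : y < r := by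
  by_contra hlt
  push Not at hlt
  apply h
  rw [← Nat.prod_primeFactors_of_squarefree hr]
  unfold Wy
  refine prod_dvd_prod_of_subset _ _ _ fun p hp => ?_
  have h1 := Nat.prime_of_mem_primeFactors hp
  have h2 := Nat.le_of_mem_primeFactors hp
  exact mem_filter.2 ⟨mem_Icc.2 ⟨h1.one_lt.le, by omega⟩, h1⟩

/-- the tail of `∑ r^(-3/2)` -/
theorem or_tail (y Q : ℕ) (hy : 1 ≤ y) (hQ : y ≤ Q) :
    ∑ r ∈ Ioc y Q, 1 / ((r : ℝ) * √(r : ℝ)) ≤ 2 * (1 / √(y : ℝ) - 1 / √(Q : ℝ)) := by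
  induction Q, hQ using Nat.le_induction with
  | base => simp
  | succ Q hQ ih =>
    rw [← Finset.insert_Ioc_right_eq_Ioc_add_one hQ, sum_insert (by simp)]
    have hQ1 : (1 : ℝ) ≤ Q := by exact_mod_cast hy.trans hQ
    set a := √(Q : ℝ) with ha
    set b := √((Q + 1 : ℕ) : ℝ) with hb
    have ha0 : 0 < a := Real.sqrt_pos.2 (by linarith)
    have hb0 : 0 < b := Real.sqrt_pos.2 (by positivity)
    have ha2 : a ^ 2 = Q := Real.sq_sqrt (by linarith)
    have hb2 : b ^ 2 = Q + 1 := by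
      rw [hb, Real.sq_sqrt (by positivity)]
      push_cast
      ring
    have hab : a ≤ b := Real.sqrt_le_sqrt (by push_cast; linarith)
    have h1 : 1 / (((Q + 1 : ℕ) : ℝ) * b) ≤ 2 * (1 / a - 1 / b) := by
      have e1 : ((Q + 1 : ℕ) : ℝ) = b ^ 2 := by rw [hb2]; push_cast; ring
      have e2 : 2 * (1 / a - 1 / b) = 2 * (b - a) / (a * b) := by
        field_simp
      have e3 : (b - a) * (b + a) = 1 := by nlinarith
      rw [e1, e2, div_le_div_iff₀ (by positivity) (by positivity), one_mul]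
      have h3 : 0 ≤ b - a := by linarith
      calc a * b = a * b * ((b - a) * (b + a)) := by rw [e3, mul_one]
        _ ≤ 2 * (b - a) * (b ^ 2 * b) := by
            have : a * (b + a) ≤ 2 * b ^ 2 := by nlinarith
            nlinarith [mul_nonneg h3 hb0.le, mul_le_mul_of_nonneg_left this
              (mul_nonneg h3 hb0.le)]
    linarith

theorem or_diag (r X : ℕ) (hr : Squarefree r) :
    ∑ k ∈ Icc 1 X, ar r k * ar r k ≤ 4 * X * (1 / ((r : ℝ) * √(r : ℝ))) + r := by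
  have hr0 : 0 < r := Nat.pos_of_ne_zero hr.ne_zero
  have hr1 : (0 : ℝ) < r := by exact_mod_cast hr0
  have hs : 0 < √(r : ℝ) := Real.sqrt_pos.2 hr1
  have h := or_main (fun k => ar r k * ar r k) r hr0
    (fun m => by simp only [or_ar_per r r m dvd_rfl])
    (fun m => by
      have := ar_abs r m
      rw [abs_mul]
      nlinarith [abs_nonneg (ar r m)]) X
  have h1 := (abs_le.1 h).2
  have h2 : ∑ k ∈ range r, ar r k * ar r k = oD r :=
    sum_congr rfl fun k _ => (sq (ar r k)).symm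
  simp only [h2] at h1
  have h3 : oD r ≤ 4 / √(r : ℝ) := by
    rw [le_div_iff₀ hs, mul_comm]
    exact oF_le r hr
  have h4 : ((X / r : ℕ) : ℝ) ≤ X / r := Nat.cast_div_le
  have h5 : ((X / r : ℕ) : ℝ) * oD r ≤ X / r * (4 / √(r : ℝ)) :=
    mul_le_mul h4 h3 (oD_nonneg r) (by positivity)
  have h6 : (X : ℝ) / r * (4 / √(r : ℝ)) = 4 * X * (1 / ((r : ℝ) * √(r : ℝ))) := by
    field_simp
  linarith

theorem or_off (r r' X : ℕ) (hr : Squarefree r) (hr' : Squarefree r') (hne : r ≠ r') :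
    ∑ k ∈ Icc 1 X, ar r k * ar r' k ≤ (r : ℝ) * r' := by
  have hr0 : 0 < r := Nat.pos_of_ne_zero hr.ne_zero
  have hr0' : 0 < r' := Nat.pos_of_ne_zero hr'.ne_zero
  have h := or_main (fun k => ar r k * ar r' k) (r * r') (Nat.mul_pos hr0 hr0')
    (fun m => by
      simp only [or_ar_per r (r * r') m (dvd_mul_right _ _),
        or_ar_per r' (r * r') m (dvd_mul_left _ _)])
    (fun m => by
      have h1 := ar_abs r m
      have h2 := ar_abs r' m
      rw [abs_mul]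
      exact mul_le_one₀ h1 (abs_nonneg _) h2) X
  rw [or_orth r r' hr hr' hne, mul_zero, sub_zero] at h
  have := (abs_le.1 h).2
  push_cast at this
  exact this

theorem orth (y Q X : ℕ) (hy : 1 ≤ y) (hQ : 1 ≤ Q) :
    ∑ k ∈ Icc 1 X, (∑ r ∈ (Icc 1 Q).filter (fun r => ¬ r ∣ Wy y), ar r k) ^ 2 ≤
      50 * X * (y : ℝ) ^ (-(1 : ℝ) / 2) + 2 * (Q : ℝ) ^ 4 := by
  classical
  set R := ((Icc 1 Q).filter (fun r => ¬ r ∣ Wy y)).filter Squarefree with hR
  have hRQ : ∀ r ∈ R, r ≤ Q := fun r hr =>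
    (mem_Icc.1 (mem_filter.1 (mem_filter.1 hr).1).1).2
  have hRs : ∀ r ∈ R, Squarefree r := fun r hr => (mem_filter.1 hr).2
  have hRy : ∀ r ∈ R, y < r := fun r hr =>
    or_lt y r (hRs r hr) (mem_filter.1 (mem_filter.1 hr).1).2
  have hcard : (R.card : ℝ) ≤ Q := by
    have h1 : R.card ≤ (Icc 1 Q).card :=
      (card_le_card (filter_subset _ _)).trans (card_le_card (filter_subset _ _))
    rw [Nat.card_Icc, Nat.add_sub_cancel] at h1
    exact_mod_cast h1
  have hQ1 : (1 : ℝ) ≤ Q := by exact_mod_cast hQ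
  have hy1 : (1 : ℝ) ≤ y := by exact_mod_cast hy
  have e1 : ∀ k, ∑ r ∈ (Icc 1 Q).filter (fun r => ¬ r ∣ Wy y), ar r k = ∑ r ∈ R, ar r k := by
    intro k
    refine (sum_filter_of_ne fun r _ hne => ?_).symm
    by_contra hns
    exact hne (ar_sqf r k hns)
  have e2 : ∑ k ∈ Icc 1 X, (∑ r ∈ (Icc 1 Q).filter (fun r => ¬ r ∣ Wy y), ar r k) ^ 2 =
      ∑ r ∈ R, ∑ r' ∈ R, ∑ k ∈ Icc 1 X, ar r k * ar r' k := by
    rw [sum_congr rfl fun k _ => by rw [e1 k, sq, sum_mul_sum], sum_comm]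
    refine sum_congr rfl fun r _ => ?_
    rw [sum_comm]
  rw [e2]
  have h1 : ∀ r ∈ R, ∑ r' ∈ R, ∑ k ∈ Icc 1 X, ar r k * ar r' k ≤
      4 * X * (1 / ((r : ℝ) * √(r : ℝ))) + Q + (Q : ℝ) ^ 3 := by
    intro r hr
    rw [← add_sum_erase R _ hr]
    have hrQ : (r : ℝ) ≤ Q := by exact_mod_cast hRQ r hr
    have h2 : ∑ r' ∈ R.erase r, ∑ k ∈ Icc 1 X, ar r k * ar r' k ≤ (Q : ℝ) ^ 3 := by
      calc ∑ r' ∈ R.erase r, ∑ k ∈ Icc 1 X, ar r k * ar r' k
          ≤ ∑ r' ∈ R.erase r, (Q : ℝ) * Q := by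
            refine sum_le_sum fun r' hr' => ?_
            have h3 := mem_erase.1 hr'
            have hr'Q : (r' : ℝ) ≤ Q := by exact_mod_cast hRQ r' h3.2
            refine (or_off r r' X (hRs r hr) (hRs r' h3.2) h3.1.symm).trans ?_
            gcongr
        _ = ((R.erase r).card : ℝ) * (Q * Q) := by rw [sum_const, nsmul_eq_mul]
        _ ≤ Q * (Q * Q) := by
            have h4 : ((R.erase r).card : ℝ) ≤ Q :=
              le_trans (by exact_mod_cast card_erase_le) hcard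
            gcongr
        _ = (Q : ℝ) ^ 3 := by ring
    have h5 := or_diag r X (hRs r hr)
    linarith
  refine (sum_le_sum h1).trans ?_
  rw [sum_add_distrib, sum_add_distrib, sum_const, sum_const, nsmul_eq_mul, nsmul_eq_mul,
    ← mul_sum]
  have h6 : ∑ r ∈ R, 1 / ((r : ℝ) * √(r : ℝ)) ≤ 2 * (1 / √(y : ℝ)) := by
    rcases Nat.lt_or_ge Q y with hlt | hge
    · have : R = ∅ := by
        rw [eq_empty_iff_forall_notMem]
        intro r hr
        have := hRQ r hr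
        have := hRy r hr
        omega
      rw [this, sum_empty]
      positivity
    · have hsub : R ⊆ Ioc y Q := fun r hr => mem_Ioc.2 ⟨hRy r hr, hRQ r hr⟩
      refine (sum_le_sum_of_subset_of_nonneg hsub fun r _ _ => by positivity).trans ?_
      refine (or_tail y Q hy hge).trans ?_
      have : 0 ≤ 1 / √(Q : ℝ) := by positivity
      linarith
  have h7 : (y : ℝ) ^ (-(1 : ℝ) / 2) = 1 / √(y : ℝ) := by
    rw [Real.sqrt_eq_rpow, neg_div, Real.rpow_neg (by linarith), one_div ((y : ℝ) ^ _)]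
  rw [h7]
  have hX : (0 : ℝ) ≤ X := Nat.cast_nonneg _
  have h8 : 0 ≤ 1 / √(y : ℝ) := by positivity
  have h9 : 4 * (X : ℝ) * ∑ r ∈ R, 1 / ((r : ℝ) * √(r : ℝ)) ≤ 50 * X * (1 / √(y : ℝ)) := by
    have := mul_le_mul_of_nonneg_left h6 (by positivity : (0 : ℝ) ≤ 4 * X)
    nlinarith [mul_nonneg hX h8]
  have h10 : (R.card : ℝ) * Q ≤ (Q : ℝ) ^ 4 := by
    calc (R.card : ℝ) * Q ≤ Q * Q := by gcongr
      _ = (Q : ℝ) ^ 2 := by ring
      _ ≤ (Q : ℝ) ^ 4 := pow_le_pow_right₀ hQ1 (by norm_num)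
  have h11 : (R.card : ℝ) * (Q : ℝ) ^ 3 ≤ (Q : ℝ) ^ 4 := by
    calc (R.card : ℝ) * (Q : ℝ) ^ 3 ≤ Q * (Q : ℝ) ^ 3 := by gcongr
      _ = (Q : ℝ) ^ 4 := by ring
  linarith

end Pool.Agent.H43.TP
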