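import Pool.Agent.H43.TP.Plg

/-!
# [H43 TP GAL] Gallagher's lemma on an arc around `b/q`

PROOF. Let `a'(n) = a(n) e(n b/q)` for `1 <= n <= L`, `0` otherwise, and `T(x) = Σ_{j<h} a'(x-j)`, `x ∈ [1, L+h]` (this is
the window sum `(x-h, x]`; `x - h` is truncated, which is harmless since `a'(n) = 0` for `n <= 0`). For real `β`:
`Σ_x T(x) e(xβ) = (Σ_n a'(n) e(nβ)) (Σ_{j<h} e(jβ))`, and with `β = α - b/q`: `Σ_n a'(n) e(nβ) = Ex a L α`.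
If `|β - i| <= 1/(6h)` for an integer `i` then (`e` is 1-periodic) `Re e(jβ) = cos(2πj(β-i)) >= 1/2` for `0 <= j < h`
(`2πj|β-i| <= π/3`), so `|Σ_{j<h} e(jβ)| >= h/2`. Hence `(h^2/4) ‖Ex a L α‖^2 <= ‖Σ_x T(x) e(xβ)‖^2` for `α = al N t`,
`t ∈ E`; sum over ALL `t ∈ ZMod N`: `Σ_x T(x) e(x(α - b/q)) = Σ_x (T(x) e(-x b/q)) e(xα)`, `LDP.parseval`
(length `L + h + 1 <= N`): `= N Σ_x ‖T(x)‖^2`.
-/

namespace Pool.Agent.H43.TP

open Finset Pool.Agent.H26.LDP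

theorem gal_re (x : ℝ) : (e x).re = Real.cos (2 * Real.pi * x) := by
  unfold e
  have h1 : (2 * Real.pi * Complex.I * x : ℂ) = ((2 * Real.pi * x : ℝ) : ℂ) * Complex.I := by
    push_cast
    ring
  rw [h1, Complex.exp_ofReal_mul_I_re]

/-- the kernel is large near the integers -/
theorem gal_ker (h : ℕ) (hh : 1 ≤ h) (β : ℝ) (i : ℤ) (hβ : |β - i| ≤ 1 / (6 * h)) :
    (h : ℝ) / 2 ≤ ‖∑ j ∈ range h, e ((j : ℝ) * β)‖ := by
  have hhR : (1 : ℝ) ≤ h := by exact_mod_cast hh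
  have h1 : ∀ j ∈ range h, (1 : ℝ) / 2 ≤ (e ((j : ℝ) * β)).re := by
    intro j hj
    rw [mem_range] at hj
    have hjR : (j : ℝ) ≤ h := by exact_mod_cast hj.le
    have h2 : (j : ℝ) * β = (j : ℝ) * (β - i) + ((j * i : ℤ) : ℝ) := by
      push_cast
      ring
    rw [h2, e_add_int, gal_re, ← Real.cos_abs]
    have h3 : |2 * Real.pi * ((j : ℝ) * (β - i))| ≤ Real.pi / 3 := by
      rw [abs_mul, abs_mul, abs_mul, abs_of_pos Real.pi_pos, abs_of_nonneg (Nat.cast_nonneg j : (0 : ℝ) ≤ (j : ℝ))]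
      have h4 : (j : ℝ) * |β - i| ≤ h * (1 / (6 * h)) :=
        mul_le_mul hjR hβ (abs_nonneg _) (by positivity)
      have h5 : (h : ℝ) * (1 / (6 * h)) = 1 / 6 := by field_simp
      rw [h5] at h4
      have h6 := Real.pi_pos
      have h7 : |(2 : ℝ)| = 2 := abs_of_pos (by norm_num)
      rw [h7]
      nlinarith
    rw [← Real.cos_pi_div_three]
    exact Real.cos_le_cos_of_nonneg_of_le_pi (abs_nonneg _) (by linarith [Real.pi_pos]) h3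
  calc (h : ℝ) / 2 = ∑ j ∈ range h, (1 : ℝ) / 2 := by
        rw [sum_const, card_range, nsmul_eq_mul]
        ring
    _ ≤ ∑ j ∈ range h, (e ((j : ℝ) * β)).re := sum_le_sum h1
    _ = (∑ j ∈ range h, e ((j : ℝ) * β)).re := by rw [Complex.re_sum]
    _ ≤ |(∑ j ∈ range h, e ((j : ℝ) * β)).re| := le_abs_self _
    _ ≤ _ := Complex.abs_re_le_norm _

/-- the windows as a convolution -/
theorem gal_conv (g : ℕ → ℂ) (L h : ℕ) (hh : 1 ≤ h) (β : ℝ) :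
    ∑ x ∈ Icc 1 (L + h), (∑ n ∈ (Ioc (x - h) x).filter (fun n => n ≤ L), g n) * e ((x : ℝ) * β) =
      (∑ n ∈ Icc 1 L, g n * e ((n : ℝ) * β)) * ∑ j ∈ range h, e ((j : ℝ) * β) := by
  simp only [sum_mul]
  rw [sum_comm' (t' := Icc 1 L) (s' := fun n => Ico n (n + h))]
  · refine sum_congr rfl fun n _ => ?_
    rw [sum_Ico_eq_sum_range, Nat.add_sub_cancel_left, mul_sum]
    refine sum_congr rfl fun j _ => ?_
    rw [mul_assoc, ← e_add]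
    congr 2
    push_cast
    ring
  · intro x n
    rw [mem_Icc, mem_filter, mem_Ioc, mem_Icc, mem_Ico]
    omega

theorem gal (a : ℕ → ℂ) (L N q b h : ℕ) [NeZero N] (hq : 1 ≤ q) (hh : 1 ≤ h) (hN : L + h + 1 ≤ N)
    (E : Finset (ZMod N)) (hE : ∀ t ∈ E, ∃ i : ℤ, |al N t - (b : ℝ) / q - i| ≤ 1 / (6 * h)) :
    (h : ℝ) ^ 2 * ∑ t ∈ E, ‖Ex a L (al N t)‖ ^ 2 ≤
      4 * N * ∑ x ∈ Icc 1 (L + h), ‖∑ n ∈ (Ioc (x - h) x).filter (fun n => n ≤ L),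
        a n * e ((n : ℝ) * ((b : ℝ) / q))‖ ^ 2 := by
  have hhR : (1 : ℝ) ≤ h := by exact_mod_cast hh
  obtain ⟨g, hg⟩ : ∃ g : ℕ → ℂ, g = fun n => a n * e ((n : ℝ) * ((b : ℝ) / q)) := ⟨_, rfl⟩
  obtain ⟨T, hT⟩ : ∃ T : ℕ → ℂ, T = fun x => ∑ n ∈ (Ioc (x - h) x).filter (fun n => n ≤ L), g n :=
    ⟨_, rfl⟩
  obtain ⟨A, hA⟩ : ∃ A : ℕ → ℂ, A = fun x => T x * e (-((x : ℝ) * ((b : ℝ) / q))) := ⟨_, rfl⟩
  have hpl := plsq A (L + h) N hN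
  have hnorm : ∀ x, ‖A x‖ = ‖T x‖ := by
    intro x
    rw [hA]
    dsimp only
    rw [norm_mul, norm_e, mul_one]
  have hEx : ∀ α : ℝ, Ex A (L + h) α =
      Ex a L α * ∑ j ∈ range h, e ((j : ℝ) * (α - (b : ℝ) / q)) := by
    intro α
    have h1 := gal_conv g L h hh (α - (b : ℝ) / q)
    have h2 : ∑ n ∈ Icc 1 L, g n * e ((n : ℝ) * (α - (b : ℝ) / q)) = Ex a L α := by
      unfold Ex
      refine sum_congr rfl fun n _ => ?_
      rw [hg]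
      dsimp only
      rw [mul_assoc, ← e_add]
      congr 2
      ring
    rw [h2] at h1
    rw [← h1]
    unfold Ex
    refine sum_congr rfl fun x _ => ?_
    rw [hA, hT]
    dsimp only
    rw [mul_assoc, ← e_add]
    congr 2
    ring
  have hlow : ∀ t ∈ E, (h : ℝ) ^ 2 * ‖Ex a L (al N t)‖ ^ 2 ≤
      4 * ‖Ex A (L + h) (al N t)‖ ^ 2 := by
    intro t ht
    obtain ⟨i, hi⟩ := hE t ht
    have h1 := gal_ker h hh (al N t - (b : ℝ) / q) i hi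
    rw [hEx, norm_mul, mul_pow]
    have h2 : ((h : ℝ) / 2) ^ 2 ≤ ‖∑ j ∈ range h, e ((j : ℝ) * (al N t - (b : ℝ) / q))‖ ^ 2 :=
      pow_le_pow_left₀ (by positivity) h1 2
    have h3 := mul_le_mul_of_nonneg_left h2 (sq_nonneg ‖Ex a L (al N t)‖)
    nlinarith
  calc (h : ℝ) ^ 2 * ∑ t ∈ E, ‖Ex a L (al N t)‖ ^ 2
      = ∑ t ∈ E, (h : ℝ) ^ 2 * ‖Ex a L (al N t)‖ ^ 2 := mul_sum _ _ _
    _ ≤ ∑ t ∈ E, 4 * ‖Ex A (L + h) (al N t)‖ ^ 2 := sum_le_sum hlow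
    _ ≤ ∑ t : ZMod N, 4 * ‖Ex A (L + h) (al N t)‖ ^ 2 :=
        sum_le_sum_of_subset_of_nonneg (subset_univ _) fun _ _ _ => by positivity
    _ = 4 * N * ∑ x ∈ Icc 1 (L + h), ‖T x‖ ^ 2 := by
        rw [← mul_sum, hpl]
        simp only [hnorm]
        ring
    _ = _ := by rw [hT, hg]

end Pool.Agent.H43.TP
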