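import Pool.Agent.H26.LDP.Weyl
import Pool.Agent.H43.TP.Gal

/-!
# [H43 TP TRA] Transfer theorem: cubic averages from residue classes in short windows

PROOF. `N = 4X + h + 10` (any `N >= 2X+h+1`, `>= 3X+1`). `E` = the `t` with `‖C M (al N t)‖ >= κ M`. By `plg` the left side
is at most `(1/N) Σ_t ‖Ex‖^2 ‖C‖^2`; the `t ∉ E` contribute at most `κ^2 M^2 (1/N) Σ_t ‖Ex‖^2 = κ^2 M^2 Σ ‖a n‖^2`
(`plsq`). For `t ∈ E`, `‖C‖ <= M` and `LDP.weyl` gives `1 <= q <= Q` with `nn(q al) <= (2^64/κ^24)/M^3 <= Q/M^3`, so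
`|al - c/q| <= Q/(q M^3) <= Q/M^3 <= 1/(6h)` for the integer `c = round(q al)`; writing `c = b + q i`, `0 <= b < q`:
`|al - b/q - i| <= 1/(6h)`. So `E ⊆ ∪_{q<=Q} ∪_{b<q} E_{q,b}` and by `gal`
`Σ_{t∈E} ‖Ex‖^2 <= Σ_q Σ_b (4N/h^2) Σ_x ‖Σ_{n in window} a(n) e(nb/q)‖^2`. Split the window sum into the classes
`n % q = c` (`e(nb/q)` depends only on the class): by Cauchy-Schwarz `‖..‖^2 <= q Σ_c ‖Σ_{n%q=c} a(n)‖^2`, so the sum over
`x` is `<= q * q * V <= Q^2 V`. Total `M^2 Q^2 (4/h^2) Q^2 V`. (If `M = 0` everything is `0`.)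
-/

namespace Pool.Agent.H43.TP

open Finset Pool.Agent.H26.LDP

/-- splitting into residue classes -/
theorem tra_split (a : ℕ → ℂ) (s : Finset ℕ) (q b : ℕ) (hq : 1 ≤ q) :
    ‖∑ n ∈ s, a n * e ((n : ℝ) * ((b : ℝ) / q))‖ ^ 2 ≤
      q * ∑ c ∈ range q, ‖∑ n ∈ s.filter (fun n => n % q = c), a n‖ ^ 2 := by
  have hqR : (q : ℝ) ≠ 0 := by
    have : q ≠ 0 := by omega
    exact_mod_cast this
  have h1 : ∑ n ∈ s, a n * e ((n : ℝ) * ((b : ℝ) / q)) =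
      ∑ c ∈ range q, (∑ n ∈ s.filter (fun n => n % q = c), a n) * e ((c : ℝ) * ((b : ℝ) / q)) := by
    rw [← sum_fiberwise_of_maps_to (t := range q) (g := fun n => n % q)
      (fun n _ => mem_range.2 (Nat.mod_lt n (by omega)))]
    refine sum_congr rfl fun c _ => ?_
    rw [sum_mul]
    refine sum_congr rfl fun n hn => ?_
    rw [mem_filter] at hn
    congr 1
    have h2 : (n : ℝ) = (c : ℝ) + q * ((n / q : ℕ) : ℝ) := by
      have h3 : n = c + q * (n / q) := by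
        rw [← hn.2]
        exact (Nat.mod_add_div n q).symm
      exact_mod_cast h3
    have h4 : (n : ℝ) * ((b : ℝ) / q) = (c : ℝ) * ((b : ℝ) / q) + (((n / q * b : ℕ) : ℤ) : ℝ) := by
      rw [Int.cast_natCast, Nat.cast_mul]
      obtain ⟨y, hy⟩ : ∃ y : ℝ, y = ((n / q : ℕ) : ℝ) := ⟨_, rfl⟩
      rw [← hy] at h2 ⊢
      rw [h2]
      field_simp
    rw [h4, e_add_int]
  rw [h1]
  have h5 : ‖∑ c ∈ range q, (∑ n ∈ s.filter (fun n => n % q = c), a n) *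
      e ((c : ℝ) * ((b : ℝ) / q))‖ ≤ ∑ c ∈ range q, ‖∑ n ∈ s.filter (fun n => n % q = c), a n‖ := by
    refine (norm_sum_le _ _).trans (le_of_eq ?_)
    refine sum_congr rfl fun c _ => ?_
    rw [norm_mul, norm_e, mul_one]
  have h6 := sq_sum_le_card_mul_sum_sq (s := range q)
    (f := fun c => ‖∑ n ∈ s.filter (fun n => n % q = c), a n‖)
  rw [card_range] at h6
  exact (pow_le_pow_left₀ (norm_nonneg _) h5 2).trans h6

theorem tra (a : ℕ → ℂ) (M X Q h : ℕ) (κ V : ℝ) (hM : M ^ 3 ≤ X) (hκ : 0 < κ) (hκ1 : κ ≤ 1)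
    (hκM : 2 ^ 24 ≤ κ ^ 9 * (M : ℝ)) (hQ : 2 ^ 64 / κ ^ 24 ≤ (Q : ℝ)) (hh : 1 ≤ h)
    (hhQ : 6 * h * Q ≤ M ^ 3)
    (hV : ∀ q c : ℕ, 1 ≤ q → q ≤ Q → c < q →
      ∑ x ∈ Icc 1 (2 * X + h), ‖∑ n ∈ (Ioc (x - h) x).filter (fun n => n ≤ 2 * X ∧ n % q = c),
        a n‖ ^ 2 ≤ V) :
    ∑ k ∈ Icc 1 X, ‖∑ m ∈ Icc 1 M, a (m ^ 3 + k)‖ ^ 2 ≤
      κ ^ 2 * (M : ℝ) ^ 2 * ∑ n ∈ Icc 1 (2 * X), ‖a n‖ ^ 2 +
        4 * (M : ℝ) ^ 2 * (Q : ℝ) ^ 4 * V / (h : ℝ) ^ 2 := by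
  have hQ1 : (1 : ℝ) ≤ Q := by
    refine le_trans ?_ hQ
    rw [le_div_iff₀ (by positivity), one_mul]
    calc κ ^ 24 ≤ 1 := pow_le_one₀ hκ.le hκ1
      _ ≤ 2 ^ 64 := by norm_num
  have hQ1' : 1 ≤ Q := by exact_mod_cast hQ1
  have hM0 : (0 : ℝ) < M := by
    by_contra hcon
    have : (M : ℝ) = 0 := le_antisymm (not_lt.mp hcon) (Nat.cast_nonneg M)
    rw [this] at hκM
    norm_num at hκM
  have hhR : (1 : ℝ) ≤ h := by exact_mod_cast hh
  have hV0 : 0 ≤ V := by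
    refine le_trans ?_ (hV 1 0 le_rfl hQ1' one_pos)
    exact sum_nonneg fun _ _ => by positivity
  obtain ⟨N, hN⟩ : ∃ N : ℕ, N = 4 * X + h + 10 := ⟨_, rfl⟩
  have hNz : NeZero N := ⟨by omega⟩
  have hNR : (0 : ℝ) < N := by
    have : 0 < N := by omega
    exact_mod_cast this
  have hplg := plg a M X N hM (by omega)
  have hplsq := plsq a (2 * X) N (by omega)
  obtain ⟨w, hw⟩ : ∃ w : ZMod N → ℝ, w = fun t => ‖Ex a (2 * X) (al N t)‖ ^ 2 := ⟨_, rfl⟩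
  have hw0 : ∀ t, 0 ≤ w t := by
    intro t
    rw [hw]
    positivity
  have hwE : ∀ t, ‖Ex a (2 * X) (al N t)‖ ^ 2 = w t := fun t => by rw [hw]
  simp only [hwE] at hplg hplsq
  -- the arcs
  obtain ⟨Eq, hEq⟩ : ∃ Eq : ℕ → ℕ → Finset (ZMod N), ∀ q b t, t ∈ Eq q b ↔
      ∃ i : ℤ, |al N t - (b : ℝ) / q - i| ≤ 1 / (6 * h) := by
    classical
    refine ⟨fun q b => univ.filter fun t => ∃ i : ℤ, |al N t - (b : ℝ) / q - i| ≤ 1 / (6 * h),
      fun q b t => ?_⟩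
    rw [mem_filter]
    exact ⟨fun h => h.2, fun h => ⟨mem_univ _, h⟩⟩
  have hgal : ∀ q b : ℕ, 1 ≤ q → q ≤ Q →
      (h : ℝ) ^ 2 * ∑ t ∈ Eq q b, w t ≤ 4 * N * ((Q : ℝ) ^ 2 * V) := by
    intro q b hq hqQ
    have h1 := gal a (2 * X) N q b h hq hh (by omega) (Eq q b) (fun t ht => (hEq q b t).1 ht)
    simp only [hwE] at h1
    refine h1.trans ?_
    refine mul_le_mul_of_nonneg_left ?_ (by positivity)
    have hqR : (q : ℝ) ≤ Q := by exact_mod_cast hqQ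
    calc ∑ x ∈ Icc 1 (2 * X + h), ‖∑ n ∈ (Ioc (x - h) x).filter (fun n => n ≤ 2 * X),
          a n * e ((n : ℝ) * ((b : ℝ) / q))‖ ^ 2
        ≤ ∑ x ∈ Icc 1 (2 * X + h), q * ∑ c ∈ range q,
          ‖∑ n ∈ (Ioc (x - h) x).filter (fun n => n ≤ 2 * X ∧ n % q = c), a n‖ ^ 2 := by
          refine sum_le_sum fun x _ => ?_
          have h2 := tra_split a ((Ioc (x - h) x).filter (fun n => n ≤ 2 * X)) q b hq
          simp only [filter_filter] at h2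
          exact h2
      _ = q * ∑ c ∈ range q, ∑ x ∈ Icc 1 (2 * X + h),
          ‖∑ n ∈ (Ioc (x - h) x).filter (fun n => n ≤ 2 * X ∧ n % q = c), a n‖ ^ 2 := by
          rw [← mul_sum, sum_comm]
      _ ≤ q * ∑ _c ∈ range q, V := by
          refine mul_le_mul_of_nonneg_left ?_ (Nat.cast_nonneg q)
          exact sum_le_sum fun c hc => hV q c hq hqQ (mem_range.1 hc)
      _ = (q : ℝ) * q * V := by
          rw [sum_const, card_range, nsmul_eq_mul]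
          ring
      _ ≤ (Q : ℝ) ^ 2 * V := by
          refine mul_le_mul_of_nonneg_right ?_ hV0
          rw [sq]
          exact mul_le_mul hqR hqR (Nat.cast_nonneg q) (by linarith)
  -- the major arcs
  have hmaj : ∀ t : ZMod N, κ * M ≤ ‖C M (al N t)‖ → ∃ q ∈ Icc 1 Q, ∃ b ∈ range q, t ∈ Eq q b := by
    intro t ht
    obtain ⟨q, hq1, hq2, hq3⟩ := weyl M (al N t) κ hκ hκ1 hκM ht
    have hqQ : q ≤ Q := by exact_mod_cast hq2.trans hQ
    have hqR : (1 : ℝ) ≤ q := by exact_mod_cast hq1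
    refine ⟨q, mem_Icc.2 ⟨hq1, hqQ⟩, ?_⟩
    obtain ⟨c, hc⟩ : ∃ c : ℤ, c = round ((q : ℝ) * al N t) := ⟨_, rfl⟩
    have hqz : (q : ℤ) ≠ 0 := by omega
    have hq0 : (0 : ℤ) < q := by omega
    have hmod0 : 0 ≤ c % q := Int.emod_nonneg _ hqz
    have hmod1 : c % q < q := Int.emod_lt_of_pos _ hq0
    refine ⟨(c % q).toNat, mem_range.2 (by omega), (hEq _ _ t).2 ⟨c / q, ?_⟩⟩
    have hnn : |(q : ℝ) * al N t - c| ≤ (Q : ℝ) / (M : ℝ) ^ 3 := by
      rw [hc]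
      refine hq3.trans ?_
      exact div_le_div_of_nonneg_right hQ (by positivity)
    have hcast : (((c % q).toNat : ℕ) : ℝ) = ((c % q : ℤ) : ℝ) := by
      have : (((c % q).toNat : ℕ) : ℤ) = c % q := Int.toNat_of_nonneg hmod0
      exact_mod_cast congrArg (Int.cast : ℤ → ℝ) this
    have hdm : ((c % q : ℤ) : ℝ) = (c : ℝ) - q * ((c / q : ℤ) : ℝ) := by
      have : c % q = c - q * (c / q) := by
        have := Int.emod_add_mul_ediv c q
        linarith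
      rw [this]
      push_cast
      ring
    have heq : al N t - (((c % q).toNat : ℕ) : ℝ) / q - ((c / q : ℤ) : ℝ) =
        ((q : ℝ) * al N t - c) / q := by
      rw [hcast, hdm]
      field_simp
      ring
    rw [heq, abs_div, abs_of_pos (by linarith : (0 : ℝ) < q)]
    have h1 : (Q : ℝ) / (M : ℝ) ^ 3 ≤ 1 / (6 * h) := by
      rw [div_le_div_iff₀ (by positivity) (by positivity)]
      have h2 : (6 * h * Q : ℝ) ≤ (M : ℝ) ^ 3 := by exact_mod_cast hhQ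
      linarith
    refine le_trans ?_ (hnn.trans h1)
    exact div_le_self (abs_nonneg _) hqR
  have hEsum : ∑ t ∈ univ.filter (fun t : ZMod N => κ * M ≤ ‖C M (al N t)‖), w t ≤
      ∑ q ∈ Icc 1 Q, ∑ b ∈ range q, ∑ t ∈ Eq q b, w t := by
    classical
    have h1 : ∀ t ∈ univ.filter (fun t : ZMod N => κ * M ≤ ‖C M (al N t)‖),
        w t ≤ ∑ q ∈ Icc 1 Q, ∑ b ∈ range q, if t ∈ Eq q b then w t else 0 := by
      intro t ht
      obtain ⟨q, hq, b, hb, htb⟩ := hmaj t (mem_filter.1 ht).2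
      have h2 : ∑ b ∈ range q, (if t ∈ Eq q b then w t else 0) ≤
          ∑ q ∈ Icc 1 Q, ∑ b ∈ range q, if t ∈ Eq q b then w t else 0 := by
        refine single_le_sum (f := fun q => ∑ b ∈ range q, if t ∈ Eq q b then w t else 0) ?_ hq
        intro q _
        refine sum_nonneg fun b _ => ?_
        split_ifs
        · exact hw0 t
        · exact le_rfl
      have h3 : (if t ∈ Eq q b then w t else 0) ≤ ∑ b ∈ range q, if t ∈ Eq q b then w t else 0 := by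
        refine single_le_sum (f := fun b => if t ∈ Eq q b then w t else 0) ?_ hb
        intro b _
        split_ifs
        · exact hw0 t
        · exact le_rfl
      rw [if_pos htb] at h3
      exact h3.trans h2
    refine (sum_le_sum h1).trans ?_
    rw [sum_comm]
    refine sum_le_sum fun q _ => ?_
    rw [sum_comm]
    refine sum_le_sum fun b _ => ?_
    rw [← sum_filter]
    refine sum_le_sum_of_subset_of_nonneg ?_ fun t _ _ => hw0 t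
    intro t ht
    exact (mem_filter.1 ht).2
  have hEbd : (h : ℝ) ^ 2 * ∑ t ∈ univ.filter (fun t : ZMod N => κ * M ≤ ‖C M (al N t)‖), w t ≤
      4 * N * (Q : ℝ) ^ 4 * V := by
    refine (mul_le_mul_of_nonneg_left hEsum (by positivity)).trans ?_
    rw [mul_sum]
    simp only [mul_sum (range _)]
    calc ∑ q ∈ Icc 1 Q, ∑ b ∈ range q, (h : ℝ) ^ 2 * ∑ t ∈ Eq q b, w t
        ≤ ∑ q ∈ Icc 1 Q, ∑ b ∈ range q, 4 * N * ((Q : ℝ) ^ 2 * V) := by
          refine sum_le_sum fun q hq => sum_le_sum fun b _ => ?_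
          rw [mem_Icc] at hq
          exact hgal q b hq.1 hq.2
      _ ≤ ∑ q ∈ Icc 1 Q, (Q : ℝ) * (4 * N * ((Q : ℝ) ^ 2 * V)) := by
          refine sum_le_sum fun q hq => ?_
          rw [sum_const, card_range, nsmul_eq_mul]
          rw [mem_Icc] at hq
          refine mul_le_mul_of_nonneg_right ?_ (by positivity)
          exact_mod_cast hq.2
      _ = 4 * N * (Q : ℝ) ^ 4 * V := by
          rw [sum_const, Nat.card_Icc, Nat.add_sub_cancel, nsmul_eq_mul]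
          ring
  have hh2 : (0 : ℝ) < (h : ℝ) ^ 2 := by positivity
  have hEbd' : ∑ t ∈ univ.filter (fun t : ZMod N => κ * M ≤ ‖C M (al N t)‖), w t ≤
      4 * N * (Q : ℝ) ^ 4 * V / (h : ℝ) ^ 2 := by
    rw [le_div_iff₀ hh2]
    linarith
  have hsplit : ∑ t : ZMod N, w t * ‖C M (al N t)‖ ^ 2 ≤
      κ ^ 2 * (M : ℝ) ^ 2 * ∑ t : ZMod N, w t +
        (M : ℝ) ^ 2 * ∑ t ∈ univ.filter (fun t : ZMod N => κ * M ≤ ‖C M (al N t)‖), w t := by
    rw [mul_sum, mul_sum, sum_filter, ← sum_add_distrib]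
    refine sum_le_sum fun t _ => ?_
    have hCM : ‖C M (al N t)‖ ^ 2 ≤ (M : ℝ) ^ 2 := pow_le_pow_left₀ (norm_nonneg _) (norm_C_le M _) 2
    split_ifs with hc
    · have h1 : w t * ‖C M (al N t)‖ ^ 2 ≤ w t * (M : ℝ) ^ 2 :=
        mul_le_mul_of_nonneg_left hCM (hw0 t)
      have h2 : 0 ≤ κ ^ 2 * (M : ℝ) ^ 2 * w t := by
        have := hw0 t
        positivity
      linarith
    · have h1 : ‖C M (al N t)‖ ^ 2 ≤ (κ * M) ^ 2 :=
        pow_le_pow_left₀ (norm_nonneg _) (not_le.1 hc).le 2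
      have h2 := mul_le_mul_of_nonneg_left h1 (hw0 t)
      rw [mul_pow] at h2
      linarith
  have hfin : (N : ℝ) * ∑ k ∈ Icc 1 X, ‖∑ m ∈ Icc 1 M, a (m ^ 3 + k)‖ ^ 2 ≤
      (N : ℝ) * (κ ^ 2 * (M : ℝ) ^ 2 * ∑ n ∈ Icc 1 (2 * X), ‖a n‖ ^ 2 +
        4 * (M : ℝ) ^ 2 * (Q : ℝ) ^ 4 * V / (h : ℝ) ^ 2) := by
    refine hplg.trans (hsplit.trans ?_)
    rw [hplsq]
    have h1 := mul_le_mul_of_nonneg_left hEbd' (by positivity : (0 : ℝ) ≤ (M : ℝ) ^ 2)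
    calc κ ^ 2 * (M : ℝ) ^ 2 * ((N : ℝ) * ∑ n ∈ Icc 1 (2 * X), ‖a n‖ ^ 2) +
        (M : ℝ) ^ 2 * ∑ t ∈ univ.filter (fun t : ZMod N => κ * M ≤ ‖C M (al N t)‖), w t
        ≤ κ ^ 2 * (M : ℝ) ^ 2 * ((N : ℝ) * ∑ n ∈ Icc 1 (2 * X), ‖a n‖ ^ 2) +
          (M : ℝ) ^ 2 * (4 * N * (Q : ℝ) ^ 4 * V / (h : ℝ) ^ 2) := by linarith
      _ = _ := by
        field_simp
  exact le_of_mul_le_mul_left hfin hNR

end Pool.Agent.H43.TP
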