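import Pool.Agent.H43.TP.Ram
import Pool.Agent.H26.LDP.Diff

/-!
# [H43 TP L2M] Mean square of the local model

PROOF. Expand the square: pairs `(r,r')`. `r = r'`: `Σ_{n<=Y} c_r(n)^2 <= (Y/r + 1) r φ(r)` (`ram_sum`, `ram_mod`), so
the diagonal is `<= Σ_r (Y + r)/φ(r)`. `r/φ(r) <= 1 + log_2 r` (`r/φ(r) = ∏_{p ∣ r} p/(p-1) <= ∏_{i=1}^{ω} (i+1)/i = ω + 1`,
as the `i`-th prime divisor is `>= i+1`, and `2^ω <= r`), so `Σ_{r<=Q} 1/φ(r) <= (1 + 2 log Q) Σ 1/r`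
`<= 2 (1 + log Q)^2`, and `Σ r/φ(r) <= Q (1 + 2 log Q) <= 3Q^2`. `r ≠ r'`: by `ram_exp`
`Σ_{n<=Y} c_r(n) c_r'(n) = Σ_{b,b'} Σ_n e(n (b/r + b'/r'))`, and `b/r + b'/r'` is not an integer (reduced fractions
with different denominators), distance to the integers `>= 1/(r r')`, geometric sum `<= r r'/2` (`LDP.geom`): the
pair contributes `<= (1/(φφ')) φ φ' r r'/2 = r r'/2`, all pairs `<= Q^4`. Total `<= 2Y(1+log Q)^2 + 3Q^2 + Q^4`.
-/

namespace Pool.Agent.H43.TP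

open Finset

private theorem l2m_prod (T : Finset ℕ) (hT : ∀ p ∈ T, 2 ≤ p) :
    ∏ p ∈ T, ((p : ℝ) / ((p : ℝ) - 1)) ≤ T.card + 1 := by
  induction T using Finset.induction_on_max with
  | empty => simp
  | insert a s hlt ih =>
    have ha : a ∉ s := fun h => lt_irrefl _ (hlt a h)
    have ha2 : 2 ≤ a := hT a (mem_insert_self a s)
    have ih' := ih (fun p hp => hT p (mem_insert_of_mem hp))
    have hcard : s.card + 2 ≤ a := by
      have h1 : s ⊆ Ico 2 a := by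
        intro x hx
        rw [mem_Ico]
        exact ⟨hT x (mem_insert_of_mem hx), hlt x hx⟩
      have h2 := card_le_card h1
      rw [Nat.card_Ico] at h2
      omega
    rw [prod_insert ha, card_insert_of_notMem ha]
    have hcR : (s.card : ℝ) + 2 ≤ a := by exact_mod_cast hcard
    have hc0 : (0 : ℝ) ≤ s.card := by positivity
    have h3 : (0 : ℝ) < (a : ℝ) - 1 := by linarith
    have h4 : (a : ℝ) / ((a : ℝ) - 1) ≤ ((s.card : ℝ) + 2) / ((s.card : ℝ) + 1) := by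
      rw [div_le_div_iff₀ h3 (by linarith)]
      nlinarith
    calc (a : ℝ) / ((a : ℝ) - 1) * ∏ p ∈ s, ((p : ℝ) / ((p : ℝ) - 1))
        ≤ ((s.card : ℝ) + 2) / ((s.card : ℝ) + 1) * ((s.card : ℝ) + 1) := by
          apply mul_le_mul h4 ih'
          · apply prod_nonneg
            intro p hp
            have h5 : (2 : ℝ) ≤ p := by exact_mod_cast hT p (mem_insert_of_mem hp)
            exact div_nonneg (by linarith) (by linarith)
          · positivity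
      _ = ((s.card + 1 : ℕ) : ℝ) + 1 := by
          rw [div_mul_cancel₀ _ (by positivity)]
          push_cast
          ring

private theorem l2m_card (n : ℕ) (hn : 1 ≤ n) : (n.primeFactors.card : ℝ) ≤ 2 * Real.log n := by
  have h1 : 2 ^ n.primeFactors.card ≤ n := by
    calc 2 ^ n.primeFactors.card ≤ ∏ p ∈ n.primeFactors, p := by
          apply Finset.pow_card_le_prod
          intro p hp
          exact (Nat.prime_of_mem_primeFactors hp).two_le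
      _ ≤ n := Nat.le_of_dvd hn (Nat.prod_primeFactors_dvd n)
  have h2 : Real.log ((2 : ℝ) ^ n.primeFactors.card) ≤ Real.log n := by
    apply Real.log_le_log (by positivity)
    exact_mod_cast h1
  rw [Real.log_pow] at h2
  have h3 := Real.log_two_gt_d9
  have h4 : (0 : ℝ) ≤ n.primeFactors.card := by positivity
  nlinarith

private theorem l2m_low (n : ℕ) (hn : 1 ≤ n) : (n : ℝ) ≤ (2 + 2 * Real.log n) * n.totient := by
  have h1 : (n.totient : ℝ) = n * ∏ p ∈ n.primeFactors, (1 - (p : ℝ)⁻¹) := by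
    have h := Nat.totient_eq_mul_prod_factors n
    have h' : ((n.totient : ℚ) : ℝ) = ((n * ∏ p ∈ n.primeFactors, (1 - (p : ℚ)⁻¹) : ℚ) : ℝ) := by
      rw [h]
    push_cast at h'
    exact h'
  have h2 : (∏ p ∈ n.primeFactors, ((p : ℝ) / ((p : ℝ) - 1))) *
      ∏ p ∈ n.primeFactors, (1 - (p : ℝ)⁻¹) = 1 := by
    rw [← Finset.prod_mul_distrib]
    apply Finset.prod_eq_one
    intro p hp
    have h3 : (2 : ℝ) ≤ p := by exact_mod_cast (Nat.prime_of_mem_primeFactors hp).two_le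
    have h4 : (p : ℝ) ≠ 0 := by linarith
    have h5 : (p : ℝ) - 1 ≠ 0 := by linarith
    field_simp
  have h3 : (n : ℝ) = (∏ p ∈ n.primeFactors, ((p : ℝ) / ((p : ℝ) - 1))) * n.totient := by
    rw [h1, mul_comm (n : ℝ), ← mul_assoc, h2, one_mul]
  have h4 := l2m_prod n.primeFactors (fun p hp => (Nat.prime_of_mem_primeFactors hp).two_le)
  have h5 := l2m_card n hn
  calc (n : ℝ) = (∏ p ∈ n.primeFactors, ((p : ℝ) / ((p : ℝ) - 1))) * n.totient := h3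
    _ ≤ (2 + 2 * Real.log n) * n.totient := by
      apply mul_le_mul_of_nonneg_right _ (by positivity)
      linarith

private theorem l2m_harm (D : ℕ) : ∑ m ∈ Icc 1 D, (1 : ℝ) / (m : ℝ) ≤ 1 + Real.log D := by
  have h := harmonic_le_one_add_log D
  have h2 : ((harmonic D : ℚ) : ℝ) = ∑ m ∈ Icc 1 D, (1 : ℝ) / (m : ℝ) := by
    rw [harmonic_eq_sum_Icc]
    push_cast
    simp [one_div]
  rw [← h2]
  exact h

private theorem l2m_phi (D : ℕ) :
    ∑ m ∈ Icc 1 D, 1 / (m.totient : ℝ) ≤ 2 * (1 + Real.log D) ^ 2 := by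
  have hlD : 0 ≤ Real.log D := Real.log_natCast_nonneg D
  have h1 : ∀ m ∈ Icc 1 D, 1 / (m.totient : ℝ) ≤ (2 + 2 * Real.log D) * (1 / (m : ℝ)) := by
    intro m hm
    rw [mem_Icc] at hm
    have h2 := l2m_low m hm.1
    have hm0 : (0 : ℝ) < m := by exact_mod_cast hm.1
    have ht : (0 : ℝ) < m.totient := by exact_mod_cast Nat.totient_pos.2 hm.1
    have h3 : Real.log m ≤ Real.log D := Real.log_le_log hm0 (by exact_mod_cast hm.2)
    rw [mul_one_div, div_le_div_iff₀ ht hm0, one_mul]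
    refine le_trans h2 ?_
    apply mul_le_mul_of_nonneg_right _ ht.le
    linarith
  calc ∑ m ∈ Icc 1 D, 1 / (m.totient : ℝ)
      ≤ ∑ m ∈ Icc 1 D, (2 + 2 * Real.log D) * (1 / (m : ℝ)) := sum_le_sum h1
    _ = (2 + 2 * Real.log D) * ∑ m ∈ Icc 1 D, (1 / (m : ℝ)) := by rw [mul_sum]
    _ ≤ (2 + 2 * Real.log D) * (1 + Real.log D) :=
        mul_le_mul_of_nonneg_left (l2m_harm D) (by linarith)
    _ = 2 * (1 + Real.log D) ^ 2 := by ring

private theorem l2m_blocks (r k : ℕ) :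
    ∑ n ∈ range (r * k), (crd r n : ℝ) ^ 2 = k * ∑ n ∈ range r, (crd r n : ℝ) ^ 2 := by
  induction k with
  | zero => simp
  | succ k ih =>
    rw [mul_add, mul_one, sum_range_add, ih]
    have h1 : ∀ x ∈ range r, (crd r (r * k + x) : ℝ) ^ 2 = (crd r x : ℝ) ^ 2 := by
      intro x _
      rw [ram_mod r (r * k + x) x (Nat.mul_add_mod r k x)]
    rw [sum_congr rfl h1]
    push_cast
    ring

private theorem l2m_diag (r Y : ℕ) (hr : 1 ≤ r) :
    ∑ n ∈ Icc 1 Y, (crd r n : ℝ) ^ 2 ≤ ((Y : ℝ) + r) * r.totient := by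
  have h1 : Icc 1 Y ⊆ range (r * (Y / r + 1)) := by
    intro n hn
    rw [mem_Icc] at hn
    rw [mem_range]
    exact lt_of_le_of_lt hn.2 (Nat.lt_mul_div_succ Y hr)
  have h2 : ∑ n ∈ Icc 1 Y, (crd r n : ℝ) ^ 2 ≤
      ∑ n ∈ range (r * (Y / r + 1)), (crd r n : ℝ) ^ 2 :=
    sum_le_sum_of_subset_of_nonneg h1 fun _ _ _ => sq_nonneg _
  rw [l2m_blocks, ram_sum r hr] at h2
  refine h2.trans ?_
  have h3 : ((Y / r : ℕ) : ℝ) * r ≤ Y := by exact_mod_cast Nat.div_mul_le_self Y r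
  have h4 : (0 : ℝ) ≤ r.totient := Nat.cast_nonneg _
  push_cast
  nlinarith

private theorem l2m_nn (r s b b' : ℕ) (hr : 1 ≤ r) (hs : 1 ≤ s) (hrs : r ≠ s)
    (hb : Nat.Coprime b r) (hb' : Nat.Coprime b' s) :
    1 / ((r : ℝ) * s) ≤ H26.LDP.nn ((b : ℝ) / r + (b' : ℝ) / s) := by
  unfold H26.LDP.nn
  obtain ⟨k, hk⟩ : ∃ k : ℤ, k = round ((b : ℝ) / r + (b' : ℝ) / s) := ⟨_, rfl⟩
  rw [← hk]
  have hr0 : (0 : ℝ) < r := by exact_mod_cast hr
  have hs0 : (0 : ℝ) < s := by exact_mod_cast hs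
  have h1 : (b : ℝ) / r + (b' : ℝ) / s - k =
      (((b : ℤ) * s + (b' : ℤ) * r - k * r * s : ℤ) : ℝ) / (r * s) := by
    push_cast
    field_simp
  rw [h1, abs_div, abs_of_pos (mul_pos hr0 hs0)]
  apply div_le_div_of_nonneg_right _ (mul_pos hr0 hs0).le
  have h2 : (b : ℤ) * s + (b' : ℤ) * r - k * r * s ≠ 0 := by
    intro h
    apply hrs
    apply Nat.dvd_antisymm
    · have h3 : (r : ℤ) ∣ (b : ℤ) * s := ⟨k * s - b', by linear_combination h⟩
      have h4 : r ∣ b * s := by exact_mod_cast h3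
      exact hb.symm.dvd_of_dvd_mul_left h4
    · have h3 : (s : ℤ) ∣ (b' : ℤ) * r := ⟨k * r - b, by linear_combination h⟩
      have h4 : s ∣ b' * r := by exact_mod_cast h3
      exact hb'.symm.dvd_of_dvd_mul_left h4
  have h3 := Int.one_le_abs h2
  rw [← Int.cast_abs]
  exact_mod_cast h3

private theorem l2m_tot (r : ℕ) :
    (((range r).filter (fun b => Nat.Coprime b r)).card : ℝ) = r.totient := by
  rw [Nat.totient_eq_card_coprime]
  congr 2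
  refine filter_congr fun b _ => ?_
  exact Nat.coprime_comm

private theorem l2m_off (r s Y : ℕ) (hr : 1 ≤ r) (hs : 1 ≤ s) (hrs : r ≠ s) :
    |∑ n ∈ Icc 1 Y, (crd r n : ℝ) * (crd s n : ℝ)| ≤
      (r.totient : ℝ) * s.totient * (r * s / 2) := by
  obtain ⟨B, hB⟩ : ∃ B, B = (range r).filter (fun b => Nat.Coprime b r) := ⟨_, rfl⟩
  obtain ⟨B', hB'⟩ : ∃ B, B = (range s).filter (fun b => Nat.Coprime b s) := ⟨_, rfl⟩
  have hr0 : (0 : ℝ) < r := by exact_mod_cast hr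
  have hs0 : (0 : ℝ) < s := by exact_mod_cast hs
  have h1 : ((∑ n ∈ Icc 1 Y, (crd r n : ℝ) * (crd s n : ℝ) : ℝ) : ℂ) =
      ∑ b ∈ B, ∑ b' ∈ B', ∑ n ∈ Icc 1 Y,
        H26.LDP.e (((b : ℝ) / r + (b' : ℝ) / s) * n + 0) := by
    have h2 : ∀ n : ℕ, ((crd r n : ℤ) : ℂ) * ((crd s n : ℤ) : ℂ) =
        ∑ b ∈ B, ∑ b' ∈ B', H26.LDP.e (((b : ℝ) / r + (b' : ℝ) / s) * n + 0) := by
      intro n
      rw [← ram_exp r n hr, ← ram_exp s n hs, ← hB, ← hB', sum_mul_sum]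
      refine sum_congr rfl fun b _ => sum_congr rfl fun b' _ => ?_
      rw [← H26.LDP.e_add]
      congr 1
      ring
    push_cast
    rw [sum_congr rfl fun n _ => h2 n, sum_comm]
    refine sum_congr rfl fun b _ => ?_
    rw [sum_comm]
  have h2 : |∑ n ∈ Icc 1 Y, (crd r n : ℝ) * (crd s n : ℝ)| =
      ‖((∑ n ∈ Icc 1 Y, (crd r n : ℝ) * (crd s n : ℝ) : ℝ) : ℂ)‖ := by
    rw [Complex.norm_real, Real.norm_eq_abs]
  rw [h2, h1]
  have h3 : ∀ b ∈ B, ∀ b' ∈ B', ‖∑ n ∈ Icc 1 Y,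
      H26.LDP.e (((b : ℝ) / r + (b' : ℝ) / s) * n + 0)‖ ≤ r * s / 2 := by
    intro b hb b' hb'
    rw [hB, mem_filter] at hb
    rw [hB', mem_filter] at hb'
    have h4 := l2m_nn r s b b' hr hs hrs hb.2 hb'.2
    have h5 := H26.LDP.geom ((b : ℝ) / r + (b' : ℝ) / s) 0 Y
    obtain ⟨z, hz⟩ : ∃ z, z = ‖∑ n ∈ Icc 1 Y,
      H26.LDP.e (((b : ℝ) / r + (b' : ℝ) / s) * n + 0)‖ := ⟨_, rfl⟩
    have hz0 : 0 ≤ z := by
      rw [hz]
      exact norm_nonneg _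
    rw [← hz] at h5 ⊢
    have h6 : z * (2 * (1 / ((r : ℝ) * s))) ≤ 1 := by
      refine le_trans ?_ h5
      apply mul_le_mul_of_nonneg_left _ hz0
      linarith
    have h7 : z * (2 * (1 / ((r : ℝ) * s))) = 2 * z / (r * s) := by
      field_simp
    rw [h7, div_le_one (mul_pos hr0 hs0)] at h6
    linarith
  calc ‖∑ b ∈ B, ∑ b' ∈ B', ∑ n ∈ Icc 1 Y,
        H26.LDP.e (((b : ℝ) / r + (b' : ℝ) / s) * n + 0)‖
      ≤ ∑ b ∈ B, ∑ b' ∈ B', ‖∑ n ∈ Icc 1 Y,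
        H26.LDP.e (((b : ℝ) / r + (b' : ℝ) / s) * n + 0)‖ :=
        (norm_sum_le _ _).trans (sum_le_sum fun b _ => norm_sum_le _ _)
    _ ≤ ∑ b ∈ B, ∑ b' ∈ B', ((r : ℝ) * s / 2) :=
        sum_le_sum fun b hb => sum_le_sum fun b' hb' => h3 b hb b' hb'
    _ = (r.totient : ℝ) * s.totient * (r * s / 2) := by
        rw [sum_const, sum_const, nsmul_eq_mul, nsmul_eq_mul, hB, hB', l2m_tot, l2m_tot]
        ring

private theorem l2m_sum (Q : ℕ) : ∑ r ∈ Icc 1 Q, (r : ℝ) ≤ (Q : ℝ) ^ 2 := by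
  have h1 : ∀ r ∈ Icc 1 Q, (r : ℝ) ≤ Q := by
    intro r hr
    exact_mod_cast (mem_Icc.1 hr).2
  have h2 := sum_le_card_nsmul _ _ _ h1
  rw [Nat.card_Icc, nsmul_eq_mul, Nat.add_sub_cancel] at h2
  rw [sq]
  exact h2

theorem l2m (Q Y : ℕ) (hQ : 1 ≤ Q) :
    ∑ n ∈ Icc 1 Y, (lq Q n) ^ 2 ≤ 2 * Y * (1 + Real.log Q) ^ 2 + 4 * (Q : ℝ) ^ 4 := by
  obtain ⟨A, hA⟩ : ∃ A : ℕ → ℝ, A = fun r =>
    ((ArithmeticFunction.moebius r : ℤ) : ℝ) / (r.totient : ℝ) := ⟨_, rfl⟩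
  have hA1 : ∀ r, 1 ≤ r → |A r| ≤ 1 / (r.totient : ℝ) := by
    intro r hr
    have ht : (0 : ℝ) < r.totient := by exact_mod_cast Nat.totient_pos.2 hr
    rw [hA]
    show |((ArithmeticFunction.moebius r : ℤ) : ℝ) / (r.totient : ℝ)| ≤ _
    rw [abs_div, abs_of_pos ht]
    apply div_le_div_of_nonneg_right _ ht.le
    have h := ArithmeticFunction.abs_moebius_le_one (n := r)
    rw [← Int.cast_abs]
    exact_mod_cast h
  have h0 : ∑ n ∈ Icc 1 Y, (lq Q n) ^ 2 = ∑ r ∈ Icc 1 Q, ∑ s ∈ Icc 1 Q,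
      A r * A s * ∑ n ∈ Icc 1 Y, (crd r n : ℝ) * (crd s n : ℝ) := by
    have h1 : ∀ n ∈ Icc 1 Y, (lq Q n) ^ 2 = ∑ r ∈ Icc 1 Q, ∑ s ∈ Icc 1 Q,
        A r * A s * ((crd r n : ℝ) * (crd s n : ℝ)) := by
      intro n _
      have h2 : lq Q n = ∑ r ∈ Icc 1 Q, A r * (crd r n : ℝ) := by
        rw [hA]
        rfl
      rw [h2, sq, sum_mul_sum]
      refine sum_congr rfl fun r _ => sum_congr rfl fun s _ => ?_
      ring
    rw [sum_congr rfl h1, sum_comm]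
    refine sum_congr rfl fun r _ => ?_
    rw [sum_comm]
    refine sum_congr rfl fun s _ => ?_
    rw [mul_sum]
  have h1 : ∀ r ∈ Icc 1 Q, ∀ s ∈ Icc 1 Q,
      A r * A s * ∑ n ∈ Icc 1 Y, (crd r n : ℝ) * (crd s n : ℝ) ≤
        (if r = s then ((Y : ℝ) + s) / s.totient else 0) + (r : ℝ) * s / 2 := by
    intro r hr s hs
    rw [mem_Icc] at hr hs
    have htr : (0 : ℝ) < r.totient := by exact_mod_cast Nat.totient_pos.2 hr.1
    have hts : (0 : ℝ) < s.totient := by exact_mod_cast Nat.totient_pos.2 hs.1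
    have hr0 : (0 : ℝ) < r := by exact_mod_cast hr.1
    have hs0 : (0 : ℝ) < s := by exact_mod_cast hs.1
    by_cases h : r = s
    · subst h
      rw [if_pos rfl]
      have h2 := l2m_diag r Y hr.1
      have h3 : ∑ n ∈ Icc 1 Y, (crd r n : ℝ) * (crd r n : ℝ) =
          ∑ n ∈ Icc 1 Y, (crd r n : ℝ) ^ 2 := sum_congr rfl fun n _ => (sq _).symm
      rw [h3]
      have h4 : A r * A r ≤ (1 / (r.totient : ℝ)) * (1 / (r.totient : ℝ)) := by
        rw [← abs_mul_abs_self (A r)]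
        exact mul_le_mul (hA1 r hr.1) (hA1 r hr.1) (abs_nonneg _) (by positivity)
      have h5 : (0 : ℝ) ≤ ∑ n ∈ Icc 1 Y, (crd r n : ℝ) ^ 2 := sum_nonneg fun _ _ => sq_nonneg _
      have h6 : A r * A r * ∑ n ∈ Icc 1 Y, (crd r n : ℝ) ^ 2 ≤
          (1 / (r.totient : ℝ)) * (1 / (r.totient : ℝ)) * (((Y : ℝ) + r) * r.totient) :=
        mul_le_mul h4 h2 h5 (by positivity)
      have h7 : (1 / (r.totient : ℝ)) * (1 / (r.totient : ℝ)) * (((Y : ℝ) + r) * r.totient) =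
          ((Y : ℝ) + r) / r.totient := by
        field_simp
      have h8 : 0 < (r : ℝ) * r / 2 := by positivity
      linarith
    · rw [if_neg h, zero_add]
      have h2 := l2m_off r s Y hr.1 hs.1 h
      refine (le_abs_self _).trans ?_
      rw [abs_mul, abs_mul]
      have h3 : |A r| * |A s| ≤ (1 / (r.totient : ℝ)) * (1 / (s.totient : ℝ)) :=
        mul_le_mul (hA1 r hr.1) (hA1 s hs.1) (abs_nonneg _) (by positivity)
      have h4 : |A r| * |A s| * |∑ n ∈ Icc 1 Y, (crd r n : ℝ) * (crd s n : ℝ)| ≤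
          (1 / (r.totient : ℝ)) * (1 / (s.totient : ℝ)) *
            ((r.totient : ℝ) * s.totient * (r * s / 2)) :=
        mul_le_mul h3 h2 (abs_nonneg _) (by positivity)
      refine h4.trans (le_of_eq ?_)
      field_simp
  rw [h0]
  have h2 : ∑ r ∈ Icc 1 Q, ∑ s ∈ Icc 1 Q,
      A r * A s * ∑ n ∈ Icc 1 Y, (crd r n : ℝ) * (crd s n : ℝ) ≤
      ∑ r ∈ Icc 1 Q, ∑ s ∈ Icc 1 Q,
        ((if r = s then ((Y : ℝ) + s) / s.totient else 0) + (r : ℝ) * s / 2) :=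
    sum_le_sum fun r hr => sum_le_sum fun s hs => h1 r hr s hs
  refine h2.trans ?_
  have h3 : ∑ r ∈ Icc 1 Q, ∑ s ∈ Icc 1 Q,
        ((if r = s then ((Y : ℝ) + s) / s.totient else 0) + (r : ℝ) * s / 2) =
      ∑ r ∈ Icc 1 Q, ((Y : ℝ) + r) / r.totient +
        (∑ r ∈ Icc 1 Q, (r : ℝ)) * (∑ s ∈ Icc 1 Q, (s : ℝ)) / 2 := by
    have h4 : ∀ r ∈ Icc 1 Q, ∑ s ∈ Icc 1 Q,
        ((if r = s then ((Y : ℝ) + s) / s.totient else 0) + (r : ℝ) * s / 2) =
        ((Y : ℝ) + r) / r.totient + ∑ s ∈ Icc 1 Q, (r : ℝ) * s / 2 := by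
      intro r hr
      rw [sum_add_distrib, sum_ite_eq (Icc 1 Q) r, if_pos hr]
    rw [sum_congr rfl h4, sum_add_distrib, sum_mul_sum, sum_div]
    congr 1
    refine sum_congr rfl fun r _ => ?_
    rw [sum_div]
  rw [h3]
  have h4 : ∑ r ∈ Icc 1 Q, ((Y : ℝ) + r) / r.totient ≤
      Y * (2 * (1 + Real.log Q) ^ 2) + (Q : ℝ) ^ 2 := by
    have h5 : ∀ r ∈ Icc 1 Q, ((Y : ℝ) + r) / r.totient ≤
        Y * (1 / (r.totient : ℝ)) + r := by
      intro r hr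
      rw [mem_Icc] at hr
      have ht : (1 : ℝ) ≤ r.totient := by exact_mod_cast Nat.totient_pos.2 hr.1
      have hr0 : (0 : ℝ) ≤ r := Nat.cast_nonneg _
      rw [add_div, mul_one_div]
      have h6 : (r : ℝ) / r.totient ≤ r := div_le_self hr0 ht
      linarith
    refine (sum_le_sum h5).trans ?_
    rw [sum_add_distrib, ← mul_sum]
    have h6 := l2m_phi Q
    have h7 := l2m_sum Q
    have h8 : (0 : ℝ) ≤ Y := Nat.cast_nonneg _
    have h9 := mul_le_mul_of_nonneg_left h6 h8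
    linarith
  have h5 : (∑ r ∈ Icc 1 Q, (r : ℝ)) * (∑ s ∈ Icc 1 Q, (s : ℝ)) ≤ (Q : ℝ) ^ 2 * (Q : ℝ) ^ 2 := by
    have h6 : (0 : ℝ) ≤ ∑ r ∈ Icc 1 Q, (r : ℝ) := sum_nonneg fun _ _ => Nat.cast_nonneg _
    exact mul_le_mul (l2m_sum Q) (l2m_sum Q) h6 (by positivity)
  have h6 : (1 : ℝ) ≤ Q := by exact_mod_cast hQ
  have h7 : (Q : ℝ) ^ 2 ≤ (Q : ℝ) ^ 4 := pow_le_pow_right₀ h6 (by norm_num)
  have h8 : (Q : ℝ) ^ 2 * (Q : ℝ) ^ 2 = (Q : ℝ) ^ 4 := by ring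
  have h9 : (0 : ℝ) ≤ (Q : ℝ) ^ 4 := by positivity
  rw [h8] at h5
  nlinarith

end Pool.Agent.H43.TP
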