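import Pool.Agent.H43.TP.Defs

/-!
# [H43 TP RAM] Ramanujan sums

PROOF. `ram_exp`: `1[(b,r)=1] = Σ_{g ∣ (b,r)} μ(g)`; for `g ∣ r` the sum over `b ∈ range r` with `g ∣ b` of
`e(n b/r)` is `Σ_{c < r/g} e(n c/(r/g))`, which is `r/g` if `(r/g) ∣ n` and `0` otherwise (geometric sum; compare
`LDP.lift_geom`, `LDP.ramanujan`). With `d = r/g`: `Σ_{d ∣ r, d ∣ n} d μ(r/d)`.
`ram_mul`: `crd · n` is the Dirichlet convolution of `d ↦ d 1[d ∣ n]` and `μ`, both multiplicative
(`ArithmeticFunction.IsMultiplicative.mul`), or directly from `Nat.Coprime` divisor sums. `ram_prime`: divisors `1`, `p`.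
`ram_abs`: from `ram_exp`, the number of `b` is `φ(r)`. `ram_mod`: `d ∣ r` and `n ≡ n' mod r` give `d ∣ n ↔ d ∣ n'`.
`ram_sum`: `Σ_{n<r} c_r(n)^2 = r φ(r)`: expand by `ram_exp`, orthogonality.
-/

namespace Pool.Agent.H43.TP

open Finset

open H26.LDP

private theorem ram_ind (r c : ℕ) (hr : 1 ≤ r) :
    (if Nat.Coprime c r then (1 : ℂ) else 0) =
      ∑ d ∈ r.divisors.filter (fun d => d ∣ c), (ArithmeticFunction.moebius d : ℂ) := by
  have hset : r.divisors.filter (fun d => d ∣ c) = (Nat.gcd c r).divisors := by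
    ext d
    have hg : Nat.gcd c r ≠ 0 := Nat.gcd_ne_zero_right (by omega)
    simp only [mem_filter, Nat.mem_divisors, Nat.dvd_gcd_iff]
    constructor
    · rintro ⟨⟨h1, h2⟩, h3⟩
      exact ⟨⟨h3, h1⟩, hg⟩
    · rintro ⟨⟨h1, h2⟩, h3⟩
      exact ⟨⟨h2, by omega⟩, h1⟩
  rw [hset]
  have h1 := congrArg (fun f : ArithmeticFunction ℤ => f (Nat.gcd c r))
    ArithmeticFunction.moebius_mul_coe_zeta
  simp only [ArithmeticFunction.coe_mul_zeta_apply, ArithmeticFunction.one_apply] at h1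
  have h2 : (∑ d ∈ (Nat.gcd c r).divisors, (ArithmeticFunction.moebius d : ℂ)) =
      ((∑ d ∈ (Nat.gcd c r).divisors, ArithmeticFunction.moebius d : ℤ) : ℂ) := by
    push_cast
    rfl
  rw [h2, h1]
  by_cases hc : Nat.Coprime c r
  · rw [if_pos hc, if_pos hc]
    simp
  · rw [if_neg hc, if_neg hc]
    simp

private theorem ram_mult (d m : ℕ) (hd : 0 < d) (f : ℕ → ℂ) :
    ∑ c ∈ (range (d * m)).filter (fun c => d ∣ c), f c = ∑ c ∈ range m, f (d * c) := by
  have hset : (range (d * m)).filter (fun c => d ∣ c) = (range m).image (fun c => d * c) := by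
    ext c
    simp only [mem_filter, mem_range, mem_image]
    constructor
    · rintro ⟨h1, c', rfl⟩
      exact ⟨c', Nat.lt_of_mul_lt_mul_left h1, rfl⟩
    · rintro ⟨c', h1, rfl⟩
      exact ⟨Nat.mul_lt_mul_of_pos_left h1 hd, Dvd.intro _ rfl⟩
  rw [hset, sum_image]
  intro a _ b _ hab
  exact Nat.eq_of_mul_eq_mul_left hd hab

/-- the geometric sum -/
theorem ram_geo (r : ℕ) (hr : 1 ≤ r) (j : ℤ) :
    ∑ c ∈ range r, e ((c : ℝ) * ((j : ℝ) / r)) = if (r : ℤ) ∣ j then (r : ℂ) else 0 := by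
  have hr0 : (r : ℝ) ≠ 0 := by
    have : (0 : ℝ) < r := by exact_mod_cast hr
    exact this.ne'
  by_cases h : (r : ℤ) ∣ j
  · rw [if_pos h]
    obtain ⟨k, rfl⟩ := h
    have h1 : ∀ c ∈ range r, e ((c : ℝ) * ((((r : ℤ) * k : ℤ) : ℝ) / r)) = 1 := by
      intro c _
      rw [← e_int ((c : ℤ) * k)]
      congr 1
      push_cast
      field_simp
    rw [sum_congr rfl h1, sum_const, card_range, nsmul_eq_mul, mul_one]
  · rw [if_neg h]
    have h1 : e ((j : ℝ) / r) ≠ 1 := by
      intro h2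
      unfold e at h2
      rw [Complex.exp_eq_one_iff] at h2
      obtain ⟨n, hn⟩ := h2
      apply h
      have h3 : (2 * (Real.pi : ℂ) * Complex.I) ≠ 0 := Complex.two_pi_I_ne_zero
      have h4 : (((j : ℝ) / r : ℝ) : ℂ) = (n : ℂ) := by
        apply mul_left_cancel₀ h3
        rw [hn]
        ring
      have h5 : (j : ℝ) / r = n := by exact_mod_cast h4
      rw [div_eq_iff hr0] at h5
      have h6 : j = n * (r : ℤ) := by exact_mod_cast h5
      exact ⟨n, by rw [h6]; ring⟩
    have h2 : e ((j : ℝ) / r) ^ r = 1 := by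
      rw [← e_mul_nat, ← e_int j]
      congr 1
      field_simp
    have h3 : ∀ c ∈ range r, e ((c : ℝ) * ((j : ℝ) / r)) = e ((j : ℝ) / r) ^ c := by
      intro c _
      exact e_mul_nat _ c
    rw [sum_congr rfl h3, geom_sum_eq h1, h2, sub_self, zero_div]

theorem ram_exp (r n : ℕ) (hr : 1 ≤ r) :
    ∑ b ∈ (range r).filter (fun b => Nat.Coprime b r), H26.LDP.e ((n : ℝ) * ((b : ℝ) / r)) =
      ((crd r n : ℤ) : ℂ) := by
  have h1 : ∑ c ∈ (range r).filter (fun c => Nat.Coprime c r), e ((n : ℝ) * ((c : ℝ) / r)) =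
      ∑ d ∈ r.divisors, (ArithmeticFunction.moebius d : ℂ) *
        ∑ c ∈ (range r).filter (fun c => d ∣ c), e ((n : ℝ) * ((c : ℝ) / r)) := by
    rw [sum_filter]
    have h2 : ∀ c ∈ range r, (if Nat.Coprime c r then e ((n : ℝ) * ((c : ℝ) / r)) else 0) =
        ∑ d ∈ r.divisors, (if d ∣ c then (ArithmeticFunction.moebius d : ℂ) *
          e ((n : ℝ) * ((c : ℝ) / r)) else 0) := by
      intro c _
      rw [← sum_filter, ← sum_mul, ← ram_ind r c hr, ite_mul, one_mul, zero_mul]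
    rw [sum_congr rfl h2, sum_comm]
    refine sum_congr rfl fun d _ => ?_
    rw [← sum_filter, mul_sum]
  rw [h1]
  have h3 : ∀ d ∈ r.divisors, (ArithmeticFunction.moebius d : ℂ) *
        ∑ c ∈ (range r).filter (fun c => d ∣ c), e ((n : ℝ) * ((c : ℝ) / r)) =
      (fun d' => (ArithmeticFunction.moebius (r / d') : ℂ) *
        if d' ∣ n then (d' : ℂ) else 0) (r / d) := by
    intro d hd
    have hdr : d ∣ r := (Nat.mem_divisors.1 hd).1
    show _ = (ArithmeticFunction.moebius (r / (r / d)) : ℂ) *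
      if (r / d) ∣ n then ((r / d : ℕ) : ℂ) else 0
    rw [Nat.div_div_self hdr (by omega)]
    congr 1
    obtain ⟨m, rfl⟩ := hdr
    have hd0 : 0 < d := by
      rcases Nat.eq_zero_or_pos d with h0 | h0
      · rw [h0, zero_mul] at hr; omega
      · exact h0
    have hm0 : 0 < m := by
      rcases Nat.eq_zero_or_pos m with h0 | h0
      · rw [h0, mul_zero] at hr; omega
      · exact h0
    rw [Nat.mul_div_cancel_left m hd0, ram_mult d m hd0]
    have h4 : ∀ c ∈ range m, e ((n : ℝ) * (((d * c : ℕ) : ℝ) / ((d * m : ℕ) : ℝ))) =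
        e ((c : ℝ) * (((n : ℤ) : ℝ) / m)) := by
      intro c _
      congr 1
      have hd1 : (d : ℝ) ≠ 0 := by positivity
      have hm1 : (m : ℝ) ≠ 0 := by positivity
      push_cast
      field_simp
    rw [sum_congr rfl h4, ram_geo m hm0 (n : ℤ)]
    simp only [Int.natCast_dvd_natCast]
  rw [sum_congr rfl h3, Nat.sum_div_divisors r (fun d' => (ArithmeticFunction.moebius (r / d') : ℂ) *
        if d' ∣ n then (d' : ℂ) else 0)]
  unfold crd
  rw [sum_filter]
  push_cast
  refine sum_congr rfl fun d _ => ?_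
  split_ifs
  · ring
  · rw [mul_zero]

theorem ram_one (n : ℕ) : crd 1 n = 1 := by
  unfold crd
  rw [sum_filter, Nat.divisors_one, sum_singleton, if_pos (one_dvd n), Nat.div_one,
    ArithmeticFunction.moebius_apply_one, Nat.cast_one, mul_one]

theorem ram_prime (p n : ℕ) (hp : p.Prime) : crd p n = if p ∣ n then (p : ℤ) - 1 else -1 := by
  unfold crd
  rw [sum_filter, hp.divisors, sum_pair hp.one_lt.ne, if_pos (one_dvd n), Nat.div_one,
    ArithmeticFunction.moebius_apply_prime hp, Nat.div_self hp.pos,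
    ArithmeticFunction.moebius_apply_one]
  split_ifs <;> push_cast <;> ring

/-- the multiplicative function `d 1[d ∣ n]` -/
private def ramF (n : ℕ) : ArithmeticFunction ℤ :=
  ⟨fun d => if d ∣ n then (d : ℤ) else 0, by simp⟩

private theorem ramF_mul (n : ℕ) : (ramF n).IsMultiplicative := by
  refine ArithmeticFunction.IsMultiplicative.iff_ne_zero.2 ⟨?_, ?_⟩
  · show (if 1 ∣ n then ((1 : ℕ) : ℤ) else 0) = 1
    rw [if_pos (one_dvd n), Nat.cast_one]
  · intro a b _ _ hab
    show (if a * b ∣ n then ((a * b : ℕ) : ℤ) else 0) =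
      (if a ∣ n then (a : ℤ) else 0) * (if b ∣ n then (b : ℤ) else 0)
    by_cases ha : a ∣ n
    · by_cases hb : b ∣ n
      · rw [if_pos ha, if_pos hb, if_pos (hab.mul_dvd_of_dvd_of_dvd ha hb), Nat.cast_mul]
      · rw [if_neg hb, mul_zero, if_neg]
        exact fun h => hb ((Dvd.intro_left a rfl).trans h)
    · rw [if_neg ha, zero_mul, if_neg]
      exact fun h => ha ((Dvd.intro b rfl).trans h)

private theorem ram_conv (r n : ℕ) : crd r n = (ramF n * ArithmeticFunction.moebius) r := by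
  rw [ArithmeticFunction.mul_apply,
    Nat.sum_divisorsAntidiagonal (fun a b => ramF n a * ArithmeticFunction.moebius b)]
  unfold crd
  rw [sum_filter]
  refine sum_congr rfl fun d _ => ?_
  show _ = (if d ∣ n then (d : ℤ) else 0) * _
  split_ifs
  · rfl
  · rw [zero_mul]

theorem ram_mul (r s n : ℕ) (h : Nat.Coprime r s) : crd (r * s) n = crd r n * crd s n := by
  rw [ram_conv, ram_conv, ram_conv]
  exact ((ramF_mul n).mul ArithmeticFunction.isMultiplicative_moebius).map_mul_of_coprime h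

private theorem ram_card (r : ℕ) :
    ((range r).filter (fun b => Nat.Coprime b r)).card = r.totient := by
  rw [Nat.totient_eq_card_coprime]
  congr 1
  refine filter_congr fun b _ => ?_
  exact Nat.coprime_comm

theorem ram_abs (r n : ℕ) (hr : 1 ≤ r) : |(crd r n : ℝ)| ≤ r.totient := by
  have h1 : |(crd r n : ℝ)| = ‖((crd r n : ℤ) : ℂ)‖ := by
    rw [Complex.norm_intCast]
  rw [h1, ← ram_exp r n hr, ← ram_card]
  refine (norm_sum_le _ _).trans ?_
  rw [card_eq_sum_ones, Nat.cast_sum]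
  refine sum_le_sum fun b _ => ?_
  rw [norm_e, Nat.cast_one]

theorem ram_mod (r n n' : ℕ) (h : n % r = n' % r) : crd r n = crd r n' := by
  unfold crd
  refine sum_congr (filter_congr fun d hd => ?_) fun _ _ => rfl
  exact Nat.ModEq.dvd_iff h (Nat.mem_divisors.1 hd).1

theorem ram_sum (r : ℕ) (hr : 1 ≤ r) : ∑ n ∈ range r, (crd r n : ℝ) ^ 2 = r * r.totient := by
  obtain ⟨B, hB⟩ : ∃ B, B = (range r).filter (fun b => Nat.Coprime b r) := ⟨_, rfl⟩
  have h0 : ∀ n : ℕ, ((crd r n : ℤ) : ℂ) ^ 2 =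
      ∑ b ∈ B, ∑ b' ∈ B, e ((n : ℝ) * ((((b : ℤ) - (b' : ℤ) : ℤ) : ℝ) / r)) := by
    intro n
    have h1 : ((crd r n : ℤ) : ℂ) ^ 2 =
        ((crd r n : ℤ) : ℂ) * (starRingEnd ℂ) ((crd r n : ℤ) : ℂ) := by
      rw [map_intCast, sq]
    rw [h1, ← ram_exp r n hr, ← hB, map_sum, sum_mul_sum]
    refine sum_congr rfl fun b _ => sum_congr rfl fun b' _ => ?_
    rw [← e_neg, ← e_add]
    congr 1
    push_cast
    ring
  have h1 : ((∑ n ∈ range r, (crd r n : ℝ) ^ 2 : ℝ) : ℂ) = ((r * r.totient : ℝ) : ℂ) := by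
    push_cast
    rw [sum_congr rfl fun n _ => h0 n, sum_comm]
    have h2 : ∀ b ∈ B, ∑ n ∈ range r, ∑ b' ∈ B,
        e ((n : ℝ) * ((((b : ℤ) - (b' : ℤ) : ℤ) : ℝ) / r)) = (r : ℂ) := by
      intro b hb
      rw [sum_comm]
      have h3 : ∀ b' ∈ B, ∑ n ∈ range r, e ((n : ℝ) * ((((b : ℤ) - (b' : ℤ) : ℤ) : ℝ) / r)) =
          if b' = b then (r : ℂ) else 0 := by
        intro b' hb'
        rw [ram_geo r hr]
        rw [hB, mem_filter, mem_range] at hb hb'
        congr 1
        apply propext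
        constructor
        · intro h4
          have h5 : |(b : ℤ) - (b' : ℤ)| < r := by
            rw [abs_lt]
            constructor <;> omega
          have h6 := Int.eq_zero_of_abs_lt_dvd h4 h5
          omega
        · rintro rfl
          rw [sub_self]
          exact dvd_zero _
      rw [sum_congr rfl h3, sum_ite_eq' B b, if_pos hb]
    rw [sum_congr rfl h2, sum_const, hB, ram_card, nsmul_eq_mul, mul_comm]
  exact_mod_cast h1

end Pool.Agent.H43.TP
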