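import Pool.Agent.H43.SI.Poly
import Pool.Agent.H43.SI.Hb
import Pool.Agent.H43.TP.Defs

/-!
# [H43 TP PLY] The product of the primes of `(D,D']` with a box

PROOF. `ply_hb`: `(pa χ D D' * f)(n) = Σ_{p ∣ n, p ∈ (D,D'] prime} χ(p) f(n/p)` (`n >= 1`). With `SI.hb` at `n/p <= n`:
`Σ_e wt e (pa * bf χ e)(n) = Σ_p χ(p) Σ_e wt e bf χ e (n/p) = Σ_p χ(p) χ(n/p) Λ(n/p) = χ(n) gg D D' n`.
`ply_supp`: `(pa * bf)(n) ≠ 0` gives `n = p m` with `p ∈ (D,D']`, `bf χ e m ≠ 0`; `SI.bf_supp`.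
`ply_poly`: as `SI.bf_poly`: `LSeries` of the convolution (or the double sum over `p` and `m <= 2^S`, `p m <= D' 2^S`,
`(pm)^(-s) = p^(-s) m^(-s)`).
-/

namespace Pool.Agent.H43.TP

open Finset

theorem ply_pa {q : ℕ} (χ : DirichletCharacter ℂ q) (D D' n : ℕ) :
    pa χ D D' n = if n ∈ (Ioc D D').filter Nat.Prime then χ n else 0 := rfl

theorem ply_hb {q : ℕ} [NeZero q] (χ : DirichletCharacter ℂ q) (D D' b B n : ℕ) (hn : 1 ≤ n)
    (h1 : n ≤ 2 ^ (3 * b)) (h2 : n ≤ 2 ^ B) :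
    ((gg D D' n : ℝ) : ℂ) * χ n = ∑ e ∈ SI.boxes b B, SI.wt e * (pa χ D D' * SI.bf χ e) n := by
  have e1 : ∑ e ∈ SI.boxes b B, SI.wt e * (pa χ D D' * SI.bf χ e) n =
      ∑ x ∈ n.divisorsAntidiagonal, pa χ D D' x.1 *
        (((ArithmeticFunction.vonMangoldt x.2 : ℝ) : ℂ) * χ x.2) := by
    simp only [ArithmeticFunction.mul_apply, Finset.mul_sum]
    rw [Finset.sum_comm]
    refine Finset.sum_congr rfl fun x hx => ?_
    rw [Nat.mem_divisorsAntidiagonal] at hx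
    have hx2 : 1 ≤ x.2 := by
      rcases Nat.eq_zero_or_pos x.2 with h0 | h0
      · rw [h0, mul_zero] at hx
        omega
      · exact h0
    have hx1 : 1 ≤ x.1 := by
      rcases Nat.eq_zero_or_pos x.1 with h0 | h0
      · rw [h0, zero_mul] at hx
        omega
      · exact h0
    have hxn : x.2 ≤ n := by
      rw [← hx.1]
      exact Nat.le_mul_of_pos_left _ hx1
    rw [SI.hb χ b B x.2 hx2 (hxn.trans h1) (hxn.trans h2), Finset.mul_sum]
    refine Finset.sum_congr rfl fun e _ => ?_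
    ring
  rw [e1]
  have e2 : ∑ x ∈ n.divisorsAntidiagonal, pa χ D D' x.1 *
        (((ArithmeticFunction.vonMangoldt x.2 : ℝ) : ℂ) * χ x.2) =
      ∑ d ∈ n.divisors, pa χ D D' d *
        (((ArithmeticFunction.vonMangoldt (n / d) : ℝ) : ℂ) * χ ((n / d : ℕ) : ZMod q)) :=
    Nat.sum_divisorsAntidiagonal (f := fun a b => pa χ D D' a *
        (((ArithmeticFunction.vonMangoldt b : ℝ) : ℂ) * χ (b : ZMod q)))
  rw [e2]
  have e3 : ∑ d ∈ n.divisors, pa χ D D' d *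
        (((ArithmeticFunction.vonMangoldt (n / d) : ℝ) : ℂ) * χ ((n / d : ℕ) : ZMod q)) =
      ∑ d ∈ (Ioc D D').filter (fun p => p.Prime ∧ p ∣ n), χ d *
        (((ArithmeticFunction.vonMangoldt (n / d) : ℝ) : ℂ) * χ ((n / d : ℕ) : ZMod q)) := by
    have hset : (Ioc D D').filter (fun p => p.Prime ∧ p ∣ n) =
        n.divisors.filter (fun d => d ∈ (Ioc D D').filter Nat.Prime) := by
      ext d
      simp only [mem_filter, Nat.mem_divisors]
      constructor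
      · rintro ⟨a1, a2, a3⟩
        exact ⟨⟨a3, by omega⟩, a1, a2⟩
      · rintro ⟨⟨a1, _⟩, a2, a3⟩
        exact ⟨a2, a3, a1⟩
    rw [hset, Finset.sum_filter]
    refine Finset.sum_congr rfl fun d _ => ?_
    rw [ply_pa]
    split_ifs
    · rfl
    · rw [zero_mul]
  rw [e3]
  unfold gg
  rw [Complex.ofReal_sum, Finset.sum_mul]
  refine Finset.sum_congr rfl fun d hd => ?_
  rw [mem_filter] at hd
  have h3 : χ (n : ZMod q) = χ (d : ZMod q) * χ ((n / d : ℕ) : ZMod q) := by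
    rw [← map_mul, ← Nat.cast_mul, Nat.mul_div_cancel' hd.2.2]
  rw [h3]
  ring

theorem ply_supp {q : ℕ} (χ : DirichletCharacter ℂ q) (D D' : ℕ) (e : Fin 6 → ℕ) (n : ℕ)
    (h : (pa χ D D' * SI.bf χ e) n ≠ 0) :
    1 ≤ n ∧ n ≤ D' * 2 ^ (∑ i, e i) ∧ D * 2 ^ (∑ i, e i) ≤ 64 * n := by
  rw [ArithmeticFunction.mul_apply] at h
  obtain ⟨x, hx, hx2⟩ := Finset.exists_ne_zero_of_sum_ne_zero h
  rw [Nat.mem_divisorsAntidiagonal] at hx
  have hp := left_ne_zero_of_mul hx2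
  have hp2 : x.1 ∈ (Ioc D D').filter Nat.Prime := by
    by_contra h0
    exact hp (if_neg h0)
  rw [mem_filter, mem_Ioc] at hp2
  obtain ⟨h4, h5, h6⟩ := SI.bf_supp χ e x.2 (right_ne_zero_of_mul hx2)
  rw [← hx.1]
  refine ⟨Nat.mul_pos hp2.2.pos h4, Nat.mul_le_mul hp2.1.2 h5, ?_⟩
  calc D * 2 ^ (∑ i, e i) ≤ x.1 * (64 * x.2) := Nat.mul_le_mul hp2.1.1.le h6
    _ = 64 * (x.1 * x.2) := by ring

theorem ply_polyS {q : ℕ} (χ : DirichletCharacter ℂ q) (D D' : ℕ) :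
    SI.PolyS (pa χ D D') D' D' := by
  intro n hn
  have h1 : n ∈ (Ioc D D').filter Nat.Prime := by
    by_contra h0
    exact hn (if_neg h0)
  rw [mem_filter, mem_Ioc] at h1
  exact ⟨h1.2.pos, h1.1.2, Nat.le_mul_of_pos_right _ h1.2.pos⟩

theorem ply_poly {q : ℕ} (χ : DirichletCharacter ℂ q) (D D' : ℕ) (e : Fin 6 → ℕ) (t : ℝ) :
    ∑ n ∈ Icc 1 (D' * 2 ^ (∑ i, e i)),
      (pa χ D D' * SI.bf χ e) n * (n : ℂ) ^ (-(1 + (t : ℂ) * Complex.I)) =
      pp χ D D' t * SI.bp χ e t := by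
  rw [← SI.poly_LSeries (SI.polyS_mul (ply_polyS χ D D') (SI.polyS_bf χ e)),
    ArithmeticFunction.LSeries_mul' (SI.poly_summable (ply_polyS χ D D') _)
      (SI.poly_summable (SI.polyS_bf χ e) _),
    SI.poly_LSeries (SI.polyS_bf χ e), SI.bf_poly, SI.poly_LSeries (ply_polyS χ D D')]
  congr 1
  unfold pp
  have h1 : (Ioc D D').filter Nat.Prime ⊆ Icc 1 D' := by
    intro n hn
    rw [mem_filter, mem_Ioc] at hn
    rw [mem_Icc]
    exact ⟨hn.2.pos, hn.1.2⟩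
  rw [← sum_subset h1]
  · refine sum_congr rfl fun n hn => ?_
    rw [ply_pa, if_pos hn]
  · intro n _ hn
    rw [ply_pa, if_neg hn, zero_mul]

end Pool.Agent.H43.TP
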