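import Pool.Agent.H26.LDP.Parseval
import Pool.Agent.H43.TP.Defs

/-!
# [H43 TP PLG] Plancherel for cubic averages of a sequence

PROOF. As `H26/LDP/Planch.lean` (simpler). Extend `a` by `0` to the integers outside `[1, 2X]`, put
`f k = Σ_{m=1}^M a(k + m^3)` for integers `k`; with `I = [-X, 2X]` (length `3X+1 <= N`):
`Σ_{k∈I} f k e(k x) = Σ_m Σ_n a(n) e((n - m^3) x) = S(x) conj(C(x))` (`0 <= m^3 <= X`, all `n - m^3 ∈ I`).
`LDP.parseval` for `F = f` on `I`, and drop the `k` outside `[1, X]` (for `1 <= k <= X`: `m^3 + k <= 2X`).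
`sq`: `LDP.parseval` for `a` itself on `[0, 2X]`.
-/

namespace Pool.Agent.H43.TP

open Finset Pool.Agent.H26.LDP

/-- the exponential sum of `a` -/
noncomputable def Ex (a : ℕ → ℂ) (L : ℕ) (x : ℝ) : ℂ := ∑ n ∈ Icc 1 L, a n * e ((n : ℝ) * x)

/-- sums over an interval of integers of a function supported on `[1, L]` -/
theorem plg_sum {E : Type*} [AddCommMonoid E] (L s : ℕ) (lo : ℤ) (len : ℕ) (h1 : lo ≤ 1 - s)
    (h2 : (L : ℤ) - s < lo + len) (g : ℕ → E) :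
    ∑ k ∈ Ico lo (lo + (len : ℤ)), (if 1 ≤ k + s ∧ k + s ≤ L then g (k + s).toNat else 0) =
      ∑ n ∈ Icc 1 L, g n := by
  rw [← sum_filter]
  refine sum_bij' (fun k _ => (k + s).toNat) (fun n _ => (n : ℤ) - s) ?_ ?_ ?_ ?_ ?_
  · intro k hk
    rw [mem_filter, mem_Ico] at hk
    rw [mem_Icc]
    omega
  · intro n hn
    rw [mem_Icc] at hn
    rw [mem_filter, mem_Ico]
    omega
  · intro k hk
    rw [mem_filter, mem_Ico] at hk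
    omega
  · intro n hn
    omega
  · intro k hk
    rfl

theorem plg_shift (a : ℕ → ℂ) (L s : ℕ) (lo : ℤ) (len : ℕ) (h1 : lo ≤ 1 - s)
    (h2 : (L : ℤ) - s < lo + len) (x : ℝ) :
    ∑ k ∈ Ico lo (lo + (len : ℤ)), (if 1 ≤ k + s ∧ k + s ≤ L then a (k + s).toNat else 0) *
      e ((k : ℝ) * x) = Ex a L x * e (-((s : ℝ) * x)) := by
  have h3 := plg_sum L s lo len h1 h2 (fun n => a n * e ((n : ℝ) * x) * e (-((s : ℝ) * x)))
  unfold Ex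
  rw [sum_mul, ← h3]
  refine sum_congr rfl fun k _ => ?_
  by_cases hk : 1 ≤ k + s ∧ k + s ≤ L
  · rw [if_pos hk, if_pos hk]
    have h4 : (((k + s).toNat : ℕ) : ℝ) = (k : ℝ) + s := by
      have h5 : (((k + s).toNat : ℕ) : ℤ) = k + s := Int.toNat_of_nonneg (by omega)
      exact_mod_cast congrArg (Int.cast : ℤ → ℝ) h5
    rw [mul_assoc, ← e_add, h4]
    congr 2
    ring
  · rw [if_neg hk, if_neg hk, zero_mul]

theorem plg (a : ℕ → ℂ) (M X N : ℕ) [NeZero N] (hM : M ^ 3 ≤ X) (hN : 3 * X + 1 ≤ N) :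
    (N : ℝ) * ∑ k ∈ Icc 1 X, ‖∑ m ∈ Icc 1 M, a (m ^ 3 + k)‖ ^ 2 ≤
      ∑ t : ZMod N, ‖Ex a (2 * X) (al N t)‖ ^ 2 * ‖C M (al N t)‖ ^ 2 := by
  obtain ⟨F, hF⟩ : ∃ F : ℤ → ℂ, F = fun k : ℤ => ∑ m ∈ Icc 1 M,
      (if 1 ≤ k + ((m ^ 3 : ℕ) : ℤ) ∧ k + ((m ^ 3 : ℕ) : ℤ) ≤ ((2 * X : ℕ) : ℤ) then
        a (k + ((m ^ 3 : ℕ) : ℤ)).toNat else 0) := ⟨_, rfl⟩
  have h1 := parseval N (-(X : ℤ)) (3 * X + 1) hN F
  have h2 : ∀ t : ZMod N, ‖∑ k ∈ Ico (-(X : ℤ)) (-(X : ℤ) + ((3 * X + 1 : ℕ) : ℤ)),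
      F k * e ((k : ℝ) * al N t)‖ ^ 2 = ‖Ex a (2 * X) (al N t)‖ ^ 2 * ‖C M (al N t)‖ ^ 2 := by
    intro t
    have h3 : ∑ k ∈ Ico (-(X : ℤ)) (-(X : ℤ) + ((3 * X + 1 : ℕ) : ℤ)),
        F k * e ((k : ℝ) * al N t) = Ex a (2 * X) (al N t) * (starRingEnd ℂ) (C M (al N t)) := by
      rw [hF]
      simp only [sum_mul]
      rw [sum_comm]
      unfold C
      rw [map_sum, mul_sum]
      refine sum_congr rfl fun m hm => ?_
      rw [mem_Icc] at hm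
      have h4 : m ^ 3 ≤ M ^ 3 := Nat.pow_le_pow_left hm.2 3
      rw [plg_shift a (2 * X) (m ^ 3) (-(X : ℤ)) (3 * X + 1) (by omega) (by omega)
        (al N t), ← e_neg]
      push_cast
      rfl
    rw [h3, norm_mul, RCLike.norm_conj]
    ring
  rw [← sum_congr rfl fun t _ => h2 t, h1]
  refine mul_le_mul_of_nonneg_left ?_ (Nat.cast_nonneg N)
  have h5 : ∑ k ∈ Icc 1 X, ‖∑ m ∈ Icc 1 M, a (m ^ 3 + k)‖ ^ 2 =
      ∑ k ∈ (Icc 1 X).map Nat.castEmbedding, ‖F k‖ ^ 2 := by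
    rw [sum_map]
    refine sum_congr rfl fun k hk => ?_
    rw [mem_Icc] at hk
    congr 2
    rw [hF]
    refine sum_congr rfl fun m hm => ?_
    rw [mem_Icc] at hm
    have h4 : m ^ 3 ≤ M ^ 3 := Nat.pow_le_pow_left hm.2 3
    have h6 : (Nat.castEmbedding k : ℤ) + ((m ^ 3 : ℕ) : ℤ) = ((m ^ 3 + k : ℕ) : ℤ) := by
      rw [Nat.castEmbedding_apply]
      push_cast
      ring
    rw [h6, if_pos ⟨by omega, by omega⟩, Int.toNat_natCast]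
  rw [h5]
  refine sum_le_sum_of_subset_of_nonneg ?_ fun _ _ _ => by positivity
  intro k hk
  rw [mem_map] at hk
  obtain ⟨n, hn, rfl⟩ := hk
  rw [mem_Icc] at hn
  rw [mem_Ico, Nat.castEmbedding_apply]
  push_cast
  omega

theorem plsq (a : ℕ → ℂ) (L N : ℕ) [NeZero N] (hN : L + 1 ≤ N) :
    ∑ t : ZMod N, ‖Ex a L (al N t)‖ ^ 2 = (N : ℝ) * ∑ n ∈ Icc 1 L, ‖a n‖ ^ 2 := by
  obtain ⟨F, hF⟩ : ∃ F : ℤ → ℂ, F = fun k : ℤ =>
      (if 1 ≤ k + ((0 : ℕ) : ℤ) ∧ k + ((0 : ℕ) : ℤ) ≤ (L : ℤ) then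
        a (k + ((0 : ℕ) : ℤ)).toNat else 0) := ⟨_, rfl⟩
  have h1 := parseval N 0 (L + 1) hN F
  have h2 : ∀ t : ZMod N, ∑ k ∈ Ico (0 : ℤ) (0 + ((L + 1 : ℕ) : ℤ)),
      F k * e ((k : ℝ) * al N t) = Ex a L (al N t) := by
    intro t
    rw [hF]
    have h3 := plg_shift a L 0 0 (L + 1) (by norm_num) (by push_cast; omega) (al N t)
    rw [h3]
    simp [e_zero]
  rw [sum_congr rfl fun t _ => by rw [h2 t]] at h1
  rw [h1]
  congr 1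
  have h4 := plg_sum L 0 0 (L + 1) (by norm_num) (by push_cast; omega) (fun n => ‖a n‖ ^ 2)
  rw [← h4]
  refine sum_congr rfl fun k _ => ?_
  rw [hF]
  dsimp only
  split_ifs
  · rfl
  · rw [norm_zero]
    norm_num

end Pool.Agent.H43.TP
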