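import Pool.Agent.H43.SI.Pw
import Pool.Agent.H43.SI.Freq
import Pool.Agent.H43.UF.Lwb
import Pool.Agent.H43.TP.Defs

/-!
# [H43 TP SB] Sparse sets, a long smooth factor

PROOF. `ℓ = log X`, `c` from `UF.lwb`, `ε1 = min c (1/100)`, `A0 = A + 2B + 20`. Let `i >= 3`, `X^(3/8) <= 2^(e_i)`, `N = 2^(e_i)/2`
(`>= X^(3/8)/4`, `<= X^2`), `N' = 2^(e_i) <= 2N`. `UF.lwb B`: `‖ds χ N u t‖ <= ℓ^(B+1)/|t| + X^(-c)` for all `u <= N'`, so
`‖pol (cf χ i) (e i) t‖ <= 2 log(2^(e_i)) (..) <= 4ℓ (ℓ^(B+1)/|t| + X^(-c))` (`i = 3` by `SI.pw_log`; `cf χ 3 n = χ n log n`; for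
`i = 4, 5` without the logarithm; `log 2^(e_i) <= log(2^9 X) <= 2ℓ`). The five other factors: `SI.pw_triv`, each
`<= 1 + e_j <= 1 + S <= 3ℓ`. So `‖bp‖^2 <= (3ℓ)^10 16 ℓ^2 * 2 (ℓ^(2B+2)/t^2 + X^(-2c))` and
`∫_E <= C ℓ^12 (ℓ^(2B+2) ∫_{|t| >= ℓ^A0} t^(-2) dt + X^(-2c) |E|) <= C ℓ^12 (2 ℓ^(2B+2-A0) + X^(-c)) <= ℓ^(-A)` for `X` large.
(`pol` is continuous: `SI.pol_cont`; the function `t^(-2)` is integrable on `|t| >= ℓ^A0`.)
-/

namespace Pool.Agent.H43.TP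

open Finset

open MeasureTheory in
private theorem sb_tail (L X : ℝ) (hL : 0 < L) (hX : L ≤ X) :
    IntegrableOn (fun t : ℝ => 1 / t ^ 2) (Set.Icc L X ∪ Set.Icc (-X) (-L)) ∧
      ∫ t in (Set.Icc L X ∪ Set.Icc (-X) (-L)), 1 / t ^ 2 ≤ 2 / L := by
  have hX0 : 0 < X := by linarith
  have i1 : IntegrableOn (fun t : ℝ => 1 / t ^ 2) (Set.Icc L X) := by
    apply ContinuousOn.integrableOn_compact isCompact_Icc
    apply ContinuousOn.div continuousOn_const (by fun_prop)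
    intro t ht
    have : 0 < t := by linarith [ht.1]
    positivity
  have i2 : IntegrableOn (fun t : ℝ => 1 / t ^ 2) (Set.Icc (-X) (-L)) := by
    apply ContinuousOn.integrableOn_compact isCompact_Icc
    apply ContinuousOn.div continuousOn_const (by fun_prop)
    intro t ht
    have : t < 0 := by linarith [ht.2]
    have := this.ne
    positivity
  have hd : Disjoint (Set.Icc L X) (Set.Icc (-X) (-L)) := by
    rw [Set.disjoint_left]
    intro t h1 h2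
    linarith [h1.1, h2.2]
  have v1 : ∫ t in L..X, 1 / t ^ 2 = 1 / L - 1 / X := by
    have h0 : (0 : ℝ) ∉ Set.uIcc L X := by
      rw [Set.uIcc_of_le hX]
      intro h
      linarith [h.1]
    have h1 := integral_zpow (a := L) (b := X) (n := -2) (Or.inr ⟨by norm_num, h0⟩)
    have h2 : ∀ t : ℝ, 1 / t ^ 2 = t ^ (-2 : ℤ) := by
      intro t
      rw [zpow_neg, one_div]
      norm_cast
    simp_rw [h2]
    rw [h1]
    norm_num
    ring
  have e1 : ∫ t in Set.Icc L X, 1 / t ^ 2 = 1 / L - 1 / X := by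
    rw [integral_Icc_eq_integral_Ioc, ← intervalIntegral.integral_of_le hX, v1]
  have e2 : ∫ t in Set.Icc (-X) (-L), 1 / t ^ 2 = 1 / L - 1 / X := by
    rw [integral_Icc_eq_integral_Ioc, ← intervalIntegral.integral_of_le (by linarith), ← v1]
    have h3 := intervalIntegral.integral_comp_neg (a := L) (b := X) (fun t : ℝ => 1 / t ^ 2)
    rw [← h3]
    apply intervalIntegral.integral_congr
    intro t _
    simp only [even_two, Even.neg_pow]
  refine ⟨i1.union i2, ?_⟩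
  rw [setIntegral_union hd measurableSet_Icc i1 i2, e1, e2]
  have h4 : 0 < 1 / X := by positivity
  have h5 : 2 / L = 1 / L + 1 / L := by ring
  rw [h5]
  linarith

/-- one long factor -/
private theorem sb_one {q : ℕ} (χ : DirichletCharacter ℂ q) (i : Fin 6) (hi : 3 ≤ (i : ℕ))
    (b : ℕ) (t D : ℝ) (hD : 0 ≤ D) (l : ℝ) (hl : 1 ≤ l)
    (hb : Real.log ((2 ^ (b + 1) : ℕ) : ℝ) ≤ 2 * l)
    (h : ∀ K ≤ 2 ^ (b + 1), ‖LF.ds (fun n => χ n) (2 ^ b) K t‖ ≤ D) :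
    ‖SI.pol (SI.cf χ i) (b + 1) t‖ ≤ 4 * l * D := by
  have hdiv : 2 ^ (b + 1) / 2 = 2 ^ b := by
    rw [pow_succ]
    omega
  unfold SI.pol
  rw [hdiv]
  by_cases hi4 : (i : ℕ) = 3
  · have e1 : LF.ds (SI.cf χ i) (2 ^ b) (2 ^ (b + 1)) t =
        ∑ n ∈ Ioc ((2 : ℕ) ^ b) ((2 : ℕ) ^ (b + 1)),
          ((Real.log n : ℝ) : ℂ) * (χ n * (n : ℂ) ^ (-(1 + (t : ℂ) * Complex.I))) := by
      unfold LF.ds
      refine Finset.sum_congr rfl fun n _ => ?_
      unfold SI.cf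
      rw [if_neg (by omega), if_pos hi4]
      ring
    rw [e1]
    have h4 := SI.pw_log (fun n : ℕ => χ n * (n : ℂ) ^ (-(1 + (t : ℂ) * Complex.I))) (2 ^ b)
      (2 ^ (b + 1)) (by rw [pow_succ]; have : 0 < 2 ^ b := by positivity
                        omega) D (by
        intro K hK
        exact h K hK)
    refine h4.trans ?_
    have h5 : 2 * Real.log ((2 ^ (b + 1) : ℕ) : ℝ) ≤ 4 * l := by linarith
    exact mul_le_mul_of_nonneg_right h5 hD
  · have e1 : SI.cf χ i = fun n : ℕ => χ n := by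
      funext n
      unfold SI.cf
      rw [if_neg (by omega), if_neg hi4]
    rw [e1]
    refine (h _ le_rfl).trans ?_
    nlinarith

theorem sb : ∃ ε1 : ℝ, 0 < ε1 ∧ ε1 ≤ 1 / 100 ∧ ∀ B A : ℝ, 0 < B → 0 < A →
    ∃ A0 X0 : ℝ, 0 < A0 ∧ 10 ≤ X0 ∧
    ∀ X : ℝ, X0 ≤ X → ∀ (q : ℕ) [NeZero q], (q : ℝ) ≤ (Real.log X) ^ B →
    ∀ (χ : DirichletCharacter ℂ q) (e : Fin 6 → ℕ) (E : Set ℝ),
    (2 : ℝ) ^ (∑ i, e i) ≤ 2 ^ 9 * X →
    (∃ i : Fin 6, 3 ≤ (i : ℕ) ∧ X ^ ((3 : ℝ) / 8) ≤ (2 : ℝ) ^ (e i)) →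
    MeasurableSet E → (∀ t ∈ E, (Real.log X) ^ A0 ≤ |t| ∧ |t| ≤ X) →
    MeasureTheory.volume E ≤ ENNReal.ofReal (X ^ ε1) →
    ∫ t in E, ‖SI.bp χ e t‖ ^ 2 ≤ (Real.log X) ^ (-A) := by
  obtain ⟨c, hc, hl⟩ := UF.lwb
  refine ⟨min c (1 / 100), lt_min hc (by norm_num), min_le_right _ _, ?_⟩
  intro B A hB hA
  obtain ⟨X1, hX1, h1⟩ := hl B hB
  have hev : ∀ᶠ x : ℝ in Filter.atTop, x ^ (12 + A) * Real.exp (-c * x) < 1 / (4 * 10 ^ 6) :=
    (tendsto_rpow_mul_exp_neg_mul_atTop_nhds_zero (12 + A) c hc).eventually_lt_const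
      (by norm_num)
  obtain ⟨l1, hl1⟩ := Filter.eventually_atTop.1 hev
  refine ⟨A + 2 * B + 20, max X1 (Real.exp (max l1 (10 ^ 4))), by positivity,
    hX1.trans (le_max_left _ _), ?_⟩
  intro X hX q _ hq χ e E he hi hE hEt hvol
  have hXX1 : X1 ≤ X := (le_max_left _ _).trans hX
  have hXX2 : Real.exp (max l1 (10 ^ 4)) ≤ X := (le_max_right _ _).trans hX
  have hX0 : 0 < X := by linarith
  obtain ⟨l, hldef⟩ : ∃ l, l = Real.log X := ⟨_, rfl⟩
  have hlm : max l1 (10 ^ 4) ≤ l := by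
    rw [hldef]
    exact (Real.le_log_iff_exp_le hX0).2 hXX2
  have hll1 : l1 ≤ l := (le_max_left _ _).trans hlm
  have hl4 : (10 : ℝ) ^ 4 ≤ l := (le_max_right _ _).trans hlm
  have hl0 : 0 < l := by linarith [show (0 : ℝ) < 10 ^ 4 by norm_num]
  have hl1' : 1 ≤ l := by linarith [show (1 : ℝ) < 10 ^ 4 by norm_num]
  have hXl : Real.exp l = X := by
    rw [hldef, Real.exp_log hX0]
  have hX512 : (512 : ℝ) ≤ X := by
    have h2 := Real.add_one_le_exp l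
    rw [hXl] at h2
    have h3 : (512 : ℝ) ≤ 10 ^ 4 := by norm_num
    linarith
  rw [← hldef]
  rw [← hldef] at hq
  obtain ⟨L, hLdef⟩ : ∃ L, L = l ^ (A + 2 * B + 20) := ⟨_, rfl⟩
  have hL0 : 0 < L := by
    rw [hLdef]
    positivity
  have hL1 : 1 ≤ L := by
    rw [hLdef]
    exact Real.one_le_rpow hl1' (by positivity)
  have hEt' : ∀ t ∈ E, L ≤ |t| ∧ |t| ≤ X := by
    intro t ht
    have h2 := hEt t ht
    rw [← hldef, ← hLdef] at h2
    exact h2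
  by_cases hLX : L ≤ X
  swap
  · have hE0 : E = ∅ := by
      rw [Set.eq_empty_iff_forall_notMem]
      intro t ht
      have := hEt' t ht
      linarith [this.1, this.2]
    rw [hE0]
    simp only [MeasureTheory.Measure.restrict_empty, MeasureTheory.integral_zero_measure]
    positivity
  -- the exponents
  have hsum : (∑ i, (e i : ℝ)) * Real.log 2 ≤ 9 * Real.log 2 + l := by
    have h2 : Real.log ((2 : ℝ) ^ (∑ i, e i)) ≤ Real.log (2 ^ 9 * X) :=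
      Real.log_le_log (by positivity) he
    rw [Real.log_pow, Real.log_mul (by norm_num) hX0.ne', Real.log_pow, ← hldef] at h2
    push_cast at h2
    exact h2
  have hlog2 : (0.69 : ℝ) ≤ Real.log 2 := by
    have := Real.log_two_gt_d9
    linarith
  have hlog2' : Real.log 2 ≤ 0.7 := by
    have := Real.log_two_lt_d9
    linarith
  have hej : ∀ j, (e j : ℝ) * Real.log 2 ≤ 9 * Real.log 2 + l := by
    intro j
    have h2 : (e j : ℝ) ≤ ∑ i, (e i : ℝ) :=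
      Finset.single_le_sum (f := fun i => (e i : ℝ)) (fun _ _ => Nat.cast_nonneg _)
        (Finset.mem_univ j)
    exact (mul_le_mul_of_nonneg_right h2 (by linarith)).trans hsum
  have hl20 : (20 : ℝ) ≤ l := by
    have h3 : (20 : ℝ) ≤ 10 ^ 4 := by norm_num
    linarith
  have hej3 : ∀ j, 1 + (e j : ℝ) ≤ 3 * l := by
    intro j
    have h2 := hej j
    have h3 : ((e j : ℝ) - 9) * Real.log 2 ≤ l := by linarith
    by_contra hcon
    push Not at hcon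
    have h4 : 3 * l - 10 < (e j : ℝ) - 9 := by linarith
    have h5 : 0 < 3 * l - 10 := by linarith
    have h6 : (3 * l - 10) * 0.69 < ((e j : ℝ) - 9) * Real.log 2 := by
      have h7 : (3 * l - 10) * 0.69 ≤ (3 * l - 10) * Real.log 2 :=
        mul_le_mul_of_nonneg_left hlog2 h5.le
      have h8 : (3 * l - 10) * Real.log 2 < ((e j : ℝ) - 9) * Real.log 2 :=
        mul_lt_mul_of_pos_right h4 (by linarith)
      linarith
    linarith
  obtain ⟨i, hi3, hie⟩ := hi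
  have hapos : 1 ≤ e i := by
    by_contra hcon
    have h0 : e i = 0 := by omega
    rw [h0, pow_zero] at hie
    have h2 : (1 : ℝ) < X ^ ((3 : ℝ) / 8) := Real.one_lt_rpow (by linarith) (by norm_num)
    linarith
  obtain ⟨b, hb⟩ : ∃ b, e i = b + 1 := ⟨e i - 1, by omega⟩
  have hbX : (2 : ℝ) ^ (b + 1) ≤ 2 ^ 9 * X := by
    rw [← hb]
    refine le_trans ?_ he
    exact pow_le_pow_right₀ (by norm_num) (Finset.single_le_sum (f := e)
      (fun _ _ => Nat.zero_le _) (Finset.mem_univ i))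
  have hN1 : X ^ ((3 : ℝ) / 8) / 4 ≤ ((2 ^ b : ℕ) : ℝ) := by
    rw [hb, pow_succ] at hie
    push_cast
    have : (0 : ℝ) < 2 ^ b := by positivity
    linarith
  have hN2 : ((2 ^ b : ℕ) : ℝ) ≤ X ^ 2 := by
    rw [pow_succ] at hbX
    push_cast
    have h2 : (0 : ℝ) < 2 ^ b := by positivity
    nlinarith
  have hlogb : Real.log ((2 ^ (b + 1) : ℕ) : ℝ) ≤ 2 * l := by
    have h2 : Real.log ((2 ^ (b + 1) : ℕ) : ℝ) ≤ Real.log (2 ^ 9 * X) := by
      apply Real.log_le_log (by positivity)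
      push_cast
      exact hbX
    rw [Real.log_mul (by norm_num) hX0.ne', Real.log_pow, ← hldef] at h2
    have h3 : ((9 : ℕ) : ℝ) = 9 := by norm_num
    rw [h3] at h2
    linarith
  have hpt : ∀ t ∈ E, ‖SI.bp χ e t‖ ^ 2 ≤
      2 * 10 ^ 6 * l ^ 12 * ((l ^ (B + 1)) ^ 2 * (1 / t ^ 2) + (X ^ (-c)) ^ 2) := by
    intro t ht
    obtain ⟨ht1, ht2⟩ := hEt' t ht
    have ht0 : 1 ≤ |t| := hL1.trans ht1
    have htpos : 0 < |t| := by linarith
    obtain ⟨D, hDdef⟩ : ∃ D, D = l ^ (B + 1) / |t| + X ^ (-c) := ⟨_, rfl⟩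
    have hD : 0 ≤ D := by
      rw [hDdef]
      positivity
    have hone : ‖SI.pol (SI.cf χ i) (e i) t‖ ≤ 4 * l * D := by
      rw [hb]
      refine sb_one χ i hi3 b t D hD l hl1' hlogb ?_
      intro K hK
      have h2 := h1 X hXX1 q (by rw [← hldef]; exact hq) χ (2 ^ b) K t hN1 hN2
        (hK.trans (by rw [pow_succ]; omega)) ht0 ht2
      rw [← hldef, ← hDdef] at h2
      exact h2
    have hoth : ∀ j, ‖SI.pol (SI.cf χ j) (e j) t‖ ≤ 3 * l := fun j =>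
      (SI.pw_triv χ j (e j) t).trans (hej3 j)
    have hbp : ‖SI.bp χ e t‖ ≤ 4 * l * D * (3 * l) ^ 5 := by
      unfold SI.bp
      rw [norm_prod, ← Finset.mul_prod_erase Finset.univ _ (Finset.mem_univ i)]
      have h3 : ∏ j ∈ Finset.univ.erase i, ‖SI.pol (SI.cf χ j) (e j) t‖ ≤ (3 * l) ^ 5 := by
        have h4 : ∏ j ∈ Finset.univ.erase i, ‖SI.pol (SI.cf χ j) (e j) t‖ ≤
            ∏ _j ∈ Finset.univ.erase i, 3 * l :=
          Finset.prod_le_prod (fun j _ => norm_nonneg _) fun j _ => hoth j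
        rw [Finset.prod_const, Finset.card_erase_of_mem (Finset.mem_univ i), Finset.card_univ,
          Fintype.card_fin] at h4
        exact h4
      exact mul_le_mul hone h3 (Finset.prod_nonneg fun _ _ => norm_nonneg _) (by positivity)
    have hbp2 : ‖SI.bp χ e t‖ ^ 2 ≤ (4 * l * D * (3 * l) ^ 5) ^ 2 :=
      pow_le_pow_left₀ (norm_nonneg _) hbp 2
    have hD2 : D ^ 2 ≤ 2 * ((l ^ (B + 1)) ^ 2 * (1 / t ^ 2) + (X ^ (-c)) ^ 2) := by
      have h5 : (l ^ (B + 1)) ^ 2 * (1 / t ^ 2) = (l ^ (B + 1) / |t|) ^ 2 := by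
        rw [div_pow, sq_abs]
        ring
      rw [h5, hDdef]
      nlinarith [sq_nonneg (l ^ (B + 1) / |t| - X ^ (-c))]
    have h6 : 0 ≤ (l ^ (B + 1)) ^ 2 * (1 / t ^ 2) + (X ^ (-c)) ^ 2 := by positivity
    have h7 : 0 < l ^ 12 := by positivity
    calc ‖SI.bp χ e t‖ ^ 2 ≤ (4 * l * D * (3 * l) ^ 5) ^ 2 := hbp2
      _ = 944784 * l ^ 12 * D ^ 2 := by ring
      _ ≤ 944784 * l ^ 12 * (2 * ((l ^ (B + 1)) ^ 2 * (1 / t ^ 2) + (X ^ (-c)) ^ 2)) :=
          mul_le_mul_of_nonneg_left hD2 (by positivity)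
      _ = 1889568 * (l ^ 12 * ((l ^ (B + 1)) ^ 2 * (1 / t ^ 2) + (X ^ (-c)) ^ 2)) := by ring
      _ ≤ 2 * 10 ^ 6 * (l ^ 12 * ((l ^ (B + 1)) ^ 2 * (1 / t ^ 2) + (X ^ (-c)) ^ 2)) :=
          mul_le_mul_of_nonneg_right (by norm_num) (mul_nonneg h7.le h6)
      _ = _ := by ring
  obtain ⟨hti, htv⟩ := sb_tail L X hL0 hLX
  have hsub : E ⊆ Set.Icc L X ∪ Set.Icc (-X) (-L) := by
    intro t ht
    obtain ⟨ht1, ht2⟩ := hEt' t ht
    rcases le_or_gt 0 t with h0 | h0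
    · rw [abs_of_nonneg h0] at ht1 ht2
      exact Or.inl ⟨ht1, ht2⟩
    · rw [abs_of_neg h0] at ht1 ht2
      exact Or.inr ⟨by linarith, by linarith⟩
  have hiE : MeasureTheory.IntegrableOn (fun t : ℝ => 1 / t ^ 2) E := hti.mono_set hsub
  have hfin : MeasureTheory.volume E < ⊤ := hvol.trans_lt ENNReal.ofReal_lt_top
  have hcE : MeasureTheory.IntegrableOn (fun _ : ℝ => (X ^ (-c)) ^ 2) E :=
    MeasureTheory.integrableOn_const (hs := hfin.ne)
  have hbd : MeasureTheory.IntegrableOn (fun t : ℝ =>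
      2 * 10 ^ 6 * l ^ 12 * ((l ^ (B + 1)) ^ 2 * (1 / t ^ 2) + (X ^ (-c)) ^ 2)) E :=
    ((hiE.const_mul _).add hcE).const_mul _
  have hbc : Continuous (fun t => ‖SI.bp χ e t‖ ^ 2) := by
    unfold SI.bp
    exact (continuous_finsetProd _ fun j _ => SI.pol_cont _ _).norm.pow 2
  have hibp : MeasureTheory.IntegrableOn (fun t => ‖SI.bp χ e t‖ ^ 2) E := by
    refine MeasureTheory.Integrable.mono' hbd hbc.aestronglyMeasurable ?_
    refine (MeasureTheory.ae_restrict_iff' hE).2 (Filter.Eventually.of_forall fun t ht => ?_)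
    rw [Real.norm_of_nonneg (by positivity)]
    exact hpt t ht
  have hI1 : ∫ t in E, ‖SI.bp χ e t‖ ^ 2 ≤ ∫ t in E,
      2 * 10 ^ 6 * l ^ 12 * ((l ^ (B + 1)) ^ 2 * (1 / t ^ 2) + (X ^ (-c)) ^ 2) :=
    MeasureTheory.setIntegral_mono_on hibp hbd hE hpt
  have hI2 : ∫ t in E, 2 * 10 ^ 6 * l ^ 12 * ((l ^ (B + 1)) ^ 2 * (1 / t ^ 2) + (X ^ (-c)) ^ 2) =
      2 * 10 ^ 6 * l ^ 12 * ((l ^ (B + 1)) ^ 2 * (∫ t in E, 1 / t ^ 2) +
        MeasureTheory.volume.real E * (X ^ (-c)) ^ 2) := by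
    rw [MeasureTheory.integral_const_mul, MeasureTheory.integral_add (hiE.const_mul _) hcE,
      MeasureTheory.integral_const_mul, MeasureTheory.setIntegral_const, smul_eq_mul]
  have hI3 : ∫ t in E, 1 / t ^ 2 ≤ 2 / L := by
    refine le_trans ?_ htv
    refine MeasureTheory.setIntegral_mono_set hti (Filter.Eventually.of_forall fun t => ?_)
      hsub.eventuallyLE
    show 0 ≤ 1 / t ^ 2
    positivity
  have hvr : MeasureTheory.volume.real E ≤ X ^ (min c (1 / 100)) := by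
    unfold MeasureTheory.Measure.real
    exact ENNReal.toReal_le_of_le_ofReal (by positivity) hvol
  have hvr2 : MeasureTheory.volume.real E * (X ^ (-c)) ^ 2 ≤ X ^ (-c) := by
    have h2 : X ^ (min c (1 / 100)) ≤ X ^ c :=
      Real.rpow_le_rpow_of_exponent_le (by linarith) (min_le_left _ _)
    have h3 : MeasureTheory.volume.real E * (X ^ (-c)) ^ 2 ≤ X ^ c * (X ^ (-c)) ^ 2 :=
      mul_le_mul_of_nonneg_right (hvr.trans h2) (by positivity)
    refine h3.trans (le_of_eq ?_)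
    rw [sq, ← mul_assoc, ← Real.rpow_add hX0, add_neg_cancel, Real.rpow_zero, one_mul]
  have hXc : l ^ (12 + A) * X ^ (-c) ≤ 1 / (4 * 10 ^ 6) := by
    have h2 := (hl1 l hll1).le
    have h3 : X ^ (-c) = Real.exp (-c * l) := by
      rw [Real.rpow_def_of_pos hX0, ← hldef, mul_comm]
    rw [h3]
    exact h2
  have hA1 : l ^ (12 + A) = l ^ 12 * l ^ A := by
    rw [Real.rpow_add hl0]
    norm_cast
  have hApos : 0 < l ^ A := by positivity
  have hAneg : l ^ (-A) = 1 / l ^ A := by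
    rw [Real.rpow_neg hl0.le, one_div]
  have hfirst : 2 * 10 ^ 6 * l ^ 12 * ((l ^ (B + 1)) ^ 2 * (2 / L)) ≤ 1 / 2 * l ^ (-A) := by
    have h2 : L = l ^ A * (l ^ (B + 1)) ^ 2 * l ^ 18 := by
      rw [hLdef, ← Real.rpow_natCast (l ^ (B + 1)) 2, ← Real.rpow_mul hl0.le,
        ← Real.rpow_natCast l 18, ← Real.rpow_add hl0, ← Real.rpow_add hl0]
      congr 1
      push_cast
      ring
    have h3 : 0 < (l ^ (B + 1)) ^ 2 := by positivity
    have h4 : 2 * 10 ^ 6 * l ^ 12 * ((l ^ (B + 1)) ^ 2 * (2 / L)) =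
        4 * 10 ^ 6 / (l ^ 6) * (1 / l ^ A) := by
      rw [h2]
      field_simp
      norm_num
    rw [h4, hAneg]
    refine mul_le_mul_of_nonneg_right ?_ (by positivity)
    rw [div_le_iff₀ (by positivity)]
    have h5 : ((10 : ℝ) ^ 4) ^ 6 ≤ l ^ 6 := pow_le_pow_left₀ (by norm_num) hl4 6
    have h6 : (4 * 10 ^ 6 : ℝ) ≤ 1 / 2 * ((10 : ℝ) ^ 4) ^ 6 := by norm_num
    linarith
  have hsecond : 2 * 10 ^ 6 * l ^ 12 * X ^ (-c) ≤ 1 / 2 * l ^ (-A) := by
    rw [hA1] at hXc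
    rw [hAneg, mul_one_div, le_div_iff₀ hApos]
    have h2 : 2 * 10 ^ 6 * l ^ 12 * X ^ (-c) * l ^ A =
        2 * 10 ^ 6 * (l ^ 12 * l ^ A * X ^ (-c)) := by ring
    rw [h2]
    have h3 := mul_le_mul_of_nonneg_left hXc (show (0 : ℝ) ≤ 2 * 10 ^ 6 by norm_num)
    refine h3.trans ?_
    norm_num
  calc ∫ t in E, ‖SI.bp χ e t‖ ^ 2 ≤
      2 * 10 ^ 6 * l ^ 12 * ((l ^ (B + 1)) ^ 2 * (∫ t in E, 1 / t ^ 2) +
        MeasureTheory.volume.real E * (X ^ (-c)) ^ 2) := hI1.trans (le_of_eq hI2)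
    _ ≤ 2 * 10 ^ 6 * l ^ 12 * ((l ^ (B + 1)) ^ 2 * (2 / L) + X ^ (-c)) := by
        refine mul_le_mul_of_nonneg_left (add_le_add ?_ hvr2) (by positivity)
        exact mul_le_mul_of_nonneg_left hI3 (by positivity)
    _ = 2 * 10 ^ 6 * l ^ 12 * ((l ^ (B + 1)) ^ 2 * (2 / L)) + 2 * 10 ^ 6 * l ^ 12 * X ^ (-c) := by
        ring
    _ ≤ 1 / 2 * l ^ (-A) + 1 / 2 * l ^ (-A) := add_le_add hfirst hsecond
    _ = l ^ (-A) := by ring

end Pool.Agent.H43.TP
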