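import Pool.Agent.H43.SI.Mvp
import Pool.Agent.H43.TP.Hm

/-!
# [H43 TP REST] Products of the factors on a measurable set

PROOF. Exactly as `SI/Mvp.lean` with `hm` in place of `mvt`: `S = Σ_{i∈s} e_i`, `N = 2^S`,
`∏_{i∈s} pol .. t = Σ_{n<=N} (g(n)/n) n^(-it)` (`SI.mvp_series`), `|g(n)| <= (1+S)^6 τ_r(n)` (`SI.mvp_bound`), `g(n) = 0` unless
`2^S <= 64 n` (`SI.mvp_supp`), `Σ |g(n)/n|^2 <= C (1+S)^B 2^(-S)` (`SI.div_sq`, as in the proof of `SI.mvp`). `hm`: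
`<= C (2^S (1+log T) + |E| (2^(3S/4) + √T)(1+S)) (1+S)^B 2^(-S)
 <= C (1+S)^(B+1) (1+log T) (1 + |E| (2^(-S/4) + √T/2^S))`.
-/

namespace Pool.Agent.H43.TP

open Finset

private theorem rest_sum {q : ℕ} (χ : DirichletCharacter ℂ q) (e : Fin 6 → ℕ)
    (s : Finset (Fin 6)) :
    ∑ n ∈ Icc 1 (2 ^ (∑ i ∈ s, e i)),
      ‖(∏ i ∈ s, SI.af (SI.cf χ i) (e i)) n * (n : ℂ)⁻¹‖ ^ 2 ≤
      4096 * (1 + ((∑ i ∈ s, e i : ℕ) : ℝ)) ^ 48 / 2 ^ (∑ i ∈ s, e i) := by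
  set S : ℕ := ∑ i ∈ s, e i with hS
  set g := ∏ i ∈ s, SI.af (SI.cf χ i) (e i) with hg
  have hr : s.card ≤ 6 := by
    have := s.card_le_univ
    simpa using this
  have hS1 : (1 : ℝ) ≤ 1 + (S : ℝ) := by
    have : (0 : ℝ) ≤ S := Nat.cast_nonneg S
    linarith
  have hP : (0 : ℝ) < 2 ^ S := by positivity
  have hterm : ∀ n ∈ Icc 1 (2 ^ S), ‖g n * (n : ℂ)⁻¹‖ ^ 2 ≤
      (64 / 2 ^ S) ^ 2 * (1 + (S : ℝ)) ^ 12 *
        ((((ArithmeticFunction.zeta : ArithmeticFunction ℕ) ^ s.card) n : ℕ) : ℝ) ^ 2 := by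
    intro n hn
    rw [Finset.mem_Icc] at hn
    by_cases h0 : g n = 0
    · rw [h0, zero_mul, norm_zero, zero_pow (by norm_num)]
      positivity
    · obtain ⟨a1, a2, a3⟩ := SI.mvp_supp χ e s n h0
      have hnp : (0 : ℝ) < n := by exact_mod_cast a1
      have h4 : ((n : ℝ))⁻¹ ≤ 64 / 2 ^ S := by
        rw [inv_le_comm₀ hnp (by positivity), inv_div, div_le_iff₀ (by norm_num)]
        have h5 : (2 : ℝ) ^ S ≤ 2 ^ s.card * n := by exact_mod_cast a3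
        have h6 : (2 : ℝ) ^ s.card ≤ 2 ^ 6 := pow_le_pow_right₀ (by norm_num) hr
        calc (2 : ℝ) ^ S ≤ 2 ^ s.card * n := h5
          _ ≤ 2 ^ 6 * n := mul_le_mul_of_nonneg_right h6 hnp.le
          _ = n * 64 := by ring
      have h7 := SI.mvp_bound χ e s n
      rw [← hg, ← hS] at h7
      have h8 : ‖g n‖ ≤ (1 + (S : ℝ)) ^ 6 *
          ((((ArithmeticFunction.zeta : ArithmeticFunction ℕ) ^ s.card) n : ℕ) : ℝ) :=
        h7.trans (mul_le_mul_of_nonneg_right (pow_le_pow_right₀ hS1 hr) (Nat.cast_nonneg _))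
      rw [norm_mul, norm_inv, Complex.norm_natCast]
      calc (‖g n‖ * (n : ℝ)⁻¹) ^ 2 ≤ (((1 + (S : ℝ)) ^ 6 *
          ((((ArithmeticFunction.zeta : ArithmeticFunction ℕ) ^ s.card) n : ℕ) : ℝ)) *
            (64 / 2 ^ S)) ^ 2 := by
            apply pow_le_pow_left₀ (by positivity)
            exact mul_le_mul h8 h4 (by positivity) (by positivity)
        _ = _ := by ring
  refine (Finset.sum_le_sum hterm).trans ?_
  rw [← Finset.mul_sum]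
  have h9 := SI.div_sq s.card (2 ^ S) Nat.one_le_two_pow
  push_cast at h9
  have h10 : (1 + Real.log ((2 : ℝ) ^ S)) ^ (s.card ^ 2) ≤ (1 + (S : ℝ)) ^ 36 := by
    have h11 : 1 ≤ 1 + Real.log ((2 : ℝ) ^ S) := by
      have := Real.log_nonneg (show (1 : ℝ) ≤ 2 ^ S from one_le_pow₀ (by norm_num))
      linarith
    have h12 : 1 + Real.log ((2 : ℝ) ^ S) ≤ 1 + (S : ℝ) := by
      rw [Real.log_pow]
      have h13 := Real.log_two_lt_d9
      have h14 : (S : ℝ) * Real.log 2 ≤ S * 1 :=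
        mul_le_mul_of_nonneg_left (by linarith) (Nat.cast_nonneg S)
      linarith
    calc (1 + Real.log ((2 : ℝ) ^ S)) ^ (s.card ^ 2) ≤ (1 + (S : ℝ)) ^ (s.card ^ 2) :=
          pow_le_pow_left₀ (by linarith) h12 _
      _ ≤ (1 + (S : ℝ)) ^ 36 := by
          apply pow_le_pow_right₀ hS1
          calc s.card ^ 2 ≤ 6 ^ 2 := Nat.pow_le_pow_left hr 2
            _ = 36 := by norm_num
  calc (64 / 2 ^ S) ^ 2 * (1 + (S : ℝ)) ^ 12 * ∑ n ∈ Icc 1 (2 ^ S),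
        ((((ArithmeticFunction.zeta : ArithmeticFunction ℕ) ^ s.card) n : ℕ) : ℝ) ^ 2
      ≤ (64 / 2 ^ S) ^ 2 * (1 + (S : ℝ)) ^ 12 * (2 ^ S * (1 + (S : ℝ)) ^ 36) := by
        apply mul_le_mul_of_nonneg_left _ (by positivity)
        exact h9.trans (mul_le_mul_of_nonneg_left h10 hP.le)
    _ = 4096 * (1 + (S : ℝ)) ^ 48 / 2 ^ S := by
        field_simp
        ring

theorem rest : ∃ C : ℝ, 0 < C ∧ ∃ B : ℕ, ∀ (q : ℕ) (χ : DirichletCharacter ℂ q) (e : Fin 6 → ℕ)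
    (s : Finset (Fin 6)) (T : ℝ) (E : Set ℝ), 1 ≤ T → MeasurableSet E → E ⊆ Set.Icc (-T) T →
    ∫ t in E, ‖∏ i ∈ s, SI.pol (SI.cf χ i) (e i) t‖ ^ 2 ≤
      C * (1 + ((∑ i ∈ s, e i : ℕ) : ℝ)) ^ B * (1 + Real.log T) *
        (1 + (MeasureTheory.volume E).toReal *
          ((2 : ℝ) ^ (-((∑ i ∈ s, e i : ℕ) : ℝ) / 4) + Real.sqrt T / 2 ^ (∑ i ∈ s, e i))) := by
  obtain ⟨C, hC, hhm⟩ := hm
  refine ⟨4096 * C, by positivity, 49, ?_⟩
  intro q χ e s T E hT hE hET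
  have hsum := rest_sum χ e s
  have hser := SI.mvp_series χ e s
  set S : ℕ := ∑ i ∈ s, e i with hS
  set g := ∏ i ∈ s, SI.af (SI.cf χ i) (e i) with hg
  have h1 : ∀ t : ℝ, ∏ i ∈ s, SI.pol (SI.cf χ i) (e i) t =
      ∑ n ∈ Icc 1 (2 ^ S), (g n * (n : ℂ)⁻¹) * (n : ℂ) ^ (-((t : ℂ) * Complex.I)) := by
    intro t
    rw [hser]
    refine Finset.sum_congr rfl fun n hn => ?_
    rw [Finset.mem_Icc] at hn
    have hn0 : (n : ℂ) ≠ 0 := by
      have : n ≠ 0 := by omega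
      exact_mod_cast this
    rw [neg_add, Complex.cpow_add _ _ hn0, Complex.cpow_neg_one, mul_assoc]
  have h2 := hhm (2 ^ S) T (fun n => g n * (n : ℂ)⁻¹) E Nat.one_le_two_pow hT hE hET
  have h3 : ∫ t in E, ‖∏ i ∈ s, SI.pol (SI.cf χ i) (e i) t‖ ^ 2 =
      ∫ t in E, ‖∑ n ∈ Icc 1 (2 ^ S), (g n * (n : ℂ)⁻¹) *
        (n : ℂ) ^ (-((t : ℂ) * Complex.I))‖ ^ 2 := by
    congr 1
    funext t
    rw [h1 t]
  rw [h3]
  refine h2.trans ?_
  have hS0 : (0 : ℝ) ≤ S := Nat.cast_nonneg S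
  have hP : (0 : ℝ) < 2 ^ S := by positivity
  have hT0 : 0 ≤ Real.log T := Real.log_nonneg hT
  have hV : 0 ≤ (MeasureTheory.volume E).toReal := ENNReal.toReal_nonneg
  set V := (MeasureTheory.volume E).toReal with hVdef
  have hlog : Real.log (((2 ^ S : ℕ) : ℝ)) ≤ S := by
    push_cast
    rw [Real.log_pow]
    have h13 := Real.log_two_lt_d9
    calc (S : ℝ) * Real.log 2 ≤ S * 1 :=
          mul_le_mul_of_nonneg_left (by linarith) hS0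
      _ = S := mul_one _
  have hlog0 : 0 ≤ Real.log (((2 ^ S : ℕ) : ℝ)) := by
    apply Real.log_nonneg
    push_cast
    exact one_le_pow₀ (by norm_num)
  have hcast : (((2 ^ S : ℕ) : ℝ)) = (2 : ℝ) ^ S := by push_cast; rfl
  have hpw : (((2 ^ S : ℕ) : ℝ)) ^ ((3 : ℝ) / 4) = 2 ^ S * (2 : ℝ) ^ (-(S : ℝ) / 4) := by
    rw [hcast, ← Real.rpow_natCast, ← Real.rpow_mul (by norm_num), ← Real.rpow_add (by norm_num)]
    congr 1
    ring
  rw [hcast] at hlog hlog0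
  rw [hpw, hcast]
  set w := (2 : ℝ) ^ (-(S : ℝ) / 4) with hw
  have hw0 : 0 ≤ w := (Real.rpow_pos_of_pos (by norm_num) _).le
  have hq0 : 0 ≤ Real.sqrt T := Real.sqrt_nonneg T
  set L := Real.log ((2 : ℝ) ^ S) with hL
  calc C * (2 ^ S * (1 + Real.log T) + V * (2 ^ S * w + Real.sqrt T) * (1 + L)) *
        ∑ n ∈ Icc 1 (2 ^ S), ‖g n * (n : ℂ)⁻¹‖ ^ 2
      ≤ C * (2 ^ S * (1 + Real.log T) + V * (2 ^ S * w + Real.sqrt T) * (1 + L)) *
        (4096 * (1 + (S : ℝ)) ^ 48 / 2 ^ S) := by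
        apply mul_le_mul_of_nonneg_left hsum
        positivity
    _ = 4096 * C * (1 + (S : ℝ)) ^ 48 *
        ((1 + Real.log T) + V * (w + Real.sqrt T / 2 ^ S) * (1 + L)) := by
        field_simp
    _ ≤ 4096 * C * (1 + (S : ℝ)) ^ 48 *
        ((1 + (S : ℝ)) * (1 + Real.log T) * (1 + V * (w + Real.sqrt T / 2 ^ S))) := by
        apply mul_le_mul_of_nonneg_left _ (by positivity)
        have hZ : 0 ≤ V * (w + Real.sqrt T / 2 ^ S) := by positivity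
        set Z := V * (w + Real.sqrt T / 2 ^ S) with hZd
        have e1 : Z * (1 + L) ≤ Z * (1 + (S : ℝ)) :=
          mul_le_mul_of_nonneg_left (by linarith) hZ
        nlinarith [mul_nonneg hS0 hT0, mul_nonneg hS0 hZ, mul_nonneg hT0 hZ,
          mul_nonneg (mul_nonneg hS0 hT0) hZ]
    _ = 4096 * C * (1 + (S : ℝ)) ^ 49 * (1 + Real.log T) *
        (1 + V * (w + Real.sqrt T / 2 ^ S)) := by ring

end Pool.Agent.H43.TP
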