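import Pool.Agent.H43.SI.Add
import Pool.Agent.H43.TP.Pc

/-!
# [H43 TP ADD] Additive windows

PROOF. As `SI/Add.lean` (copy its private lemmas, with `gg P P2` in place of `Λ`, `Sg` in place of `Sa`). `ℓ = log X`, `K = A + 4`,
`κ = ℓ^(-K)` (`<= 1/10`), `δ = κH/X`. `pcw` with `(B+1, A+2)` at `X' = X/2, X, 2X` (`A3' = A3 + 1`): admissible if `A2 = A2' + 1`
(`(log X')^A2' <= ℓ^A2`), `P2 <= ℓ^A3 <= (log X')^(A3+1)`, `q <= ℓ^B <= (log X')^(B+1)`, `C1 = C1' + K + 1`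
(`κH/X >= ℓ^(C1-K)/X >= X'^(-1) (log X')^C1'`), `A1 = A1' + 1`, all for `X` large. `Nm >= 24X`. Pointwise, as in `SI/Add.lean`,
`|Th(n) - kap H/φ(q)| <= 3κH kap + (1/δ) ∫_{J_n} |E(y)| dy`, `J_n = [log n - δ, log(n+H)]`, `|J_n| <= 2H/X`,
`E(y) = Sg δ y - kap δ e^y/φ(q)`. `kap P P2 <= 1 + log P2 <= ℓ` for `X` large. Squares, sum over `n ∈ (X,2X]` (a given `y` lies in
`J_n` for at most `3H` values of `n`): `<= 18 κ^2 H^2 ℓ^2 X + 2 δ^(-2) (2H/X)(3H) Σ_{X'} δ^2 X'^2 (log X')^(-A-2)`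
`<= 18 X H^2 ℓ^(2-2K) + 200 H^2 X (ℓ/2)^(-A-2) <= X H^2 ℓ^(-A)` for `X` large.
-/

namespace Pool.Agent.H43.TP

open Finset MeasureTheory

/-- sum of `g m` over `m ≡ a`, `y < log m <= y + δ` -/
noncomputable def sgG (g : ℕ → ℝ) (q : ℕ) (a : ZMod q) (Nm : ℕ) (δ y : ℝ) : ℝ :=
  ∑ n ∈ (Icc 1 Nm).filter (fun n : ℕ => (n : ZMod q) = a ∧ y < Real.log n ∧ Real.log n ≤ y + δ),
    g n

/-- sum of `g m` over `n < m <= n+H`, `m ≡ a` -/
noncomputable def thG (g : ℕ → ℝ) (q : ℕ) (a : ZMod q) (n H : ℕ) : ℝ :=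
  ∑ m ∈ (Ioc n (n + H)).filter (fun m : ℕ => (m : ZMod q) = a), g m

/-! # the indicator of `y < c <= y + δ` -/

private noncomputable def addI (c δ y : ℝ) : ℝ := if y < c ∧ c ≤ y + δ then 1 else 0

private lemma addI_eq (c δ : ℝ) :
    addI c δ = Set.indicator (Set.Ico (c - δ) c) (1 : ℝ → ℝ) := by
  funext y
  unfold addI
  by_cases h : y ∈ Set.Ico (c - δ) c
  · rw [Set.indicator_of_mem h, if_pos ⟨h.2, by linarith [h.1]⟩, Pi.one_apply]
  · rw [Set.indicator_of_notMem h, if_neg]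
    rintro ⟨h1, h2⟩
    exact h ⟨by linarith, h1⟩

private lemma addI_nonneg (c δ y : ℝ) : 0 ≤ addI c δ y := by
  unfold addI
  split_ifs <;> norm_num

private lemma addI_le (c δ y : ℝ) : addI c δ y ≤ 1 := by
  unfold addI
  split_ifs <;> norm_num

private lemma addI_meas (c δ : ℝ) : Measurable (addI c δ) := by
  rw [addI_eq]
  exact measurable_one.indicator measurableSet_Ico

private lemma addI_integral (c δ : ℝ) (hδ : 0 < δ) : ∫ y, addI c δ y = δ := by
  rw [addI_eq, integral_indicator_one measurableSet_Ico,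
    Real.volume_real_Ico_of_le (by linarith)]
  ring

private lemma addI_int (c δ : ℝ) : Integrable (addI c δ) := by
  rw [addI_eq, integrable_indicator_iff measurableSet_Ico]
  have h : IntegrableOn (fun _ : ℝ => (1 : ℝ)) (Set.Ico (c - δ) c) :=
    integrableOn_const (by simp)
  exact h

private lemma addI_full (c δ : ℝ) (hδ : 0 < δ) : ∫ y in (c - δ)..c, addI c δ y = δ := by
  rw [intervalIntegral.integral_of_le (by linarith), integral_Ioc_eq_integral_Ioo]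
  have h1 : ∀ y ∈ Set.Ioo (c - δ) c, addI c δ y = (fun _ : ℝ => (1 : ℝ)) y := by
    intro y hy
    unfold addI
    rw [if_pos ⟨hy.2, by linarith [hy.1]⟩]
  rw [setIntegral_congr_fun measurableSet_Ioo h1]
  simp [hδ.le]

private lemma addI_ge (c δ u v : ℝ) (hδ : 0 < δ) (h1 : u ≤ c - δ) (h2 : c ≤ v) :
    δ ≤ ∫ y in u..v, addI c δ y := by
  have h3 := intervalIntegral.integral_mono_interval (μ := volume) (f := addI c δ) h1
    (show c - δ ≤ c by linarith) h2 (Filter.Eventually.of_forall (addI_nonneg c δ))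
    (addI_int c δ).intervalIntegrable
  rwa [addI_full c δ hδ] at h3

private lemma addI_up (c δ u v : ℝ) (hδ : 0 < δ) (huv : u ≤ v) :
    ∫ y in u..v, addI c δ y ≤ δ := by
  rw [intervalIntegral.integral_of_le huv]
  have h := setIntegral_le_integral (s := Set.Ioc u v) (addI_int c δ)
    (Filter.Eventually.of_forall (addI_nonneg c δ))
  rw [addI_integral c δ hδ] at h
  exact h

private lemma addI_zero (c δ u v : ℝ) (huv : u ≤ v) (h : c ≤ u ∨ v < c - δ) :
    ∫ y in u..v, addI c δ y = 0 := by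
  rw [intervalIntegral.integral_of_le huv]
  apply setIntegral_eq_zero_of_forall_eq_zero
  intro y hy
  unfold addI
  rw [if_neg]
  rintro ⟨h1, h2⟩
  rcases h with h | h
  · linarith [hy.1]
  · linarith [hy.2]

private lemma addI_pos_int (c δ u v : ℝ) (huv : u ≤ v) : 0 ≤ ∫ y in u..v, addI c δ y :=
  intervalIntegral.integral_nonneg huv fun y _ => addI_nonneg c δ y

/-! # the sums -/

private lemma add_Sa (g : ℕ → ℝ) (q : ℕ) (a : ZMod q) (Nm : ℕ) (δ y : ℝ) :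
    sgG g q a Nm δ y = ∑ m ∈ (Icc 1 Nm).filter (fun m : ℕ => (m : ZMod q) = a),
      g m * addI (Real.log m) δ y := by
  unfold sgG addI
  rw [← filter_filter, sum_filter]
  refine sum_congr rfl fun m _ => ?_
  split_ifs <;> simp

private lemma add_Sa_meas (g : ℕ → ℝ) (q : ℕ) (a : ZMod q) (Nm : ℕ) (δ : ℝ) :
    Measurable (sgG g q a Nm δ) := by
  have h : sgG g q a Nm δ = fun y => ∑ m ∈ (Icc 1 Nm).filter (fun m : ℕ => (m : ZMod q) = a),
      g m * addI (Real.log m) δ y := by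
    funext y
    exact add_Sa g q a Nm δ y
  rw [h]
  exact Finset.measurable_sum _ fun m _ => (addI_meas _ _).const_mul _

private lemma add_Sa_int (g : ℕ → ℝ) (q : ℕ) (a : ZMod q) (Nm : ℕ) (δ : ℝ) :
    Integrable (sgG g q a Nm δ) := by
  have h : sgG g q a Nm δ = fun y => ∑ m ∈ (Icc 1 Nm).filter (fun m : ℕ => (m : ZMod q) = a),
      g m * addI (Real.log m) δ y := by
    funext y
    exact add_Sa g q a Nm δ y
  rw [h]
  exact integrable_finsetSum _ fun m _ => (addI_int _ _).const_mul _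

private lemma add_Sa_nonneg (g : ℕ → ℝ) (hg : ∀ n, 0 ≤ g n) (q : ℕ) (a : ZMod q) (Nm : ℕ) (δ y : ℝ) : 0 ≤ sgG g q a Nm δ y := by
  rw [add_Sa g]
  exact sum_nonneg fun m _ => mul_nonneg (hg _)
    (addI_nonneg _ _ _)

private lemma add_Sa_le (g : ℕ → ℝ) (hg : ∀ n, 0 ≤ g n) (q : ℕ) (a : ZMod q) (Nm : ℕ) (δ y : ℝ) :
    sgG g q a Nm δ y ≤ ∑ m ∈ (Icc 1 Nm).filter (fun m : ℕ => (m : ZMod q) = a),
      g m := by
  rw [add_Sa g]
  exact sum_le_sum fun m _ => mul_le_of_le_one_right (hg _)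
    (addI_le _ _ _)

private lemma add_Sa_integral (g : ℕ → ℝ) (q : ℕ) (a : ZMod q) (Nm : ℕ) (δ u v : ℝ) :
    ∫ y in u..v, sgG g q a Nm δ y = ∑ m ∈ (Icc 1 Nm).filter (fun m : ℕ => (m : ZMod q) = a),
      g m * ∫ y in u..v, addI (Real.log m) δ y := by
  have h : sgG g q a Nm δ = fun y => ∑ m ∈ (Icc 1 Nm).filter (fun m : ℕ => (m : ZMod q) = a),
      g m * addI (Real.log m) δ y := by
    funext y
    exact add_Sa g q a Nm δ y
  rw [h, intervalIntegral.integral_finsetSum]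
  · refine sum_congr rfl fun m _ => ?_
    rw [intervalIntegral.integral_const_mul]
  · intro m _
    exact ((addI_int _ _).const_mul _).intervalIntegrable

private lemma add_upper (g : ℕ → ℝ) (hg : ∀ n, 0 ≤ g n) (q : ℕ) (a : ZMod q) (Nm : ℕ) (δ : ℝ) (hδ : 0 < δ) (n H : ℕ) (hn : 1 ≤ n)
    (hNm : n + H ≤ Nm) :
    δ * thG g q a n H ≤ ∫ y in (Real.log n - δ)..(Real.log ((n + H : ℕ) : ℝ)), sgG g q a Nm δ y := by
  have hn0 : (0 : ℝ) < n := by exact_mod_cast hn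
  have huv : Real.log n ≤ Real.log ((n + H : ℕ) : ℝ) :=
    Real.log_le_log hn0 (by exact_mod_cast Nat.le_add_right n H)
  rw [add_Sa_integral g]
  unfold thG
  rw [mul_sum]
  calc ∑ m ∈ (Ioc n (n + H)).filter (fun m : ℕ => (m : ZMod q) = a),
        δ * g m
      ≤ ∑ m ∈ (Ioc n (n + H)).filter (fun m : ℕ => (m : ZMod q) = a),
        g m *
          ∫ y in (Real.log n - δ)..(Real.log ((n + H : ℕ) : ℝ)), addI (Real.log m) δ y := by
        refine sum_le_sum fun m hm => ?_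
        obtain ⟨h1, h2⟩ := mem_Ioc.1 (mem_filter.1 hm).1
        rw [mul_comm]
        apply mul_le_mul_of_nonneg_left _ (hg _)
        apply addI_ge _ _ _ _ hδ
        · have : Real.log n ≤ Real.log m := Real.log_le_log hn0 (by exact_mod_cast h1.le)
          linarith
        · exact Real.log_le_log (by exact_mod_cast (by omega : 0 < m)) (by exact_mod_cast h2)
    _ ≤ _ := by
        apply sum_le_sum_of_subset_of_nonneg
        · intro m hm
          obtain ⟨h1, h2⟩ := mem_filter.1 hm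
          rw [mem_Ioc] at h1
          exact mem_filter.2 ⟨mem_Icc.2 ⟨by omega, by omega⟩, h2⟩
        · intro m _ _
          exact mul_nonneg (hg _)
            (addI_pos_int _ _ _ _ (by linarith))

private lemma add_lower (g : ℕ → ℝ) (hg : ∀ n, 0 ≤ g n) (q : ℕ) (a : ZMod q) (Nm : ℕ) (δ : ℝ) (hδ : 0 < δ) (n H : ℕ) (hn : 1 ≤ n)
    (hNm : n + H ≤ Nm) (huv : Real.log n ≤ Real.log ((n + H : ℕ) : ℝ) - δ) :
    ∫ y in (Real.log n)..(Real.log ((n + H : ℕ) : ℝ) - δ), sgG g q a Nm δ y ≤ δ * thG g q a n H := by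
  have hn0 : (0 : ℝ) < n := by exact_mod_cast hn
  rw [add_Sa_integral g]
  unfold thG
  rw [mul_sum]
  have hsub : (Ioc n (n + H)).filter (fun m : ℕ => (m : ZMod q) = a) ⊆
      (Icc 1 Nm).filter (fun m : ℕ => (m : ZMod q) = a) := by
    intro m hm
    obtain ⟨h1, h2⟩ := mem_filter.1 hm
    rw [mem_Ioc] at h1
    exact mem_filter.2 ⟨mem_Icc.2 ⟨by omega, by omega⟩, h2⟩
  rw [← sum_subset hsub]
  · refine sum_le_sum fun m hm => ?_
    rw [mul_comm δ]
    exact mul_le_mul_of_nonneg_left (addI_up _ _ _ _ hδ huv)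
      (hg _)
  · intro m hm hm2
    obtain ⟨h1, h2⟩ := mem_filter.1 hm
    rw [mem_Icc] at h1
    have h3 : m ≤ n ∨ n + H < m := by
      by_contra hcon
      push Not at hcon
      exact hm2 (mem_filter.2 ⟨mem_Ioc.2 ⟨hcon.1, hcon.2⟩, h2⟩)
    rw [addI_zero _ _ _ _ huv, mul_zero]
    rcases h3 with h3 | h3
    · left
      exact Real.log_le_log (by exact_mod_cast (by omega : 0 < m)) (by exact_mod_cast h3)
    · right
      have : Real.log ((n + H : ℕ) : ℝ) < Real.log m :=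
        Real.log_lt_log (by exact_mod_cast (by omega : 0 < n + H)) (by exact_mod_cast h3)
      linarith

/-! # the error function -/

private noncomputable def addE (g : ℕ → ℝ) (c : ℝ) (q : ℕ) (a : ZMod q) (Nm : ℕ) (δ y : ℝ) : ℝ :=
  sgG g q a Nm δ y - c * δ * Real.exp y

private lemma addE_meas (g : ℕ → ℝ) (c : ℝ) (q : ℕ) (a : ZMod q) (Nm : ℕ) (δ : ℝ) : Measurable (addE g c q a Nm δ) := by
  unfold addE
  exact (add_Sa_meas g q a Nm δ).sub (Real.measurable_exp.const_mul (c * δ))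

private lemma add_main_int (c δ u v : ℝ) :
    IntervalIntegrable (fun y => c * δ * Real.exp y) volume u v := by
  apply Continuous.intervalIntegrable
  exact continuous_const.mul Real.continuous_exp

private lemma addE_int (g : ℕ → ℝ) (c : ℝ) (q : ℕ) (a : ZMod q) (Nm : ℕ) (δ u v : ℝ) :
    IntervalIntegrable (addE g c q a Nm δ) volume u v :=
  (add_Sa_int g q a Nm δ).intervalIntegrable.sub (add_main_int c δ u v)

private lemma addE_bound (g : ℕ → ℝ) (hg : ∀ n, 0 ≤ g n) (c : ℝ) (hc : 0 ≤ c) (q : ℕ) (a : ZMod q) (Nm : ℕ) (δ : ℝ) (hδ : 0 < δ) (v y : ℝ)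
    (hy : y ≤ v) : |addE g c q a Nm δ y| ≤
      (∑ m ∈ (Icc 1 Nm).filter (fun m : ℕ => (m : ZMod q) = a),
        g m) + c * δ * Real.exp v := by
  unfold addE
  have h1 := add_Sa_nonneg g hg q a Nm δ y
  have h2 := add_Sa_le g hg q a Nm δ y
  have h3 : 0 ≤ c * δ * Real.exp y := by positivity
  have h4 : c * δ * Real.exp y ≤ c * δ * Real.exp v := by
    exact mul_le_mul_of_nonneg_left (Real.exp_le_exp.2 hy) (by positivity)
  rw [abs_le]
  constructor <;> linarith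

private lemma addE_sq_int (g : ℕ → ℝ) (hg : ∀ n, 0 ≤ g n) (c : ℝ) (hc : 0 ≤ c) (q : ℕ) (a : ZMod q) (Nm : ℕ) (δ : ℝ) (hδ : 0 < δ) (u v : ℝ)
    (huv : u ≤ v) : IntegrableOn (fun y => addE g c q a Nm δ y ^ 2) (Set.Ioc u v) volume := by
  have hb : ∀ᵐ y ∂(volume.restrict (Set.Ioc u v)), ‖addE g c q a Nm δ y ^ 2‖ ≤
      ((∑ m ∈ (Icc 1 Nm).filter
    (fun m : ℕ => (m : ZMod q) = a), g m) +
      c * δ * Real.exp v) ^ 2 := by
    rw [ae_restrict_iff' measurableSet_Ioc]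
    refine Filter.Eventually.of_forall fun y hy => ?_
    rw [Real.norm_eq_abs, abs_pow]
    exact pow_le_pow_left₀ (abs_nonneg _) (addE_bound g hg c hc q a Nm δ hδ v y hy.2) 2
  exact Measure.integrableOn_of_bounded (by simp)
    ((addE_meas g c q a Nm δ).pow_const 2).aestronglyMeasurable hb

private lemma addE_sq_ii (g : ℕ → ℝ) (hg : ∀ n, 0 ≤ g n) (c : ℝ) (hc : 0 ≤ c) (q : ℕ) (a : ZMod q) (Nm : ℕ) (δ : ℝ) (hδ : 0 < δ) (u v : ℝ)
    (huv : u ≤ v) : IntervalIntegrable (fun y => addE g c q a Nm δ y ^ 2) volume u v :=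
  (intervalIntegrable_iff_integrableOn_Ioc_of_le huv).2 (addE_sq_int g hg c hc q a Nm δ hδ u v huv)

/-- Cauchy-Schwarz -/
private lemma add_cs (f : ℝ → ℝ) (u v : ℝ) (huv : u < v) (hf : IntervalIntegrable f volume u v)
    (hf2 : IntervalIntegrable (fun y => f y ^ 2) volume u v) :
    (∫ y in u..v, f y) ^ 2 ≤ (v - u) * ∫ y in u..v, f y ^ 2 := by
  set I := ∫ y in u..v, f y with hI
  set K := ∫ y in u..v, f y ^ 2 with hK
  have hl : 0 < v - u := by linarith
  set t := I / (v - u) with ht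
  have h1 : 0 ≤ ∫ y in u..v, (f y - t) ^ 2 :=
    intervalIntegral.integral_nonneg huv.le fun y _ => sq_nonneg _
  have h2 : ∫ y in u..v, (f y - t) ^ 2 = K - 2 * t * I + t ^ 2 * (v - u) := by
    have e : (fun y => (f y - t) ^ 2) = fun y => (f y ^ 2 - (2 * t) * f y) + t ^ 2 := by
      funext y
      ring
    rw [e, intervalIntegral.integral_add (hf2.sub (hf.const_mul _)) intervalIntegrable_const,
      intervalIntegral.integral_sub hf2 (hf.const_mul _), intervalIntegral.integral_const_mul,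
      intervalIntegral.integral_const, smul_eq_mul]
    ring
  rw [h2] at h1
  have h3 : t * (v - u) = I := div_mul_cancel₀ _ hl.ne'
  have h4 : (v - u) * (K - 2 * t * I + t ^ 2 * (v - u)) = (v - u) * K - I ^ 2 := by
    have e : (v - u) * (K - 2 * t * I + t ^ 2 * (v - u)) =
        (v - u) * K - 2 * (t * (v - u)) * I + (t * (v - u)) ^ 2 := by ring
    rw [e, h3]
    ring
  have h5 := mul_nonneg hl.le h1
  rw [h4] at h5
  linarith

/-- the pointwise estimate -/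
private lemma add_point (g : ℕ → ℝ) (hg : ∀ n, 0 ≤ g n) (c : ℝ) (hc : 0 ≤ c) (q : ℕ) [NeZero q] (a : ZMod q) (Nm : ℕ) (X δ κ : ℝ) (hX : 10 ≤ X)
    (hκ0 : 0 < κ) (hκ : κ ≤ 1 / 20) (n H : ℕ) (hH1 : 1 ≤ H) (hHX : (H : ℝ) ≤ X)
    (hδ : δ = κ * H / X) (hn1 : X < n) (hn2 : (n : ℝ) ≤ 2 * X) (hNm : n + H ≤ Nm) :
    (thG g q a n H - c * H) ^ 2 ≤ 18 * κ ^ 2 * c ^ 2 * (H : ℝ) ^ 2 +
      4 * H / (X * δ ^ 2) *
        ∫ y in (Real.log n - δ)..(Real.log ((n + H : ℕ) : ℝ)), addE g c q a Nm δ y ^ 2 := by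
  have hX0 : 0 < X := by linarith
  have hH0 : (0 : ℝ) < H := by exact_mod_cast hH1
  have hn0 : (0 : ℝ) < n := by linarith
  have hn1' : 1 ≤ n := by
    have : (0 : ℝ) < n := hn0
    exact_mod_cast this
  have hδ0 : 0 < δ := by rw [hδ]; positivity
  have hδX : δ * X = κ * H := by rw [hδ]; field_simp
  have hδκ : δ ≤ κ := by
    rw [hδ, div_le_iff₀ hX0]
    exact mul_le_mul_of_nonneg_left hHX hκ0.le
  set N' : ℝ := ((n + H : ℕ) : ℝ) with hN'
  have hN'e : N' = n + H := by rw [hN']; push_cast; rfl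
  have hN'0 : 0 < N' := by rw [hN'e]; linarith
  have hlog1 : Real.log N' - Real.log n = Real.log (N' / n) :=
    (Real.log_div hN'0.ne' hn0.ne').symm
  -- log(1 + H/n) >= H/(n+H) >= H/(3X) > δ
  have hlow : δ ≤ Real.log N' - Real.log n := by
    rw [hlog1]
    have h1 := Real.one_sub_inv_le_log_of_pos (show 0 < N' / n by positivity)
    have h2 : 1 - (N' / n)⁻¹ = H / N' := by
      rw [inv_div]
      field_simp
      rw [hN'e]
      ring
    rw [h2] at h1
    refine le_trans ?_ h1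
    rw [le_div_iff₀ hN'0]
    have h3 : N' ≤ 3 * X := by rw [hN'e]; linarith
    calc δ * N' ≤ δ * (3 * X) := mul_le_mul_of_nonneg_left h3 hδ0.le
      _ = 3 * κ * H := by rw [← mul_assoc, mul_comm δ 3, mul_assoc, hδX]; ring
      _ ≤ 1 * H := mul_le_mul_of_nonneg_right (by linarith) hH0.le
      _ = H := one_mul _
  have hup : Real.log N' - Real.log n ≤ H / X := by
    rw [hlog1]
    have h1 := Real.log_le_sub_one_of_pos (show 0 < N' / n by positivity)
    have h2 : N' / n - 1 = H / n := by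
      rw [hN'e]
      field_simp
      ring
    rw [h2] at h1
    exact h1.trans (div_le_div_of_nonneg_left hH0.le hX0 hn1.le)
  set u1 := Real.log n - δ with hu1
  set v1 := Real.log N' with hv1
  have huv1 : u1 < v1 := by linarith
  have hA := add_upper g hg q a Nm δ hδ0 n H hn1' hNm
  have hB := add_lower g hg q a Nm δ hδ0 n H hn1' hNm (by linarith)
  rw [← hN', ← hu1, ← hv1] at hA
  rw [← hN', ← hv1] at hB
  have hSE : ∀ u v : ℝ, ∫ y in u..v, sgG g q a Nm δ y =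
      (∫ y in u..v, addE g c q a Nm δ y) + c * δ * (Real.exp v - Real.exp u) := by
    intro u v
    have e : (fun y => sgG g q a Nm δ y) = fun y => addE g c q a Nm δ y + c * δ * Real.exp y := by
      funext y
      unfold addE
      ring
    rw [e, intervalIntegral.integral_add (addE_int g c q a Nm δ u v) (add_main_int c δ u v)]
    congr 1
    rw [intervalIntegral.integral_const_mul, integral_exp]
  rw [hSE] at hA hB
  set I := ∫ y in u1..v1, |addE g c q a Nm δ y| with hI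
  have hI0 : 0 ≤ I := intervalIntegral.integral_nonneg huv1.le fun y _ => abs_nonneg _
  have hEa : ∀ u v : ℝ, u ≤ v → |∫ y in u..v, addE g c q a Nm δ y| ≤
      ∫ y in u..v, |addE g c q a Nm δ y| := fun u v h =>
    intervalIntegral.abs_integral_le_integral_abs h
  have hIA : ∫ y in u1..v1, addE g c q a Nm δ y ≤ I := (le_abs_self _).trans (hEa u1 v1 huv1.le)
  have hIB : -I ≤ ∫ y in (Real.log n)..(v1 - δ), addE g c q a Nm δ y := by
    have h1 := hEa (Real.log n) (v1 - δ) (by linarith)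
    have h2 : ∫ y in (Real.log n)..(v1 - δ), |addE g c q a Nm δ y| ≤ I := by
      apply intervalIntegral.integral_mono_interval (μ := volume)
        (f := fun y => |addE g c q a Nm δ y|) (by linarith) (by linarith) (by linarith)
        (Filter.Eventually.of_forall fun y => abs_nonneg _)
      exact (addE_int g c q a Nm δ u1 v1).abs
    have h3 := neg_abs_le (∫ y in (Real.log n)..(v1 - δ), addE g c q a Nm δ y)
    linarith
  have hexp1 : Real.exp v1 = n + H := by rw [hv1, Real.exp_log hN'0, hN'e]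
  have hexp2 : Real.exp (Real.log n) = n := Real.exp_log hn0
  have hd := Real.add_one_le_exp (-δ)
  have hexp3 : (n : ℝ) * (1 - δ) ≤ Real.exp u1 := by
    rw [hu1, show Real.log n - δ = Real.log n + (-δ) by ring, Real.exp_add, hexp2]
    exact mul_le_mul_of_nonneg_left (by linarith) hn0.le
  have hexp4 : ((n : ℝ) + H) * (1 - δ) ≤ Real.exp (v1 - δ) := by
    rw [show v1 - δ = v1 + (-δ) by ring, Real.exp_add, hexp1]
    exact mul_le_mul_of_nonneg_left (by linarith) (by linarith)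
  set T := thG g q a n H with hT
  have hcδ : 0 ≤ c * δ := by positivity
  have hU : δ * (T - c * H) ≤ I + 3 * κ * H * c * δ := by
    have h1 : c * δ * (Real.exp v1 - Real.exp u1) ≤ c * δ * (H + n * δ) := by
      apply mul_le_mul_of_nonneg_left _ hcδ
      rw [hexp1]
      linarith
    have h2 : c * δ * (n * δ) ≤ c * δ * (2 * X * δ) := by
      apply mul_le_mul_of_nonneg_left _ hcδ
      exact mul_le_mul_of_nonneg_right hn2 hδ0.le
    have h3 : c * δ * (2 * X * δ) ≤ 3 * κ * H * c * δ := by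
      have : c * δ * (2 * X * δ) = 2 * (δ * X) * c * δ := by ring
      rw [this, hδX]
      have : 0 ≤ κ * H * c * δ := by positivity
      nlinarith
    have h4 : c * δ * (H + n * δ) = δ * (c * H) + c * δ * (n * δ) := by ring
    have h5 : δ * (T - c * H) = δ * T - δ * (c * H) := by ring
    rw [h5]
    linarith
  have hL : -(I + 3 * κ * H * c * δ) ≤ δ * (T - c * H) := by
    have h1 : c * δ * (H - (n + H) * δ) ≤ c * δ * (Real.exp (v1 - δ) - Real.exp (Real.log n)) := by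
      apply mul_le_mul_of_nonneg_left _ hcδ
      rw [hexp2]
      linarith
    have h2 : c * δ * ((n + H) * δ) ≤ c * δ * (3 * X * δ) := by
      apply mul_le_mul_of_nonneg_left _ hcδ
      exact mul_le_mul_of_nonneg_right (by linarith) hδ0.le
    have h3 : c * δ * (3 * X * δ) = 3 * κ * H * c * δ := by
      have : c * δ * (3 * X * δ) = 3 * (δ * X) * c * δ := by ring
      rw [this, hδX]
      ring
    have h4 : c * δ * (H - (n + H) * δ) = δ * (c * H) - c * δ * ((n + H) * δ) := by ring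
    have h5 : δ * (T - c * H) = δ * T - δ * (c * H) := by ring
    rw [h5]
    linarith
  have hsq : δ ^ 2 * (T - c * H) ^ 2 ≤ 2 * I ^ 2 + 18 * κ ^ 2 * c ^ 2 * (H : ℝ) ^ 2 * δ ^ 2 := by
    have h1 : (δ * (T - c * H)) ^ 2 ≤ (I + 3 * κ * H * c * δ) ^ 2 := sq_le_sq' hL hU
    have h2 : (I + 3 * κ * H * c * δ) ^ 2 ≤ 2 * I ^ 2 + 2 * (3 * κ * H * c * δ) ^ 2 := by
      nlinarith [sq_nonneg (I - 3 * κ * H * c * δ)]
    calc δ ^ 2 * (T - c * H) ^ 2 = (δ * (T - c * H)) ^ 2 := by ring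
      _ ≤ 2 * I ^ 2 + 2 * (3 * κ * H * c * δ) ^ 2 := h1.trans h2
      _ = _ := by ring
  have hcs : I ^ 2 ≤ (v1 - u1) * ∫ y in u1..v1, addE g c q a Nm δ y ^ 2 := by
    have h1 := add_cs (fun y => |addE g c q a Nm δ y|) u1 v1 huv1 (addE_int g c q a Nm δ u1 v1).abs (by
      have := addE_sq_ii g hg c hc q a Nm δ hδ0 u1 v1 huv1.le
      simpa only [sq_abs] using this)
    simpa only [sq_abs] using h1
  set K := ∫ y in u1..v1, addE g c q a Nm δ y ^ 2 with hK
  have hK0 : 0 ≤ K := intervalIntegral.integral_nonneg huv1.le fun y _ => sq_nonneg _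
  have hlen : v1 - u1 ≤ 2 * H / X := by
    have h1 : v1 - u1 = (Real.log N' - Real.log n) + δ := by rw [hv1, hu1]; ring
    have h2 : δ ≤ H / X := by
      rw [hδ]
      apply div_le_div_of_nonneg_right _ hX0.le
      calc κ * H ≤ 1 * H := mul_le_mul_of_nonneg_right (by linarith) hH0.le
        _ = H := one_mul _
    rw [h1]
    calc (Real.log N' - Real.log n) + δ ≤ H / X + H / X := add_le_add hup h2
      _ = 2 * H / X := by ring
  have hI2 : I ^ 2 ≤ 2 * H / X * K := hcs.trans (mul_le_mul_of_nonneg_right hlen hK0)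
  have hδ2 : 0 < δ ^ 2 := by positivity
  have hfin : (T - c * H) ^ 2 ≤
      (2 * (2 * H / X * K) + 18 * κ ^ 2 * c ^ 2 * (H : ℝ) ^ 2 * δ ^ 2) / δ ^ 2 := by
    rw [le_div_iff₀ hδ2, mul_comm]
    linarith
  refine hfin.trans (le_of_eq ?_)
  field_simp
  ring

/-! # counting -/

private lemma add_card (S : Finset ℕ) (α β : ℝ) (h1 : ∀ n ∈ S, α ≤ n) (h2 : ∀ n ∈ S, (n : ℝ) ≤ β)
    (h3 : S.Nonempty) : (S.card : ℝ) ≤ β - α + 1 := by
  have h4 : S ⊆ Icc (S.min' h3) (S.max' h3) := fun n hn =>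
    mem_Icc.2 ⟨S.min'_le n hn, S.le_max' n hn⟩
  have h5 := card_le_card h4
  rw [Nat.card_Icc] at h5
  have h6 : S.min' h3 ≤ S.max' h3 := S.min'_le _ (S.max'_mem h3)
  have h7 : (S.card : ℝ) ≤ S.max' h3 + 1 - S.min' h3 := by
    have : S.card + S.min' h3 ≤ S.max' h3 + 1 := by omega
    have h8 : ((S.card + S.min' h3 : ℕ) : ℝ) ≤ ((S.max' h3 + 1 : ℕ) : ℝ) := by exact_mod_cast this
    push_cast at h8
    linarith
  have h8 := h1 _ (S.min'_mem h3)
  have h9 := h2 _ (S.max'_mem h3)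
  linarith

private lemma add_count (X δ κ : ℝ) (hX : 10 ≤ X)
    (hκ0 : 0 < κ) (hκ : κ ≤ 1 / 20) (H : ℕ) (hH1 : 1 ≤ H) (hHX : (H : ℝ) ≤ X)
    (hδ : δ = κ * H / X) (y : ℝ) :
    (((Ioc ⌊X⌋₊ ⌊2 * X⌋₊).filter (fun n : ℕ => Real.log n - δ < y ∧
      y ≤ Real.log ((n + H : ℕ) : ℝ))).card : ℝ) ≤ 3 * H := by
  have hX0 : 0 < X := by linarith
  have hH0 : (1 : ℝ) ≤ H := by exact_mod_cast hH1
  set S := (Ioc ⌊X⌋₊ ⌊2 * X⌋₊).filter (fun n : ℕ => Real.log n - δ < y ∧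
      y ≤ Real.log ((n + H : ℕ) : ℝ)) with hS
  rcases S.eq_empty_or_nonempty with h0 | h0
  · rw [h0]
    simp
  · have hδ0 : 0 < δ := by rw [hδ]; positivity
    have hδX : δ * X = κ * H := by rw [hδ]; field_simp
    have hδκ : δ ≤ κ := by
      rw [hδ, div_le_iff₀ hX0]
      exact mul_le_mul_of_nonneg_left hHX hκ0.le
    have hmem : ∀ n ∈ S, X < n ∧ (n : ℝ) ≤ 2 * X ∧ Real.log n - δ < y ∧
        y ≤ Real.log ((n + H : ℕ) : ℝ) := by
      intro n hn
      obtain ⟨h1, h2, h3⟩ := mem_filter.1 hn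
      rw [mem_Ioc] at h1
      refine ⟨(Nat.floor_lt hX0.le).1 h1.1, ?_, h2, h3⟩
      exact (Nat.le_floor_iff (by linarith)).1 h1.2
    have h1 : ∀ n ∈ S, Real.exp y - H ≤ n := by
      intro n hn
      obtain ⟨a1, a2, a3, a4⟩ := hmem n hn
      have hpos : (0 : ℝ) < ((n + H : ℕ) : ℝ) := by push_cast; linarith
      have := Real.exp_le_exp.2 a4
      rw [Real.exp_log hpos] at this
      push_cast at this
      linarith
    have h2 : ∀ n ∈ S, (n : ℝ) ≤ Real.exp y * Real.exp δ := by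
      intro n hn
      obtain ⟨a1, a2, a3, a4⟩ := hmem n hn
      have hpos : (0 : ℝ) < n := by linarith
      have := Real.exp_le_exp.2 (show Real.log n ≤ y + δ by linarith)
      rwa [Real.exp_log hpos, Real.exp_add] at this
    have h3 := add_card S _ _ h1 h2 h0
    obtain ⟨n0, hn0⟩ := h0
    have h4 := h1 n0 hn0
    obtain ⟨a1, a2, a3, a4⟩ := hmem n0 hn0
    have h5 : Real.exp y ≤ 3 * X := by linarith
    have h6 : Real.exp δ - 1 ≤ 2 * δ := by
      have h7 := Real.abs_exp_sub_one_le (x := δ) (by rw [abs_of_pos hδ0]; linarith)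
      rw [abs_of_pos hδ0] at h7
      exact (le_abs_self _).trans h7
    have h7 : Real.exp y * (Real.exp δ - 1) ≤ 3 * X * (2 * δ) := by
      apply mul_le_mul h5 h6 _ (by positivity)
      linarith [Real.add_one_le_exp δ]
    have h8 : 3 * X * (2 * δ) = 6 * κ * H := by
      have : 3 * X * (2 * δ) = 6 * (δ * X) := by ring
      rw [this, hδX]
      ring
    have h9 : 6 * κ * H ≤ 1 * H := mul_le_mul_of_nonneg_right (by linarith) (by linarith)
    have h10 : Real.exp y * Real.exp δ - (Real.exp y - H) + 1 =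
        Real.exp y * (Real.exp δ - 1) + H + 1 := by ring
    linarith

/-- the sum over `n` of the local second moments -/
private lemma add_sum (g : ℕ → ℝ) (hg : ∀ n, 0 ≤ g n) (c : ℝ) (hc : 0 ≤ c) (q : ℕ) (a : ZMod q) (Nm : ℕ) (X δ κ : ℝ) (hX : 10 ≤ X)
    (hκ0 : 0 < κ) (hκ : κ ≤ 1 / 20) (H : ℕ) (hH1 : 1 ≤ H) (hHX : (H : ℝ) ≤ X)
    (hδ : δ = κ * H / X) :
    ∑ n ∈ Ioc ⌊X⌋₊ ⌊2 * X⌋₊,
      ∫ y in (Real.log n - δ)..(Real.log ((n + H : ℕ) : ℝ)), addE g c q a Nm δ y ^ 2 ≤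
    3 * H * ∫ y in (Real.log (X / 2))..(Real.log (4 * X)), addE g c q a Nm δ y ^ 2 := by
  have hX0 : 0 < X := by linarith
  have hH0 : (1 : ℝ) ≤ H := by exact_mod_cast hH1
  have hδ0 : 0 < δ := by rw [hδ]; positivity
  have hδκ : δ ≤ κ := by
    rw [hδ, div_le_iff₀ hX0]
    exact mul_le_mul_of_nonneg_left hHX hκ0.le
  set L := Real.log (X / 2) with hL
  set U := Real.log (4 * X) with hU
  have hLU : L ≤ U := Real.log_le_log (by linarith) (by linarith)
  set f : ℝ → ℝ := fun y => addE g c q a Nm δ y ^ 2 with hf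
  have hfi : IntegrableOn f (Set.Ioc L U) volume := addE_sq_int g hg c hc q a Nm δ hδ0 L U hLU
  have hf0 : ∀ y, 0 ≤ f y := fun y => sq_nonneg _
  have hterm : ∀ n ∈ Ioc ⌊X⌋₊ ⌊2 * X⌋₊,
      ∫ y in (Real.log n - δ)..(Real.log ((n + H : ℕ) : ℝ)), f y =
      ∫ y in Set.Ioc L U, Set.indicator (Set.Ioc (Real.log n - δ)
        (Real.log ((n + H : ℕ) : ℝ))) f y := by
    intro n hn
    rw [mem_Ioc] at hn
    have hn1 : X < n := (Nat.floor_lt hX0.le).1 hn.1
    have hn2 : (n : ℝ) ≤ 2 * X := (Nat.le_floor_iff (by linarith)).1 hn.2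
    have hn0 : (0 : ℝ) < n := by linarith
    have hle : Real.log n ≤ Real.log ((n + H : ℕ) : ℝ) :=
      Real.log_le_log hn0 (by exact_mod_cast Nat.le_add_right n H)
    rw [intervalIntegral.integral_of_le (by linarith), setIntegral_indicator measurableSet_Ioc]
    congr 2
    symm
    rw [Set.inter_eq_right]
    apply Set.Ioc_subset_Ioc
    · have h1 : Real.log X ≤ Real.log n := Real.log_le_log hX0 hn1.le
      have h2 : L = Real.log X - Real.log 2 := Real.log_div hX0.ne' (by norm_num)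
      have h3 := Real.log_two_gt_d9
      linarith
    · apply Real.log_le_log
      · push_cast
        linarith
      · push_cast
        linarith
  rw [sum_congr rfl hterm, ← integral_finsetSum]
  · rw [intervalIntegral.integral_of_le hLU, ← integral_const_mul]
    apply setIntegral_mono_on
    · exact integrable_finsetSum _ fun n _ => hfi.indicator measurableSet_Ioc
    · exact hfi.const_mul _
    · exact measurableSet_Ioc
    · intro y _
      have h1 : ∑ n ∈ Ioc ⌊X⌋₊ ⌊2 * X⌋₊, Set.indicator (Set.Ioc (Real.log n - δ)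
          (Real.log ((n + H : ℕ) : ℝ))) f y =
          (((Ioc ⌊X⌋₊ ⌊2 * X⌋₊).filter (fun n : ℕ => Real.log n - δ < y ∧
            y ≤ Real.log ((n + H : ℕ) : ℝ))).card : ℝ) * f y := by
        have h2 : ∀ n ∈ Ioc ⌊X⌋₊ ⌊2 * X⌋₊, Set.indicator (Set.Ioc (Real.log n - δ)
            (Real.log ((n + H : ℕ) : ℝ))) f y =
            if (Real.log n - δ < y ∧ y ≤ Real.log ((n + H : ℕ) : ℝ)) then f y else 0 := by
          intro n _
          by_cases h : Real.log n - δ < y ∧ y ≤ Real.log ((n + H : ℕ) : ℝ)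
          · rw [if_pos h, Set.indicator_of_mem (show y ∈ Set.Ioc _ _ from h)]
          · rw [if_neg h, Set.indicator_of_notMem (show y ∉ Set.Ioc _ _ from h)]
        rw [sum_congr rfl h2, ← sum_filter, sum_const, nsmul_eq_mul]
      rw [h1]
      exact mul_le_mul_of_nonneg_right (add_count X δ κ hX hκ0 hκ H hH1 hHX hδ y) (hf0 y)
  · intro n _
    exact hfi.indicator measurableSet_Ioc

/-! ### the parameters -/

private lemma addw_up (ℓ r : ℝ) (h1 : 1 ≤ ℓ) (h : (2 : ℝ) ^ r ≤ ℓ) : (2 * ℓ) ^ r ≤ ℓ ^ (r + 1) := by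
  have hl : 0 < ℓ := by linarith
  rw [Real.mul_rpow (by norm_num) hl.le, Real.rpow_add hl, Real.rpow_one, mul_comm (ℓ ^ r)]
  exact mul_le_mul_of_nonneg_right h (Real.rpow_nonneg hl.le _)

private lemma addw_dn (ℓ r : ℝ) (h1 : 1 ≤ ℓ) (h : (2 : ℝ) ^ (r + 1) ≤ ℓ) : ℓ ^ r ≤ (ℓ / 2) ^ (r + 1) := by
  have hl : 0 < ℓ := by linarith
  rw [Real.div_rpow hl.le (by norm_num), le_div_iff₀ (Real.rpow_pos_of_pos (by norm_num) _),
    Real.rpow_add hl, Real.rpow_one]
  exact mul_le_mul_of_nonneg_left h (Real.rpow_nonneg hl.le _)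

private lemma addw_kap (P P2 : ℕ) : kap P P2 ≤ 1 + Real.log P2 := by
  have h1 : kap P P2 ≤ ∑ n ∈ Icc 1 P2, 1 / (n : ℝ) := by
    unfold kap
    apply sum_le_sum_of_subset_of_nonneg
    · intro p hp
      obtain ⟨h1, h2⟩ := mem_filter.1 hp
      rw [mem_Ioc] at h1
      exact mem_Icc.2 ⟨h2.one_lt.le, h1.2⟩
    · intro n _ _
      positivity
  refine h1.trans ?_
  have h2 := harmonic_le_one_add_log P2
  rw [harmonic_eq_sum_Icc] at h2
  push_cast at h2
  simpa only [one_div] using h2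

private lemma addw_kap0 (P P2 : ℕ) : 0 ≤ kap P P2 := by
  unfold kap
  exact sum_nonneg fun n _ => by positivity

private lemma addw_gg0 (P P2 n : ℕ) : 0 ≤ gg P P2 n := by
  unfold gg
  exact sum_nonneg fun n _ => ArithmeticFunction.vonMangoldt_nonneg

private lemma addw_large (M A3 X1 : ℝ) : ∃ X0 : ℝ, 10 ≤ X0 ∧ ∀ X : ℝ, X0 ≤ X →
    2 * X1 ≤ X ∧ 20 ≤ Real.log X ∧ (2 : ℝ) ^ M ≤ Real.log X ∧
      1 + A3 * Real.log (Real.log X) ≤ Real.log X := by
  have ev1 : ∀ᶠ ℓ : ℝ in Filter.atTop, 1 + A3 * Real.log ℓ ≤ ℓ := by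
    have h1 := Real.isLittleO_log_id_atTop.bound (show (0 : ℝ) < 1 / (2 * (|A3| + 1)) by positivity)
    filter_upwards [h1, Filter.eventually_ge_atTop (2 : ℝ)] with ℓ hℓ hℓ2
    have hl : 0 ≤ Real.log ℓ := Real.log_nonneg (by linarith)
    rw [Real.norm_of_nonneg hl, id, Real.norm_of_nonneg (by linarith)] at hℓ
    have h2 : A3 * Real.log ℓ ≤ |A3| * Real.log ℓ := mul_le_mul_of_nonneg_right (le_abs_self _) hl
    have h3 : |A3| * Real.log ℓ ≤ (|A3| + 1) * (1 / (2 * (|A3| + 1)) * ℓ) := by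
      apply mul_le_mul (by linarith) hℓ hl
      positivity
    have h4 : (|A3| + 1) * (1 / (2 * (|A3| + 1)) * ℓ) = ℓ / 2 := by
      have : |A3| + 1 ≠ 0 := by positivity
      field_simp
    linarith
  have ev2 := Real.tendsto_log_atTop.eventually (ev1.and ((Filter.eventually_ge_atTop (20 : ℝ)).and
    (Filter.eventually_ge_atTop ((2 : ℝ) ^ M))))
  obtain ⟨X0, hX0⟩ := Filter.eventually_atTop.1 (ev2.and (Filter.eventually_ge_atTop (2 * X1)))
  refine ⟨max 10 X0, le_max_left _ _, fun X hX => ?_⟩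
  obtain ⟨⟨h1, h2, h3⟩, h4⟩ := hX0 X ((le_max_right _ _).trans hX)
  exact ⟨h4, h2, h3, h1⟩

theorem addw (B A : ℝ) (hB : 0 < B) (hA : 0 < A) : ∃ A2 : ℝ, 0 < A2 ∧ ∀ A3 : ℝ, A2 ≤ A3 →
    ∃ C1 A1 X0 : ℝ, 0 < C1 ∧ 0 < A1 ∧ 10 ≤ X0 ∧ ∀ X : ℝ, X0 ≤ X →
    ∀ (q : ℕ) [NeZero q], (q : ℝ) ≤ (Real.log X) ^ B → ∀ a : ZMod q, IsUnit a → ∀ P P2 H : ℕ,
    (Real.log X) ^ A2 ≤ P → P ≤ P2 → (P2 : ℝ) ≤ (Real.log X) ^ A3 →
    (Real.log X) ^ C1 ≤ H → (H : ℝ) ≤ X * (Real.log X) ^ (-A1) →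
    ∑ n ∈ Ioc ⌊X⌋₊ ⌊2 * X⌋₊,
      (∑ m ∈ (Ioc n (n + H)).filter (fun m : ℕ => (m : ZMod q) = a), gg P P2 m -
        kap P P2 * H / q.totient) ^ 2 ≤ X * (H : ℝ) ^ 2 * (Real.log X) ^ (-A) := by
  obtain ⟨A2', hA2', hpc⟩ := pcw (B + 1) (A + 2) (by linarith) (by linarith)
  refine ⟨A2' + 1, by linarith, fun A3 hA3 => ?_⟩
  obtain ⟨C1', A1', X1, hC1', hA1', hX1, hpc⟩ := hpc (A3 + 1) (by linarith)
  set K : ℝ := A + 4 with hKdef
  set M : ℝ := A + B + A1' + A2' + A3 + C1' + 12 with hM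
  obtain ⟨X0, hX0, hlarge⟩ := addw_large M A3 X1
  refine ⟨C1' + K + 1, A1' + 1, X0, by linarith, by linarith, hX0, ?_⟩
  intro X hX q _ hq a ha P P2 H hP hPP hP2 hH1 hH2
  obtain ⟨hXX1, hℓ20, hℓM, hℓA3⟩ := hlarge X hX
  have hX10 : 10 ≤ X := hX0.trans hX
  have hXp : 0 < X := by linarith
  set ℓ : ℝ := Real.log X with hℓ
  have hℓ1 : 1 ≤ ℓ := by linarith
  have hℓ0 : 0 < ℓ := by linarith
  have hpow : ∀ r : ℝ, r ≤ M → (2 : ℝ) ^ r ≤ ℓ := fun r hr =>
    (Real.rpow_le_rpow_of_exponent_le (by norm_num) hr).trans hℓM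
  set κ : ℝ := ℓ ^ (-K) with hκdef
  have hκ0 : 0 < κ := Real.rpow_pos_of_pos hℓ0 _
  have hinv : ℓ ^ (-(1 : ℝ)) ≤ 1 / 20 := by
    rw [Real.rpow_neg_one, ← one_div]
    exact one_div_le_one_div_of_le (by norm_num) hℓ20
  have hκ : κ ≤ 1 / 20 := by
    refine le_trans ?_ hinv
    rw [hκdef]
    exact Real.rpow_le_rpow_of_exponent_le hℓ1 (by linarith)
  have hH : 1 ≤ H := by
    have h1 : (1 : ℝ) ≤ ℓ ^ (C1' + K + 1) := Real.one_le_rpow hℓ1 (by linarith)
    exact_mod_cast h1.trans hH1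
  have hHX : (H : ℝ) ≤ X := by
    refine hH2.trans ?_
    have h1 : ℓ ^ (-(A1' + 1)) ≤ 1 := Real.rpow_le_one_of_one_le_of_nonpos hℓ1 (by linarith)
    calc X * ℓ ^ (-(A1' + 1)) ≤ X * 1 := mul_le_mul_of_nonneg_left h1 hXp.le
      _ = X := mul_one X
  have hHR : (1 : ℝ) ≤ H := by exact_mod_cast hH
  set δ : ℝ := κ * H / X with hδ
  have hδ0 : 0 < δ := by rw [hδ]; positivity
  set V : ℝ := (q.totient : ℝ) with hV
  have hV1 : 1 ≤ V := by
    have : 0 < q.totient := Nat.totient_pos.2 (Nat.pos_of_ne_zero (NeZero.ne q))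
    rw [hV]
    exact_mod_cast this
  have hV0 : 0 < V := by linarith
  set c : ℝ := kap P P2 / V with hc
  have hk0 := addw_kap0 P P2
  have hc0 : 0 ≤ c := by rw [hc]; positivity
  have hP1 : (1 : ℝ) ≤ P := le_trans (Real.one_le_rpow hℓ1 (by linarith)) hP
  have hP21 : (1 : ℝ) ≤ P2 := hP1.trans (by exact_mod_cast hPP)
  have hcℓ : c ≤ ℓ := by
    have h1 : c ≤ kap P P2 := by
      rw [hc]
      exact div_le_self hk0 hV1
    have h2 := addw_kap P P2
    have h3 : Real.log P2 ≤ A3 * Real.log ℓ := by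
      have := Real.log_le_log (by linarith) hP2
      rwa [Real.log_rpow hℓ0] at this
    linarith
  obtain ⟨Nm, hNm⟩ := exists_nat_ge (24 * X)
  have hgg : ∀ n, 0 ≤ gg P P2 n := addw_gg0 P P2
  have hl2 := Real.log_two_lt_d9
  have hlog2X : Real.log (2 * X) ≤ 2 * ℓ := by
    rw [Real.log_mul (by norm_num) hXp.ne', ← hℓ]
    linarith
  have hlogX2 : ℓ / 2 ≤ Real.log (X / 2) := by
    rw [Real.log_div hXp.ne' (by norm_num), ← hℓ]
    linarith
  set η : ℝ := 2 ^ (A + 2) * ℓ ^ (-(A + 2)) with hη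
  have hη0 : 0 < η := by rw [hη]; positivity
  have hE : ∀ X' : ℝ, X / 2 ≤ X' → X' ≤ 2 * X →
      ∫ y in (Real.log X')..(Real.log (2 * X')), addE (gg P P2) c q a Nm δ y ^ 2 ≤
        η * δ ^ 2 * X' ^ 2 := by
    intro X' h1 h2
    have hX'0 : 0 < X' := by linarith
    have hlu : Real.log X' ≤ 2 * ℓ := (Real.log_le_log hX'0 h2).trans hlog2X
    have hll : ℓ / 2 ≤ Real.log X' := hlogX2.trans (Real.log_le_log (by linarith) h1)
    have hl0 : 0 < Real.log X' := by linarith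
    have e1 : (q : ℝ) ≤ (Real.log X') ^ (B + 1) := by
      refine hq.trans ((addw_dn ℓ B hℓ1 (hpow _ (by linarith))).trans ?_)
      exact Real.rpow_le_rpow (by linarith) hll (by linarith)
    have e2 : X'⁻¹ * (Real.log X') ^ C1' ≤ δ := by
      have f1 : X'⁻¹ ≤ (X / 2)⁻¹ := inv_anti₀ (by linarith) h1
      have f2 : (Real.log X') ^ C1' ≤ (2 * ℓ) ^ C1' := Real.rpow_le_rpow hl0.le hlu hC1'.le
      have f3 : 2 * (2 * ℓ) ^ C1' ≤ ℓ ^ (C1' + 1) := by
        have g1 : 2 * (2 * ℓ) ^ C1' = 2 ^ (C1' + 1) * ℓ ^ C1' := by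
          rw [Real.mul_rpow (by norm_num) hℓ0.le, Real.rpow_add (by norm_num), Real.rpow_one]
          ring
        rw [g1, Real.rpow_add hℓ0, Real.rpow_one, mul_comm (ℓ ^ C1')]
        exact mul_le_mul_of_nonneg_right (hpow _ (by linarith)) (Real.rpow_nonneg hℓ0.le _)
      have f4 : ℓ ^ (C1' + 1) ≤ κ * H := by
        have g1 : ℓ ^ (C1' + 1) = κ * ℓ ^ (C1' + K + 1) := by
          rw [hκdef, ← Real.rpow_add hℓ0]
          congr 1
          ring
        rw [g1]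
        exact mul_le_mul_of_nonneg_left hH1 hκ0.le
      calc X'⁻¹ * (Real.log X') ^ C1' ≤ (X / 2)⁻¹ * (2 * ℓ) ^ C1' := by
            apply mul_le_mul f1 f2 (Real.rpow_nonneg hl0.le _)
            positivity
        _ = (2 * (2 * ℓ) ^ C1') / X := by
            rw [inv_div]
            ring
        _ ≤ (κ * H) / X := div_le_div_of_nonneg_right (f3.trans f4) hXp.le
    have e3 : δ ≤ (Real.log X') ^ (-A1') := by
      have f1 : δ ≤ ℓ ^ (-(A1' + 1)) := by
        rw [hδ, div_le_iff₀ hXp]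
        calc κ * H ≤ 1 * (X * ℓ ^ (-(A1' + 1))) := by
              apply mul_le_mul (by linarith) hH2 (by linarith) (by norm_num)
          _ = _ := by ring
      refine f1.trans ?_
      rw [Real.rpow_neg hℓ0.le, Real.rpow_neg hl0.le]
      apply inv_anti₀ (Real.rpow_pos_of_pos hl0 _)
      refine le_trans ?_ (addw_up ℓ A1' hℓ1 (hpow _ (by linarith)))
      exact Real.rpow_le_rpow hl0.le hlu hA1'.le
    have e4 : (Real.log X') ^ A2' ≤ P := by
      refine le_trans ?_ hP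
      refine le_trans ?_ (addw_up ℓ A2' hℓ1 (hpow _ (by linarith)))
      exact Real.rpow_le_rpow hl0.le hlu hA2'.le
    have e5 : (P2 : ℝ) ≤ (Real.log X') ^ (A3 + 1) := by
      refine hP2.trans ((addw_dn ℓ A3 hℓ1 (hpow _ (by linarith))).trans ?_)
      exact Real.rpow_le_rpow (by linarith) hll (by linarith)
    have hkey := hpc X' (by linarith) q e1 a ha δ e2 e3 P P2 e4 hPP e5 Nm (by linarith)
    have e6 : (Real.log X') ^ (-(A + 2)) ≤ η := by
      have f1 : (Real.log X') ^ (-(A + 2)) ≤ (ℓ / 2) ^ (-(A + 2)) :=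
        Real.rpow_le_rpow_of_nonpos (by linarith) hll (by linarith)
      refine f1.trans (le_of_eq ?_)
      rw [hη, Real.div_rpow hℓ0.le (by norm_num), Real.rpow_neg (by norm_num : (0 : ℝ) ≤ 2), div_inv_eq_mul]
      ring
    have e7 : (fun y => addE (gg P P2) c q a Nm δ y ^ 2) = fun y =>
        (Sg P P2 q a Nm δ y - kap P P2 * δ * Real.exp y / q.totient) ^ 2 := by
      funext y
      unfold addE sgG Sg
      rw [hc, hV]
      ring
    rw [e7]
    refine hkey.trans ?_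
    calc δ ^ 2 * X' ^ 2 * (Real.log X') ^ (-(A + 2)) ≤ δ ^ 2 * X' ^ 2 * η := by gcongr
      _ = _ := by ring
  have hE1 := hE (X / 2) le_rfl (by linarith)
  have hE2 := hE X (by linarith) (by linarith)
  have hE3 := hE (2 * X) (by linarith) le_rfl
  rw [show 2 * (X / 2) = X by ring] at hE1
  rw [show 2 * (2 * X) = 4 * X by ring] at hE3
  have hl1 : Real.log (X / 2) ≤ Real.log X := Real.log_le_log (by linarith) (by linarith)
  have hl2 : Real.log X ≤ Real.log (2 * X) := Real.log_le_log hXp (by linarith)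
  have hl3 : Real.log (2 * X) ≤ Real.log (4 * X) := Real.log_le_log (by linarith) (by linarith)
  have hK : ∫ y in (Real.log (X / 2))..(Real.log (4 * X)), addE (gg P P2) c q a Nm δ y ^ 2 ≤
      6 * (η * δ ^ 2 * X ^ 2) := by
    have i1 := addE_sq_ii (gg P P2) hgg c hc0 q a Nm δ hδ0 _ _ hl1
    have i2 := addE_sq_ii (gg P P2) hgg c hc0 q a Nm δ hδ0 _ _ hl2
    have i3 := addE_sq_ii (gg P P2) hgg c hc0 q a Nm δ hδ0 _ _ hl3
    rw [← intervalIntegral.integral_add_adjacent_intervals (i1.trans i2) i3,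
      ← intervalIntegral.integral_add_adjacent_intervals i1 i2]
    have h0 : 0 ≤ η * δ ^ 2 * X ^ 2 := by positivity
    have e1 : η * δ ^ 2 * (X / 2) ^ 2 = 1 / 4 * (η * δ ^ 2 * X ^ 2) := by ring
    have e3 : η * δ ^ 2 * (2 * X) ^ 2 = 4 * (η * δ ^ 2 * X ^ 2) := by ring
    rw [e1] at hE1
    rw [e3] at hE3
    linarith
  set Kint := ∫ y in (Real.log (X / 2))..(Real.log (4 * X)), addE (gg P P2) c q a Nm δ y ^ 2 with hKint
  have hsum := add_sum (gg P P2) hgg c hc0 q a Nm X δ κ hX10 hκ0 hκ H hH hHX hδ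
  rw [← hKint] at hsum
  have hpt : ∀ n ∈ Ioc ⌊X⌋₊ ⌊2 * X⌋₊, (thG (gg P P2) q a n H - c * H) ^ 2 ≤
      18 * κ ^ 2 * c ^ 2 * (H : ℝ) ^ 2 + 4 * H / (X * δ ^ 2) *
        ∫ y in (Real.log n - δ)..(Real.log ((n + H : ℕ) : ℝ)), addE (gg P P2) c q a Nm δ y ^ 2 := by
    intro n hn
    rw [mem_Ioc] at hn
    have hn1 : X < n := (Nat.floor_lt hXp.le).1 hn.1
    have hn2 : (n : ℝ) ≤ 2 * X := (Nat.le_floor_iff (by linarith)).1 hn.2
    refine add_point (gg P P2) hgg c hc0 q a Nm X δ κ hX10 hκ0 hκ n H hH hHX hδ hn1 hn2 ?_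
    have : ((n + H : ℕ) : ℝ) ≤ Nm := by push_cast; linarith
    exact_mod_cast this
  have hcard : ((Ioc ⌊X⌋₊ ⌊2 * X⌋₊).card : ℝ) ≤ 2 * X := by
    rw [Nat.card_Ioc]
    calc ((⌊2 * X⌋₊ - ⌊X⌋₊ : ℕ) : ℝ) ≤ (⌊2 * X⌋₊ : ℝ) := by exact_mod_cast Nat.sub_le _ _
      _ ≤ 2 * X := Nat.floor_le (by linarith)
  have hcoef : 0 ≤ 4 * H / (X * δ ^ 2) := by positivity
  -- the two numerical estimates
  have hn1 : 36 * (κ ^ 2 * c ^ 2) ≤ ℓ ^ (-A) / 2 := by
    have f1 : κ * c ≤ ℓ ^ (-(A + 3)) := by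
      have g1 : ℓ ^ (-(A + 3)) = κ * ℓ := by
        rw [hκdef]
        nth_rewrite 3 [← Real.rpow_one ℓ]
        rw [← Real.rpow_add hℓ0]
        congr 1
        rw [hKdef]
        ring
      rw [g1]
      exact mul_le_mul_of_nonneg_left hcℓ hκ0.le
    have f2 : (κ * c) ^ 2 ≤ (ℓ ^ (-(A + 3))) ^ 2 := pow_le_pow_left₀ (by positivity) f1 2
    have f3 : (ℓ ^ (-(A + 3))) ^ 2 = ℓ ^ (-A) * ℓ ^ (-(A + 6)) := by
      rw [← Real.rpow_natCast, ← Real.rpow_mul hℓ0.le, ← Real.rpow_add hℓ0]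
      congr 1
      push_cast
      ring
    have f4 : ℓ ^ (-(A + 6)) ≤ 1 / 72 := by
      have g1 : ℓ ^ (-(A + 6)) ≤ ℓ ^ (-(1 : ℝ)) := Real.rpow_le_rpow_of_exponent_le hℓ1 (by linarith)
      refine g1.trans ?_
      rw [Real.rpow_neg_one, ← one_div]
      apply one_div_le_one_div_of_le (by norm_num)
      have h10 := hpow 10 (by rw [hM]; linarith)
      have : (2 : ℝ) ^ (10 : ℝ) = 1024 := by norm_num
      linarith
    have f5 : 0 ≤ ℓ ^ (-A) := Real.rpow_nonneg hℓ0.le _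
    calc 36 * (κ ^ 2 * c ^ 2) = 36 * (κ * c) ^ 2 := by ring
      _ ≤ 36 * (ℓ ^ (-A) * ℓ ^ (-(A + 6))) := by rw [← f3]; gcongr
      _ ≤ 36 * (ℓ ^ (-A) * (1 / 72)) := by gcongr
      _ = _ := by ring
  have hn2 : 72 * η ≤ ℓ ^ (-A) / 2 := by
    have f1 : ℓ ^ (-(A + 2)) = ℓ ^ (-A) * ℓ ^ (-(2 : ℝ)) := by
      rw [← Real.rpow_add hℓ0]
      congr 1
      ring
    have f2 : ℓ ^ (-(2 : ℝ)) ≤ ℓ⁻¹ := by
      rw [← Real.rpow_neg_one]
      exact Real.rpow_le_rpow_of_exponent_le hℓ1 (by linarith)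
    have f3 : 144 * (2 : ℝ) ^ (A + 2) ≤ ℓ := by
      have g1 : (2 : ℝ) ^ (A + 10) = 2 ^ (8 : ℝ) * 2 ^ (A + 2) := by
        rw [← Real.rpow_add (by norm_num)]
        congr 1
        ring
      have g2 : (2 : ℝ) ^ (8 : ℝ) = 256 := by norm_num
      have g3 := hpow (A + 10) (by rw [hM]; linarith)
      rw [g1, g2] at g3
      have : (0 : ℝ) < 2 ^ (A + 2) := Real.rpow_pos_of_pos (by norm_num) _
      linarith
    have f5 : 0 ≤ ℓ ^ (-A) := Real.rpow_nonneg hℓ0.le _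
    have f6 : 72 * (2 : ℝ) ^ (A + 2) * ℓ⁻¹ ≤ 1 / 2 := by
      rw [← div_eq_mul_inv, div_le_iff₀ hℓ0]
      linarith
    calc 72 * η = ℓ ^ (-A) * (72 * (2 : ℝ) ^ (A + 2) * ℓ ^ (-(2 : ℝ))) := by
          rw [hη, f1]
          ring
      _ ≤ ℓ ^ (-A) * (72 * (2 : ℝ) ^ (A + 2) * ℓ⁻¹) := by gcongr
      _ ≤ ℓ ^ (-A) * (1 / 2) := by gcongr
      _ = _ := by ring
  have hterm : ∀ n ∈ Ioc ⌊X⌋₊ ⌊2 * X⌋₊,
      (∑ m ∈ (Ioc n (n + H)).filter (fun m : ℕ => (m : ZMod q) = a), gg P P2 m -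
        kap P P2 * H / q.totient) ^ 2 = (thG (gg P P2) q a n H - c * H) ^ 2 := by
    intro n _
    unfold thG
    rw [hc, hV]
    ring
  rw [sum_congr rfl hterm]
  calc ∑ n ∈ Ioc ⌊X⌋₊ ⌊2 * X⌋₊, (thG (gg P P2) q a n H - c * H) ^ 2
      ≤ ∑ n ∈ Ioc ⌊X⌋₊ ⌊2 * X⌋₊, (18 * κ ^ 2 * c ^ 2 * (H : ℝ) ^ 2 + 4 * H / (X * δ ^ 2) *
        ∫ y in (Real.log n - δ)..(Real.log ((n + H : ℕ) : ℝ)), addE (gg P P2) c q a Nm δ y ^ 2) :=
        sum_le_sum hpt
    _ = (Ioc ⌊X⌋₊ ⌊2 * X⌋₊).card * (18 * κ ^ 2 * c ^ 2 * (H : ℝ) ^ 2) + 4 * H / (X * δ ^ 2) *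
        ∑ n ∈ Ioc ⌊X⌋₊ ⌊2 * X⌋₊,
        ∫ y in (Real.log n - δ)..(Real.log ((n + H : ℕ) : ℝ)), addE (gg P P2) c q a Nm δ y ^ 2 := by
        rw [sum_add_distrib, sum_const, nsmul_eq_mul, mul_sum]
    _ ≤ 2 * X * (18 * κ ^ 2 * c ^ 2 * (H : ℝ) ^ 2) + 4 * H / (X * δ ^ 2) *
        (3 * H * (6 * (η * δ ^ 2 * X ^ 2))) := by
        apply add_le_add
        · exact mul_le_mul_of_nonneg_right hcard (by positivity)
        · apply mul_le_mul_of_nonneg_left _ hcoef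
          exact hsum.trans (mul_le_mul_of_nonneg_left hK (by positivity))
    _ = 36 * (κ ^ 2 * c ^ 2) * (X * (H : ℝ) ^ 2) + 72 * η * (X * (H : ℝ) ^ 2) := by
        field_simp
        ring
    _ ≤ ℓ ^ (-A) / 2 * (X * (H : ℝ) ^ 2) + ℓ ^ (-A) / 2 * (X * (H : ℝ) ^ 2) := by
        have : 0 ≤ X * (H : ℝ) ^ 2 := by positivity
        have := mul_le_mul_of_nonneg_right hn1 this
        have := mul_le_mul_of_nonneg_right hn2 ‹0 ≤ X * (H : ℝ) ^ 2›
        linarith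
    _ = X * (H : ℝ) ^ 2 * ℓ ^ (-A) := by ring

end Pool.Agent.H43.TP
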