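import Pool.Agent.H43.TP.Frm

/-!
# [H43 TP FR] All frequencies

PROOF. `ℓ = log X`. `SI.freq_abs` with `b t = ‖pp χ D D' t * bp χ e t‖^2` (continuous, bounded by `Kb = (1+S)^12`: `‖pp‖ <= 1`,
`SI.pw_triv`), `T2 = ℓ^A0` and `M = ℓ^(-A-1)` from `frm` with `(B, A+1)`, `T1 = X ℓ^(-A3-2)`, `δ1 = ℓ^(-A1)`,
`P = 3C (3ℓ)^Bm` (`SI.mvp` with `s = univ`: `∫_{-R}^{R} ‖bp‖^2 <= C (3ℓ)^Bm (R/2^S + 1)` for `R = 2^(k+1) T1`,
`T1/2^S <= 2D T1/X <= 2ℓ^(-2) <= 1`), `K = (3ℓ)^12 * 4 ℓ^(2A0-2A1)` (`SI.mul_le_low`, `1 + |t| <= 2ℓ^A0`). `A1 = 2A0 + A + 20`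
(so `A <= A1` and `2 T2 K <= ℓ^(-A-1)` for `X` large). `C1 = A3 + 2 + A + Bm + 2`: `δ T1 >= ℓ^(C1-A3-2) = ℓ^(A+Bm+2)`, so
`2P/(δT1)^2 <= ℓ^(-A-1)`. Total `<= 3ℓ^(-A-1) <= ℓ^(-A)`. `A2` from `frm`. (Compare the proof of `SI.freq`.)
-/

namespace Pool.Agent.H43.TP

open Finset

private theorem fr_pp_le {q : ℕ} (χ : DirichletCharacter ℂ q) {D D' : ℕ} (hD : 1 ≤ D)
    (hD' : D' ≤ 2 * D) (t : ℝ) : ‖pp χ D D' t‖ ≤ 1 := by
  have hD0 : (0 : ℝ) < D := by exact_mod_cast hD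
  have h1 : ∀ p ∈ (Ioc D D').filter Nat.Prime,
      ‖χ p * (p : ℂ) ^ (-(1 + (t : ℂ) * Complex.I))‖ ≤ 1 / (D : ℝ) := by
    intro p hp
    rw [mem_filter, mem_Ioc] at hp
    have hp0 : 0 < p := by omega
    have h2 : (-(1 + (t : ℂ) * Complex.I)).re = -1 := by simp
    rw [norm_mul, Complex.norm_natCast_cpow_of_pos hp0, h2, Real.rpow_neg_one, ← one_div]
    have h3 : ‖χ p‖ ≤ 1 := DirichletCharacter.norm_le_one _ _
    have h4 : 1 / (p : ℝ) ≤ 1 / (D : ℝ) := by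
      apply one_div_le_one_div_of_le hD0
      exact_mod_cast hp.1.1.le
    have h5 : 0 ≤ 1 / (p : ℝ) := by positivity
    calc ‖χ p‖ * (1 / (p : ℝ)) ≤ 1 * (1 / (D : ℝ)) := mul_le_mul h3 h4 h5 zero_le_one
      _ = 1 / (D : ℝ) := one_mul _
  unfold pp
  refine ((norm_sum_le _ _).trans (Finset.sum_le_card_nsmul _ _ _ h1)).trans ?_
  rw [nsmul_eq_mul]
  have h6 : ((Ioc D D').filter Nat.Prime).card ≤ D := by
    refine (card_filter_le _ _).trans ?_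
    rw [Nat.card_Ioc]
    omega
  have h7 : (((Ioc D D').filter Nat.Prime).card : ℝ) ≤ D := by exact_mod_cast h6
  rw [mul_one_div, div_le_one hD0]
  exact h7

private theorem fr_pp_cont {q : ℕ} (χ : DirichletCharacter ℂ q) (D D' : ℕ) :
    Continuous (pp χ D D') := by
  unfold pp
  apply continuous_finsetSum
  intro n hn
  rw [mem_filter] at hn
  apply Continuous.mul continuous_const
  apply Continuous.const_cpow (by fun_prop)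
  left
  exact_mod_cast hn.2.ne_zero

theorem fr (B A : ℝ) (hB : 0 < B) (hA : 0 < A) : ∃ A2 : ℝ, 0 < A2 ∧ ∀ A3 : ℝ, A2 ≤ A3 →
    ∃ C1 A1 X0 : ℝ, 0 < C1 ∧ A ≤ A1 ∧ 10 ≤ X0 ∧ ∀ X : ℝ, X0 ≤ X →
    ∀ (q : ℕ) [NeZero q], (q : ℝ) ≤ (Real.log X) ^ B → ∀ (χ : DirichletCharacter ℂ q) (δ : ℝ),
    X⁻¹ * (Real.log X) ^ C1 ≤ δ → δ ≤ (Real.log X) ^ (-A1) → ∀ D D' : ℕ,
    (Real.log X) ^ A2 ≤ D → (D : ℝ) ≤ (Real.log X) ^ A3 → D' ≤ 2 * D → ∀ e : Fin 6 → ℕ,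
    X ≤ 2 * D * 2 ^ (∑ i, e i) → D * (2 : ℝ) ^ (∑ i, e i) ≤ 2 ^ 9 * X →
    (∀ i : Fin 6, (i : ℕ) < 3 → (2 : ℝ) ^ (e i) ≤ 8 * X ^ ((1 : ℝ) / 3)) →
    ∫ t : ℝ, ‖pp χ D D' t * SI.bp χ e t‖ ^ 2 * SI.mul δ ((Real.log X) ^ (-A1)) t ≤
      (Real.log X) ^ (-A) := by
  obtain ⟨C, hC, Bm, hmvp⟩ := SI.mvp
  obtain ⟨A0, A2, hA0pos, hA2pos, hfrm⟩ := frm B (A + 1) hB (by linarith)
  refine ⟨A2, hA2pos, fun A3 hA3 => ?_⟩
  obtain ⟨X01, hX01, hfr⟩ := hfrm A3 hA3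
  set A1 := 2 * A0 + A + 20 with hA1
  set C1 : ℝ := A3 + 2 + A + Bm + 2 with hC1
  have hBm0 : (0 : ℝ) ≤ Bm := Nat.cast_nonneg _
  -- conditions on X
  have ev1 : ∀ᶠ X : ℝ in Filter.atTop, max (8 * 4 * 3 ^ 12) (24 * C * 3 ^ Bm) ≤ Real.log X :=
    Real.tendsto_log_atTop.eventually_ge_atTop _
  have ev2 : ∀ᶠ X : ℝ in Filter.atTop, (Real.log X) ^ (A3 + 2) ≤ X := by
    have h := (isLittleO_log_rpow_rpow_atTop (A3 + 2) (s := 1) (by norm_num)).bound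
      (c := 1) one_pos
    filter_upwards [h, Filter.eventually_ge_atTop (1 : ℝ)] with X hX hX1
    rw [Real.norm_eq_abs, Real.norm_eq_abs, Real.rpow_one,
      abs_of_nonneg (by linarith : 0 ≤ X), one_mul] at hX
    exact le_trans (le_abs_self _) hX
  obtain ⟨X1, hX1⟩ := Filter.eventually_atTop.1 (ev1.and ev2)
  refine ⟨C1, A1, max X1 X01, by rw [hC1]; linarith, by rw [hA1]; linarith,
    le_trans hX01 (le_max_right _ _), ?_⟩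
  intro X hX q _ hq χ δ hδ1 hδ2 D D' hD1 hD2 hD' e he1 he2 he3
  obtain ⟨c1, c2⟩ := hX1 X (le_trans (le_max_left _ _) hX)
  have hXX01 : X01 ≤ X := le_trans (le_max_right _ _) hX
  have hX10 : 10 ≤ X := le_trans hX01 hXX01
  have hXpos : 0 < X := by linarith
  have hMid := hfr X hXX01 q hq χ D D' hD1 hD2 hD' e he1 he2 he3
  set ℓ := Real.log X with hℓ
  have hℓbig : 8 * 4 * 3 ^ 12 ≤ ℓ := le_trans (le_max_left _ _) c1
  have hℓC : 24 * C * 3 ^ Bm ≤ ℓ := le_trans (le_max_right _ _) c1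
  have hℓ100 : 100 ≤ ℓ := by
    refine le_trans ?_ hℓbig
    norm_num
  have hℓpos : 0 < ℓ := by linarith
  have hℓone : 1 ≤ ℓ := by linarith
  -- D
  have hDone : 1 ≤ D := by
    have h1 : (0 : ℝ) < D := lt_of_lt_of_le (Real.rpow_pos_of_pos hℓpos _) hD1
    exact_mod_cast h1
  have hDoneR : (1 : ℝ) ≤ D := by exact_mod_cast hDone
  have hl2a : (0.6931471803 : ℝ) < Real.log 2 := Real.log_two_gt_d9
  have hl2b : Real.log 2 < 0.6931471808 := Real.log_two_lt_d9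
  set S := ∑ i, e i with hS
  have h2S : (0 : ℝ) < 2 ^ S := by positivity
  -- the size of S
  have hSlog : (S : ℝ) * Real.log 2 ≤ 9 * Real.log 2 + ℓ := by
    have h0 : (2 : ℝ) ^ S ≤ 2 ^ 9 * X := by
      refine le_trans ?_ he2
      nlinarith
    have h1 := Real.log_le_log (by positivity) h0
    rw [Real.log_pow, Real.log_mul (by norm_num) hXpos.ne', Real.log_pow] at h1
    push_cast at h1
    linarith
  have hS3 : 1 + (S : ℝ) ≤ 3 * ℓ := by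
    have h1 : (S : ℝ) * 0.6931471803 ≤ (S : ℝ) * Real.log 2 :=
      mul_le_mul_of_nonneg_left hl2a.le (Nat.cast_nonneg _)
    linarith
  have hS0 : (0 : ℝ) ≤ S := Nat.cast_nonneg _
  -- δ
  have hδpos : 0 < δ := lt_of_lt_of_le
    (mul_pos (inv_pos.2 hXpos) (Real.rpow_pos_of_pos hℓpos _)) hδ1
  set δ1 := ℓ ^ (-A1) with hδ1def
  have hδ1pos : 0 < δ1 := Real.rpow_pos_of_pos hℓpos _
  set T1 := X * ℓ ^ (-A3 - 2) with hT1
  have hneg : ℓ ^ (-A3 - 2) = (ℓ ^ (A3 + 2))⁻¹ := by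
    rw [← Real.rpow_neg hℓpos.le]
    congr 1
    ring
  have hT1one : 1 ≤ T1 := by
    rw [hT1, hneg, ← div_eq_mul_inv, one_le_div (Real.rpow_pos_of_pos hℓpos _)]
    exact c2
  have hT1pos : 0 < T1 := by linarith
  set T2 := ℓ ^ A0 with hT2
  have hT2one : 1 ≤ T2 := Real.one_le_rpow hℓone hA0pos.le
  have hT1S : T1 ≤ 2 ^ S := by
    have h1 : ℓ ^ A3 * ℓ ^ (-A3 - 2) = (ℓ ^ 2)⁻¹ := by
      rw [← Real.rpow_add hℓpos, show A3 + (-A3 - 2) = -(2 : ℝ) by ring,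
        Real.rpow_neg hℓpos.le]
      norm_num
    have h2 : (ℓ ^ 2)⁻¹ ≤ 1 / 2 := by
      rw [inv_le_comm₀ (by positivity) (by norm_num)]
      nlinarith
    have h3 : 0 ≤ ℓ ^ (-A3 - 2) := Real.rpow_nonneg hℓpos.le _
    calc T1 ≤ (2 * D * 2 ^ S) * ℓ ^ (-A3 - 2) := by
          rw [hT1]
          exact mul_le_mul_of_nonneg_right he1 h3
      _ ≤ (2 * ℓ ^ A3 * 2 ^ S) * ℓ ^ (-A3 - 2) := by gcongr
      _ = 2 * (ℓ ^ A3 * ℓ ^ (-A3 - 2)) * 2 ^ S := by ring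
      _ ≤ 2 * (1 / 2) * 2 ^ S := by rw [h1]; gcongr
      _ = 2 ^ S := by ring
  -- the trivial bound
  have hbp : ∀ t, ‖SI.bp χ e t‖ ≤ (3 * ℓ) ^ 6 := by
    intro t
    unfold SI.bp
    rw [norm_prod]
    calc ∏ i, ‖SI.pol (SI.cf χ i) (e i) t‖ ≤ ∏ _i : Fin 6, (3 * ℓ) := by
          apply Finset.prod_le_prod (fun i _ => norm_nonneg _)
          intro i _
          refine le_trans (SI.pw_triv χ i (e i) t) (le_trans ?_ hS3)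
          have : e i ≤ S := Finset.single_le_sum (fun j _ => Nat.zero_le _) (Finset.mem_univ i)
          have : (e i : ℝ) ≤ S := by exact_mod_cast this
          linarith
      _ = (3 * ℓ) ^ 6 := by simp
  have hbsq0 : ∀ t, ‖SI.bp χ e t‖ ^ 2 ≤ (3 * ℓ) ^ 12 := by
    intro t
    calc ‖SI.bp χ e t‖ ^ 2 ≤ ((3 * ℓ) ^ 6) ^ 2 := pow_le_pow_left₀ (norm_nonneg _) (hbp t) 2
      _ = (3 * ℓ) ^ 12 := by ring
  have hpb : ∀ t, ‖pp χ D D' t * SI.bp χ e t‖ ^ 2 ≤ ‖SI.bp χ e t‖ ^ 2 := by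
    intro t
    apply pow_le_pow_left₀ (norm_nonneg _)
    rw [norm_mul]
    have := fr_pp_le χ hDone hD' t
    nlinarith [norm_nonneg (SI.bp χ e t)]
  have hbsq : ∀ t, ‖pp χ D D' t * SI.bp χ e t‖ ^ 2 ≤ (3 * ℓ) ^ 12 := fun t =>
    (hpb t).trans (hbsq0 t)
  have hbpc : Continuous (fun t => SI.bp χ e t) := by
    unfold SI.bp
    exact continuous_finsetProd _ (fun i _ => SI.pol_cont _ _)
  have hbc0 : Continuous (fun t => ‖SI.bp χ e t‖ ^ 2) := hbpc.norm.pow 2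
  have hbcont : Continuous (fun t => ‖pp χ D D' t * SI.bp χ e t‖ ^ 2) :=
    ((fr_pp_cont χ D D').mul hbpc).norm.pow 2
  -- the high part
  have hHigh : ∀ k : ℕ, ∫ t in (-(2 ^ (k + 1) * T1))..(2 ^ (k + 1) * T1),
      ‖pp χ D D' t * SI.bp χ e t‖ ^ 2 ≤ (3 * (C * (3 * ℓ) ^ Bm)) * 2 ^ k := by
    intro k
    have hT : 1 ≤ 2 ^ (k + 1) * T1 := by
      have : (1 : ℝ) ≤ 2 ^ (k + 1) := one_le_pow₀ (by norm_num)
      calc (1 : ℝ) = 1 * 1 := by ring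
        _ ≤ 2 ^ (k + 1) * T1 := by gcongr
    have h0 : ∫ t in (-(2 ^ (k + 1) * T1))..(2 ^ (k + 1) * T1),
        ‖pp χ D D' t * SI.bp χ e t‖ ^ 2 ≤
        ∫ t in (-(2 ^ (k + 1) * T1))..(2 ^ (k + 1) * T1), ‖SI.bp χ e t‖ ^ 2 :=
      intervalIntegral.integral_mono_on (by linarith) (hbcont.intervalIntegrable _ _)
        (hbc0.intervalIntegrable _ _) (fun t _ => hpb t)
    have h1 := hmvp q χ e Finset.univ (2 ^ (k + 1) * T1) hT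
    have h2 : 2 ^ (k + 1) * T1 / 2 ^ S ≤ 2 ^ (k + 1) := by
      rw [div_le_iff₀ (by positivity)]
      gcongr
    have h3 : (1 : ℝ) ≤ 2 ^ k := one_le_pow₀ (by norm_num)
    have h4 : 2 ^ (k + 1) * T1 / 2 ^ S + 1 ≤ 3 * 2 ^ k := by
      calc 2 ^ (k + 1) * T1 / 2 ^ S + 1 ≤ 2 ^ (k + 1) + 1 := by linarith
        _ = 2 * 2 ^ k + 1 := by rw [pow_succ]; ring
        _ ≤ 3 * 2 ^ k := by linarith
    have h5 : (1 + (S : ℝ)) ^ Bm ≤ (3 * ℓ) ^ Bm := pow_le_pow_left₀ (by linarith) hS3 Bm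
    refine le_trans h0 (le_trans h1 ?_)
    calc C * (1 + (S : ℝ)) ^ Bm * (2 ^ (k + 1) * T1 / 2 ^ S + 1)
        ≤ C * (3 * ℓ) ^ Bm * (3 * 2 ^ k) := by gcongr
      _ = (3 * (C * (3 * ℓ) ^ Bm)) * 2 ^ k := by ring
  -- the low part
  have hLow : ∀ t, |t| ≤ T2 → ‖pp χ D D' t * SI.bp χ e t‖ ^ 2 * SI.mul δ δ1 t ≤
      (3 * ℓ) ^ 12 * (δ1 * (2 * T2)) ^ 2 := by
    intro t ht
    have h1 : SI.mul δ δ1 t ≤ (δ1 * (2 * T2)) ^ 2 := by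
      refine le_trans (SI.mul_le_low δ δ1 t) ?_
      have h2 : 0 ≤ δ1 * (1 + |t|) := by positivity
      apply pow_le_pow_left₀ h2
      gcongr
      linarith
    exact mul_le_mul (hbsq t) h1 (SI.mul_nonneg' t) (by positivity)
  have hall := SI.freq_abs (fun t => ‖pp χ D D' t * SI.bp χ e t‖ ^ 2) hbcont
    (fun t => sq_nonneg _) _ hbsq δ δ1 T1 T2
    (ℓ ^ (-(A + 1))) (3 * (C * (3 * ℓ) ^ Bm)) ((3 * ℓ) ^ 12 * (δ1 * (2 * T2)) ^ 2) hδpos hT1one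
    (by linarith) hMid (by positivity) hHigh hLow
  refine le_trans hall ?_
  -- final estimates
  have hAA : ℓ ^ (-(A + 1)) ≤ ℓ ^ (-A) / 4 := by
    have e1 : ℓ ^ (-(A + 1)) = ℓ ^ (-A) / ℓ := by
      rw [show -(A + 1) = -A - 1 by ring, Real.rpow_sub hℓpos, Real.rpow_one]
    rw [e1]
    have : 0 ≤ ℓ ^ (-A) := Real.rpow_nonneg hℓpos.le _
    apply div_le_div_of_nonneg_left this (by norm_num) (by linarith)
  have hLL : 2 * T2 * ((3 * ℓ) ^ 12 * (δ1 * (2 * T2)) ^ 2) ≤ ℓ ^ (-A) / 4 := by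
    have e1 : 2 * T2 * ((3 * ℓ) ^ 12 * (δ1 * (2 * T2)) ^ 2) =
        (8 * 3 ^ 12) * (ℓ ^ (12 : ℕ) * T2 ^ (3 : ℕ) * δ1 ^ (2 : ℕ)) := by ring
    have e2 : ℓ ^ (12 : ℕ) * T2 ^ (3 : ℕ) * δ1 ^ (2 : ℕ) = ℓ ^ (12 + A0 * 3 + (-A1) * 2) := by
      rw [hT2, hδ1def, ← Real.rpow_natCast ℓ 12, ← Real.rpow_natCast (ℓ ^ A0) 3,
        ← Real.rpow_natCast (ℓ ^ (-A1)) 2, ← Real.rpow_mul hℓpos.le, ← Real.rpow_mul hℓpos.le,
        ← Real.rpow_add hℓpos, ← Real.rpow_add hℓpos]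
      norm_num
    have e3 : ℓ ^ (12 + A0 * 3 + (-A1) * 2) ≤ ℓ ^ (-A - 1) := by
      apply Real.rpow_le_rpow_of_exponent_le hℓone
      rw [hA1]
      linarith
    rw [e1, e2]
    calc (8 * 3 ^ 12) * ℓ ^ (12 + A0 * 3 + (-A1) * 2) ≤ (8 * 3 ^ 12) * ℓ ^ (-A - 1) := by
          gcongr
      _ = (8 * 3 ^ 12) * (ℓ ^ (-A) / ℓ) := by rw [Real.rpow_sub hℓpos, Real.rpow_one]
      _ = ((8 * 4 * 3 ^ 12) / ℓ) * (ℓ ^ (-A) / 4) := by field_simp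
      _ ≤ 1 * (ℓ ^ (-A) / 4) := by
          have h1 : 0 ≤ ℓ ^ (-A) := Real.rpow_nonneg hℓpos.le _
          apply mul_le_mul_of_nonneg_right _ (by positivity)
          rw [div_le_one hℓpos]
          exact hℓbig
      _ = ℓ ^ (-A) / 4 := one_mul _
  have hHH : 2 * (3 * (C * (3 * ℓ) ^ Bm)) / (δ * T1) ^ 2 ≤ ℓ ^ (-A) / 4 := by
    have e1 : ℓ ^ (A + Bm + 2) ≤ δ * T1 := by
      calc ℓ ^ (A + Bm + 2) = (X⁻¹ * ℓ ^ C1) * (X * ℓ ^ (-A3 - 2)) := by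
            have h1 : (X⁻¹ * ℓ ^ C1) * (X * ℓ ^ (-A3 - 2)) =
                (X⁻¹ * X) * (ℓ ^ C1 * ℓ ^ (-A3 - 2)) := by ring
            rw [h1, inv_mul_cancel₀ hXpos.ne', one_mul, ← Real.rpow_add hℓpos]
            congr 1
            rw [hC1]
            ring
        _ ≤ δ * T1 := mul_le_mul_of_nonneg_right hδ1 hT1pos.le
    have e0 : 1 ≤ δ * T1 :=
      le_trans (Real.one_le_rpow hℓone (by positivity)) e1
    have e2 : ℓ ^ (A + Bm + 2) ≤ (δ * T1) ^ 2 := by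
      refine le_trans e1 ?_
      nlinarith
    have hℓA : 0 < ℓ ^ A := Real.rpow_pos_of_pos hℓpos _
    have e3 : 24 * C * 3 ^ Bm * (ℓ ^ A * ℓ ^ Bm) ≤ (δ * T1) ^ 2 := by
      refine le_trans ?_ e2
      rw [Real.rpow_add hℓpos, Real.rpow_add hℓpos, Real.rpow_natCast, Real.rpow_two, mul_comm]
      have h1 : 24 * C * 3 ^ Bm ≤ ℓ ^ 2 := by nlinarith
      gcongr
    have e4 : ℓ ^ (-A) / 4 = 1 / (4 * ℓ ^ A) := by
      rw [Real.rpow_neg hℓpos.le]; field_simp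
    rw [e4, div_le_div_iff₀ (by positivity) (by positivity), one_mul]
    refine le_trans (le_of_eq ?_) e3
    rw [mul_pow]; ring
  have hpos : 0 ≤ ℓ ^ (-A) := Real.rpow_nonneg hℓpos.le _
  linarith

end Pool.Agent.H43.TP
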