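import Pool.Agent.H43.SI.Si
import Pool.Agent.H43.TP.Fr
import Pool.Agent.H43.TP.Ply

/-!
# [H43 TP SI] Short sums against longer sums for `χ gg`

PROOF. As `SI/Si.lean`. `ℓ = log X`. `b` minimal with `6X <= 2^(3b)` (`2^b <= 8X^(1/3)`), `Bb` with `6X <= 2^Bb <= 12X`. By `ply_hb`
`χ(n) gg(n) = Σ_{e ∈ boxes b Bb} wt e (pa * bf χ e)(n)` for `n <= 6X`, and as in `SI.si_boxes` (its proof with `pa * bf` in place
of `bf`) `∫ ‖SiD (χ gg)‖^2 <= 49 (card boxes)^2 Z`, `card boxes <= (2ℓ)^6` or so, if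
`∫ ‖SiD (pa * bf χ e) Nm δ δ1 y‖^2 dy <= Z` for all `e ∈ boxes b Bb`. For one box: if there is an `n ∈ (X, 6X]` with
`(pa * bf)(n) ≠ 0` then by `ply_supp` (`D' <= 2D`) `X <= 2D 2^S` and `D 2^S <= 64*6X <= 2^9 X` (otherwise `SiD = 0` on the range,
`SI.si_range`); `Nm` may be replaced by `D' 2^S` (`SI.Sd_cut`), `SI.par` and `ply_poly` give `<= C X^2 ∫ ‖pp bp‖^2 mul`, and `fr`
with `(B, A + 14)`. (`A1 >= A + 14 >= A`; for `e ∈ boxes b Bb` the condition `2^(e_i) <= 8X^(1/3)`, `i < 3`, holds.)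
-/

namespace Pool.Agent.H43.TP

open Finset MeasureTheory

/-- the mean square of the sums of `χ gg` from those of the boxes -/
private theorem siw_boxes {q : ℕ} [NeZero q] (χ : DirichletCharacter ℂ q) (D D' : ℕ) (X δ δ1 : ℝ)
    (hX : 1 ≤ X) (hδ1 : δ1 ≤ 1) (hδδ : δ ≤ δ1) (b B Nm : ℕ) (hb1 : 6 * X ≤ 2 ^ (3 * b))
    (hB1 : 6 * X ≤ 2 ^ B)
    (Z : ℝ) (hZ : ∀ e ∈ SI.boxes b B, ∫ y in (Real.log X)..(Real.log (2 * X)),
      ‖SI.SiD (fun n => (pa χ D D' * SI.bf χ e) n) Nm δ δ1 y‖ ^ 2 ≤ Z) :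
    ∫ y in (Real.log X)..(Real.log (2 * X)),
      ‖SI.SiD (fun n => ((gg D D' n : ℝ) : ℂ) * χ n) Nm δ δ1 y‖ ^ 2 ≤
      49 * ((SI.boxes b B).card : ℝ) ^ 2 * Z := by
  have hlog : Real.log X ≤ Real.log (2 * X) := Real.log_le_log (by linarith) (by linarith)
  have hSd : ∀ y : ℝ, Real.log X ≤ y → y ≤ Real.log (2 * X) → ∀ d : ℝ, d ≤ 1 →
      SI.Sd (fun n => ((gg D D' n : ℝ) : ℂ) * χ n) Nm d y =
      ∑ e ∈ SI.boxes b B, SI.wt e * SI.Sd (fun n => (pa χ D D' * SI.bf χ e) n) Nm d y := by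
    intro y hy1 hy2 d hd
    have e1 : ∑ e ∈ SI.boxes b B, SI.wt e *
          SI.Sd (fun n => (pa χ D D' * SI.bf χ e) n) Nm d y =
        ∑ n ∈ (Icc 1 Nm).filter (fun n : ℕ => y < Real.log n ∧ Real.log n ≤ y + d),
          ∑ e ∈ SI.boxes b B, SI.wt e * (pa χ D D' * SI.bf χ e) n := by
      rw [Finset.sum_comm]
      apply Finset.sum_congr rfl
      intro e _
      unfold SI.Sd
      rw [Finset.mul_sum]
    rw [e1]
    unfold SI.Sd
    apply Finset.sum_congr rfl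
    intro n hn
    rw [mem_filter, mem_Icc] at hn
    have hr := SI.si_range hX hy1 hy2 hd n hn.1.1 hn.2
    apply ply_hb χ D D' b B n hn.1.1
    · have : (n : ℝ) ≤ 2 ^ (3 * b) := le_trans hr.2 hb1
      exact_mod_cast this
    · have : (n : ℝ) ≤ 2 ^ B := le_trans hr.2 hB1
      exact_mod_cast this
  have hD : ∀ y ∈ Set.Icc (Real.log X) (Real.log (2 * X)),
      ‖SI.SiD (fun n => ((gg D D' n : ℝ) : ℂ) * χ n) Nm δ δ1 y‖ ^ 2 ≤
      49 * ((SI.boxes b B).card : ℝ) *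
        ∑ e ∈ SI.boxes b B, ‖SI.SiD (fun n => (pa χ D D' * SI.bf χ e) n) Nm δ δ1 y‖ ^ 2 := by
    intro y hy
    have e1 : SI.SiD (fun n => ((gg D D' n : ℝ) : ℂ) * χ n) Nm δ δ1 y =
        ∑ e ∈ SI.boxes b B, SI.wt e *
          SI.SiD (fun n => (pa χ D D' * SI.bf χ e) n) Nm δ δ1 y := by
      unfold SI.SiD
      rw [hSd y hy.1 hy.2 δ (by linarith), hSd y hy.1 hy.2 δ1 hδ1, Finset.sum_div, Finset.sum_div,
        ← Finset.sum_sub_distrib]
      apply Finset.sum_congr rfl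
      intro e _
      ring
    rw [e1]
    have e2 : ‖∑ e ∈ SI.boxes b B, SI.wt e *
        SI.SiD (fun n => (pa χ D D' * SI.bf χ e) n) Nm δ δ1 y‖ ≤
        ∑ e ∈ SI.boxes b B, 7 * ‖SI.SiD (fun n => (pa χ D D' * SI.bf χ e) n) Nm δ δ1 y‖ := by
      refine le_trans (norm_sum_le _ _) (Finset.sum_le_sum ?_)
      intro e _
      rw [norm_mul]
      exact mul_le_mul_of_nonneg_right (SI.wt_norm e) (norm_nonneg _)
    calc _ ≤ (∑ e ∈ SI.boxes b B,
            7 * ‖SI.SiD (fun n => (pa χ D D' * SI.bf χ e) n) Nm δ δ1 y‖) ^ 2 :=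
          pow_le_pow_left₀ (norm_nonneg _) e2 2
      _ ≤ ((SI.boxes b B).card : ℝ) *
          ∑ e ∈ SI.boxes b B,
            (7 * ‖SI.SiD (fun n => (pa χ D D' * SI.bf χ e) n) Nm δ δ1 y‖) ^ 2 :=
          sq_sum_le_card_mul_sum_sq
      _ = 49 * ((SI.boxes b B).card : ℝ) *
          ∑ e ∈ SI.boxes b B, ‖SI.SiD (fun n => (pa χ D D' * SI.bf χ e) n) Nm δ δ1 y‖ ^ 2 := by
          rw [Finset.mul_sum, Finset.mul_sum]
          apply Finset.sum_congr rfl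
          intro e _
          ring
  have hint : ∀ e, IntervalIntegrable
      (fun y => ‖SI.SiD (fun n => (pa χ D D' * SI.bf χ e) n) Nm δ δ1 y‖ ^ 2) volume
      (Real.log X) (Real.log (2 * X)) := fun e => SI.SiD_intervalIntegrable _ _ _ _ _ _
  calc _ ≤ ∫ y in (Real.log X)..(Real.log (2 * X)), 49 * ((SI.boxes b B).card : ℝ) *
        ∑ e ∈ SI.boxes b B, ‖SI.SiD (fun n => (pa χ D D' * SI.bf χ e) n) Nm δ δ1 y‖ ^ 2 := by
        apply intervalIntegral.integral_mono_on hlog (SI.SiD_intervalIntegrable _ _ _ _ _ _)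
        · apply IntervalIntegrable.const_mul
          have e3 : (fun y => ∑ e ∈ SI.boxes b B,
                ‖SI.SiD (fun n => (pa χ D D' * SI.bf χ e) n) Nm δ δ1 y‖ ^ 2) =
              ∑ e ∈ SI.boxes b B,
                fun y => ‖SI.SiD (fun n => (pa χ D D' * SI.bf χ e) n) Nm δ δ1 y‖ ^ 2 := by
            funext y
            rw [Finset.sum_apply]
          rw [e3]
          exact IntervalIntegrable.sum _ (fun e _ => hint e)
        · exact hD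
    _ = 49 * ((SI.boxes b B).card : ℝ) *
        ∑ e ∈ SI.boxes b B, ∫ y in (Real.log X)..(Real.log (2 * X)),
          ‖SI.SiD (fun n => (pa χ D D' * SI.bf χ e) n) Nm δ δ1 y‖ ^ 2 := by
        rw [intervalIntegral.integral_const_mul]
        congr 1
        exact intervalIntegral.integral_finsetSum (fun e _ => hint e)
    _ ≤ 49 * ((SI.boxes b B).card : ℝ) * ∑ e ∈ SI.boxes b B, Z := by
        apply mul_le_mul_of_nonneg_left (Finset.sum_le_sum hZ) (by positivity)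
    _ = 49 * ((SI.boxes b B).card : ℝ) ^ 2 * Z := by
        rw [Finset.sum_const, nsmul_eq_mul]; ring

theorem siw (B A : ℝ) (hB : 0 < B) (hA : 0 < A) : ∃ A2 : ℝ, 0 < A2 ∧ ∀ A3 : ℝ, A2 ≤ A3 →
    ∃ C1 A1 X0 : ℝ, 0 < C1 ∧ A ≤ A1 ∧ 10 ≤ X0 ∧ ∀ X : ℝ, X0 ≤ X →
    ∀ (q : ℕ) [NeZero q], (q : ℝ) ≤ (Real.log X) ^ B → ∀ (χ : DirichletCharacter ℂ q) (δ : ℝ),
    X⁻¹ * (Real.log X) ^ C1 ≤ δ → δ ≤ (Real.log X) ^ (-A1) → ∀ D D' : ℕ,
    (Real.log X) ^ A2 ≤ D → (D : ℝ) ≤ (Real.log X) ^ A3 → D' ≤ 2 * D → ∀ Nm : ℕ, 6 * X ≤ Nm →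
    ∫ y in (Real.log X)..(Real.log (2 * X)),
      ‖SI.Sd (fun n => ((gg D D' n : ℝ) : ℂ) * χ n) Nm δ y / δ -
        SI.Sd (fun n => ((gg D D' n : ℝ) : ℂ) * χ n) Nm ((Real.log X) ^ (-A1)) y /
          ((Real.log X) ^ (-A1) : ℝ)‖ ^ 2 ≤ X ^ 2 * (Real.log X) ^ (-A) := by
  obtain ⟨C, hC, hpar⟩ := SI.par
  obtain ⟨A2, hA2, hfr⟩ := fr B (A + 14) hB (by linarith)
  refine ⟨A2, hA2, ?_⟩
  intro A3 hA3
  obtain ⟨C1, A1, X1, hC1, hA1, hX1, hfreq⟩ := hfr A3 hA3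
  set L0 : ℝ := max 100 (49 * 3 ^ 12 * C) with hL0
  refine ⟨C1, A1, max X1 (Real.exp L0), hC1, by linarith, le_trans hX1 (le_max_left _ _), ?_⟩
  intro X hX q _ hq χ δ hδ1 hδ2 D D' hD2 hD3 hDD Nm hNm
  have hXX1 : X1 ≤ X := le_trans (le_max_left _ _) hX
  have hX10 : 10 ≤ X := le_trans hX1 hXX1
  have hXpos : 0 < X := by linarith
  have hfreq' := hfreq X hXX1 q hq χ δ hδ1 hδ2 D D' hD2 hD3 hDD
  set ℓ := Real.log X with hℓ
  have hℓL : L0 ≤ ℓ := (Real.le_log_iff_exp_le hXpos).2 (le_trans (le_max_right _ _) hX)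
  have hℓ100 : 100 ≤ ℓ := le_trans (le_max_left _ _) hℓL
  have hℓC : 49 * 3 ^ 12 * C ≤ ℓ := le_trans (le_max_right _ _) hℓL
  have hℓpos : 0 < ℓ := by linarith
  set δ1 := ℓ ^ (-A1) with hδ1def
  have hδ11 : δ1 ≤ 1 := Real.rpow_le_one_of_one_le_of_nonpos (by linarith) (by linarith)
  have hδpos : 0 < δ := lt_of_lt_of_le (by positivity) hδ1
  have hl2a : (0.6931471803 : ℝ) < Real.log 2 := Real.log_two_gt_d9
  have hl2b : Real.log 2 < 0.6931471808 := Real.log_two_lt_d9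
  have h2e : ∀ n : ℕ, (2 : ℝ) ^ n = Real.exp (n * Real.log 2) := by
    intro n
    rw [mul_comm, ← Real.rpow_natCast, Real.rpow_def_of_pos (by norm_num)]
  have hlog6 : Real.log (6 * X) = Real.log 6 + ℓ := Real.log_mul (by norm_num) hXpos.ne'
  have hlog6b : Real.log 6 ≤ 3 * Real.log 2 := by
    have : Real.log 6 ≤ Real.log (2 ^ 3) := Real.log_le_log (by norm_num) (by norm_num)
    rwa [Real.log_pow] at this
  have hlog6c : 0 ≤ Real.log 6 := Real.log_nonneg (by norm_num)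
  have h6X : 6 * X = Real.exp (Real.log 6 + ℓ) := by
    rw [← hlog6, Real.exp_log (by positivity)]
  -- b and Bb
  set b := ⌈(Real.log 6 + ℓ) / (3 * Real.log 2)⌉₊ with hb
  set Bb := ⌈(Real.log 6 + ℓ) / Real.log 2⌉₊ with hBb
  have hb0 : (Real.log 6 + ℓ) / (3 * Real.log 2) ≤ b := Nat.le_ceil _
  have hb2 : (b : ℝ) < (Real.log 6 + ℓ) / (3 * Real.log 2) + 1 :=
    Nat.ceil_lt_add_one (by positivity)
  have hB0 : (Real.log 6 + ℓ) / Real.log 2 ≤ Bb := Nat.le_ceil _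
  have hB2 : (Bb : ℝ) < (Real.log 6 + ℓ) / Real.log 2 + 1 := Nat.ceil_lt_add_one (by positivity)
  rw [div_le_iff₀ (by positivity)] at hb0 hB0
  have hb3 : (b : ℝ) * (3 * Real.log 2) < (Real.log 6 + ℓ) + 3 * Real.log 2 := by
    have h1 : (0 : ℝ) < 3 * Real.log 2 := by positivity
    calc (b : ℝ) * (3 * Real.log 2)
        < ((Real.log 6 + ℓ) / (3 * Real.log 2) + 1) * (3 * Real.log 2) :=
          mul_lt_mul_of_pos_right hb2 h1
      _ = (Real.log 6 + ℓ) + 3 * Real.log 2 := by field_simp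
  have hB3 : (Bb : ℝ) * Real.log 2 < (Real.log 6 + ℓ) + Real.log 2 := by
    have h1 : (0 : ℝ) < Real.log 2 := by positivity
    calc (Bb : ℝ) * Real.log 2 < ((Real.log 6 + ℓ) / Real.log 2 + 1) * Real.log 2 :=
          mul_lt_mul_of_pos_right hB2 h1
      _ = (Real.log 6 + ℓ) + Real.log 2 := by field_simp
  have hbR : (b : ℝ) + 1 ≤ 3 * ℓ := by
    have h1 : (b : ℝ) * 2 ≤ (b : ℝ) * (3 * Real.log 2) := by
      apply mul_le_mul_of_nonneg_left _ (Nat.cast_nonneg b)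
      linarith
    linarith
  have hBR : (Bb : ℝ) + 1 ≤ 3 * ℓ := by
    have h1 : (Bb : ℝ) * (1 / 2) ≤ (Bb : ℝ) * Real.log 2 := by
      apply mul_le_mul_of_nonneg_left _ (Nat.cast_nonneg Bb)
      linarith
    linarith
  have hb6 : 6 * X ≤ 2 ^ (3 * b) := by
    rw [h2e, h6X]
    apply Real.exp_le_exp.2
    push_cast
    linarith
  have hB6 : 6 * X ≤ 2 ^ Bb := by
    rw [h2e, h6X]
    exact Real.exp_le_exp.2 hB0
  have hb8 : (2 : ℝ) ^ b ≤ 8 * X ^ ((1 : ℝ) / 3) := by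
    have e1 : 8 * X ^ ((1 : ℝ) / 3) = Real.exp (3 * Real.log 2 + ℓ / 3) := by
      rw [Real.exp_add, show (3 : ℝ) * Real.log 2 = ((3 : ℕ) : ℝ) * Real.log 2 by norm_num,
        ← h2e, Real.rpow_def_of_pos hXpos]
      norm_num
      congr 1
      ring
    rw [h2e, e1]
    apply Real.exp_le_exp.2
    linarith
  have hcard := SI.boxes_card_le b Bb (3 * ℓ) hbR hBR
  -- each box
  set Z : ℝ := C * X ^ 2 * ℓ ^ (-(A + 14)) with hZ
  have hZ0 : 0 ≤ Z := by positivity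
  have hDDR : (D' : ℝ) ≤ 2 * D := by exact_mod_cast hDD
  have hbox : ∀ e ∈ SI.boxes b Bb, ∫ y in ℓ..(Real.log (2 * X)),
      ‖SI.SiD (fun n => (pa χ D D' * SI.bf χ e) n) Nm δ δ1 y‖ ^ 2 ≤ Z := by
    intro e he
    have hcut : ∀ y : ℝ, ℓ ≤ y → y ≤ Real.log (2 * X) → ∀ d : ℝ, d ≤ 1 →
        SI.Sd (fun n => (pa χ D D' * SI.bf χ e) n) Nm d y =
          SI.Sd (fun n => (pa χ D D' * SI.bf χ e) n) (D' * 2 ^ (∑ i, e i)) d y := by
      intro y hy1 hy2 d hd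
      apply SI.Sd_cut
      intro n hn _ h3 h4
      have hr := SI.si_range (by linarith) hy1 hy2 hd n hn h3
      refine ⟨?_, (ply_supp χ D D' e n h4).2.1⟩
      have : (n : ℝ) ≤ Nm := le_trans hr.2 hNm
      exact_mod_cast this
    have hlog2 : ℓ ≤ Real.log (2 * X) := Real.log_le_log hXpos (by linarith)
    have hcongr : ∫ y in ℓ..(Real.log (2 * X)),
          ‖SI.SiD (fun n => (pa χ D D' * SI.bf χ e) n) Nm δ δ1 y‖ ^ 2 =
        ∫ y in ℓ..(Real.log (2 * X)),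
          ‖SI.SiD (fun n => (pa χ D D' * SI.bf χ e) n) (D' * 2 ^ (∑ i, e i)) δ δ1 y‖ ^ 2 := by
      apply intervalIntegral.integral_congr
      intro y hy
      rw [Set.uIcc_of_le hlog2] at hy
      simp only
      unfold SI.SiD
      rw [hcut y hy.1 hy.2 δ (by linarith), hcut y hy.1 hy.2 δ1 hδ11]
    rw [hcongr]
    by_cases hgood : X ≤ 2 * D * 2 ^ (∑ i, e i) ∧ (D : ℝ) * (2 : ℝ) ^ (∑ i, e i) ≤ 2 ^ 9 * X
    · obtain ⟨hg1, hg2⟩ := hgood
      have hp := (hpar (fun n => (pa χ D D' * SI.bf χ e) n) (D' * 2 ^ (∑ i, e i)) X δ δ1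
        (by linarith) hδpos hδ2 hδ11).2
      have he3 : ∀ i : Fin 6, (i : ℕ) < 3 → (2 : ℝ) ^ (e i) ≤ 8 * X ^ ((1 : ℝ) / 3) := by
        intro i hi
        refine le_trans ?_ hb8
        have h1 := (Fintype.mem_piFinset.1 he) i
        rw [if_pos hi, mem_range] at h1
        exact pow_le_pow_right₀ (by norm_num) (by omega)
      have hf := hfreq' e hg1 hg2 he3
      have e1 : (fun t : ℝ => ‖∑ n ∈ Icc 1 (D' * 2 ^ (∑ i, e i)), (pa χ D D' * SI.bf χ e) n *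
          (n : ℂ) ^ (-(1 + (t : ℂ) * Complex.I))‖ ^ 2 * SI.mul δ δ1 t) =
          fun t : ℝ => ‖pp χ D D' t * SI.bp χ e t‖ ^ 2 * SI.mul δ δ1 t := by
        funext t
        rw [ply_poly]
      rw [e1] at hp
      refine le_trans hp ?_
      rw [hZ]
      gcongr
    · have hzero : ∀ y ∈ Set.uIcc ℓ (Real.log (2 * X)),
          ‖SI.SiD (fun n => (pa χ D D' * SI.bf χ e) n) (D' * 2 ^ (∑ i, e i)) δ δ1 y‖ ^ 2 = 0 := by
        intro y hy
        rw [Set.uIcc_of_le hlog2] at hy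
        have hSd0 : ∀ d : ℝ, d ≤ 1 →
            SI.Sd (fun n => (pa χ D D' * SI.bf χ e) n) (D' * 2 ^ (∑ i, e i)) d y = 0 := by
          intro d hd
          unfold SI.Sd
          apply Finset.sum_eq_zero
          intro n hn
          rw [mem_filter, mem_Icc] at hn
          by_contra h0
          have hr := SI.si_range (by linarith) hy.1 hy.2 hd n hn.1.1 hn.2
          have hs := ply_supp χ D D' e n h0
          apply hgood
          constructor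
          · have h1 : (n : ℝ) ≤ D' * 2 ^ (∑ i, e i) := by exact_mod_cast hs.2.1
            have h2 : (D' : ℝ) * 2 ^ (∑ i, e i) ≤ 2 * D * 2 ^ (∑ i, e i) := by gcongr
            linarith
          · have : (D : ℝ) * 2 ^ (∑ i, e i) ≤ 64 * n := by exact_mod_cast hs.2.2
            linarith
        unfold SI.SiD
        rw [hSd0 δ (by linarith), hSd0 δ1 hδ11]
        simp
      rw [intervalIntegral.integral_congr hzero]
      simpa using hZ0
  have hmain := siw_boxes χ D D' X δ δ1 (by linarith) hδ11 hδ2 b Bb Nm hb6 hB6 Z hbox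
  refine le_trans hmain ?_
  have hcard0 : (0 : ℝ) ≤ ((SI.boxes b Bb).card : ℝ) := Nat.cast_nonneg _
  calc 49 * ((SI.boxes b Bb).card : ℝ) ^ 2 * Z ≤ 49 * ((3 * ℓ) ^ 6) ^ 2 * Z := by gcongr
    _ = X ^ 2 * ((49 * 3 ^ 12 * C) * (ℓ ^ (12 : ℕ) * ℓ ^ (-(A + 14)))) := by rw [hZ]; ring
    _ ≤ X ^ 2 * (ℓ * (ℓ ^ (12 : ℕ) * ℓ ^ (-(A + 14)))) := by gcongr
    _ = X ^ 2 * ℓ ^ (-(A + 1)) := by
        have e1 : ℓ * (ℓ ^ (12 : ℕ) * ℓ ^ (-(A + 14))) = ℓ ^ (-(A + 1)) := by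
          rw [← mul_assoc, ← pow_succ', ← Real.rpow_natCast, ← Real.rpow_add hℓpos]
          congr 1
          push_cast
          ring
        rw [e1]
    _ ≤ X ^ 2 * ℓ ^ (-A) := by
        apply mul_le_mul_of_nonneg_left _ (by positivity)
        exact Real.rpow_le_rpow_of_exponent_le (by linarith) (by linarith)

end Pool.Agent.H43.TP
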