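import Pool.Agent.H43.UF.Psi
import Pool.Agent.H43.SI.Six
import Pool.Agent.H43.TP.Si

/-!
# [H43 TP SIX] Short sums of `χ gg`

PROOF. As `SI/Six.lean`. `ℓ = log X`, `siw` with `(B, A+3)` gives `A2'`, and `C1, A1 >= A+3`; `A2 = max A2' (B+1)`. Multiplied by `δ^2`:
`∫ ‖Sd δ y - (δ/δ1) Sd δ1 y‖^2 <= δ^2 X^2 ℓ^(-A-3)`, `δ1 = ℓ^(-A1)`. For `y ∈ [log X, log 2X]`:
`Sd δ1 y = Σ_{p ∈ (D,D']} χ(p) (ψ(e^(y+δ1)/p, χ) - ψ(e^y/p, χ))` (sum over `e^y < n = pm <= e^(y+δ1) <= 6X <= Nm` of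
`χ(p)χ(m)Λ(m)`). `UF.psiu` with `(B+1, A1+A+4)` at `x = e^y/p, e^(y+δ1)/p >= X/(2ℓ^A3) >= √X` (`q <= ℓ^B <= (ℓ/2)^(B+1)`): the error
is `<= Σ_p 2 (6X/p) (2/ℓ)^(A1+A+4) <= ℓ^(-A1-A-3) X` for `X` large (`Σ_{D<p<=2D} 1/p <= 1`), times `δ/δ1`: `<= δ X ℓ^(-A-3)`.
Main term: if `χ = 1` then `χ(p) = 1` for `p > D >= ℓ^A2 >= ℓ^(B+1) > q`, so it is `kap D D' e^y (e^δ1 - 1)`, and
`(δ/δ1) kap e^y (e^δ1 - 1) = kap δ e^y + O(δ X δ1)` (`kap <= 1`, `|(e^δ1-1)/δ1 - 1| <= δ1`, `e^y <= 2X`). The interval of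
integration has length `log 2`. `‖a+b+c‖^2 <= 3(..)`.
-/

namespace Pool.Agent.H43.TP

open Finset MeasureTheory

private theorem sixw_Sd (f : ℕ → ℂ) (Nm : ℕ) (δ y : ℝ) (hδ : 0 ≤ δ)
    (h : Real.exp (y + δ) ≤ Nm) :
    SI.Sd f Nm δ y = ∑ n ∈ Icc 1 ⌊Real.exp (y + δ)⌋₊, f n - ∑ n ∈ Icc 1 ⌊Real.exp y⌋₊, f n := by
  have e0 : ∀ k, Icc 1 k = Ioc 0 k := by
    intro k
    ext y
    simp only [mem_Icc, mem_Ioc]
    omega
  have hfl : ⌊Real.exp y⌋₊ ≤ ⌊Real.exp (y + δ)⌋₊ :=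
    Nat.floor_le_floor (Real.exp_le_exp.2 (by linarith))
  have hset : (Icc 1 Nm).filter (fun n : ℕ => y < Real.log n ∧ Real.log n ≤ y + δ) =
      Ioc ⌊Real.exp y⌋₊ ⌊Real.exp (y + δ)⌋₊ := by
    ext n
    simp only [mem_filter, mem_Icc, mem_Ioc]
    constructor
    · rintro ⟨⟨h1, h2⟩, h3, h4⟩
      have hn : (0 : ℝ) < n := by exact_mod_cast h1
      refine ⟨?_, ?_⟩
      · rw [Nat.floor_lt (Real.exp_pos y).le]
        exact (Real.lt_log_iff_exp_lt hn).1 h3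
      · exact Nat.le_floor ((Real.log_le_iff_le_exp hn).1 h4)
    · rintro ⟨h1, h2⟩
      have hn1 : 1 ≤ n := by omega
      have hn : (0 : ℝ) < n := by exact_mod_cast hn1
      rw [Nat.floor_lt (Real.exp_pos y).le] at h1
      rw [Nat.le_floor_iff (Real.exp_pos _).le] at h2
      refine ⟨⟨hn1, ?_⟩, (Real.lt_log_iff_exp_lt hn).2 h1, (Real.log_le_iff_le_exp hn).2 h2⟩
      exact_mod_cast h2.trans h
  unfold SI.Sd
  rw [hset, e0, e0, eq_sub_iff_add_eq, add_comm,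
    Finset.sum_Ioc_consecutive _ (Nat.zero_le _) hfl]

/-- the sum of `gg χ` from the sums of `Λ χ` -/
private theorem sixw_sum {q : ℕ} (χ : DirichletCharacter ℂ q) (D D' K : ℕ) :
    ∑ n ∈ Icc 1 K, ((gg D D' n : ℝ) : ℂ) * χ n =
      ∑ p ∈ (Ioc D D').filter Nat.Prime, χ p *
        ∑ m ∈ Icc 1 (K / p), ((ArithmeticFunction.vonMangoldt m : ℝ) : ℂ) * χ m := by
  have e1 : ∀ n ∈ Icc 1 K, ((gg D D' n : ℝ) : ℂ) * χ n =
      ∑ p ∈ (Ioc D D').filter Nat.Prime, if p ∣ n then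
        χ p * (((ArithmeticFunction.vonMangoldt (n / p) : ℝ) : ℂ) * χ ((n / p : ℕ) : ZMod q))
        else 0 := by
    intro n _
    rw [← Finset.sum_filter]
    unfold gg
    rw [Complex.ofReal_sum, Finset.sum_mul, Finset.filter_filter]
    refine Finset.sum_congr rfl fun d hd => ?_
    rw [mem_filter] at hd
    have h3 : χ (n : ZMod q) = χ (d : ZMod q) * χ ((n / d : ℕ) : ZMod q) := by
      rw [← map_mul, ← Nat.cast_mul, Nat.mul_div_cancel' hd.2.2]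
    rw [h3]
    ring
  rw [Finset.sum_congr rfl e1, Finset.sum_comm]
  refine Finset.sum_congr rfl fun p hp => ?_
  have hp0 : 0 < p := (mem_filter.1 hp).2.pos
  rw [← Finset.sum_filter, Finset.mul_sum]
  refine Finset.sum_nbij' (fun n => n / p) (fun m => p * m) ?_ ?_ ?_ ?_ ?_
  · intro n hn
    rw [mem_filter, mem_Icc] at hn
    rw [mem_Icc]
    refine ⟨?_, Nat.div_le_div_right hn.1.2⟩
    exact Nat.div_pos (Nat.le_of_dvd (by omega) hn.2) hp0
  · intro m hm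
    rw [mem_Icc] at hm
    rw [mem_filter, mem_Icc]
    refine ⟨⟨Nat.mul_pos hp0 hm.1, ?_⟩, Nat.dvd_mul_right _ _⟩
    calc p * m ≤ p * (K / p) := Nat.mul_le_mul_left _ hm.2
      _ ≤ K := Nat.mul_div_le K p
  · intro n hn
    rw [mem_filter] at hn
    exact Nat.mul_div_cancel' hn.2
  · intro m _
    exact Nat.mul_div_cancel_left m hp0
  · intro n _
    rfl

private theorem sixw_kap (D D' : ℕ) (hD : 1 ≤ D) (hDD : D' ≤ 2 * D) :
    0 ≤ kap D D' ∧ kap D D' ≤ 1 := by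
  have hD0 : (0 : ℝ) < D := by exact_mod_cast hD
  constructor
  · exact Finset.sum_nonneg fun p _ => by positivity
  · unfold kap
    have h1 : ∀ p ∈ (Ioc D D').filter Nat.Prime, 1 / (p : ℝ) ≤ 1 / (D : ℝ) := by
      intro p hp
      rw [mem_filter, mem_Ioc] at hp
      apply one_div_le_one_div_of_le hD0
      exact_mod_cast hp.1.1.le
    refine (Finset.sum_le_card_nsmul _ _ _ h1).trans ?_
    rw [nsmul_eq_mul, mul_one_div, div_le_one hD0]
    have h2 : ((Ioc D D').filter Nat.Prime).card ≤ D := by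
      refine (card_filter_le _ _).trans ?_
      rw [Nat.card_Ioc]
      omega
    exact_mod_cast h2

theorem sixw (B A : ℝ) (hB : 0 < B) (hA : 0 < A) : ∃ A2 : ℝ, 0 < A2 ∧ ∀ A3 : ℝ, A2 ≤ A3 →
    ∃ C1 A1 X0 : ℝ, 0 < C1 ∧ 0 < A1 ∧ 10 ≤ X0 ∧ ∀ X : ℝ, X0 ≤ X →
    ∀ (q : ℕ) [NeZero q], (q : ℝ) ≤ (Real.log X) ^ B → ∀ (χ : DirichletCharacter ℂ q) (δ : ℝ),
    X⁻¹ * (Real.log X) ^ C1 ≤ δ → δ ≤ (Real.log X) ^ (-A1) → ∀ D D' : ℕ,
    (Real.log X) ^ A2 ≤ D → (D : ℝ) ≤ (Real.log X) ^ A3 → D' ≤ 2 * D → ∀ Nm : ℕ, 6 * X ≤ Nm →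
    ∫ y in (Real.log X)..(Real.log (2 * X)),
      ‖SI.Sd (fun n => ((gg D D' n : ℝ) : ℂ) * χ n) Nm δ y -
        (open Classical in if χ = 1 then ((kap D D' * δ * Real.exp y : ℝ) : ℂ) else 0)‖ ^ 2 ≤
      δ ^ 2 * X ^ 2 * (Real.log X) ^ (-A) := by
  obtain ⟨A2', hA2', hsi0⟩ := siw B (A + 3) hB (by linarith)
  refine ⟨max A2' (B + 1), lt_max_of_lt_left hA2', fun A3 hA3 => ?_⟩
  obtain ⟨C1, A1, X1, hC1, hA1, hX1, hsi⟩ := hsi0 A3 ((le_max_left _ _).trans hA3)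
  obtain ⟨X2, hX2, hpsi⟩ := UF.psiu (B + 1) (A1 + A + 4) (by linarith) (by linarith)
  have hA1pos : 0 < A1 := by linarith
  have hA3pos : 0 < A3 := lt_of_lt_of_le (lt_max_of_lt_left hA2') hA3
  set K : ℝ := 2 ^ (A1 + A + 4) with hK
  have hK0 : 0 < K := by positivity
  -- conditions for large ℓ
  have ev1 : ∀ᶠ l : ℝ in Filter.atTop, 2 * (l ^ A3 * Real.exp (-(1 / 2) * l)) ≤ 1 := by
    have h := (tendsto_rpow_mul_exp_neg_mul_atTop_nhds_zero A3 (1 / 2)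
      (by norm_num)).const_mul 2
    rw [mul_zero] at h
    exact h.eventually_le_const zero_lt_one
  obtain ⟨L1, hL1⟩ := Filter.eventually_atTop.1 ev1
  set L0 : ℝ := max L1 (max 2 (max (2 + 2 * (2 + 12 * K) ^ 2)
    (max (2 * Real.log X2) (2 ^ (B + 1))))) with hL0
  refine ⟨C1, A1, max X1 (Real.exp L0), hC1, hA1pos, hX1.trans (le_max_left _ _), ?_⟩
  intro X hX q _ hq χ δ hδl hδu D D' hD2 hD3 hDD Nm hNm
  have hXX1 : X1 ≤ X := (le_max_left _ _).trans hX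
  have hX10 : 10 ≤ X := hX1.trans hXX1
  have hX0 : 0 < X := by linarith
  have hLX : L0 ≤ Real.log X :=
    (Real.le_log_iff_exp_le hX0).2 ((le_max_right _ _).trans hX)
  have hD2' : (Real.log X) ^ A2' ≤ D := by
    refine le_trans ?_ hD2
    apply Real.rpow_le_rpow_of_exponent_le _ (le_max_left _ _)
    have h2 : 2 ≤ L0 := (le_max_left _ _).trans (le_max_right _ _)
    linarith
  have h1 := hsi X hXX1 q hq χ δ hδl hδu D D' hD2' hD3 hDD Nm hNm
  set ℓ := Real.log X with hℓ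
  have c1 := hL1 ℓ ((le_max_left _ _).trans hLX)
  have hr := (le_max_right _ _).trans hLX
  have c2 : 2 ≤ ℓ := (le_max_left _ _).trans hr
  have hr := (le_max_right _ _).trans hr
  have c3 : 2 + 2 * (2 + 12 * K) ^ 2 ≤ ℓ := (le_max_left _ _).trans hr
  have hr := (le_max_right _ _).trans hr
  have c4 : 2 * Real.log X2 ≤ ℓ := (le_max_left _ _).trans hr
  have c5 : (2 : ℝ) ^ (B + 1) ≤ ℓ := (le_max_right _ _).trans hr
  have hlX : 0 < ℓ := by linarith
  have hl1 : 1 ≤ ℓ := by linarith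
  have hδ0 : 0 < δ := lt_of_lt_of_le (by positivity) hδl
  set δ1 := ℓ ^ (-A1) with hδ1
  have hδ10 : 0 < δ1 := Real.rpow_pos_of_pos hlX _
  have b2 : δ1 ≤ 1 := Real.rpow_le_one_of_one_le_of_nonpos hl1 (by linarith)
  set f : ℕ → ℂ := fun n => ((gg D D' n : ℝ) : ℂ) * χ n with hf
  set β : ℝ := 2 * δ1 + 12 * K * ℓ ^ (-(A + 4)) with hβ
  have hβ0 : 0 ≤ β := by positivity
  have hle : Real.log X ≤ Real.log (2 * X) := Real.log_le_log hX0 (by linarith)
  have hlog2 : Real.log (2 * X) - Real.log X ≤ 1 := by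
    rw [Real.log_mul (by norm_num) hX0.ne']
    have := Real.log_two_lt_d9
    linarith
  -- D
  have hq0 : 0 < q := Nat.pos_of_ne_zero (NeZero.ne q)
  have hDB : ℓ ^ (B + 1) ≤ D := by
    refine le_trans ?_ hD2
    exact Real.rpow_le_rpow_of_exponent_le hl1 (le_max_right _ _)
  have hqD : (q : ℝ) ≤ D := by
    refine hq.trans (le_trans ?_ hDB)
    exact Real.rpow_le_rpow_of_exponent_le hl1 (by linarith)
  have hqDn : q ≤ D := by exact_mod_cast hqD
  have hD1 : 1 ≤ D := by omega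
  obtain ⟨hk0, hk1⟩ := sixw_kap D D' hD1 hDD
  set κ := kap D D' with hκ
  -- the sum of f up to z
  have hp : ∀ z : ℝ, X ≤ z → z ≤ 6 * X →
      ‖∑ n ∈ Icc 1 ⌊z⌋₊, f n - (open Classical in if χ = 1 then ((κ * z : ℝ) : ℂ) else 0)‖ ≤
      6 * K * X * ℓ ^ (-(A1 + A + 4)) := by
    intro z hz1 hz2
    have hz0 : 0 < z := by linarith
    have hterm : ∀ p ∈ (Ioc D D').filter Nat.Prime,
        ‖χ p * ∑ m ∈ Icc 1 (⌊z⌋₊ / p), ((ArithmeticFunction.vonMangoldt m : ℝ) : ℂ) * χ m -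
          (open Classical in if χ = 1 then ((z / p : ℝ) : ℂ) else 0)‖ ≤
        1 / (p : ℝ) * (6 * K * X * ℓ ^ (-(A1 + A + 4))) := by
      intro p hp
      rw [mem_filter, mem_Ioc] at hp
      obtain ⟨⟨hp1, hp2⟩, hpp⟩ := hp
      have hp0 : (0 : ℝ) < p := by exact_mod_cast hpp.pos
      have hpD : (p : ℝ) ≤ 2 * ℓ ^ A3 := by
        have h3 : (p : ℝ) ≤ 2 * D := by exact_mod_cast hp2.trans hDD
        linarith
      have hx1 : Real.exp (ℓ / 2) ≤ z / p := by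
        rw [le_div_iff₀ hp0]
        have h4 : Real.exp (ℓ / 2) * p ≤ Real.exp (ℓ / 2) * (2 * ℓ ^ A3) := by gcongr
        refine h4.trans ?_
        have h5 : Real.exp (-(1 / 2) * ℓ) * Real.exp (ℓ / 2) = 1 := by
          rw [← Real.exp_add, show -(1 / 2) * ℓ + ℓ / 2 = 0 by ring, Real.exp_zero]
        have h6 : X = Real.exp (ℓ / 2) * Real.exp (ℓ / 2) := by
          rw [← Real.exp_add, hℓ, add_halves, Real.exp_log hX0]
        refine le_trans ?_ hz1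
        rw [h6]
        gcongr
        calc 2 * ℓ ^ A3 = (2 * (ℓ ^ A3 * Real.exp (-(1 / 2) * ℓ))) * Real.exp (ℓ / 2) := by
              rw [mul_assoc, mul_assoc, h5, mul_one]
          _ ≤ 1 * Real.exp (ℓ / 2) := by gcongr
          _ = Real.exp (ℓ / 2) := one_mul _
      have hx0 : 0 < z / p := by positivity
      have hx2 : X2 ≤ z / p := by
        refine le_trans ?_ hx1
        rw [← Real.log_le_iff_le_exp (by linarith)]
        linarith
      have hlx : ℓ / 2 ≤ Real.log (z / p) := (Real.le_log_iff_exp_le hx0).2 hx1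
      have hqx : (q : ℝ) ≤ (Real.log (z / p)) ^ (B + 1) := by
        have h4 : (ℓ / 2) ^ (B + 1) ≤ (Real.log (z / p)) ^ (B + 1) :=
          Real.rpow_le_rpow (by positivity) hlx (by linarith)
        refine hq.trans (le_trans ?_ h4)
        rw [Real.div_rpow hlX.le (by norm_num), le_div_iff₀ (by positivity),
          Real.rpow_add hlX, Real.rpow_one]
        gcongr
      have hps := hpsi (z / p) hx2 q hqx χ
      have hfloor : ⌊z / (p : ℝ)⌋₊ = ⌊z⌋₊ / p := Nat.floor_div_natCast z p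
      rw [hfloor] at hps
      have hχp : χ = 1 → χ (p : ZMod q) = 1 := by
        intro h0
        rw [h0]
        apply MulChar.one_apply
        rw [ZMod.isUnit_iff_coprime]
        exact Nat.coprime_of_lt_prime (by omega) (by omega) hpp
      have heq : χ p * ∑ m ∈ Icc 1 (⌊z⌋₊ / p), ((ArithmeticFunction.vonMangoldt m : ℝ) : ℂ) * χ m -
          (open Classical in if χ = 1 then ((z / p : ℝ) : ℂ) else 0) =
          χ p * (∑ m ∈ Icc 1 (⌊z⌋₊ / p), ((ArithmeticFunction.vonMangoldt m : ℝ) : ℂ) * χ m -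
          (open Classical in if χ = 1 then ((z / p : ℝ) : ℂ) else 0)) := by
        rw [mul_sub]
        congr 1
        split_ifs with h0
        · rw [hχp h0, one_mul]
        · rw [mul_zero]
      rw [heq, norm_mul]
      have h5 : ‖χ (p : ZMod q)‖ ≤ 1 := χ.norm_le_one _
      have h6 : (Real.log (z / p)) ^ (-(A1 + A + 4)) ≤ K * ℓ ^ (-(A1 + A + 4)) := by
        have h7 : (Real.log (z / p)) ^ (-(A1 + A + 4)) ≤ (ℓ / 2) ^ (-(A1 + A + 4)) :=
          Real.rpow_le_rpow_of_nonpos (by positivity) hlx (by linarith)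
        refine h7.trans (le_of_eq ?_)
        rw [Real.div_rpow hlX.le (by norm_num), Real.rpow_neg (by norm_num : (0 : ℝ) ≤ 2),
          div_inv_eq_mul, hK, mul_comm]
      have h60 : 0 ≤ (Real.log (z / p)) ^ (-(A1 + A + 4)) := Real.rpow_nonneg (by linarith) _
      calc ‖χ (p : ZMod q)‖ * _ ≤ 1 * (z / p * (Real.log (z / p)) ^ (-(A1 + A + 4))) :=
            mul_le_mul h5 hps (norm_nonneg _) zero_le_one
        _ ≤ 1 * (6 * X / p * (K * ℓ ^ (-(A1 + A + 4)))) := by gcongr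
        _ = 1 / (p : ℝ) * (6 * K * X * ℓ ^ (-(A1 + A + 4))) := by ring
    have hmainz : (open Classical in if χ = 1 then ((κ * z : ℝ) : ℂ) else 0) =
        ∑ p ∈ (Ioc D D').filter Nat.Prime,
          (open Classical in if χ = 1 then ((z / p : ℝ) : ℂ) else 0) := by
      split_ifs
      · rw [hκ]
        unfold kap
        rw [Finset.sum_mul, Complex.ofReal_sum]
        refine Finset.sum_congr rfl fun p _ => ?_
        congr 1
        ring
      · rw [Finset.sum_const_zero]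
    rw [hf, sixw_sum, hmainz, ← Finset.sum_sub_distrib]
    refine (norm_sum_le _ _).trans ((Finset.sum_le_sum hterm).trans ?_)
    rw [← Finset.sum_mul]
    have h8 : ∑ p ∈ (Ioc D D').filter Nat.Prime, 1 / (p : ℝ) = κ := rfl
    rw [h8]
    have h9 : 0 ≤ 6 * K * X * ℓ ^ (-(A1 + A + 4)) := by positivity
    calc κ * (6 * K * X * ℓ ^ (-(A1 + A + 4))) ≤ 1 * (6 * K * X * ℓ ^ (-(A1 + A + 4))) := by gcongr
      _ = _ := one_mul _
  -- pointwise bound
  have hpt : ∀ y ∈ Set.Icc (Real.log X) (Real.log (2 * X)),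
      ‖SI.Sd f Nm δ y -
        (open Classical in if χ = 1 then ((κ * δ * Real.exp y : ℝ) : ℂ) else 0)‖ ^ 2 ≤
      2 * δ ^ 2 * ‖SI.SiD f Nm δ δ1 y‖ ^ 2 + 2 * δ ^ 2 * X ^ 2 * β ^ 2 := by
    intro y hy
    have hey1 : X ≤ Real.exp y := by
      rw [← Real.exp_log hX0]
      exact Real.exp_le_exp.2 hy.1
    have hey2 : Real.exp y ≤ 2 * X := by
      rw [← Real.exp_log (show (0 : ℝ) < 2 * X by linarith)]
      exact Real.exp_le_exp.2 hy.2
    have hed : Real.exp (y + δ1) ≤ 6 * X := by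
      rw [Real.exp_add]
      have h3 : Real.exp δ1 ≤ 3 :=
        (Real.exp_le_exp.2 b2).trans (Real.exp_one_lt_three).le
      nlinarith [Real.exp_pos δ1, Real.exp_pos y]
    have hed1 : Real.exp y ≤ Real.exp (y + δ1) := Real.exp_le_exp.2 (by linarith)
    have hSd := sixw_Sd f Nm δ1 y hδ10.le (hed.trans hNm)
    have hp1 := hp _ (hey1.trans hed1) hed
    have hp2 := hp _ hey1 (by linarith)
    -- the value at δ1
    have hmain : ‖SI.Sd f Nm δ1 y / δ1 -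
        (open Classical in if χ = 1 then ((κ * Real.exp y : ℝ) : ℂ) else 0)‖ ≤ X * β := by
      have h4 : ‖SI.Sd f Nm δ1 y - (open Classical in if χ = 1 then
          ((κ * (Real.exp (y + δ1) - Real.exp y) : ℝ) : ℂ) else 0)‖ ≤
          12 * K * X * ℓ ^ (-(A1 + A + 4)) := by
        rw [hSd]
        have e1 : (∑ n ∈ Icc 1 ⌊Real.exp (y + δ1)⌋₊, f n - ∑ n ∈ Icc 1 ⌊Real.exp y⌋₊, f n) -
            (open Classical in if χ = 1 then
              ((κ * (Real.exp (y + δ1) - Real.exp y) : ℝ) : ℂ) else 0) =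
            (∑ n ∈ Icc 1 ⌊Real.exp (y + δ1)⌋₊, f n -
              (open Classical in if χ = 1 then ((κ * Real.exp (y + δ1) : ℝ) : ℂ) else 0)) -
            (∑ n ∈ Icc 1 ⌊Real.exp y⌋₊, f n -
              (open Classical in if χ = 1 then ((κ * Real.exp y : ℝ) : ℂ) else 0)) := by
          split_ifs
          · push_cast
            ring
          · ring
        rw [e1]
        refine (norm_sub_le _ _).trans ((add_le_add hp1 hp2).trans (le_of_eq ?_))
        ring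
      have h5 : ‖(open Classical in if χ = 1 then
          ((κ * (Real.exp (y + δ1) - Real.exp y) : ℝ) : ℂ) else 0) / (δ1 : ℂ) -
          (open Classical in if χ = 1 then ((κ * Real.exp y : ℝ) : ℂ) else 0)‖ ≤ 2 * X * δ1 := by
        split_ifs
        · have e2 : ((κ * (Real.exp (y + δ1) - Real.exp y) : ℝ) : ℂ) / (δ1 : ℂ) -
              ((κ * Real.exp y : ℝ) : ℂ) =
              ((κ * (Real.exp y * ((Real.exp δ1 - 1 - δ1) / δ1)) : ℝ) : ℂ) := by
            rw [Real.exp_add]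
            have : (δ1 : ℂ) ≠ 0 := by exact_mod_cast hδ10.ne'
            push_cast
            field_simp
          rw [e2, Complex.norm_real, Real.norm_eq_abs, abs_mul, abs_mul,
            abs_of_pos (Real.exp_pos y), abs_of_nonneg hk0]
          have h6 : |(Real.exp δ1 - 1 - δ1) / δ1| ≤ δ1 := by
            rw [abs_div, abs_of_pos hδ10, div_le_iff₀ hδ10, ← sq]
            exact Real.abs_exp_sub_one_sub_id_le (by rw [abs_of_pos hδ10]; exact b2)
          have h7 : Real.exp y * |(Real.exp δ1 - 1 - δ1) / δ1| ≤ 2 * X * δ1 :=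
            mul_le_mul hey2 h6 (abs_nonneg _) (by linarith)
          have h8 : 0 ≤ Real.exp y * |(Real.exp δ1 - 1 - δ1) / δ1| := by positivity
          nlinarith
        · rw [zero_div, sub_zero, norm_zero]
          positivity
      have h7 : SI.Sd f Nm δ1 y / δ1 -
          (open Classical in if χ = 1 then ((κ * Real.exp y : ℝ) : ℂ) else 0) =
          (SI.Sd f Nm δ1 y - (open Classical in if χ = 1 then
          ((κ * (Real.exp (y + δ1) - Real.exp y) : ℝ) : ℂ) else 0)) / (δ1 : ℂ) +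
          ((open Classical in if χ = 1 then
          ((κ * (Real.exp (y + δ1) - Real.exp y) : ℝ) : ℂ) else 0) / (δ1 : ℂ) -
          (open Classical in if χ = 1 then ((κ * Real.exp y : ℝ) : ℂ) else 0)) := by ring
      rw [h7]
      refine (norm_add_le _ _).trans ?_
      have h8 : ‖(SI.Sd f Nm δ1 y - (open Classical in if χ = 1 then
          ((κ * (Real.exp (y + δ1) - Real.exp y) : ℝ) : ℂ) else 0)) / (δ1 : ℂ)‖ ≤
          12 * K * X * ℓ ^ (-(A + 4)) := by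
        rw [norm_div, Complex.norm_real, Real.norm_eq_abs, abs_of_pos hδ10,
          div_le_iff₀ hδ10]
        refine h4.trans (le_of_eq ?_)
        have e3 : ℓ ^ (-(A1 + A + 4)) = ℓ ^ (-(A + 4)) * δ1 := by
          rw [hδ1, ← Real.rpow_add hlX]
          congr 1
          ring
        rw [e3]
        ring
      calc _ ≤ 12 * K * X * ℓ ^ (-(A + 4)) + 2 * X * δ1 := add_le_add h8 h5
        _ = X * β := by rw [hβ]; ring
    have h9 : SI.Sd f Nm δ y -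
        (open Classical in if χ = 1 then ((κ * δ * Real.exp y : ℝ) : ℂ) else 0) =
        (δ : ℂ) * (SI.SiD f Nm δ δ1 y + (SI.Sd f Nm δ1 y / δ1 -
        (open Classical in if χ = 1 then ((κ * Real.exp y : ℝ) : ℂ) else 0))) := by
      have : (δ : ℂ) ≠ 0 := by exact_mod_cast hδ0.ne'
      unfold SI.SiD
      split_ifs
      · push_cast
        field_simp
        ring
      · field_simp
        ring
    rw [h9, norm_mul, Complex.norm_real, Real.norm_eq_abs, abs_of_pos hδ0]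
    set a := SI.SiD f Nm δ δ1 y with ha
    set b := SI.Sd f Nm δ1 y / δ1 -
        (open Classical in if χ = 1 then ((κ * Real.exp y : ℝ) : ℂ) else 0) with hb
    have h10 : ‖a + b‖ ≤ ‖a‖ + X * β := (norm_add_le _ _).trans (by linarith)
    have h11 : ‖a + b‖ ^ 2 ≤ 2 * ‖a‖ ^ 2 + 2 * (X * β) ^ 2 := by
      have h12 : ‖a + b‖ ^ 2 ≤ (‖a‖ + X * β) ^ 2 := pow_le_pow_left₀ (norm_nonneg _) h10 2
      nlinarith [sq_nonneg (‖a‖ - X * β)]
    calc (δ * ‖a + b‖) ^ 2 = δ ^ 2 * ‖a + b‖ ^ 2 := by ring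
      _ ≤ δ ^ 2 * (2 * ‖a‖ ^ 2 + 2 * (X * β) ^ 2) :=
        mul_le_mul_of_nonneg_left h11 (sq_nonneg _)
      _ = 2 * δ ^ 2 * ‖a‖ ^ 2 + 2 * δ ^ 2 * X ^ 2 * β ^ 2 := by ring
  -- integrate
  have hi1 : IntervalIntegrable (fun y => ‖SI.SiD f Nm δ δ1 y‖ ^ 2) volume (Real.log X)
      (Real.log (2 * X)) := SI.SiD_intervalIntegrable f Nm δ δ1 _ _
  have hi2 : IntervalIntegrable (fun y => 2 * δ ^ 2 * ‖SI.SiD f Nm δ δ1 y‖ ^ 2 +
      2 * δ ^ 2 * X ^ 2 * β ^ 2) volume (Real.log X) (Real.log (2 * X)) :=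
    (hi1.const_mul _).add intervalIntegrable_const
  have hi3 : IntervalIntegrable (fun y => ‖SI.Sd f Nm δ y -
      (open Classical in if χ = 1 then ((κ * δ * Real.exp y : ℝ) : ℂ) else 0)‖ ^ 2) volume
      (Real.log X) (Real.log (2 * X)) := by
    have hmeas : Measurable (fun y : ℝ => ‖SI.Sd f Nm δ y -
      (open Classical in if χ = 1 then ((κ * δ * Real.exp y : ℝ) : ℂ) else 0)‖ ^ 2) := by
      refine ((SI.Sd_measurable f Nm δ).sub ?_).norm.pow_const 2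
      split_ifs
      · exact Complex.measurable_ofReal.comp (Real.measurable_exp.const_mul (κ * δ))
      · exact measurable_const
    refine hi2.mono_fun' hmeas.aestronglyMeasurable ?_
    rw [Set.uIoc_of_le hle]
    refine (ae_restrict_iff' measurableSet_Ioc).2 (Filter.Eventually.of_forall fun y hy => ?_)
    have h12 := hpt y (Set.Ioc_subset_Icc_self hy)
    simp only [Real.norm_eq_abs, abs_pow, abs_norm]
    exact h12
  refine (intervalIntegral.integral_mono_on hle hi3 hi2 hpt).trans ?_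
  rw [intervalIntegral.integral_add (hi1.const_mul _) intervalIntegrable_const,
    intervalIntegral.integral_const_mul, intervalIntegral.integral_const, smul_eq_mul]
  have h13 : ∫ y in (Real.log X)..(Real.log (2 * X)), ‖SI.SiD f Nm δ δ1 y‖ ^ 2 ≤
      X ^ 2 * ℓ ^ (-(A + 3)) := h1
  have h14 : (Real.log (2 * X) - Real.log X) * (2 * δ ^ 2 * X ^ 2 * β ^ 2) ≤
      1 * (2 * δ ^ 2 * X ^ 2 * β ^ 2) := mul_le_mul_of_nonneg_right hlog2 (by positivity)
  have h15 : 2 * δ ^ 2 * ∫ y in (Real.log X)..(Real.log (2 * X)), ‖SI.SiD f Nm δ δ1 y‖ ^ 2 ≤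
      2 * δ ^ 2 * (X ^ 2 * ℓ ^ (-(A + 3))) := mul_le_mul_of_nonneg_left h13 (by positivity)
  have hβle : β ^ 2 ≤ (2 + 12 * K) ^ 2 * ℓ ^ (-(A + 3)) := by
    have g1 : β ≤ (2 + 12 * K) * ℓ ^ (-(A + 3)) := by
      have g2 : δ1 ≤ ℓ ^ (-(A + 3)) := Real.rpow_le_rpow_of_exponent_le hl1 (by linarith)
      have g3 : ℓ ^ (-(A + 4)) ≤ ℓ ^ (-(A + 3)) :=
        Real.rpow_le_rpow_of_exponent_le hl1 (by linarith)
      rw [hβ]
      have g4 : 12 * K * ℓ ^ (-(A + 4)) ≤ 12 * K * ℓ ^ (-(A + 3)) := by gcongr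
      linarith
    have g5 : ℓ ^ (-(A + 3)) ≤ 1 := Real.rpow_le_one_of_one_le_of_nonpos hl1 (by linarith)
    have g6 : 0 ≤ ℓ ^ (-(A + 3)) := by positivity
    calc β ^ 2 ≤ ((2 + 12 * K) * ℓ ^ (-(A + 3))) ^ 2 := pow_le_pow_left₀ hβ0 g1 2
      _ = (2 + 12 * K) ^ 2 * (ℓ ^ (-(A + 3)) * ℓ ^ (-(A + 3))) := by ring
      _ ≤ (2 + 12 * K) ^ 2 * (ℓ ^ (-(A + 3)) * 1) := by gcongr
      _ = _ := by ring
  have hfin : 2 * ℓ ^ (-(A + 3)) + 2 * β ^ 2 ≤ ℓ ^ (-A) := by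
    have g1 : ℓ ^ (-A) = ℓ ^ (3 : ℝ) * ℓ ^ (-(A + 3)) := by
      rw [← Real.rpow_add hlX]
      congr 1
      ring
    have g2 : ℓ ≤ ℓ ^ (3 : ℝ) := by
      calc ℓ = ℓ ^ (1 : ℝ) := (Real.rpow_one _).symm
        _ ≤ ℓ ^ (3 : ℝ) := Real.rpow_le_rpow_of_exponent_le hl1 (by norm_num)
    have g3 : 0 ≤ ℓ ^ (-(A + 3)) := by positivity
    rw [g1]
    calc 2 * ℓ ^ (-(A + 3)) + 2 * β ^ 2 ≤
          2 * ℓ ^ (-(A + 3)) + 2 * ((2 + 12 * K) ^ 2 * ℓ ^ (-(A + 3))) := by linarith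
      _ = (2 + 2 * (2 + 12 * K) ^ 2) * ℓ ^ (-(A + 3)) := by ring
      _ ≤ ℓ * ℓ ^ (-(A + 3)) := by gcongr
      _ ≤ ℓ ^ (3 : ℝ) * ℓ ^ (-(A + 3)) := by gcongr
  have h16 : 2 * δ ^ 2 * (X ^ 2 * ℓ ^ (-(A + 3))) + 1 * (2 * δ ^ 2 * X ^ 2 * β ^ 2) =
      (2 * ℓ ^ (-(A + 3)) + 2 * β ^ 2) * (δ ^ 2 * X ^ 2) := by ring
  have h17 : (2 * ℓ ^ (-(A + 3)) + 2 * β ^ 2) * (δ ^ 2 * X ^ 2) ≤ ℓ ^ (-A) * (δ ^ 2 * X ^ 2) :=
    mul_le_mul_of_nonneg_right hfin (by positivity)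
  calc _ ≤ _ := add_le_add h15 h14
    _ = (2 * ℓ ^ (-(A + 3)) + 2 * β ^ 2) * (δ ^ 2 * X ^ 2) := h16
    _ ≤ ℓ ^ (-A) * (δ ^ 2 * X ^ 2) := h17
    _ = δ ^ 2 * X ^ 2 * ℓ ^ (-A) := by ring

end Pool.Agent.H43.TP
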