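import Pool.Agent.H43.TP.Th

/-!
# [H43 TP BLK] From dyadic intervals to `(ηX, 2X]`

PROOF. `ℓ = log X`. `Ioc ⌊ηX⌋ (2X)` is covered by the `Ioc ⌊Y_j⌋ ⌊2Y_j⌋`, `Y_j = 2^(-j) X`, `j = 0..J`, `J` minimal with `2^(-J) <= η`
(so all `Y_j >= ηX/2`). `thw` with `(B+1, A+1)` and `A3 + 1` at each `Y_j`: for `X` large (depending on `η`)
`(log Y_j)^A2 <= ℓ^A2 <= P`, `P2 <= ℓ^A3 <= (log Y_j)^(A3+1)`, `q <= ℓ^B <= (log Y_j)^(B+1)`, `C1 = C1'`,
`A1 = A1' + 1`: `H <= X ℓ^(-A1) <= Y_j (log Y_j)^(-A1')` as `ℓ >= 2/η`. Sum: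
`Σ_j Y_j H^2 (log Y_j)^(-A-1) <= 2X H^2 (ℓ/2)^(-A-1) <= X H^2 ℓ^(-A)` for `X` large.
-/

namespace Pool.Agent.H43.TP

open Finset

private theorem blk_dy (f : ℕ → ℝ) (X : ℕ) (K ylo : ℝ) (hf : ∀ Y : ℝ, ylo ≤ Y → Y ≤ X →
    ∑ n ∈ Ioc ⌊Y⌋₊ ⌊2 * Y⌋₊, f n ≤ Y * K) (J : ℕ) (hJ : ylo ≤ X / 2 ^ J) :
    ∑ n ∈ Ioc ⌊(X : ℝ) / 2 ^ J⌋₊ (2 * X), f n ≤ (2 - 1 / 2 ^ J) * X * K := by
  have hX0 : (0 : ℝ) ≤ X := Nat.cast_nonneg X
  induction J with
  | zero =>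
    have h1 := hf X (by simpa using hJ) le_rfl
    have h2 : ⌊(2 : ℝ) * X⌋₊ = 2 * X := by
      have : (2 : ℝ) * X = ((2 * X : ℕ) : ℝ) := by push_cast; ring
      rw [this, Nat.floor_natCast]
    rw [h2] at h1
    simp only [pow_zero, div_one]
    rw [Nat.floor_natCast] at h1 ⊢
    linarith
  | succ J ih =>
    have hp : (0 : ℝ) < 2 ^ J := by positivity
    have h3 : (X : ℝ) / 2 ^ (J + 1) ≤ X / 2 ^ J := by
      rw [pow_succ, ← div_div]
      linarith [show (0 : ℝ) ≤ X / 2 ^ J by positivity]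
    have h4 := ih (hJ.trans h3)
    have h5 := hf (X / 2 ^ (J + 1)) hJ (by
      refine h3.trans (div_le_self hX0 ?_)
      exact one_le_pow₀ (by norm_num))
    have h6 : 2 * ((X : ℝ) / 2 ^ (J + 1)) = X / 2 ^ J := by
      rw [pow_succ]
      field_simp
    rw [h6] at h5
    have h7 : ⌊(X : ℝ) / 2 ^ (J + 1)⌋₊ ≤ ⌊(X : ℝ) / 2 ^ J⌋₊ := Nat.floor_le_floor h3
    have h8 : ⌊(X : ℝ) / 2 ^ J⌋₊ ≤ 2 * X := by
      have h9 : (X : ℝ) / 2 ^ J ≤ X := div_le_self hX0 (one_le_pow₀ (by norm_num))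
      have h10 := Nat.floor_le_floor h9
      rw [Nat.floor_natCast] at h10
      omega
    rw [← sum_Ioc_consecutive f h7 h8]
    have h11 : (2 - 1 / (2 : ℝ) ^ (J + 1)) * X * K =
        X / 2 ^ (J + 1) * K + (2 - 1 / 2 ^ J) * X * K := by
      rw [pow_succ]
      field_simp
      ring
    rw [h11]
    exact add_le_add h5 h4

theorem blkw (B A : ℝ) (hB : 0 < B) (hA : 0 < A) : ∃ A2 : ℝ, 0 < A2 ∧ ∀ A3 : ℝ, A2 ≤ A3 →
    ∃ C1 A1 : ℝ, 0 < C1 ∧ 0 < A1 ∧ ∀ η : ℝ, 0 < η → η ≤ 1 → ∃ X0 : ℕ, 10 ≤ X0 ∧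
    ∀ X : ℕ, X0 ≤ X →
    ∀ q c : ℕ, 1 ≤ q → (q : ℝ) ≤ (Real.log X) ^ B → c < q → ∀ P P2 H : ℕ,
    (Real.log X) ^ A2 ≤ P → P ≤ P2 → (P2 : ℝ) ≤ (Real.log X) ^ A3 →
    (Real.log X) ^ C1 ≤ H → (H : ℝ) ≤ X * (Real.log X) ^ (-A1) →
    ∑ n ∈ Ioc ⌊η * X⌋₊ (2 * X),
      (∑ m ∈ (Ioc n (n + H)).filter (fun m => m % q = c), ge P P2 m -
        (if Nat.Coprime c q then kap P P2 * H / q.totient else 0)) ^ 2 ≤
      X * (H : ℝ) ^ 2 * (Real.log X) ^ (-A) := by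
  obtain ⟨A2, hA2, h1⟩ := thw (B + 1) (A + 1) (by linarith) (by linarith)
  refine ⟨A2, hA2, fun A3 hA3 => ?_⟩
  obtain ⟨C1, A1, X0, hC1, hA1, hX0, h2⟩ := h1 (A3 + 1) (by linarith)
  refine ⟨C1, A1 + 1, hC1, by linarith, fun η hη hη1 => ?_⟩
  obtain ⟨N, hN⟩ := exists_nat_ge (Real.exp (2 ^ (B + 1)) + Real.exp (2 ^ (A3 + 1)) +
    Real.exp (2 ^ (A + 2)) + Real.exp (2 / η) + 2 * X0 / η + 4 / η ^ 2 + 10)
  have hA3p : 0 < A3 := by linarith
  refine ⟨N, ?_, fun X hX q c hq hqB hc P P2 H hP hPP hP2 hHl hHu => ?_⟩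
  · have : (10 : ℝ) ≤ N := by
      refine le_trans ?_ hN
      have e1 : 0 < Real.exp (2 ^ (B + 1)) := Real.exp_pos _
      have e2 : 0 < Real.exp (2 ^ (A3 + 1)) := Real.exp_pos _
      have e3 : 0 < Real.exp (2 ^ (A + 2)) := Real.exp_pos _
      have e4 : 0 < Real.exp (2 / η) := Real.exp_pos _
      have e5 : 0 ≤ 2 * X0 / η := by positivity
      have e6 : 0 ≤ 4 / η ^ 2 := by positivity
      linarith
    exact_mod_cast this
  have e1 : 0 < Real.exp (2 ^ (B + 1)) := Real.exp_pos _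
  have e2 : 0 < Real.exp (2 ^ (A3 + 1)) := Real.exp_pos _
  have e3 : 0 < Real.exp (2 ^ (A + 2)) := Real.exp_pos _
  have e4 : 0 < Real.exp (2 / η) := Real.exp_pos _
  have e5 : 0 ≤ 2 * X0 / η := by positivity
  have e6 : 0 ≤ 4 / η ^ 2 := by positivity
  have hXN : (N : ℝ) ≤ X := by exact_mod_cast hX
  have hXp : (0 : ℝ) < X := by linarith
  have hlog : ∀ a : ℝ, Real.exp a ≤ X → a ≤ Real.log X := fun a ha =>
    (Real.le_log_iff_exp_le hXp).2 ha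
  obtain ⟨l, hl⟩ : ∃ l : ℝ, l = Real.log X := ⟨_, rfl⟩
  rw [← hl] at hqB hP hP2 hHl hHu ⊢
  have l1 : (2 : ℝ) ^ (B + 1) ≤ l := by rw [hl]; exact hlog _ (by linarith)
  have l2 : (2 : ℝ) ^ (A3 + 1) ≤ l := by rw [hl]; exact hlog _ (by linarith)
  have l3 : (2 : ℝ) ^ (A + 2) ≤ l := by rw [hl]; exact hlog _ (by linarith)
  have l4 : 2 / η ≤ l := by rw [hl]; exact hlog _ (by linarith)
  have hlp : 0 < l := lt_of_lt_of_le (by positivity) l4
  have hX1 : 2 * X0 / η ≤ X := by linarith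
  have hX2 : 4 / η ^ 2 ≤ X := by linarith
  -- facts for `Y`
  have hY : ∀ Y : ℝ, η * X / 2 ≤ Y → Y ≤ X →
      ∑ n ∈ Ioc ⌊Y⌋₊ ⌊2 * Y⌋₊,
      (∑ m ∈ (Ioc n (n + H)).filter (fun m => m % q = c), ge P P2 m -
        (if Nat.Coprime c q then kap P P2 * H / q.totient else 0)) ^ 2 ≤
      Y * ((H : ℝ) ^ 2 * (l / 2) ^ (-(A + 1))) := by
    intro Y hY1 hY2
    have hYp : 0 < Y := lt_of_lt_of_le (by positivity) hY1
    have hYX : X0 ≤ Y := by
      refine le_trans ?_ hY1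
      rw [div_le_iff₀ hη] at hX1
      linarith
    have hu : Real.log Y ≤ l := by rw [hl]; exact Real.log_le_log hYp hY2
    have hlo : l / 2 ≤ Real.log Y := by
      have h3 : (X : ℝ) ≤ Y ^ 2 := by
        have h4 : (η * X / 2) ^ 2 ≤ Y ^ 2 := by
          exact pow_le_pow_left₀ (by positivity) hY1 2
        refine le_trans ?_ h4
        rw [div_le_iff₀ (by positivity)] at hX2
        have : (X : ℝ) * 4 ≤ X * (X * η ^ 2) := mul_le_mul_of_nonneg_left hX2 hXp.le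
        nlinarith
      have h5 := Real.log_le_log hXp h3
      rw [Real.log_pow, ← hl] at h5
      push_cast at h5
      linarith
    have hYl : 0 < Real.log Y := lt_of_lt_of_le (by linarith) hlo
    have hpw : ∀ s : ℝ, 0 < s → (2 : ℝ) ^ (s + 1) ≤ l → l ^ s ≤ (Real.log Y) ^ (s + 1) := by
      intro s hs hs2
      have h3 : (l / 2) ^ (s + 1) ≤ (Real.log Y) ^ (s + 1) :=
        Real.rpow_le_rpow (by linarith) hlo (by linarith)
      refine le_trans ?_ h3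
      rw [Real.div_rpow hlp.le (by norm_num), le_div_iff₀ (by positivity),
        Real.rpow_add_one hlp.ne']
      exact mul_le_mul_of_nonneg_left hs2 (by positivity)
    have h3 := h2 Y hYX q c hq (hqB.trans (hpw B hB l1)) hc P P2 H
      ((Real.rpow_le_rpow hYl.le hu hA2.le).trans hP) hPP (hP2.trans (hpw A3 hA3p l2))
      ((Real.rpow_le_rpow hYl.le hu hC1.le).trans hHl) (by
        refine hHu.trans ?_
        have h4 : l ^ (-(A1 + 1)) = l ^ (-A1) * l⁻¹ := by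
          rw [neg_add, Real.rpow_add hlp, Real.rpow_neg_one]
        have h5 : l ^ (-A1) ≤ (Real.log Y) ^ (-A1) :=
          Real.rpow_le_rpow_of_nonpos hYl hu (by linarith)
        have h6 : l⁻¹ ≤ η / 2 := by
          rw [inv_le_comm₀ hlp (by positivity), inv_div]
          exact l4
        rw [h4]
        calc (X : ℝ) * (l ^ (-A1) * l⁻¹) ≤ X * ((Real.log Y) ^ (-A1) * (η / 2)) := by
              refine mul_le_mul_of_nonneg_left ?_ hXp.le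
              exact mul_le_mul h5 h6 (by positivity) (by positivity)
          _ = (η * X / 2) * (Real.log Y) ^ (-A1) := by ring
          _ ≤ Y * (Real.log Y) ^ (-A1) := mul_le_mul_of_nonneg_right hY1 (by positivity))
    refine h3.trans ?_
    rw [mul_assoc]
    refine mul_le_mul_of_nonneg_left ?_ hYp.le
    refine mul_le_mul_of_nonneg_left ?_ (by positivity)
    exact Real.rpow_le_rpow_of_nonpos (by linarith) hlo (by linarith)
  -- the number of dyadic steps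
  have hex : ∃ J : ℕ, (X : ℝ) / 2 ^ J ≤ η * X := by
    obtain ⟨J, hJ⟩ := pow_unbounded_of_one_lt (1 / η) (by norm_num : (1 : ℝ) < 2)
    refine ⟨J, ?_⟩
    rw [div_le_iff₀ (by positivity)]
    rw [div_lt_iff₀ hη] at hJ
    nlinarith
  classical
  obtain ⟨J, hJ⟩ : ∃ J : ℕ, J = Nat.find hex := ⟨_, rfl⟩
  have hJ1 : (X : ℝ) / 2 ^ J ≤ η * X := by rw [hJ]; exact Nat.find_spec hex
  have hJ2 : η * X / 2 ≤ X / 2 ^ J := by
    rcases Nat.eq_zero_or_pos J with h0 | h0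
    · rw [h0, pow_zero, div_one]
      nlinarith
    · have h3 := Nat.find_min hex (m := J - 1) (by omega)
      rw [not_le] at h3
      have h4 : (2 : ℝ) ^ J = 2 ^ (J - 1) * 2 := by
        rw [← pow_succ]
        congr 1
        omega
      rw [h4, ← div_div]
      linarith
  have h3 := blk_dy _ X _ _ hY J hJ2
  have h4 : Ioc ⌊η * X⌋₊ (2 * X) ⊆ Ioc ⌊(X : ℝ) / 2 ^ J⌋₊ (2 * X) :=
    Ioc_subset_Ioc (Nat.floor_le_floor hJ1) le_rfl
  refine (sum_le_sum_of_subset_of_nonneg h4 fun _ _ _ => sq_nonneg _).trans (h3.trans ?_)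
  have hJp : (0 : ℝ) < 1 / 2 ^ J := by positivity
  have h5 : (l / 2) ^ (-(A + 1)) * 2 ≤ l ^ (-A) := by
    rw [Real.div_rpow hlp.le (by norm_num), Real.rpow_neg (by norm_num : (0 : ℝ) ≤ 2), div_inv_eq_mul]
    have h6 : l ^ (-(A + 1)) = l ^ (-A) * l⁻¹ := by
      rw [neg_add, Real.rpow_add hlp, Real.rpow_neg_one]
    have h7 : (2 : ℝ) ^ (A + 1) * 2 = 2 ^ (A + 2) := by
      rw [← Real.rpow_add_one (by norm_num : (2 : ℝ) ≠ 0)]
      congr 1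
      ring
    rw [h6]
    calc l ^ (-A) * l⁻¹ * 2 ^ (A + 1) * 2 = l ^ (-A) * (l⁻¹ * (2 ^ (A + 1) * 2)) := by ring
      _ = l ^ (-A) * (l⁻¹ * 2 ^ (A + 2)) := by rw [h7]
      _ ≤ l ^ (-A) * 1 := by
          refine mul_le_mul_of_nonneg_left ?_ (by positivity)
          rw [inv_mul_le_iff₀ hlp]
          linarith
      _ = l ^ (-A) := mul_one _
  calc (2 - 1 / (2 : ℝ) ^ J) * X * ((H : ℝ) ^ 2 * (l / 2) ^ (-(A + 1)))
      ≤ 2 * X * ((H : ℝ) ^ 2 * (l / 2) ^ (-(A + 1))) := by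
        refine mul_le_mul_of_nonneg_right ?_ (by positivity)
        exact mul_le_mul_of_nonneg_right (by linarith) hXp.le
    _ = X * (H : ℝ) ^ 2 * ((l / 2) ^ (-(A + 1)) * 2) := by ring
    _ ≤ X * (H : ℝ) ^ 2 * l ^ (-A) := mul_le_mul_of_nonneg_left h5 (by positivity)

end Pool.Agent.H43.TP
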