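import Pool.Agent.H43.TP.Defs

/-!
# [H43 TP CNT] Counting with the weight `ge`

PROOF. `ℓ = log X`, `P = ⌊ℓ^A⌋`, `P2 = ⌊ℓ^(2A)⌋`. Let `n = m^3+k`, so `ηX < n <= 2X` and `n > P2^2` for `X` large. For a natural number `p`:
`P < p <= P2` iff `ℓ^A < p <= ℓ^(2A)`. If `p, p'` are two different primes of `(P,P2]` with `n/p`, `n/p'` prime and `p, p' ∣ n` then
`n = p p' <= P2^2`: impossible. So `ge P P2 n` has at most one term, it has one iff `E2 A X n`, and then it is `log(n/p1)`, with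
`n/p1 >= ηX/ℓ^(2A)`, so `log(n/p1) >= ℓ + log η - 2A log ℓ >= ℓ - (2A+1) log ℓ` for `X` large, and `n/p1 <= 2X/ℓ^A <= X`, so
`log(n/p1) <= ℓ`. Sum over `m`.
-/

namespace Pool.Agent.H43.TP

open Finset

theorem cnt_large (A : ℕ) (η : ℝ) (hη : 0 < η) : ∃ X0 : ℕ, ∀ X : ℕ, X0 ≤ X →
    2 ≤ Real.log X ∧ -Real.log η ≤ Real.log (Real.log X) ∧ (Real.log X) ^ (4 * A) < η * X := by
  have h1 : Filter.Tendsto (fun X : ℕ => Real.log (X : ℝ)) Filter.atTop Filter.atTop :=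
    Real.tendsto_log_atTop.comp tendsto_natCast_atTop_atTop
  have h2 : Filter.Tendsto (fun X : ℕ => Real.log (Real.log (X : ℝ))) Filter.atTop Filter.atTop :=
    Real.tendsto_log_atTop.comp h1
  have h3 : ∀ᶠ X : ℕ in Filter.atTop, (Real.log (X : ℝ)) ^ (4 * A) < η * X := by
    have h4 := (Real.isLittleO_pow_log_id_atTop (n := 4 * A)).bound (show 0 < η / 2 by positivity)
    have h5 := tendsto_natCast_atTop_atTop (R := ℝ) |>.eventually h4
    filter_upwards [h5, Filter.eventually_ge_atTop 1] with X hX hX1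
    have hX0 : (0 : ℝ) < X := by exact_mod_cast hX1
    rw [Real.norm_eq_abs, Real.norm_eq_abs, id, abs_of_pos hX0] at hX
    have := le_abs_self ((Real.log (X : ℝ)) ^ (4 * A))
    nlinarith
  have h := (h1.eventually_ge_atTop 2).and ((h2.eventually_ge_atTop (-Real.log η)).and h3)
  rw [Filter.eventually_atTop] at h
  obtain ⟨X0, h⟩ := h
  exact ⟨X0, fun X hX => h X hX⟩

theorem cnt_mem (A X p : ℕ) (hℓ : 0 ≤ Real.log X) :
    p ∈ Ioc ⌊(Real.log X) ^ A⌋₊ ⌊(Real.log X) ^ (2 * A)⌋₊ ↔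
      (Real.log X) ^ A < p ∧ (p : ℝ) ≤ (Real.log X) ^ (2 * A) := by
  rw [mem_Ioc, Nat.floor_lt (pow_nonneg hℓ _), Nat.le_floor_iff (pow_nonneg hℓ _)]

theorem cnt_one (A X n : ℕ) (η : ℝ) (hA : 1 ≤ A) (hη : 0 < η) (hℓ : 2 ≤ Real.log X)
    (hℓ2 : -Real.log η ≤ Real.log (Real.log X)) (hℓ3 : (Real.log X) ^ (4 * A) < η * X)
    (hn : η * X < n) (hn2 : n ≤ 2 * X) :
    (¬ E2 A X n → ge ⌊(Real.log X) ^ A⌋₊ ⌊(Real.log X) ^ (2 * A)⌋₊ n = 0) ∧
    (E2 A X n → Real.log X - (2 * A + 1) * Real.log (Real.log X) ≤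
        ge ⌊(Real.log X) ^ A⌋₊ ⌊(Real.log X) ^ (2 * A)⌋₊ n ∧
      ge ⌊(Real.log X) ^ A⌋₊ ⌊(Real.log X) ^ (2 * A)⌋₊ n ≤ Real.log X) := by
  have hℓ0 : 0 ≤ Real.log X := by linarith
  have hX0 : (0 : ℝ) < X := by
    rcases Nat.eq_zero_or_pos X with rfl | h
    · simp at hℓ
      linarith
    · exact_mod_cast h
  constructor
  · intro hE
    unfold ge
    refine sum_eq_zero fun p hp => ?_
    exfalso
    obtain ⟨hp1, hp2, hp3, hp4⟩ := mem_filter.1 hp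
    obtain ⟨h1, h2⟩ := (cnt_mem A X p hℓ0).1 hp1
    exact hE ⟨p, n / p, hp2, hp4, h1, h2, (Nat.mul_div_cancel' hp3).symm⟩
  · rintro ⟨p1, p2, hp1, hp2, h1, h2, rfl⟩
    have hdiv : p1 * p2 / p1 = p2 := Nat.mul_div_cancel_left p2 hp1.pos
    have hset : (Ioc ⌊(Real.log X) ^ A⌋₊ ⌊(Real.log X) ^ (2 * A)⌋₊).filter
        (fun p => p.Prime ∧ p ∣ p1 * p2 ∧ (p1 * p2 / p).Prime) = {p1} := by
      ext p
      rw [mem_filter, cnt_mem A X p hℓ0, mem_singleton]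
      constructor
      · rintro ⟨⟨h3, h4⟩, h5, h6, h7⟩
        by_contra hne
        have h8 : p ∣ p2 := by
          rcases (h5.dvd_mul).1 h6 with h | h
          · exact absurd ((Nat.prime_dvd_prime_iff_eq h5 hp1).1 h) hne
          · exact h
        have h9 : p = p2 := (Nat.prime_dvd_prime_iff_eq h5 hp2).1 h8
        rw [← h9] at hn
        have h10 : ((p1 * p : ℕ) : ℝ) ≤ (Real.log X) ^ (4 * A) := by
          push_cast
          calc (p1 : ℝ) * p ≤ (Real.log X) ^ (2 * A) * (Real.log X) ^ (2 * A) := by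
                gcongr
            _ = (Real.log X) ^ (4 * A) := by rw [← pow_add]; congr 1; ring
        linarith
      · rintro rfl
        refine ⟨⟨h1, h2⟩, hp1, dvd_mul_right _ _, ?_⟩
        rw [hdiv]
        exact hp2
    have hge : ge ⌊(Real.log X) ^ A⌋₊ ⌊(Real.log X) ^ (2 * A)⌋₊ (p1 * p2) =
        Real.log (p2 : ℝ) := by
      unfold ge
      rw [hset, sum_singleton, hdiv]
    rw [hge]
    have hp1r : (0 : ℝ) < p1 := by exact_mod_cast hp1.pos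
    have hp2r : (0 : ℝ) < p2 := by exact_mod_cast hp2.pos
    push_cast at hn
    have hn2' : (p1 : ℝ) * p2 ≤ 2 * X := by exact_mod_cast hn2
    have hℓp : (0 : ℝ) < Real.log X := by linarith
    constructor
    · have h3 : η * X ≤ (Real.log X) ^ (2 * A) * p2 := by
        have : (p1 : ℝ) * p2 ≤ (Real.log X) ^ (2 * A) * p2 := by gcongr
        linarith
      have h4 : Real.log (η * X) ≤ Real.log ((Real.log X) ^ (2 * A) * p2) :=
        Real.log_le_log (by positivity) h3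
      rw [Real.log_mul hη.ne' hX0.ne', Real.log_mul (by positivity) hp2r.ne', Real.log_pow] at h4
      push_cast at h4
      linarith
    · refine Real.log_le_log hp2r ?_
      have h5 : (2 : ℝ) ≤ (Real.log X) ^ A := by
        calc (2 : ℝ) ≤ Real.log X := hℓ
          _ = (Real.log X) ^ 1 := (pow_one _).symm
          _ ≤ (Real.log X) ^ A := pow_le_pow_right₀ (by linarith) hA
      have h6 : (2 : ℝ) * p2 ≤ p1 * p2 := by
        have : (2 : ℝ) ≤ p1 := by linarith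
        gcongr
      linarith

theorem cnt (A : ℕ) (η : ℝ) (hA : 1 ≤ A) (hη : 0 < η) (hη1 : η ≤ 1) : ∃ X0 : ℕ, ∀ X : ℕ, X0 ≤ X →
    ∀ M k : ℕ, M ^ 3 ≤ X → ⌊η * X⌋₊ < k → k ≤ X →
    (Real.log X - (2 * A + 1) * Real.log (Real.log X)) * cE A X M k ≤
      ∑ m ∈ Icc 1 M, ge ⌊(Real.log X) ^ A⌋₊ ⌊(Real.log X) ^ (2 * A)⌋₊ (m ^ 3 + k) ∧
    ∑ m ∈ Icc 1 M, ge ⌊(Real.log X) ^ A⌋₊ ⌊(Real.log X) ^ (2 * A)⌋₊ (m ^ 3 + k) ≤
      Real.log X * cE A X M k := by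
  classical
  obtain ⟨X0, hX0⟩ := cnt_large A η hη
  refine ⟨X0, fun X hX M k hM hk1 hk2 => ?_⟩
  obtain ⟨h1, h2, h3⟩ := hX0 X hX
  have hkr : η * X < k := Nat.lt_of_floor_lt hk1
  have hone : ∀ m ∈ Icc 1 M, (¬ E2 A X (m ^ 3 + k) →
        ge ⌊(Real.log X) ^ A⌋₊ ⌊(Real.log X) ^ (2 * A)⌋₊ (m ^ 3 + k) = 0) ∧
      (E2 A X (m ^ 3 + k) → Real.log X - (2 * A + 1) * Real.log (Real.log X) ≤
        ge ⌊(Real.log X) ^ A⌋₊ ⌊(Real.log X) ^ (2 * A)⌋₊ (m ^ 3 + k) ∧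
      ge ⌊(Real.log X) ^ A⌋₊ ⌊(Real.log X) ^ (2 * A)⌋₊ (m ^ 3 + k) ≤ Real.log X) := by
    intro m hm
    have hmM : m ^ 3 ≤ M ^ 3 := Nat.pow_le_pow_left (mem_Icc.1 hm).2 3
    refine cnt_one A X (m ^ 3 + k) η hA hη h1 h2 h3 ?_ (by omega)
    push_cast
    have : (0 : ℝ) ≤ (m : ℝ) ^ 3 := by positivity
    linarith
  have hcE : ∀ c : ℝ, c * cE A X M k = ∑ m ∈ Icc 1 M, if E2 A X (m ^ 3 + k) then c else 0 := by
    intro c
    unfold cE
    rw [← sum_filter, sum_const, nsmul_eq_mul, mul_comm]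
  rw [hcE, hcE]
  constructor
  · refine sum_le_sum fun m hm => ?_
    split_ifs with hE
    · exact ((hone m hm).2 hE).1
    · rw [(hone m hm).1 hE]
  · refine sum_le_sum fun m hm => ?_
    split_ifs with hE
    · exact ((hone m hm).2 hE).2
    · rw [(hone m hm).1 hE]

end Pool.Agent.H43.TP
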