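import Pool.Agent.H43.TP.Loc
import Pool.Agent.H26.LDP.Diff

/-!
# [H43 TP MW] The local model in residue classes and windows

PROOF. Exchange the sums. For `r ∣ q`: `crd r n = crd r c` for `n ≡ c mod q` (`ram_mod`), the number of `n` in the window
with `n % q = c` differs from `h/q` by at most `1`, `|crd r c| <= φ(r)`: the sum over `r ∣ q` is
`(h/q) Σ_{r ∣ q} μ(r)/φ(r) c_r(c) + O(Σ_{r ∣ q} 1)`, main term by `loc` (all `r ∣ q` are `<= Q`), error `<= Q`.
For `r ∤ q`: by `ram_exp` the sum over `n = c + q j` of `crd r n` is `Σ_b e(cb/r) Σ_j e(q j b/r)`; `q b/r` is not an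
integer (`(b,r) = 1`, `r ∤ q`), so its distance to the integers is `>= 1/r` and the geometric sum is `<= r/2`
(`LDP.geom`). So it is at most `φ(r) r/2`, times `1/φ(r)`: `<= r/2`. Total `<= Q + Q^2 <= 2 Q^2`.
-/

namespace Pool.Agent.H43.TP

open Finset

/-- the numbers of a window in a residue class -/
theorem mw_win {E : Type*} [AddCommMonoid E] (q c x h : ℕ) (hq : 1 ≤ q) (hc : c < q) (F : ℕ → E) :
    ∑ n ∈ (Ioc x (x + h)).filter (fun n => n % q = c), F n =
      ∑ j ∈ Ico ((x + q - c) / q) ((x + h + q - c) / q), F (c + q * j) := by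
  have hq0 : 0 < q := hq
  have key : ∀ j, (j ∈ Ico ((x + q - c) / q) ((x + h + q - c) / q)) ↔
      x < c + q * j ∧ c + q * j ≤ x + h := by
    intro j
    rw [mem_Ico, ← Nat.lt_succ_iff, Nat.div_lt_iff_lt_mul hq0, ← Nat.succ_le_iff (m := j),
      Nat.le_div_iff_mul_le hq0]
    have h1 : j.succ * q = q * j + q := by
      rw [Nat.succ_mul, mul_comm]
    rw [h1]
    omega
  refine sum_bij' (fun n _ => n / q) (fun j _ => c + q * j) ?_ ?_ ?_ ?_ ?_
  · intro n hn
    rw [mem_filter, mem_Ioc] at hn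
    rw [key]
    have h2 := Nat.mod_add_div n q
    rw [hn.2] at h2
    rw [h2]
    exact hn.1
  · intro j hj
    rw [key] at hj
    rw [mem_filter, mem_Ioc]
    refine ⟨hj, ?_⟩
    rw [Nat.add_mul_mod_self_left, Nat.mod_eq_of_lt hc]
  · intro n hn
    rw [mem_filter] at hn
    have h2 := Nat.mod_add_div n q
    rw [hn.2] at h2
    exact h2
  · intro j _
    rw [Nat.add_mul_div_left _ _ hq0, Nat.div_eq_of_lt hc, zero_add]
  · intro n hn
    rw [mem_filter] at hn
    have h2 := Nat.mod_add_div n q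
    rw [hn.2] at h2
    rw [h2]

/-- the number of the `n` in the window -/
theorem mw_card (q c x h : ℕ) (hq : 1 ≤ q) (hc : c < q) :
    |((((x + h + q - c) / q - (x + q - c) / q : ℕ) : ℝ)) * q - h| ≤ q := by
  have hq0 : 0 < q := hq
  obtain ⟨u, hu⟩ : ∃ u : ℕ, u = (x + h + q - c) / q := ⟨_, rfl⟩
  obtain ⟨v, hv⟩ : ∃ v : ℕ, v = (x + q - c) / q := ⟨_, rfl⟩
  have h1 : q * u ≤ x + h + q - c := by rw [hu]; exact Nat.mul_div_le _ _
  have h2 : x + h + q - c < q * u + q := by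
    have := Nat.lt_mul_div_succ (x + h + q - c) hq0
    rw [← hu] at this
    linarith
  have h3 : q * v ≤ x + q - c := by rw [hv]; exact Nat.mul_div_le _ _
  have h4 : x + q - c < q * v + q := by
    have := Nat.lt_mul_div_succ (x + q - c) hq0
    rw [← hv] at this
    linarith
  have huv : v ≤ u := by
    rw [hu, hv]
    exact Nat.div_le_div_right (by omega)
  rw [← hu, ← hv, Nat.cast_sub huv]
  have g1 : (q * u : ℝ) + c ≤ x + h + q := by
    have : q * u + c ≤ x + h + q := by omega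
    exact_mod_cast this
  have g2 : (x + h + q : ℝ) < q * u + q + c := by
    have : x + h + q < q * u + q + c := by omega
    exact_mod_cast this
  have g3 : (q * v : ℝ) + c ≤ x + q := by
    have : q * v + c ≤ x + q := by omega
    exact_mod_cast this
  have g4 : (x + q : ℝ) < q * v + q + c := by
    have : x + q < q * v + q + c := by omega
    exact_mod_cast this
  rw [abs_le]
  constructor <;> nlinarith

/-- the geometric sums -/
theorem mw_geom (q c x h r b : ℕ) (hq : 1 ≤ q) (hc : c < q) (hr : 1 ≤ r) (hrq : ¬ r ∣ q)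
    (hb : Nat.Coprime b r) :
    ‖∑ n ∈ (Ioc x (x + h)).filter (fun n => n % q = c),
      H26.LDP.e ((n : ℝ) * ((b : ℝ) / r))‖ ≤ r / 2 := by
  have hrR : (0 : ℝ) < r := by exact_mod_cast hr
  rw [mw_win q c x h hq hc (fun n => H26.LDP.e ((n : ℝ) * ((b : ℝ) / r)))]
  obtain ⟨u, hu⟩ : ∃ u : ℕ, u = (x + h + q - c) / q := ⟨_, rfl⟩
  obtain ⟨v, hv⟩ : ∃ v : ℕ, v = (x + q - c) / q := ⟨_, rfl⟩
  rw [← hu, ← hv]
  have h1 : ∑ j ∈ Ico v u, H26.LDP.e (((c + q * j : ℕ) : ℝ) * ((b : ℝ) / r)) =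
      ∑ m ∈ Icc 1 (u - v), H26.LDP.e ((q : ℝ) * b / r * m +
        ((c : ℝ) + q * v - q) * ((b : ℝ) / r)) := by
    refine sum_bij' (fun j _ => j - v + 1) (fun m _ => v + m - 1) ?_ ?_ ?_ ?_ ?_
    · intro j hj
      rw [mem_Ico] at hj
      rw [mem_Icc]
      omega
    · intro m hm
      rw [mem_Icc] at hm
      rw [mem_Ico]
      omega
    · intro j hj
      rw [mem_Ico] at hj
      omega
    · intro m hm
      rw [mem_Icc] at hm
      omega
    · intro j hj
      rw [mem_Ico] at hj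
      have h9 : ((j - v + 1 : ℕ) : ℝ) = (j : ℝ) - v + 1 := by
        rw [Nat.cast_add, Nat.cast_sub hj.1, Nat.cast_one]
      congr 1
      rw [h9]
      push_cast
      field_simp
      ring
  rw [h1]
  have h2 := H26.LDP.geom ((q : ℝ) * b / r) (((c : ℝ) + q * v - q) * ((b : ℝ) / r)) (u - v)
  have h3 : 1 / (r : ℝ) ≤ H26.LDP.nn ((q : ℝ) * b / r) := by
    unfold H26.LDP.nn
    obtain ⟨k, hk⟩ : ∃ k : ℤ, k = round ((q : ℝ) * b / r) := ⟨_, rfl⟩
    rw [← hk]
    have h4 : (q : ℝ) * b / r - k = (((q * b : ℕ) : ℤ) - k * r : ℤ) / (r : ℝ) := by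
      push_cast
      field_simp
    rw [h4, abs_div, abs_of_pos hrR]
    refine div_le_div_of_nonneg_right ?_ hrR.le
    have h5 : ((q * b : ℕ) : ℤ) - k * r ≠ 0 := by
      intro h0
      apply hrq
      have h6 : (r : ℤ) ∣ ((q * b : ℕ) : ℤ) := ⟨k, by linarith⟩
      have h7 : r ∣ q * b := by exact_mod_cast h6
      exact (Nat.Coprime.dvd_of_dvd_mul_right hb.symm h7)
    have h6 : (1 : ℤ) ≤ |((q * b : ℕ) : ℤ) - k * r| := Int.one_le_abs h5
    exact_mod_cast h6
  obtain ⟨Z, hZ⟩ : ∃ Z : ℝ, Z = ‖∑ m ∈ Icc 1 (u - v), H26.LDP.e ((q : ℝ) * b / r * m +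
        ((c : ℝ) + q * v - q) * ((b : ℝ) / r))‖ := ⟨_, rfl⟩
  rw [← hZ] at h2 ⊢
  have hZ0 : 0 ≤ Z := by rw [hZ]; exact norm_nonneg _
  have h7 : Z * (2 * (1 / (r : ℝ))) ≤ 1 :=
    (mul_le_mul_of_nonneg_left (by linarith) hZ0).trans h2
  have h8 : Z * (2 * (1 / (r : ℝ))) = Z * 2 / r := by ring
  rw [h8, div_le_one hrR] at h7
  linarith

theorem mw_off (q c x h r : ℕ) (hq : 1 ≤ q) (hc : c < q) (hr : 1 ≤ r) (hrq : ¬ r ∣ q) :
    |∑ n ∈ (Ioc x (x + h)).filter (fun n => n % q = c), (crd r n : ℝ)| ≤ r.totient * (r / 2) := by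
  have h1 : ‖((∑ n ∈ (Ioc x (x + h)).filter (fun n => n % q = c), (crd r n : ℝ) : ℝ) : ℂ)‖ ≤
      r.totient * (r / 2) := by
    push_cast
    have h2 : ∑ n ∈ (Ioc x (x + h)).filter (fun n => n % q = c), ((crd r n : ℤ) : ℂ) =
        ∑ b ∈ (range r).filter (fun b => Nat.Coprime b r),
          ∑ n ∈ (Ioc x (x + h)).filter (fun n => n % q = c),
            H26.LDP.e ((n : ℝ) * ((b : ℝ) / r)) := by
      rw [sum_comm]
      exact sum_congr rfl fun n _ => (ram_exp r n hr).symm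
    rw [h2]
    refine (norm_sum_le _ _).trans ?_
    refine (sum_le_sum fun b hb => mw_geom q c x h r b hq hc hr hrq (mem_filter.1 hb).2).trans ?_
    rw [sum_const, nsmul_eq_mul]
    have h3 : ((range r).filter (fun b => Nat.Coprime b r)).card = r.totient := by
      rw [Nat.totient_eq_card_coprime]
      congr 1
      refine filter_congr fun b _ => ?_
      exact Nat.coprime_comm
    rw [h3]
  rwa [Complex.norm_real] at h1

theorem mw (Q q c x h : ℕ) (hq : 1 ≤ q) (hqQ : q ≤ Q) (hc : c < q) :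
    |∑ n ∈ (Ioc x (x + h)).filter (fun n => n % q = c), lq Q n -
      (if Nat.Coprime c q then (h : ℝ) / q.totient else 0)| ≤ 2 * (Q : ℝ) ^ 2 := by
  have hqR : (0 : ℝ) < q := by exact_mod_cast hq
  have hQR : (1 : ℝ) ≤ Q := by exact_mod_cast hq.trans hqQ
  obtain ⟨W, hW⟩ : ∃ W : Finset ℕ, W = (Ioc x (x + h)).filter (fun n => n % q = c) := ⟨_, rfl⟩
  obtain ⟨S, hS⟩ : ∃ S : ℕ → ℝ, S = fun r => ∑ n ∈ W, (crd r n : ℝ) := ⟨_, rfl⟩
  obtain ⟨ω, hω⟩ : ∃ ω : ℕ → ℝ, ω = fun r =>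
      ((ArithmeticFunction.moebius r : ℤ) : ℝ) / (r.totient : ℝ) := ⟨_, rfl⟩
  have hcardW : (W.card : ℝ) = (((x + h + q - c) / q - (x + q - c) / q : ℕ) : ℝ) := by
    have h1 := mw_win q c x h hq hc (fun _ => (1 : ℕ))
    rw [← hW] at h1
    simp only [sum_const, smul_eq_mul, mul_one, Nat.card_Ico] at h1
    exact_mod_cast h1
  have hcw : |(W.card : ℝ) * q - h| ≤ q := by
    rw [hcardW]
    exact mw_card q c x h hq hc
  have hex : ∑ n ∈ W, lq Q n = ∑ r ∈ Icc 1 Q, ω r * S r := by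
    unfold lq
    rw [sum_comm]
    refine sum_congr rfl fun r _ => ?_
    rw [hS, hω]
    dsimp only
    rw [mul_sum]
  have hsub : q.divisors ⊆ Icc 1 Q := by
    intro r hr
    rw [mem_Icc]
    exact ⟨Nat.pos_of_mem_divisors hr, (Nat.divisor_le hr).trans hqQ⟩
  have hin : ∑ r ∈ q.divisors, ω r * S r =
      (W.card : ℝ) * (if Nat.Coprime c q then (q : ℝ) / q.totient else 0) := by
    rw [← loc q c hq, mul_sum]
    refine sum_congr rfl fun r hr => ?_
    have hrq := Nat.dvd_of_mem_divisors hr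
    have h1 : S r = (W.card : ℝ) * (crd r c : ℝ) := by
      rw [hS]
      dsimp only
      rw [← nsmul_eq_mul, ← sum_const]
      refine sum_congr rfl fun n hn => ?_
      rw [hW, mem_filter] at hn
      rw [ram_mod r n c]
      have h2 : n % q % r = n % r := Nat.mod_mod_of_dvd n hrq
      rw [← h2, hn.2]
    rw [h1, hω]
    ring
  have hout : |∑ r ∈ Icc 1 Q \ q.divisors, ω r * S r| ≤ (Q : ℝ) ^ 2 / 2 := by
    refine (abs_sum_le_sum_abs _ _).trans ?_
    have h1 : ∀ r ∈ Icc 1 Q \ q.divisors, |ω r * S r| ≤ (Q : ℝ) / 2 := by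
      intro r hr
      rw [mem_sdiff, mem_Icc, Nat.mem_divisors] at hr
      obtain ⟨⟨hr1, hr2⟩, hr3⟩ := hr
      have hrq : ¬ r ∣ q := fun h => hr3 ⟨h, by omega⟩
      have h2 := mw_off q c x h r hq hc hr1 hrq
      rw [← hW] at h2
      have htot : (0 : ℝ) < r.totient := by exact_mod_cast Nat.totient_pos.2 hr1
      have hmu : |((ArithmeticFunction.moebius r : ℤ) : ℝ)| ≤ 1 := by
        exact_mod_cast ArithmeticFunction.abs_moebius_le_one
      have hrQ : (r : ℝ) ≤ Q := by exact_mod_cast hr2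
      rw [abs_mul, hω, hS]
      dsimp only
      rw [abs_div, abs_of_pos htot]
      calc |((ArithmeticFunction.moebius r : ℤ) : ℝ)| / r.totient *
            |∑ n ∈ W, (crd r n : ℝ)| ≤ 1 / r.totient * (r.totient * (r / 2)) := by
            refine mul_le_mul (div_le_div_of_nonneg_right hmu htot.le) h2 (abs_nonneg _)
              (by positivity)
        _ = (r : ℝ) / 2 := by field_simp
        _ ≤ (Q : ℝ) / 2 := by linarith
    refine (sum_le_sum h1).trans ?_
    rw [sum_const, nsmul_eq_mul]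
    have h3 : ((Icc 1 Q \ q.divisors).card : ℝ) ≤ Q := by
      have h4 : (Icc 1 Q \ q.divisors).card ≤ Q := by
        refine (card_le_card sdiff_subset).trans ?_
        rw [Nat.card_Icc, Nat.add_sub_cancel]
      exact_mod_cast h4
    have h5 := mul_le_mul_of_nonneg_right h3 (by positivity : (0 : ℝ) ≤ (Q : ℝ) / 2)
    linarith
  rw [← hW, hex, ← sum_sdiff hsub, hin]
  have htq : (1 : ℝ) ≤ q.totient := by exact_mod_cast Nat.totient_pos.2 hq
  have hmain : |(W.card : ℝ) * (if Nat.Coprime c q then (q : ℝ) / q.totient else 0) -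
      (if Nat.Coprime c q then (h : ℝ) / q.totient else 0)| ≤ Q := by
    split_ifs
    · have h1 : (W.card : ℝ) * ((q : ℝ) / q.totient) - (h : ℝ) / q.totient =
          ((W.card : ℝ) * q - h) / q.totient := by ring
      rw [h1, abs_div, abs_of_pos (by linarith : (0 : ℝ) < q.totient)]
      refine (div_le_self (abs_nonneg _) htq).trans (hcw.trans ?_)
      exact_mod_cast hqQ
    · simp
  have htri := abs_add_le (∑ r ∈ Icc 1 Q \ q.divisors, ω r * S r)
    ((W.card : ℝ) * (if Nat.Coprime c q then (q : ℝ) / q.totient else 0) -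
      (if Nat.Coprime c q then (h : ℝ) / q.totient else 0))
  rw [add_sub_assoc]
  nlinarith

end Pool.Agent.H43.TP
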