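import Pool.Agent.H43.TP.Blk
import Pool.Agent.H43.TP.Mw

/-!
# [H43 TP FA] The windows of `ge - kap lq`

PROOF. `ℓ = log X`, `Z = ⌊ηX⌋`. `blkw` with `(B, A+2)`. Let `Z + h < x <= 2X`: the start `x - h` of the window lies in `(Z, 2X]` and all its
`n` are in `(Z, 2X]`, so the inner sum is `(Σ ge - 1[(c,q)=1] kap h/φ(q)) - kap (Σ lq - 1[(c,q)=1] h/φ(q))`, the second part at most
`kap * 2Q^2` (`mw`); squares: `<= 2 (..)^2 + 8 kap^2 Q^4`, sum over `x`: `<= 2X h^2 ℓ^(-A-2) + 16 X kap^2 Q^4`, and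
`kap <= P2 <= ℓ^A3`, `Q^4 <= ℓ^(4B)`, `h^2 >= ℓ^(2 C1)`: `16 X ℓ^(2A3+4B) <= X h^2 ℓ^(-A-2)` if `C1 >= A3 + 2B + A/2 + 2`.
`x <= Z`: the sum is `0` (`av = 0` there). The `2h` other values `x ∈ (Z, Z+h] ∪ (2X, 2X+h]`: `‖av n‖ <= P2 log(2X) + kap Q
<= ℓ^(A3+B+2)` (`|lq| <= Q` by `ram_abs`; `ge n <= P2 log n`), the window has `h` elements: `<= 2h h^2 ℓ^(2(A3+B+2)) <= X h^2 ℓ^(-A-1)` if
`h <= X ℓ^(-A1)`, `A1 >= A + 2(A3+B+2) + 2`. Take the maxima of the constants.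
-/

namespace Pool.Agent.H43.TP

open Finset

/-- the two prime factors function minus its local model, on `(ηX, 2X]` -/
noncomputable def av (P P2 Q X : ℕ) (η : ℝ) (n : ℕ) : ℂ :=
  if ⌊η * X⌋₊ < n ∧ n ≤ 2 * X then ((ge P P2 n - kap P P2 * lq Q n : ℝ) : ℂ) else 0

private theorem fa_ge (P P2 n : ℕ) (hn : 1 ≤ n) : |ge P P2 n| ≤ P2 * Real.log n := by
  unfold ge
  have hnR : (1 : ℝ) ≤ n := by exact_mod_cast hn
  have hlog : 0 ≤ Real.log n := Real.log_nonneg hnR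
  refine (abs_sum_le_sum_abs _ _).trans ?_
  have h1 : ∀ p ∈ (Ioc P P2).filter (fun p => p.Prime ∧ p ∣ n ∧ (n / p).Prime),
      |Real.log ((n / p : ℕ) : ℝ)| ≤ Real.log n := by
    intro p hp
    rw [mem_filter] at hp
    have h2 : (1 : ℝ) ≤ ((n / p : ℕ) : ℝ) := by exact_mod_cast hp.2.2.2.one_lt.le
    rw [abs_of_nonneg (Real.log_nonneg h2)]
    refine Real.log_le_log (by linarith) ?_
    exact_mod_cast Nat.div_le_self n p
  refine (sum_le_sum h1).trans ?_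
  rw [sum_const, nsmul_eq_mul]
  refine mul_le_mul_of_nonneg_right ?_ hlog
  have h3 : ((Ioc P P2).filter (fun p => p.Prime ∧ p ∣ n ∧ (n / p).Prime)).card ≤ P2 := by
    refine (card_filter_le _ _).trans ?_
    rw [Nat.card_Ioc]
    omega
  exact_mod_cast h3

private theorem fa_kap (P P2 : ℕ) : 0 ≤ kap P P2 ∧ kap P P2 ≤ P2 := by
  unfold kap
  constructor
  · exact sum_nonneg fun p _ => by positivity
  · have h1 : ∀ p ∈ (Ioc P P2).filter Nat.Prime, 1 / (p : ℝ) ≤ 1 := by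
      intro p hp
      rw [mem_filter] at hp
      have h2 : (1 : ℝ) ≤ p := by exact_mod_cast hp.2.one_lt.le
      rw [div_le_one (by linarith)]
      exact h2
    refine (sum_le_sum h1).trans ?_
    rw [sum_const, nsmul_eq_mul, mul_one]
    have h3 : ((Ioc P P2).filter Nat.Prime).card ≤ P2 := by
      refine (card_filter_le _ _).trans ?_
      rw [Nat.card_Ioc]
      omega
    exact_mod_cast h3

private theorem fa_lq (Q n : ℕ) : |lq Q n| ≤ Q := by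
  unfold lq
  refine (abs_sum_le_sum_abs _ _).trans ?_
  have h1 : ∀ r ∈ Icc 1 Q, |((ArithmeticFunction.moebius r : ℤ) : ℝ) / (r.totient : ℝ) *
      (crd r n : ℝ)| ≤ 1 := by
    intro r hr
    rw [mem_Icc] at hr
    have htot : (0 : ℝ) < r.totient := by exact_mod_cast Nat.totient_pos.2 hr.1
    have hmu : |((ArithmeticFunction.moebius r : ℤ) : ℝ)| ≤ 1 := by
      exact_mod_cast ArithmeticFunction.abs_moebius_le_one
    rw [abs_mul, abs_div, abs_of_pos htot]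
    calc |((ArithmeticFunction.moebius r : ℤ) : ℝ)| / r.totient * |(crd r n : ℝ)|
        ≤ 1 / r.totient * r.totient := by
          refine mul_le_mul (div_le_div_of_nonneg_right hmu htot.le) (ram_abs r n hr.1)
            (abs_nonneg _) (by positivity)
      _ = 1 := by field_simp
  refine (sum_le_sum h1).trans ?_
  rw [sum_const, nsmul_eq_mul, mul_one, Nat.card_Icc, Nat.add_sub_cancel]

private theorem fa_av (P P2 Q X : ℕ) (η : ℝ) (hX : 1 ≤ X) (n : ℕ) :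
    ‖av P P2 Q X η n‖ ≤ P2 * Real.log (2 * X) + P2 * Q := by
  have hXR : (1 : ℝ) ≤ X := by exact_mod_cast hX
  have hlog : 0 ≤ Real.log (2 * X) := Real.log_nonneg (by linarith)
  unfold av
  split_ifs with h
  · rw [Complex.norm_real, Real.norm_eq_abs]
    have hn : 1 ≤ n := by omega
    refine (abs_sub _ _).trans ?_
    refine add_le_add ((fa_ge P P2 n hn).trans ?_) ?_
    · refine mul_le_mul_of_nonneg_left ?_ (by positivity)
      refine Real.log_le_log (by exact_mod_cast hn) ?_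
      exact_mod_cast h.2
    · rw [abs_mul, abs_of_nonneg (fa_kap P P2).1]
      exact mul_le_mul (fa_kap P P2).2 (fa_lq Q n) (abs_nonneg _) (by positivity)
  · rw [norm_zero]
    positivity

/-- the windows inside `(Z, 2X]` -/
private theorem fa_in (P P2 Q X q c h : ℕ) (η : ℝ) (y : ℕ) (hq : 1 ≤ q) (hqQ : q ≤ Q)
    (hc : c < q) (hy : ⌊η * X⌋₊ ≤ y) (hy2 : y + h ≤ 2 * X) :
    ‖∑ n ∈ (Ioc y (y + h)).filter (fun n => n ≤ 2 * X ∧ n % q = c), av P P2 Q X η n‖ ^ 2 ≤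
      2 * (∑ m ∈ (Ioc y (y + h)).filter (fun m => m % q = c), ge P P2 m -
        (if Nat.Coprime c q then kap P P2 * h / q.totient else 0)) ^ 2 +
      8 * (P2 : ℝ) ^ 2 * (Q : ℝ) ^ 4 := by
  have h1 : (Ioc y (y + h)).filter (fun n => n ≤ 2 * X ∧ n % q = c) =
      (Ioc y (y + h)).filter (fun m => m % q = c) := by
    refine filter_congr fun n hn => ?_
    rw [mem_Ioc] at hn
    constructor
    · exact fun h => h.2
    · exact fun h => ⟨by omega, h⟩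
  obtain ⟨W, hW⟩ : ∃ W : Finset ℕ, W = (Ioc y (y + h)).filter (fun m => m % q = c) := ⟨_, rfl⟩
  have h2 : ∑ n ∈ W, av P P2 Q X η n =
      ((∑ m ∈ W, ge P P2 m - kap P P2 * ∑ m ∈ W, lq Q m : ℝ) : ℂ) := by
    have h3 : ∀ n ∈ W, av P P2 Q X η n = ((ge P P2 n - kap P P2 * lq Q n : ℝ) : ℂ) := by
      intro n hn
      rw [hW, mem_filter, mem_Ioc] at hn
      unfold av
      rw [if_pos ⟨by omega, by omega⟩]
    rw [sum_congr rfl h3, ← Complex.ofReal_sum, sum_sub_distrib, ← mul_sum]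
  rw [h1, ← hW, h2, Complex.norm_real, Real.norm_eq_abs, sq_abs]
  have h4 := mw Q q c y h hq hqQ hc
  rw [← hW] at h4
  obtain ⟨G, hG⟩ : ∃ G : ℝ, G = ∑ m ∈ W, ge P P2 m := ⟨_, rfl⟩
  obtain ⟨S, hS⟩ : ∃ S : ℝ, S = ∑ m ∈ W, lq Q m := ⟨_, rfl⟩
  rw [← hS] at h4 ⊢
  rw [← hG]
  obtain ⟨k, hk⟩ : ∃ k : ℝ, k = kap P P2 := ⟨_, rfl⟩
  have hk0 := (fa_kap P P2).1
  have hk1 := (fa_kap P P2).2
  rw [← hk] at hk0 hk1 ⊢
  obtain ⟨t, ht⟩ : ∃ t : ℝ, t = (if Nat.Coprime c q then (h : ℝ) / q.totient else 0) := ⟨_, rfl⟩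
  have ht2 : (if Nat.Coprime c q then k * h / q.totient else 0) = k * t := by
    rw [ht]
    split_ifs
    · ring
    · ring
  rw [← ht] at h4
  rw [ht2]
  have h5 : G - k * S = (G - k * t) - k * (S - t) := by ring
  have h6 : (k * (S - t)) ^ 2 ≤ 4 * (P2 : ℝ) ^ 2 * (Q : ℝ) ^ 4 := by
    have h7 : |k * (S - t)| ≤ P2 * (2 * (Q : ℝ) ^ 2) := by
      rw [abs_mul, abs_of_nonneg hk0]
      exact mul_le_mul hk1 h4 (abs_nonneg _) (by positivity)
    have h8 := pow_le_pow_left₀ (abs_nonneg _) h7 2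
    rw [sq_abs] at h8
    refine h8.trans (le_of_eq ?_)
    ring
  rw [h5]
  nlinarith [sq_nonneg ((G - k * t) + k * (S - t))]

theorem fa (B A : ℝ) (hB : 0 < B) (hA : 0 < A) : ∃ A2 : ℝ, 0 < A2 ∧ ∀ A3 : ℝ, A2 ≤ A3 →
    ∃ C1 A1 : ℝ, 0 < C1 ∧ 0 < A1 ∧ ∀ η : ℝ, 0 < η → η ≤ 1 → ∃ X0 : ℕ, 10 ≤ X0 ∧
    ∀ X : ℕ, X0 ≤ X →
    ∀ Q q c : ℕ, (Q : ℝ) ≤ (Real.log X) ^ B → 1 ≤ q → q ≤ Q → c < q → ∀ P P2 h : ℕ,
    (Real.log X) ^ A2 ≤ P → P ≤ P2 → (P2 : ℝ) ≤ (Real.log X) ^ A3 →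
    (Real.log X) ^ C1 ≤ h → (h : ℝ) ≤ X * (Real.log X) ^ (-A1) →
    ∑ x ∈ Icc 1 (2 * X + h),
      ‖∑ n ∈ (Ioc (x - h) x).filter (fun n => n ≤ 2 * X ∧ n % q = c), av P P2 Q X η n‖ ^ 2 ≤
      X * (h : ℝ) ^ 2 * (Real.log X) ^ (-A) := by
  obtain ⟨A2, hA2, h1⟩ := blkw B (A + 1) hB (by linarith)
  refine ⟨A2, hA2, fun A3 hA3 => ?_⟩
  obtain ⟨C1, A1, hC1, hA1, h2⟩ := h1 A3 hA3
  have hA3p : 0 < A3 := by linarith
  refine ⟨C1 + (A3 + 2 * B + A + 1), A1 + (A + 2 * (A3 + B + 2) + 1), by linarith,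
    by linarith, fun η hη hη1 => ?_⟩
  obtain ⟨X0, hX0, h3⟩ := h2 η hη hη1
  obtain ⟨N, hN⟩ := exists_nat_ge (Real.exp 64)
  refine ⟨max X0 N, hX0.trans (le_max_left _ _), fun X hX Q q c hQB hq hqQ hc P P2 h hP hPP hP2
    hhl hhu => ?_⟩
  have hXX0 : X0 ≤ X := (le_max_left _ _).trans hX
  have hXN : (N : ℝ) ≤ X := by exact_mod_cast (le_max_right _ _).trans hX
  have hX1 : 1 ≤ X := by omega
  have hXp : (0 : ℝ) < X := by exact_mod_cast hX1
  obtain ⟨l, hl⟩ : ∃ l : ℝ, l = Real.log X := ⟨_, rfl⟩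
  have hl64 : 64 ≤ l := by
    rw [hl]
    exact (Real.le_log_iff_exp_le hXp).2 (hN.trans hXN)
  have hlp : 0 < l := by linarith
  have hl1 : 1 ≤ l := by linarith
  rw [← hl] at hQB hP hP2 hhl hhu ⊢
  have hmono : ∀ a b : ℝ, a ≤ b → l ^ a ≤ l ^ b := fun a b hab =>
    Real.rpow_le_rpow_of_exponent_le hl1 hab
  have hhl1 : l ^ C1 ≤ h := (hmono _ _ (by linarith)).trans hhl
  have hhu1 : (h : ℝ) ≤ X * l ^ (-A1) :=
    hhu.trans (mul_le_mul_of_nonneg_left (hmono _ _ (by linarith)) hXp.le)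
  have h4 := h3 X hXX0 q c hq (by
    rw [← hl]
    refine le_trans ?_ hQB
    exact_mod_cast hqQ) hc P P2 h (by rw [← hl]; exact hP) hPP (by rw [← hl]; exact hP2)
    (by rw [← hl]; exact hhl1) (by rw [← hl]; exact hhu1)
  rw [← hl] at h4
  obtain ⟨Z, hZ⟩ : ∃ Z : ℕ, Z = ⌊η * X⌋₊ := ⟨_, rfl⟩
  have hZX : Z ≤ X := by
    rw [hZ]
    have h5 : η * X ≤ X := by nlinarith
    have h6 := Nat.floor_le_floor h5
    rwa [Nat.floor_natCast] at h6
  have hhX : (h : ℝ) ≤ X := by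
    refine hhu1.trans ?_
    have h5 : l ^ (-A1) ≤ l ^ (0 : ℝ) := hmono _ _ (by linarith)
    rw [Real.rpow_zero] at h5
    nlinarith
  have hhX' : h ≤ X := by exact_mod_cast hhX
  -- the bound for the elements
  obtain ⟨E, hE⟩ : ∃ E : ℝ, E = A3 + B + 2 := ⟨_, rfl⟩
  have hav : ∀ n : ℕ, ‖av P P2 Q X η n‖ ≤ l ^ E := by
    intro n
    refine (fa_av P P2 Q X η hX1 n).trans ?_
    have h5 : Real.log (2 * X) ≤ 2 * l := by
      rw [Real.log_mul (by norm_num) hXp.ne', ← hl]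
      have : Real.log 2 ≤ 2 - 1 := Real.log_le_sub_one_of_pos (by norm_num)
      linarith
    have h6 : (P2 : ℝ) * Real.log (2 * X) ≤ l ^ A3 * (2 * l) :=
      mul_le_mul hP2 h5 (Real.log_nonneg (by
        have : (1 : ℝ) ≤ X := by exact_mod_cast hX1
        linarith)) (by positivity)
    have h7 : (P2 : ℝ) * Q ≤ l ^ A3 * l ^ B := mul_le_mul hP2 hQB (by positivity) (by positivity)
    have h8 : l ^ E = l ^ A3 * l ^ B * l ^ 2 := by
      rw [hE, Real.rpow_add hlp, Real.rpow_add hlp]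
      norm_num
    have h9 : 1 ≤ l ^ B := by
      have := hmono 0 B hB.le
      rwa [Real.rpow_zero] at this
    have h10 : 0 < l ^ A3 := by positivity
    rw [h8]
    refine (add_le_add h6 h7).trans ?_
    have h11 : l ^ A3 * (2 * l) + l ^ A3 * l ^ B = l ^ A3 * (2 * l + l ^ B) := by ring
    have h12 : l ^ A3 * l ^ B * l ^ 2 = l ^ A3 * (l ^ B * l ^ 2) := by ring
    rw [h11, h12]
    refine mul_le_mul_of_nonneg_left ?_ h10.le
    nlinarith [mul_le_mul h9 (le_refl l) hlp.le (by linarith : (0 : ℝ) ≤ l ^ B)]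
  have hw : ∀ x : ℕ, ‖∑ n ∈ (Ioc (x - h) x).filter (fun n => n ≤ 2 * X ∧ n % q = c),
      av P P2 Q X η n‖ ^ 2 ≤ (h * l ^ E) ^ 2 := by
    intro x
    refine pow_le_pow_left₀ (norm_nonneg _) ?_ 2
    refine (norm_sum_le _ _).trans ((sum_le_sum fun n _ => hav n).trans ?_)
    rw [sum_const, nsmul_eq_mul]
    refine mul_le_mul_of_nonneg_right ?_ (by positivity)
    have h5 : ((Ioc (x - h) x).filter (fun n => n ≤ 2 * X ∧ n % q = c)).card ≤ h := by
      refine (card_filter_le _ _).trans ?_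
      rw [Nat.card_Ioc]
      omega
    exact_mod_cast h5
  -- the splitting
  obtain ⟨F, hF⟩ : ∃ F : ℕ → ℝ, F = fun x => ‖∑ n ∈ (Ioc (x - h) x).filter
    (fun n => n ≤ 2 * X ∧ n % q = c), av P P2 Q X η n‖ ^ 2 := ⟨_, rfl⟩
  have hsum : ∑ x ∈ Icc 1 (2 * X + h), F x = ∑ x ∈ Ioc 0 Z, F x + ∑ x ∈ Ioc Z (Z + h), F x +
      ∑ x ∈ Ioc (Z + h) (2 * X), F x + ∑ x ∈ Ioc (2 * X) (2 * X + h), F x := by
    rw [sum_Ioc_consecutive F (Nat.zero_le _) (by omega),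
      sum_Ioc_consecutive F (Nat.zero_le _) (by omega),
      sum_Ioc_consecutive F (Nat.zero_le _) (by omega)]
    refine sum_congr ?_ fun _ _ => rfl
    ext x
    rw [mem_Icc, mem_Ioc]
    omega
  have hs0 : ∑ x ∈ Ioc 0 Z, F x = 0 := by
    refine sum_eq_zero fun x hx => ?_
    rw [mem_Ioc] at hx
    rw [hF]
    dsimp only
    have h5 : ∑ n ∈ (Ioc (x - h) x).filter (fun n => n ≤ 2 * X ∧ n % q = c),
        av P P2 Q X η n = 0 := by
      refine sum_eq_zero fun n hn => ?_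
      rw [mem_filter, mem_Ioc] at hn
      unfold av
      rw [if_neg]
      rw [← hZ]
      omega
    rw [h5, norm_zero]
    norm_num
  have hs1 : ∀ a : ℕ, ∑ x ∈ Ioc a (a + h), F x ≤ h * (h * l ^ E) ^ 2 := by
    intro a
    refine (sum_le_sum fun x _ => (by rw [hF]; exact hw x : F x ≤ (h * l ^ E) ^ 2)).trans ?_
    rw [sum_const, nsmul_eq_mul, Nat.card_Ioc, Nat.add_sub_cancel_left]
  have hs2 : ∑ x ∈ Ioc (Z + h) (2 * X), F x ≤
      2 * (X * (h : ℝ) ^ 2 * l ^ (-(A + 1))) + 2 * X * (8 * (P2 : ℝ) ^ 2 * (Q : ℝ) ^ 4) := by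
    obtain ⟨T, hT⟩ : ∃ T : ℕ → ℝ, T = fun y =>
      (∑ m ∈ (Ioc y (y + h)).filter (fun m => m % q = c), ge P P2 m -
        (if Nat.Coprime c q then kap P P2 * h / q.totient else 0)) ^ 2 := ⟨_, rfl⟩
    have hT0 : ∀ y, 0 ≤ T y := fun y => by rw [hT]; exact sq_nonneg _
    have h5 : ∀ x ∈ Ioc (Z + h) (2 * X), F x ≤
        2 * T (x - h) + 8 * (P2 : ℝ) ^ 2 * (Q : ℝ) ^ 4 := by
      intro x hx
      rw [mem_Ioc] at hx
      have h6 := fa_in P P2 Q X q c h η (x - h) hq hqQ hc (by rw [← hZ]; omega) (by omega)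
      have h7 : x - h + h = x := by omega
      rw [hF, hT]
      dsimp only
      rwa [h7] at h6 ⊢
    refine (sum_le_sum h5).trans ?_
    rw [sum_add_distrib, ← mul_sum, sum_const, nsmul_eq_mul]
    refine add_le_add ?_ ?_
    · refine mul_le_mul_of_nonneg_left ?_ (by norm_num)
      refine le_trans ?_ h4
      rw [← hZ]
      have h6 : ∑ x ∈ Ioc (Z + h) (2 * X), T (x - h) = ∑ y ∈ Ioc Z (2 * X - h), T y := by
        refine sum_bij' (fun x _ => x - h) (fun y _ => y + h) ?_ ?_ ?_ ?_ ?_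
        · intro x hx
          rw [mem_Ioc] at hx ⊢
          omega
        · intro y hy
          rw [mem_Ioc] at hy ⊢
          omega
        · intro x hx
          rw [mem_Ioc] at hx
          omega
        · intro y _
          omega
        · intro x _
          rfl
      rw [h6]
      have h7 : ∑ y ∈ Ioc Z (2 * X - h), T y ≤ ∑ y ∈ Ioc Z (2 * X), T y :=
        sum_le_sum_of_subset_of_nonneg (Ioc_subset_Ioc le_rfl (by omega)) fun _ _ _ => hT0 _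
      rw [hT] at h7 ⊢
      exact h7
    · refine mul_le_mul_of_nonneg_right ?_ (by positivity)
      rw [Nat.card_Ioc]
      have h6 : 2 * X - (Z + h) ≤ 2 * X := by omega
      exact_mod_cast h6
  -- the numbers
  have hF2 : ∑ x ∈ Icc 1 (2 * X + h), F x ≤
      2 * (h * (h * l ^ E) ^ 2) + (2 * (X * (h : ℝ) ^ 2 * l ^ (-(A + 1))) +
        2 * X * (8 * (P2 : ℝ) ^ 2 * (Q : ℝ) ^ 4)) := by
    rw [hsum, hs0]
    have := hs1 Z
    have := hs1 (2 * X)
    linarith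
  have hgoal : ∑ x ∈ Icc 1 (2 * X + h), F x ≤ X * (h : ℝ) ^ 2 * l ^ (-A) := by
    refine hF2.trans ?_
    have hA' : l ^ (-(A + 1)) = l ^ (-A) * l⁻¹ := by
      rw [neg_add, Real.rpow_add hlp, Real.rpow_neg_one]
    obtain ⟨w, hwd⟩ : ∃ w : ℝ, w = l ^ (-A) := ⟨_, rfl⟩
    have hwp : 0 < w := by rw [hwd]; positivity
    have hli : l⁻¹ ≤ 1 / 64 := by
      rw [inv_le_comm₀ hlp (by norm_num)]
      norm_num
      exact hl64
    -- first
    have t1 : 2 * (h * (h * l ^ E) ^ 2) ≤ 2 * (X * (h : ℝ) ^ 2 * (w * l⁻¹)) := by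
      have h5 : (h : ℝ) * l ^ (2 * E) ≤ X * (w * l⁻¹) := by
        calc (h : ℝ) * l ^ (2 * E) ≤ X * l ^ (-(A1 + (A + 2 * (A3 + B + 2) + 1))) * l ^ (2 * E) :=
              mul_le_mul_of_nonneg_right hhu (by positivity)
          _ = X * l ^ (-(A1 + (A + 2 * (A3 + B + 2) + 1)) + 2 * E) := by
              rw [mul_assoc, ← Real.rpow_add hlp]
          _ ≤ X * l ^ (-(A + 1)) := by
              refine mul_le_mul_of_nonneg_left (hmono _ _ ?_) hXp.le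
              rw [hE]
              linarith
          _ = X * (w * l⁻¹) := by rw [hA', hwd]
      have h6 : (l ^ E) ^ 2 = l ^ (2 * E) := by
        rw [mul_comm, Real.rpow_mul hlp.le]
        norm_num
      calc 2 * ((h : ℝ) * (h * l ^ E) ^ 2) = 2 * ((h : ℝ) ^ 2 * (h * (l ^ E) ^ 2)) := by ring
        _ = 2 * ((h : ℝ) ^ 2 * (h * l ^ (2 * E))) := by rw [h6]
        _ ≤ 2 * ((h : ℝ) ^ 2 * (X * (w * l⁻¹))) := by
            refine mul_le_mul_of_nonneg_left ?_ (by norm_num)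
            exact mul_le_mul_of_nonneg_left h5 (by positivity)
        _ = _ := by ring
    -- third
    have t3 : 2 * X * (8 * (P2 : ℝ) ^ 2 * (Q : ℝ) ^ 4) ≤ 16 * (X * (h : ℝ) ^ 2 * (w * l⁻¹)) := by
      have h5 : (P2 : ℝ) ^ 2 * (Q : ℝ) ^ 4 ≤ l ^ (2 * A3 + 4 * B) := by
        have h6 : (P2 : ℝ) ^ 2 ≤ (l ^ A3) ^ 2 := pow_le_pow_left₀ (by positivity) hP2 2
        have h7 : (Q : ℝ) ^ 4 ≤ (l ^ B) ^ 4 := pow_le_pow_left₀ (by positivity) hQB 4
        have h8 : l ^ (2 * A3 + 4 * B) = (l ^ A3) ^ 2 * (l ^ B) ^ 4 := by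
          rw [Real.rpow_add hlp, mul_comm 2 A3, mul_comm 4 B, Real.rpow_mul hlp.le,
            Real.rpow_mul hlp.le]
          norm_num
        rw [h8]
        exact mul_le_mul h6 h7 (by positivity) (by positivity)
      have h9 : l ^ (2 * A3 + 4 * B) ≤ (h : ℝ) ^ 2 * (w * l⁻¹) := by
        have h10 : l ^ (A3 + 2 * B + A + 1) ≤ h :=
          (hmono _ _ (by linarith)).trans hhl
        have h11 : (l ^ (A3 + 2 * B + A + 1)) ^ 2 ≤ (h : ℝ) ^ 2 :=
          pow_le_pow_left₀ (by positivity) h10 2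
        have h12 : ∀ s : ℝ, (l ^ s) ^ 2 = l ^ (2 * s) := by
          intro s
          rw [mul_comm, Real.rpow_mul hlp.le]
          norm_num
        rw [hwd, ← hA']
        calc l ^ (2 * A3 + 4 * B) ≤ l ^ (2 * (A3 + 2 * B + A + 1) + -(A + 1)) :=
              hmono _ _ (by linarith)
          _ = l ^ (2 * (A3 + 2 * B + A + 1)) * l ^ (-(A + 1)) := Real.rpow_add hlp _ _
          _ ≤ (h : ℝ) ^ 2 * l ^ (-(A + 1)) := by
              rw [← h12]
              exact mul_le_mul_of_nonneg_right h11 (by positivity)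
      calc 2 * X * (8 * (P2 : ℝ) ^ 2 * (Q : ℝ) ^ 4) = 16 * (X * ((P2 : ℝ) ^ 2 * (Q : ℝ) ^ 4)) := by
            ring
        _ ≤ 16 * (X * ((h : ℝ) ^ 2 * (w * l⁻¹))) := by
            refine mul_le_mul_of_nonneg_left ?_ (by norm_num)
            exact mul_le_mul_of_nonneg_left (h5.trans h9) hXp.le
        _ = _ := by ring
    rw [hA', ← hwd]
    obtain ⟨V, hV⟩ : ∃ V : ℝ, V = X * (h : ℝ) ^ 2 * w := ⟨_, rfl⟩
    have hVp : 0 ≤ V := by rw [hV]; positivity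
    have h5 : X * (h : ℝ) ^ 2 * (w * l⁻¹) = V * l⁻¹ := by rw [hV]; ring
    rw [h5] at t1 t3 ⊢
    rw [← hV]
    have h6 : V * l⁻¹ ≤ V * (1 / 64) := mul_le_mul_of_nonneg_left hli hVp
    linarith
  rw [hF] at hgoal
  exact hgoal

end Pool.Agent.H43.TP
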