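import Pool.Agent.H43.TP.Ram

/-!
# [H43 TP MT] The main term

PROOF. For each `r`: `m ↦ crd r (m^3+k)` has period `r` (`ram_mod`) and `|crd r ·| <= φ(r)`. Write `M = u r + v`,
`0 <= v < r`: the sum over `1 <= m <= M` is `u Σ_{m<r} + (at most v terms)`, and `M/r = u + v/r`, so it differs from
`(M/r) Σ_{m<r} crd r (m^3+k)` by at most `2 v φ(r) <= 2 r φ(r)`. Times `1/φ(r)`, summed over `r <= Q`:
`<= 2 Σ r <= 2 Q^2` (`|μ| <= 1`).
-/

namespace Pool.Agent.H43.TP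

open Finset

private theorem Mt_per (r : ℕ) (hr : 0 < r) (g : ℕ → ℝ) (hg : ∀ m, g (m + r) = g m) (B : ℝ)
    (hB : ∀ m, |g m| ≤ B) (M : ℕ) :
    |∑ m ∈ Icc 1 M, g m - (M : ℝ) * ((1 / (r : ℝ)) * ∑ m ∈ range r, g m)| ≤ 2 * (r : ℝ) * B := by
  have hB0 : 0 ≤ B := (abs_nonneg _).trans (hB 0)
  have hr0 : (0 : ℝ) < (r : ℝ) := by exact_mod_cast hr
  obtain ⟨T, hT⟩ : ∃ T, T = ∑ m ∈ range r, g m := ⟨_, rfl⟩
  have hper : ∀ u m, g (u * r + m) = g m := by
    intro u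
    induction u with
    | zero => intro m; rw [zero_mul, zero_add]
    | succ u ih =>
      intro m
      have h1 : (u + 1) * r + m = (u * r + m) + r := by ring
      rw [h1, hg, ih]
  have hshift : ∑ m ∈ range r, g (m + 1) = T := by
    have h1 := Finset.sum_range_succ' g r
    have h2 := Finset.sum_range_succ g r
    have h3 : g r = g 0 := by
      have h4 := hg 0
      rw [zero_add] at h4
      exact h4
    rw [hT]
    linarith
  have hblock : ∀ u, ∑ m ∈ range (u * r), g (m + 1) = u * T := by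
    intro u
    induction u with
    | zero => simp
    | succ u ih =>
      rw [Nat.succ_mul, Finset.sum_range_add, ih]
      have h1 : ∀ m ∈ range r, g (u * r + m + 1) = g (m + 1) := by
        intro m _
        rw [add_assoc, hper]
      rw [Finset.sum_congr rfl h1, hshift]
      push_cast
      ring
  have hM : M = (M / r) * r + M % r := by
    rw [mul_comm]
    exact (Nat.div_add_mod M r).symm
  have hv : M % r < r := Nat.mod_lt _ hr
  have hS : ∑ m ∈ Icc 1 M, g m = ((M / r : ℕ) : ℝ) * T + ∑ m ∈ range (M % r), g (m + 1) := by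
    have h1 : ∑ m ∈ Icc 1 M, g m = ∑ m ∈ range M, g (m + 1) := by
      rw [Finset.range_eq_Ico, Finset.sum_Ico_add' g 0 M 1]
      rfl
    rw [h1]
    conv_lhs => rw [hM]
    rw [Finset.sum_range_add, hblock]
    congr 1
    refine Finset.sum_congr rfl fun m _ => ?_
    rw [add_assoc, hper]
  have hR : |∑ m ∈ range (M % r), g (m + 1)| ≤ (r : ℝ) * B := by
    refine (Finset.abs_sum_le_sum_abs _ _).trans ?_
    refine (Finset.sum_le_sum fun m _ => hB (m + 1)).trans ?_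
    rw [Finset.sum_const, card_range, nsmul_eq_mul]
    refine mul_le_mul_of_nonneg_right ?_ hB0
    exact_mod_cast hv.le
  have hTB : |T| ≤ (r : ℝ) * B := by
    rw [hT]
    refine (Finset.abs_sum_le_sum_abs _ _).trans ?_
    refine (Finset.sum_le_sum fun m _ => hB m).trans ?_
    rw [Finset.sum_const, card_range, nsmul_eq_mul]
  have hMr : (M : ℝ) = ((M / r : ℕ) : ℝ) * r + ((M % r : ℕ) : ℝ) := by
    exact_mod_cast hM
  have hvr : ((M % r : ℕ) : ℝ) / r ≤ 1 := by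
    rw [div_le_one hr0]
    exact_mod_cast hv.le
  have hkey : ∑ m ∈ Icc 1 M, g m - (M : ℝ) * ((1 / (r : ℝ)) * ∑ m ∈ range r, g m) =
      ∑ m ∈ range (M % r), g (m + 1) - (((M % r : ℕ) : ℝ) / r) * T := by
    rw [hS, ← hT, hMr]
    field_simp
    ring
  rw [hkey]
  refine (abs_sub _ _).trans ?_
  have h5 : |(((M % r : ℕ) : ℝ) / r) * T| ≤ (r : ℝ) * B := by
    rw [abs_mul, abs_of_nonneg (by positivity)]
    calc ((M % r : ℕ) : ℝ) / r * |T| ≤ 1 * |T| := mul_le_mul_of_nonneg_right hvr (abs_nonneg _)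
      _ = |T| := one_mul _
      _ ≤ (r : ℝ) * B := hTB
  linarith

theorem mt (Q M k : ℕ) :
    |∑ m ∈ Icc 1 M, lq Q (m ^ 3 + k) - M * ∑ r ∈ Icc 1 Q, ar r k| ≤ 2 * (Q : ℝ) ^ 2 := by
  have hterm : ∀ r ∈ Icc 1 Q, |∑ m ∈ Icc 1 M, ((ArithmeticFunction.moebius r : ℤ) : ℝ) /
      (r.totient : ℝ) * (crd r (m ^ 3 + k) : ℝ) - (M : ℝ) * ar r k| ≤ 2 * (Q : ℝ) := by
    intro r hr
    obtain ⟨hr1, hrQ⟩ := Finset.mem_Icc.1 hr
    have hφ : (0 : ℝ) < (r.totient : ℝ) := by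
      exact_mod_cast Nat.totient_pos.2 hr1
    have hp := Mt_per r hr1 (fun m => (crd r (m ^ 3 + k) : ℝ)) (by
      intro m
      have h1 : crd r ((m + r) ^ 3 + k) = crd r (m ^ 3 + k) := by
        refine ram_mod _ _ _ ?_
        have h2 : (m + r) ^ 3 + k = (m ^ 3 + k) + r * (3 * m ^ 2 + 3 * m * r + r ^ 2) := by ring
        rw [h2, Nat.add_mul_mod_self_left]
      change ((crd r ((m + r) ^ 3 + k) : ℤ) : ℝ) = _
      rw [h1]) (r.totient : ℝ) (fun m => ram_abs r _ hr1) M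
    have h3 : ∑ m ∈ Icc 1 M, ((ArithmeticFunction.moebius r : ℤ) : ℝ) /
      (r.totient : ℝ) * (crd r (m ^ 3 + k) : ℝ) - (M : ℝ) * ar r k =
      (((ArithmeticFunction.moebius r : ℤ) : ℝ) / (r.totient : ℝ)) *
      (∑ m ∈ Icc 1 M, (crd r (m ^ 3 + k) : ℝ) -
        (M : ℝ) * ((1 / (r : ℝ)) * ∑ m ∈ range r, (crd r (m ^ 3 + k) : ℝ))) := by
      rw [ar, ← Finset.mul_sum]
      ring
    rw [h3, abs_mul]
    have hmu : |((ArithmeticFunction.moebius r : ℤ) : ℝ)| ≤ 1 := by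
      have h4 : |ArithmeticFunction.moebius r| ≤ 1 := ArithmeticFunction.abs_moebius_le_one
      exact_mod_cast h4
    have h5 : |((ArithmeticFunction.moebius r : ℤ) : ℝ) / (r.totient : ℝ)| ≤
        1 / (r.totient : ℝ) := by
      rw [abs_div, abs_of_pos hφ]
      exact div_le_div_of_nonneg_right hmu hφ.le
    have hrQ' : (r : ℝ) ≤ (Q : ℝ) := by exact_mod_cast hrQ
    calc _ ≤ (1 / (r.totient : ℝ)) * (2 * (r : ℝ) * (r.totient : ℝ)) :=
          mul_le_mul h5 hp (abs_nonneg _) (by positivity)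
      _ = 2 * (r : ℝ) := by field_simp
      _ ≤ 2 * (Q : ℝ) := by linarith
  have hsum : ∑ m ∈ Icc 1 M, lq Q (m ^ 3 + k) - M * ∑ r ∈ Icc 1 Q, ar r k =
      ∑ r ∈ Icc 1 Q, (∑ m ∈ Icc 1 M, ((ArithmeticFunction.moebius r : ℤ) : ℝ) /
      (r.totient : ℝ) * (crd r (m ^ 3 + k) : ℝ) - (M : ℝ) * ar r k) := by
    rw [Finset.sum_sub_distrib, ← Finset.mul_sum, Finset.sum_comm]
    rfl
  rw [hsum]
  refine (Finset.abs_sum_le_sum_abs _ _).trans ((Finset.sum_le_sum hterm).trans ?_)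
  rw [Finset.sum_const, Nat.card_Icc, nsmul_eq_mul, Nat.add_sub_cancel]
  nlinarith

end Pool.Agent.H43.TP
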