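import Pool.Agent.H43.TP.Fa
import Pool.Agent.H43.TP.Tra
import Pool.Agent.H43.TP.L2m
import Pool.Agent.H43.TP.Mt
import Pool.Agent.H43.TP.Or
import Pool.Agent.H43.TP.Mert

/-!
# [H43 TP FMS] The mean square theorem

PROOF. `ℓ = log X`, `κ = ℓ^(-2)`, `Q = ⌈2^64 ℓ^48⌉₊` (`2^64/κ^24 <= Q <= ℓ^49` for `X` large). `fa` with `(49, 200)` gives `A2`; `A0 = ⌈A2⌉₊ + 1`;
for `A >= A0` let `A3 = 2A` and `C1, A1` from `fa`; `P = ⌊ℓ^A⌋ >= ℓ^A2`, `P <= P2 = ⌊ℓ^(2A)⌋ <= ℓ^A3`. `h = ⌊M^3/(6 Q ℓ^A1')⌋`, `A1' = max A1 1`: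
`6hQ <= M^3`, `h <= X ℓ^(-A1)` (`M^3 <= X`), and `h >= ℓ^C1`, `h >= 1`, if `M >= ℓ^C`, `C = C1 + A1' + 200`.
(1) `tra` with `a = av P P2 Q X η`, `V = X h^2 ℓ^(-200)`: `Σ_{k<=X} ‖Σ_m a(m^3+k)‖^2 <= κ^2 M^2 Σ ‖a n‖^2 + 4M^2 Q^4 V/h^2`, the last
`<= 4 M^2 X ℓ^(196-200) <= X M^2 ℓ^(-3)`. `Σ_{n<=2X} ‖a n‖^2 <= 2 Σ ge^2 + 2 kap^2 Σ lq^2`; `ge n <= 2 log n <= 4ℓ` (if a term is there
then `n = p p'` has at most two prime divisors), `Σ ge^2 <= 32 X ℓ^2`; `kap <= 1` (`mert`), `l2m`: `Σ lq^2 <= 4X (1+log Q)^2 + 4Q^4 <= X ℓ`. So the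
first term is `<= ℓ^(-4) M^2 66 X ℓ^2 <= X M^2 ℓ^(-1)` (`X` large).
(2) For `k ∈ (⌊ηX⌋, X]`, `m <= M`: `⌊ηX⌋ < m^3+k <= 2X`, so `Σ_m a(m^3+k) = Σ_m ge(m^3+k) - kap Σ_m lq(m^3+k)`; by `mt`
`Σ_m lq(m^3+k) = M Σ_{r<=Q} ar r k + O(2Q^2)`, and `Σ_{r<=Q} ar r k = S y k + Σ_{r<=Q, r ∤ Wy y} ar r k` (`sing`; all divisors of `Wy y` are
`<= Q` for `X >= X0(y)`, and conversely). Hence
`(Σ ge - kap S M)^2 <= 3 ‖Σ a‖^2 + 3 (2Q^2)^2 + 3 M^2 (Σ_{r<=Q, r∤Wy} ar)^2`; sum over `k <= X` with `or`: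
`<= 6 X M^2 ℓ^(-1) + 12 X Q^4 + 3 M^2 (50 X y^(-1/2) + 2Q^4) <= 200 y^(-1/2) X M^2` for `X` large depending on `y`
(`Q^4 <= ℓ^196 <= M ℓ^(-4)`).
-/

namespace Pool.Agent.H43.TP

open Finset

theorem fms_ge (P P2 n : ℕ) : 0 ≤ ge P P2 n ∧ ge P P2 n ≤ 2 * Real.log n := by
  classical
  have hn0 : 0 ≤ Real.log (n : ℝ) := Real.log_natCast_nonneg n
  constructor
  · unfold ge
    exact sum_nonneg fun p _ => Real.log_natCast_nonneg _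
  · unfold ge
    set S := (Ioc P P2).filter (fun p => p.Prime ∧ p ∣ n ∧ (n / p).Prime) with hS
    rcases S.eq_empty_or_nonempty with h | ⟨p, hp⟩
    · rw [h, sum_empty]
      positivity
    · obtain ⟨_, hp1, hp2, hp3⟩ := mem_filter.1 hp
      have hnp : n = p * (n / p) := (Nat.mul_div_cancel' hp2).symm
      have hn1 : 0 < n := by
        rw [hnp]
        exact Nat.mul_pos hp1.pos hp3.pos
      have hsub : S ⊆ {p, n / p} := by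
        intro r hr
        obtain ⟨_, hr1, hr2, _⟩ := mem_filter.1 hr
        rw [hnp] at hr2
        rw [mem_insert, mem_singleton]
        rcases (hr1.dvd_mul).1 hr2 with h | h
        · exact Or.inl ((Nat.prime_dvd_prime_iff_eq hr1 hp1).1 h)
        · exact Or.inr ((Nat.prime_dvd_prime_iff_eq hr1 hp3).1 h)
      have hcard : S.card ≤ 2 := (card_le_card hsub).trans card_le_two
      have hterm : ∀ r ∈ S, Real.log ((n / r : ℕ) : ℝ) ≤ Real.log n := by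
        intro r hr
        obtain ⟨_, _, _, hr3⟩ := mem_filter.1 hr
        refine Real.log_le_log (by exact_mod_cast hr3.pos) ?_
        exact_mod_cast Nat.div_le_self n r
      calc ∑ r ∈ S, Real.log ((n / r : ℕ) : ℝ) ≤ ∑ _r ∈ S, Real.log n := sum_le_sum hterm
        _ = S.card * Real.log n := by rw [sum_const, nsmul_eq_mul]
        _ ≤ 2 * Real.log n := by
            have : (S.card : ℝ) ≤ 2 := by exact_mod_cast hcard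
            gcongr

theorem fms_kap (P P2 : ℕ) : 0 ≤ kap P P2 := by
  unfold kap
  exact sum_nonneg fun p _ => by positivity

theorem fms_sum (y Q k : ℕ) (hW : Wy y ≤ Q) :
    ∑ r ∈ Icc 1 Q, ar r k =
      HL.S y k + ∑ r ∈ (Icc 1 Q).filter (fun r => ¬ r ∣ Wy y), ar r k := by
  have hW0 : Wy y ≠ 0 := by
    rw [Wy_eq]
    exact (primorial_pos y).ne'
  have h1 : (Icc 1 Q).filter (fun r => r ∣ Wy y) = (Wy y).divisors := by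
    ext r
    rw [mem_filter, mem_Icc, Nat.mem_divisors]
    constructor
    · rintro ⟨_, h2⟩
      exact ⟨h2, hW0⟩
    · rintro ⟨h2, _⟩
      exact ⟨⟨Nat.pos_of_dvd_of_pos h2 (Nat.pos_of_ne_zero hW0),
        (Nat.le_of_dvd (Nat.pos_of_ne_zero hW0) h2).trans hW⟩, h2⟩
  rw [sing, ← h1, sum_filter_add_sum_filter_not]

theorem fms_point (G L S T M κ E : ℝ) (hκ0 : 0 ≤ κ) (hκ1 : κ ≤ 1) (hE : |L - M * (S + T)| ≤ E) :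
    (G - κ * S * M) ^ 2 ≤ 3 * (G - κ * L) ^ 2 + 3 * E ^ 2 + 3 * M ^ 2 * T ^ 2 := by
  have e : G - κ * S * M = (G - κ * L) + κ * (L - M * (S + T)) + κ * (M * T) := by ring
  have h1 : ∀ a b c : ℝ, (a + b + c) ^ 2 ≤ 3 * a ^ 2 + 3 * b ^ 2 + 3 * c ^ 2 := by
    intro a b c
    nlinarith [sq_nonneg (a - b), sq_nonneg (b - c), sq_nonneg (a - c)]
  have hκ2 : κ ^ 2 ≤ 1 := pow_le_one₀ hκ0 hκ1
  have h2 : (κ * (L - M * (S + T))) ^ 2 ≤ E ^ 2 := by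
    rw [mul_pow]
    have h3 : (L - M * (S + T)) ^ 2 ≤ E ^ 2 := sq_le_sq' (by linarith [(abs_le.1 hE).1])
      (abs_le.1 hE).2
    calc κ ^ 2 * (L - M * (S + T)) ^ 2 ≤ 1 * (L - M * (S + T)) ^ 2 := by gcongr
      _ ≤ E ^ 2 := by rw [one_mul]; exact h3
  have h4 : (κ * (M * T)) ^ 2 ≤ M ^ 2 * T ^ 2 := by
    rw [mul_pow, mul_pow]
    calc κ ^ 2 * (M ^ 2 * T ^ 2) ≤ 1 * (M ^ 2 * T ^ 2) := by gcongr
      _ = M ^ 2 * T ^ 2 := one_mul _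
  rw [e]
  refine (h1 _ _ _).trans ?_
  linarith

theorem fms_av (P P2 Q X : ℕ) (η : ℝ) (hκ1 : kap P P2 ≤ 1) (hX : 1 ≤ X) (hℓ : 1 ≤ Real.log X) :
    ∑ n ∈ Icc 1 (2 * X), ‖av P P2 Q X η n‖ ^ 2 ≤
      64 * X * Real.log X ^ 2 + 2 * ∑ n ∈ Icc 1 (2 * X), lq Q n ^ 2 := by
  have hX0 : (0 : ℝ) < X := by exact_mod_cast hX
  have hκ0 := fms_kap P P2
  have h1 : ∀ n ∈ Icc 1 (2 * X), ‖av P P2 Q X η n‖ ^ 2 ≤ 32 * Real.log X ^ 2 + 2 * lq Q n ^ 2 := by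
    intro n hn
    obtain ⟨hn1, hn2⟩ := mem_Icc.1 hn
    have hnr : (0 : ℝ) < n := by exact_mod_cast hn1
    have h2 : Real.log n ≤ 2 * Real.log X := by
      have h3 : Real.log n ≤ Real.log (2 * X) :=
        Real.log_le_log hnr (by exact_mod_cast hn2)
      rw [Real.log_mul (by norm_num) hX0.ne'] at h3
      have h4 : Real.log 2 ≤ 1 := by
        have := Real.log_two_lt_d9
        linarith
      linarith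
    obtain ⟨hg0, hg1⟩ := fms_ge P P2 n
    have h5 : ge P P2 n ≤ 4 * Real.log X := by linarith
    unfold av
    split_ifs
    · rw [Complex.norm_real, Real.norm_eq_abs, sq_abs]
      have h6 : (ge P P2 n - kap P P2 * lq Q n) ^ 2 ≤
          2 * ge P P2 n ^ 2 + 2 * (kap P P2 * lq Q n) ^ 2 := by
        nlinarith [sq_nonneg (ge P P2 n + kap P P2 * lq Q n)]
      have h7 : ge P P2 n ^ 2 ≤ (4 * Real.log X) ^ 2 := pow_le_pow_left₀ hg0 h5 2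
      have h8 : (kap P P2 * lq Q n) ^ 2 ≤ lq Q n ^ 2 := by
        rw [mul_pow]
        calc kap P P2 ^ 2 * lq Q n ^ 2 ≤ 1 * lq Q n ^ 2 := by
              gcongr
              exact pow_le_one₀ hκ0 hκ1
          _ = lq Q n ^ 2 := one_mul _
      nlinarith
    · rw [norm_zero]
      have h9 : 0 ≤ Real.log (X : ℝ) ^ 2 := sq_nonneg _
      have h10 : 0 ≤ lq Q n ^ 2 := sq_nonneg _
      linarith
  refine (sum_le_sum h1).trans ?_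
  simp only [sum_add_distrib, ← mul_sum, sum_const, Nat.card_Icc, Nat.add_sub_cancel,
    nsmul_eq_mul]
  push_cast
  linarith

/-- what we need for large `X` -/
theorem fms_large (y : ℕ) : ∃ X0 : ℕ, ∀ X : ℕ, X0 ≤ X →
    2 ^ 65 ≤ Real.log X ∧ (1 + 49 * Real.log (Real.log X)) ^ 2 ≤ Real.log X / 8 ∧
    8 * Real.log X ^ 197 ≤ X ∧ (Wy y : ℝ) ≤ Real.log X ∧ (y : ℝ) ≤ Real.log X := by
  have h1 : Filter.Tendsto (fun X : ℕ => Real.log (X : ℝ)) Filter.atTop Filter.atTop :=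
    Real.tendsto_log_atTop.comp tendsto_natCast_atTop_atTop
  have h3 : ∀ᶠ X : ℕ in Filter.atTop, 8 * (Real.log (X : ℝ)) ^ 197 ≤ X := by
    have h4 := (Real.isLittleO_pow_log_id_atTop (n := 197)).bound (show (0 : ℝ) < 1 / 8 by norm_num)
    have h5 := tendsto_natCast_atTop_atTop (R := ℝ) |>.eventually h4
    filter_upwards [h5, Filter.eventually_ge_atTop 1] with X hX hX1
    have hX0 : (0 : ℝ) < X := by exact_mod_cast hX1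
    rw [Real.norm_eq_abs, Real.norm_eq_abs, id, abs_of_pos hX0] at hX
    have := le_abs_self ((Real.log (X : ℝ)) ^ 197)
    linarith
  have h2 : ∀ᶠ X : ℕ in Filter.atTop,
      (1 + 49 * Real.log (Real.log X)) ^ 2 ≤ Real.log X / 8 := by
    have h4 := (Real.isLittleO_pow_log_id_atTop (n := 2)).bound
      (show (0 : ℝ) < 1 / 80000 by norm_num)
    have h5 := h1.eventually h4
    filter_upwards [h5, h1.eventually_ge_atTop 32] with X hX hX1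
    rw [Real.norm_eq_abs, Real.norm_eq_abs, id, abs_of_pos (by linarith : 0 < Real.log (X : ℝ))] at hX
    have h6 := le_abs_self ((Real.log (Real.log (X : ℝ))) ^ 2)
    nlinarith [sq_nonneg (1 - 49 * Real.log (Real.log X))]
  have h := (h1.eventually_ge_atTop (2 ^ 65)).and (h2.and (h3.and
    ((h1.eventually_ge_atTop (Wy y : ℝ)).and (h1.eventually_ge_atTop (y : ℝ)))))
  rw [Filter.eventually_atTop] at h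
  obtain ⟨X0, h⟩ := h
  exact ⟨X0, fun X hX => h X hX⟩

/-- the mean square of the sums of `av` -/
theorem fms_mean (P P2 Q X M h : ℕ) (η ℓ : ℝ) (hℓe : ℓ = Real.log X) (hX : 1 ≤ X)
    (hM : M ^ 3 ≤ X) (hκ1 : kap P P2 ≤ 1) (hℓ : 2 ^ 65 ≤ ℓ)
    (hℓ2 : (1 + 49 * Real.log ℓ) ^ 2 ≤ ℓ / 8)
    (hℓ3 : 8 * ℓ ^ 197 ≤ X) (hQ1 : 2 ^ 64 * ℓ ^ 48 ≤ Q)
    (hQ2 : (Q : ℝ) ≤ ℓ ^ 49) (hMℓ : ℓ ^ 200 ≤ M) (hh : 1 ≤ h)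
    (hhQ : 6 * h * Q ≤ M ^ 3)
    (hV : ∀ q c : ℕ, 1 ≤ q → q ≤ Q → c < q →
      ∑ x ∈ Icc 1 (2 * X + h), ‖∑ n ∈ (Ioc (x - h) x).filter (fun n => n ≤ 2 * X ∧ n % q = c),
        av P P2 Q X η n‖ ^ 2 ≤ X * (h : ℝ) ^ 2 * (ℓ ^ 200)⁻¹) :
    ∑ k ∈ Icc 1 X, ‖∑ m ∈ Icc 1 M, av P P2 Q X η (m ^ 3 + k)‖ ^ 2 ≤
      2 * (X * (M : ℝ) ^ 2 * ℓ⁻¹) := by
  have hℓ0 : 0 < ℓ := by linarith
  have hℓ1 : 1 ≤ ℓ := by linarith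
  have hX0 : (0 : ℝ) < X := by exact_mod_cast hX
  have hM0 : (0 : ℝ) < M := lt_of_lt_of_le (by positivity) hMℓ
  have hh0 : (0 : ℝ) < h := by exact_mod_cast hh
  have hQ0 : (1 : ℝ) ≤ Q := by
    refine le_trans ?_ hQ1
    have : (1 : ℝ) ≤ ℓ ^ 48 := one_le_pow₀ hℓ1
    nlinarith
  have hQ0' : 1 ≤ Q := by exact_mod_cast hQ0
  have htra := tra (av P P2 Q X η) M X Q h ((ℓ ^ 2)⁻¹) (X * (h : ℝ) ^ 2 * (ℓ ^ 200)⁻¹) hM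
    (by positivity) (inv_le_one_of_one_le₀ (one_le_pow₀ hℓ1)) (by
      have h1 : ((ℓ ^ 2)⁻¹) ^ 9 = (ℓ ^ 18)⁻¹ := by
        rw [inv_pow]
        ring
      rw [h1]
      calc (2 : ℝ) ^ 24 ≤ 2 ^ 65 := by norm_num
        _ ≤ ℓ := hℓ
        _ = (ℓ ^ 18)⁻¹ * ℓ ^ 19 := by
            field_simp
        _ ≤ (ℓ ^ 18)⁻¹ * M := by
            gcongr
            exact le_trans (pow_le_pow_right₀ hℓ1 (by norm_num)) hMℓ) (by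
      have h1 : ((ℓ ^ 2)⁻¹) ^ 24 = (ℓ ^ 48)⁻¹ := by
        rw [inv_pow]
        ring
      rw [h1, div_inv_eq_mul]
      exact hQ1) hh hhQ hV
  refine htra.trans ?_
  have hQ4 : (Q : ℝ) ^ 4 ≤ ℓ ^ 196 := by
    calc (Q : ℝ) ^ 4 ≤ (ℓ ^ 49) ^ 4 := pow_le_pow_left₀ (by linarith) hQ2 4
      _ = ℓ ^ 196 := by ring
  -- second term
  have hsec : 4 * (M : ℝ) ^ 2 * (Q : ℝ) ^ 4 * (X * (h : ℝ) ^ 2 * (ℓ ^ 200)⁻¹) / (h : ℝ) ^ 2 ≤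
      X * (M : ℝ) ^ 2 * ℓ⁻¹ := by
    have e1 : 4 * (M : ℝ) ^ 2 * (Q : ℝ) ^ 4 * (X * (h : ℝ) ^ 2 * (ℓ ^ 200)⁻¹) / (h : ℝ) ^ 2 =
        4 * (M : ℝ) ^ 2 * X * ((Q : ℝ) ^ 4 * (ℓ ^ 200)⁻¹) := by
      field_simp
    rw [e1]
    have h1 : (Q : ℝ) ^ 4 * (ℓ ^ 200)⁻¹ ≤ (ℓ ^ 4)⁻¹ := by
      calc (Q : ℝ) ^ 4 * (ℓ ^ 200)⁻¹ ≤ ℓ ^ 196 * (ℓ ^ 200)⁻¹ := by gcongr
        _ = (ℓ ^ 4)⁻¹ := by
            field_simp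
    have h2 : 4 * (ℓ ^ 4)⁻¹ ≤ ℓ⁻¹ := by
      rw [← div_eq_mul_inv, ← one_div, div_le_div_iff₀ (by positivity) hℓ0]
      have h3 : (4 : ℝ) ≤ ℓ ^ 3 := by
        calc (4 : ℝ) ≤ ℓ := by linarith
          _ = ℓ ^ 1 := (pow_one ℓ).symm
          _ ≤ ℓ ^ 3 := pow_le_pow_right₀ hℓ1 (by norm_num)
      calc 4 * ℓ ≤ ℓ ^ 3 * ℓ := by gcongr
        _ = 1 * ℓ ^ 4 := by ring
    calc 4 * (M : ℝ) ^ 2 * X * ((Q : ℝ) ^ 4 * (ℓ ^ 200)⁻¹)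
        ≤ 4 * (M : ℝ) ^ 2 * X * (ℓ ^ 4)⁻¹ := by gcongr
      _ = X * (M : ℝ) ^ 2 * (4 * (ℓ ^ 4)⁻¹) := by ring
      _ ≤ X * (M : ℝ) ^ 2 * ℓ⁻¹ := by gcongr
  -- first term
  have hav := fms_av P P2 Q X η hκ1 hX (by rw [← hℓe]; exact hℓ1)
  rw [← hℓe] at hav
  have hl2 := l2m Q (2 * X) hQ0'
  have hlogQ : Real.log Q ≤ 49 * Real.log ℓ := by
    have h1 : Real.log Q ≤ Real.log (ℓ ^ 49) := Real.log_le_log (by linarith) hQ2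
    rw [Real.log_pow] at h1
    push_cast at h1
    exact h1
  have hlogQ0 : 0 ≤ Real.log Q := Real.log_nonneg hQ0
  have hl3 : ∑ n ∈ Icc 1 (2 * X), lq Q n ^ 2 ≤ X * ℓ := by
    refine hl2.trans ?_
    push_cast
    have h1 : (1 + Real.log Q) ^ 2 ≤ ℓ / 8 := by
      refine le_trans (pow_le_pow_left₀ (by linarith) (by linarith) 2) hℓ2
    have h2 : 4 * (Q : ℝ) ^ 4 ≤ X * ℓ / 2 := by
      have h3 : ℓ ^ 196 ≤ ℓ ^ 197 := pow_le_pow_right₀ hℓ1 (by norm_num)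
      have h4 : (X : ℝ) * 1 ≤ X * ℓ := by gcongr
      linarith
    have h5 : 2 * (2 * (X : ℝ)) * (1 + Real.log Q) ^ 2 ≤ 2 * (2 * X) * (ℓ / 8) := by gcongr
    linarith
  have hfirst : ((ℓ ^ 2)⁻¹) ^ 2 * (M : ℝ) ^ 2 * ∑ n ∈ Icc 1 (2 * X), ‖av P P2 Q X η n‖ ^ 2 ≤
      X * (M : ℝ) ^ 2 * ℓ⁻¹ := by
    have h1 : ∑ n ∈ Icc 1 (2 * X), ‖av P P2 Q X η n‖ ^ 2 ≤ 66 * X * ℓ ^ 2 := by
      refine hav.trans ?_
      have h2 : (X : ℝ) * ℓ ≤ X * ℓ ^ 2 := by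
        have : ℓ ≤ ℓ ^ 2 := by nlinarith
        gcongr
      linarith
    have h2 : 66 * (ℓ ^ 2)⁻¹ ≤ ℓ⁻¹ := by
      rw [← div_eq_mul_inv, ← one_div, div_le_div_iff₀ (by positivity) hℓ0]
      nlinarith
    calc ((ℓ ^ 2)⁻¹) ^ 2 * (M : ℝ) ^ 2 * ∑ n ∈ Icc 1 (2 * X), ‖av P P2 Q X η n‖ ^ 2
        ≤ ((ℓ ^ 2)⁻¹) ^ 2 * (M : ℝ) ^ 2 * (66 * X * ℓ ^ 2) := by gcongr
      _ = X * (M : ℝ) ^ 2 * (66 * (ℓ ^ 2)⁻¹) := by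
          field_simp
      _ ≤ X * (M : ℝ) ^ 2 * ℓ⁻¹ := by gcongr
  linarith

/-- the final estimate from the mean square -/
theorem fms_fin (P P2 Q X M y : ℕ) (η ℓ : ℝ) (hy : 1 ≤ y) (hX : 1 ≤ X) (hM : M ^ 3 ≤ X)
    (hκ1 : kap P P2 ≤ 1) (hℓ : 2 ^ 65 ≤ ℓ)
    (hℓ3 : 8 * ℓ ^ 197 ≤ X) (hQ1 : 1 ≤ Q) (hW : Wy y ≤ Q) (hyℓ : (y : ℝ) ≤ ℓ)
    (hQ2 : (Q : ℝ) ≤ ℓ ^ 49) (hMℓ : ℓ ^ 200 ≤ M)
    (hms : ∑ k ∈ Icc 1 X, ‖∑ m ∈ Icc 1 M, av P P2 Q X η (m ^ 3 + k)‖ ^ 2 ≤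
      2 * (X * (M : ℝ) ^ 2 * ℓ⁻¹)) :
    ∑ k ∈ Ioc ⌊η * X⌋₊ X,
      (∑ m ∈ Icc 1 M, ge P P2 (m ^ 3 + k) - kap P P2 * HL.S y k * M) ^ 2 ≤
      200 * (y : ℝ) ^ (-(1 : ℝ) / 2) * X * (M : ℝ) ^ 2 := by
  have hℓ0 : 0 < ℓ := by linarith
  have hℓ1 : 1 ≤ ℓ := by linarith
  have hX0 : (0 : ℝ) < X := by exact_mod_cast hX
  have hM0 : (0 : ℝ) < M := lt_of_lt_of_le (by positivity) hMℓ
  have hy1 : (1 : ℝ) ≤ y := by exact_mod_cast hy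
  have hκ0 := fms_kap P P2
  have hQ4 : (Q : ℝ) ^ 4 ≤ ℓ ^ 196 := by
    calc (Q : ℝ) ^ 4 ≤ (ℓ ^ 49) ^ 4 := pow_le_pow_left₀ (Nat.cast_nonneg _) hQ2 4
      _ = ℓ ^ 196 := by ring
  have hpt : ∀ k ∈ Ioc ⌊η * X⌋₊ X,
      (∑ m ∈ Icc 1 M, ge P P2 (m ^ 3 + k) - kap P P2 * HL.S y k * M) ^ 2 ≤
      3 * ‖∑ m ∈ Icc 1 M, av P P2 Q X η (m ^ 3 + k)‖ ^ 2 + 3 * (2 * (Q : ℝ) ^ 2) ^ 2 +
        3 * (M : ℝ) ^ 2 *
          (∑ r ∈ (Icc 1 Q).filter (fun r => ¬ r ∣ Wy y), ar r k) ^ 2 := by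
    intro k hk
    obtain ⟨hk1, hk2⟩ := mem_Ioc.1 hk
    have hav : ∑ m ∈ Icc 1 M, av P P2 Q X η (m ^ 3 + k) =
        ((∑ m ∈ Icc 1 M, ge P P2 (m ^ 3 + k) -
          kap P P2 * ∑ m ∈ Icc 1 M, lq Q (m ^ 3 + k) : ℝ) : ℂ) := by
      rw [mul_sum, ← sum_sub_distrib, Complex.ofReal_sum]
      refine sum_congr rfl fun m hm => ?_
      have hmM : m ^ 3 ≤ M ^ 3 := Nat.pow_le_pow_left (mem_Icc.1 hm).2 3
      unfold av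
      rw [if_pos ⟨by omega, by omega⟩]
    rw [hav, Complex.norm_real, Real.norm_eq_abs, sq_abs]
    refine fms_point _ _ _ _ _ _ _ hκ0 hκ1 ?_
    rw [← fms_sum y Q k hW]
    exact mt Q M k
  refine (sum_le_sum hpt).trans ?_
  have hsub : Ioc ⌊η * X⌋₊ X ⊆ Icc 1 X := fun k hk => by
    obtain ⟨hk1, hk2⟩ := mem_Ioc.1 hk
    exact mem_Icc.2 ⟨by omega, hk2⟩
  refine (sum_le_sum_of_subset_of_nonneg hsub fun k _ _ => by positivity).trans ?_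
  simp only [sum_add_distrib, ← mul_sum, sum_const, Nat.card_Icc, nsmul_eq_mul,
    Nat.add_sub_cancel]
  have horth := orth y Q X hy hQ1
  have hyp : (y : ℝ) ^ (-(1 : ℝ) / 2) = (√(y : ℝ))⁻¹ := by
    rw [Real.sqrt_eq_rpow, neg_div, Real.rpow_neg (by linarith)]
  rw [hyp] at horth ⊢
  have hs0 : 0 < √(y : ℝ) := Real.sqrt_pos.2 (by linarith)
  have hsℓ : ℓ⁻¹ ≤ (√(y : ℝ))⁻¹ := by
    refine inv_anti₀ hs0 ?_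
    have h1 : √(y : ℝ) ≤ y := by
      rw [Real.sqrt_le_left (by linarith)]
      nlinarith
    linarith
  have h2 : (X : ℝ) * (3 * (2 * (Q : ℝ) ^ 2) ^ 2) ≤ 12 * (X * (M : ℝ) ^ 2 * ℓ⁻¹) := by
    have h3 : (Q : ℝ) ^ 4 ≤ (M : ℝ) ^ 2 * ℓ⁻¹ := by
      rw [← div_eq_mul_inv, le_div_iff₀ hℓ0]
      calc (Q : ℝ) ^ 4 * ℓ ≤ ℓ ^ 196 * ℓ := by gcongr
        _ = ℓ ^ 197 := by ring
        _ ≤ ℓ ^ 400 := pow_le_pow_right₀ hℓ1 (by norm_num)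
        _ = (ℓ ^ 200) ^ 2 := by ring
        _ ≤ (M : ℝ) ^ 2 := by gcongr
    calc (X : ℝ) * (3 * (2 * (Q : ℝ) ^ 2) ^ 2) = 12 * (X * (Q : ℝ) ^ 4) := by ring
      _ ≤ 12 * (X * ((M : ℝ) ^ 2 * ℓ⁻¹)) := by gcongr
      _ = 12 * (X * (M : ℝ) ^ 2 * ℓ⁻¹) := by ring
  have h4 : 3 * (M : ℝ) ^ 2 * ∑ k ∈ Icc 1 X,
      (∑ r ∈ (Icc 1 Q).filter (fun r => ¬ r ∣ Wy y), ar r k) ^ 2 ≤
      150 * (X * (M : ℝ) ^ 2 * (√(y : ℝ))⁻¹) + 6 * (X * (M : ℝ) ^ 2 * ℓ⁻¹) := by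
    have h5 : (Q : ℝ) ^ 4 ≤ X * ℓ⁻¹ := by
      rw [← div_eq_mul_inv, le_div_iff₀ hℓ0]
      calc (Q : ℝ) ^ 4 * ℓ ≤ ℓ ^ 196 * ℓ := by gcongr
        _ = ℓ ^ 197 := by ring
        _ ≤ X := by
            have : 0 ≤ ℓ ^ 197 := by positivity
            linarith
    calc 3 * (M : ℝ) ^ 2 * ∑ k ∈ Icc 1 X,
          (∑ r ∈ (Icc 1 Q).filter (fun r => ¬ r ∣ Wy y), ar r k) ^ 2
        ≤ 3 * (M : ℝ) ^ 2 * (50 * X * (√(y : ℝ))⁻¹ + 2 * (Q : ℝ) ^ 4) := by gcongr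
      _ ≤ 3 * (M : ℝ) ^ 2 * (50 * X * (√(y : ℝ))⁻¹ + 2 * (X * ℓ⁻¹)) := by gcongr
      _ = 150 * (X * (M : ℝ) ^ 2 * (√(y : ℝ))⁻¹) + 6 * (X * (M : ℝ) ^ 2 * ℓ⁻¹) := by ring
  have h6 : X * (M : ℝ) ^ 2 * ℓ⁻¹ ≤ X * (M : ℝ) ^ 2 * (√(y : ℝ))⁻¹ := by gcongr
  have h7 : 0 ≤ X * (M : ℝ) ^ 2 * (√(y : ℝ))⁻¹ := by positivity
  have h8 : 200 * (√(y : ℝ))⁻¹ * X * (M : ℝ) ^ 2 = 200 * (X * (M : ℝ) ^ 2 * (√(y : ℝ))⁻¹) := by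
    ring
  rw [h8]
  linarith

theorem fms : ∃ (A0 : ℕ) (K : ℝ), 1 ≤ A0 ∧ 0 ≤ K ∧ ∀ A : ℕ, A0 ≤ A → ∃ C : ℝ, 0 < C ∧
    ∀ (y : ℕ) (η : ℝ), 1 ≤ y → 0 < η → η ≤ 1 → ∃ X0 : ℕ, ∀ X : ℕ, X0 ≤ X → ∀ M : ℕ,
    (Real.log X) ^ C ≤ M → M ^ 3 ≤ X →
    ∑ k ∈ Ioc ⌊η * X⌋₊ X,
      (∑ m ∈ Icc 1 M, ge ⌊(Real.log X) ^ A⌋₊ ⌊(Real.log X) ^ (2 * A)⌋₊ (m ^ 3 + k) -
        kap ⌊(Real.log X) ^ A⌋₊ ⌊(Real.log X) ^ (2 * A)⌋₊ * HL.S y k * M) ^ 2 ≤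
      K * (y : ℝ) ^ (-(1 : ℝ) / 2) * X * (M : ℝ) ^ 2 := by
  obtain ⟨A2, hA2, hfa⟩ := fa 49 200 (by norm_num) (by norm_num)
  refine ⟨⌈A2⌉₊ + 1, 200, by omega, by norm_num, fun A hA => ?_⟩
  have hAr : A2 + 1 ≤ A := by
    have h1 : ((⌈A2⌉₊ + 1 : ℕ) : ℝ) ≤ A := by exact_mod_cast hA
    push_cast at h1
    have := Nat.le_ceil A2
    linarith
  have hA0 : 1 ≤ A := by omega
  obtain ⟨C1, A1, hC1, hA1, hfa⟩ := hfa ((2 * A : ℕ) : ℝ) (by push_cast; linarith)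
  refine ⟨C1 + (A1 + 1) + 200, by positivity, fun y η hy hη hη1 => ?_⟩
  obtain ⟨X1, hX10, hfa⟩ := hfa η hη hη1
  obtain ⟨X2, hX2⟩ := mert A hA0 (1 / 10) (by norm_num)
  obtain ⟨X3, hX3⟩ := fms_large y
  refine ⟨X1 + X2 + X3, fun X hX M hMC hM => ?_⟩
  have hfa := hfa X (by omega)
  have hmert := hX2 X (by omega)
  obtain ⟨hℓ, hℓ2, hℓ3, hWℓ, hyℓ⟩ := hX3 X (by omega)
  have hX1' : 1 ≤ X := by omega
  generalize hℓe : Real.log (X : ℝ) = ℓ at hfa hmert hℓ hℓ2 hℓ3 hWℓ hyℓ hMC ⊢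
  have hℓ0 : 0 < ℓ := by linarith
  have hℓ1 : 1 ≤ ℓ := by linarith
  have hX0 : (0 : ℝ) < X := by exact_mod_cast hX1'
  set P := ⌊ℓ ^ A⌋₊ with hP
  set P2 := ⌊ℓ ^ (2 * A)⌋₊ with hP2
  have hκ1 : kap P P2 ≤ 1 := by
    have h1 := (abs_le.1 hmert).2
    have h2 := Real.log_two_lt_d9
    linarith
  have hPA : ℓ ^ A2 ≤ P := by
    have h1 : ℓ ^ A - 1 < P := Nat.sub_one_lt_floor _
    have h2 : ℓ ^ (A2 + 1) ≤ ℓ ^ A := by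
      rw [← Real.rpow_natCast ℓ A]
      exact Real.rpow_le_rpow_of_exponent_le hℓ1 hAr
    rw [Real.rpow_add hℓ0, Real.rpow_one] at h2
    have h3 : 1 ≤ ℓ ^ A2 := Real.one_le_rpow hℓ1 hA2.le
    nlinarith
  have hPP : P ≤ P2 := Nat.floor_mono (pow_le_pow_right₀ hℓ1 (by omega))
  have hP2A : (P2 : ℝ) ≤ ℓ ^ ((2 * A : ℕ) : ℝ) := by
    rw [Real.rpow_natCast]
    exact Nat.floor_le (by positivity)
  set Q := ⌈2 ^ 64 * ℓ ^ 48⌉₊ with hQ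
  have hQ1 : 2 ^ 64 * ℓ ^ 48 ≤ Q := Nat.le_ceil _
  have hQ2 : (Q : ℝ) ≤ ℓ ^ 49 := by
    have h1 : (Q : ℝ) < 2 ^ 64 * ℓ ^ 48 + 1 := Nat.ceil_lt_add_one (by positivity)
    have h2 : (1 : ℝ) ≤ ℓ ^ 48 := one_le_pow₀ hℓ1
    have h3 : ℓ ^ 49 = ℓ * ℓ ^ 48 := by ring
    have h4 : (2 : ℝ) ^ 65 * ℓ ^ 48 ≤ ℓ * ℓ ^ 48 := by gcongr
    rw [h3]
    nlinarith
  have hQℓ : ℓ ≤ Q := by
    refine le_trans ?_ hQ1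
    have h1 : ℓ ≤ ℓ ^ 48 := by
      calc ℓ = ℓ ^ 1 := (pow_one ℓ).symm
        _ ≤ ℓ ^ 48 := pow_le_pow_right₀ hℓ1 (by norm_num)
    have h2 : (0 : ℝ) ≤ ℓ ^ 48 := by positivity
    nlinarith
  have hQ0 : (1 : ℝ) ≤ Q := by linarith
  have hQ0' : 1 ≤ Q := by exact_mod_cast hQ0
  have hWQ : Wy y ≤ Q := by
    have : (Wy y : ℝ) ≤ Q := by linarith
    exact_mod_cast this
  -- the size of `M`
  have hMs : ℓ ^ C1 * ℓ ^ (A1 + 1) * ℓ ^ 200 ≤ M := by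
    rw [Real.rpow_add hℓ0, Real.rpow_add hℓ0] at hMC
    have : ℓ ^ (200 : ℝ) = ℓ ^ 200 := by
      rw [← Real.rpow_natCast]
      norm_num
    rw [this] at hMC
    exact hMC
  have hc1 : 1 ≤ ℓ ^ C1 := Real.one_le_rpow hℓ1 hC1.le
  have ha1 : 1 ≤ ℓ ^ (A1 + 1) := Real.one_le_rpow hℓ1 (by linarith)
  have hMℓ : ℓ ^ 200 ≤ M := by
    refine le_trans ?_ hMs
    have h1 : (1 : ℝ) ≤ ℓ ^ C1 * ℓ ^ (A1 + 1) := one_le_mul_of_one_le_of_one_le hc1 ha1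
    have h2 : 0 ≤ ℓ ^ 200 := by positivity
    nlinarith
  have hM1 : (1 : ℝ) ≤ M := le_trans (one_le_pow₀ hℓ1) hMℓ
  -- the window
  set h := ⌊(M : ℝ) ^ 3 / (6 * Q * ℓ ^ (A1 + 1))⌋₊ with hh
  have hden : 0 < 6 * (Q : ℝ) * ℓ ^ (A1 + 1) := by positivity
  have hhle : (h : ℝ) ≤ (M : ℝ) ^ 3 / (6 * Q * ℓ ^ (A1 + 1)) := Nat.floor_le (by positivity)
  have hhC : ℓ ^ C1 ≤ h := by
    have h1 : (M : ℝ) ^ 3 / (6 * Q * ℓ ^ (A1 + 1)) - 1 < h := Nat.sub_one_lt_floor _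
    have h2 : 2 * ℓ ^ C1 ≤ (M : ℝ) ^ 3 / (6 * Q * ℓ ^ (A1 + 1)) := by
      rw [le_div_iff₀ hden]
      calc 2 * ℓ ^ C1 * (6 * Q * ℓ ^ (A1 + 1)) = ℓ ^ C1 * ℓ ^ (A1 + 1) * (12 * Q) := by ring
        _ ≤ ℓ ^ C1 * ℓ ^ (A1 + 1) * ℓ ^ 200 := by
            gcongr
            calc 12 * (Q : ℝ) ≤ ℓ * ℓ ^ 49 := by
                  gcongr
                  linarith
              _ = ℓ ^ 50 := by ring
              _ ≤ ℓ ^ 200 := pow_le_pow_right₀ hℓ1 (by norm_num)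
        _ ≤ M := hMs
        _ = (M : ℝ) ^ 1 := (pow_one _).symm
        _ ≤ (M : ℝ) ^ 3 := pow_le_pow_right₀ hM1 (by norm_num)
    linarith
  have hh1 : 1 ≤ h := by
    have : (1 : ℝ) ≤ h := by linarith
    exact_mod_cast this
  have hhQ : 6 * h * Q ≤ M ^ 3 := by
    have h1 : (h : ℝ) * (6 * Q * ℓ ^ (A1 + 1)) ≤ (M : ℝ) ^ 3 := (le_div_iff₀ hden).1 hhle
    have h2 : 6 * (h : ℝ) * Q ≤ (h : ℝ) * (6 * Q * ℓ ^ (A1 + 1)) := by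
      have h3 : 6 * (h : ℝ) * Q * 1 ≤ 6 * (h : ℝ) * Q * ℓ ^ (A1 + 1) := by gcongr
      calc 6 * (h : ℝ) * Q = 6 * (h : ℝ) * Q * 1 := (mul_one _).symm
        _ ≤ 6 * (h : ℝ) * Q * ℓ ^ (A1 + 1) := h3
        _ = (h : ℝ) * (6 * Q * ℓ ^ (A1 + 1)) := by ring
    have h4 : 6 * (h : ℝ) * Q ≤ (M : ℝ) ^ 3 := by linarith
    exact_mod_cast h4
  have hhX : (h : ℝ) ≤ X * ℓ ^ (-A1) := by
    have hMX : (M : ℝ) ^ 3 ≤ X := by exact_mod_cast hM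
    have h1 : (M : ℝ) ^ 3 / (6 * Q * ℓ ^ (A1 + 1)) ≤ X / ℓ ^ (A1 + 1) := by
      refine div_le_div₀ hX0.le hMX (by positivity) ?_
      have h2 : 0 < ℓ ^ (A1 + 1) := by positivity
      nlinarith
    have h2 : X / ℓ ^ (A1 + 1) ≤ X * ℓ ^ (-A1) := by
      rw [Real.rpow_neg hℓ0.le, ← div_eq_mul_inv]
      refine div_le_div_of_nonneg_left hX0.le (by positivity) ?_
      exact Real.rpow_le_rpow_of_exponent_le hℓ1 (by linarith)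
    linarith
  have hpow : ℓ ^ (-(200 : ℝ)) = (ℓ ^ 200)⁻¹ := by
    rw [Real.rpow_neg hℓ0.le, ← Real.rpow_natCast]
    norm_num
  have hQ49 : (Q : ℝ) ≤ ℓ ^ (49 : ℝ) := by
    have : ℓ ^ (49 : ℝ) = ℓ ^ 49 := by
      rw [← Real.rpow_natCast]
      norm_num
    rw [this]
    exact hQ2
  have hms := fms_mean P P2 Q X M h η ℓ hℓe.symm hX1' hM hκ1 hℓ hℓ2 hℓ3 hQ1 hQ2 hMℓ hh1 hhQ
    (fun q c hq hqQ hc => by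
      have h1 := hfa Q q c hQ49 hq hqQ hc P P2 h hPA hPP hP2A hhC hhX
      rw [hpow] at h1
      exact h1)
  exact fms_fin P P2 Q X M y η ℓ hy hX1' hM hκ1 hℓ hℓ3 hQ0' hWQ hyℓ hQ2 hMℓ hms

end Pool.Agent.H43.TP
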