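import Pool.Agent.H43.TP.Sa
import Pool.Agent.H43.TP.Sb

/-!
# [H43 TP SP] Sparse sets: all boxes

PROOF. `ε1` from `sb`; `A0` = the maximum of the two `A0` (and `X0`). If some `i` has
`exp((log X)^0.98) <= 2^(e_i) <= X^(3/8)`: `sa` (`X^ε1 <= X^(1/100)`). Otherwise every `2^(e_i)` is `< exp((log X)^0.98)` or
`> X^(3/8)`; not all are `< exp((log X)^0.98)` (the product would be `<= exp(6 (log X)^0.98) < X^(99/100)` for `X`
large), so some `2^(e_i) > X^(3/8) > 8 X^(1/3)` (`X > 8^24`), hence `i >= 3`: `sb`.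
-/

namespace Pool.Agent.H43.TP

open Finset

theorem sp : ∃ ε1 : ℝ, 0 < ε1 ∧ ε1 ≤ 1 / 100 ∧ ∀ B A : ℝ, 0 < B → 0 < A →
    ∃ A0 X0 : ℝ, 0 < A0 ∧ 10 ≤ X0 ∧
    ∀ X : ℝ, X0 ≤ X → ∀ (q : ℕ) [NeZero q], (q : ℝ) ≤ (Real.log X) ^ B →
    ∀ (χ : DirichletCharacter ℂ q) (e : Fin 6 → ℕ) (E : Set ℝ),
    X ^ ((99 : ℝ) / 100) ≤ 2 ^ (∑ i, e i) → (2 : ℝ) ^ (∑ i, e i) ≤ 2 ^ 9 * X →
    (∀ i : Fin 6, (i : ℕ) < 3 → (2 : ℝ) ^ (e i) ≤ 8 * X ^ ((1 : ℝ) / 3)) →
    MeasurableSet E → (∀ t ∈ E, (Real.log X) ^ A0 ≤ |t| ∧ |t| ≤ X) →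
    MeasureTheory.volume E ≤ ENNReal.ofReal (X ^ ε1) →
    ∫ t in E, ‖SI.bp χ e t‖ ^ 2 ≤ (Real.log X) ^ (-A) := by
  obtain ⟨ε1, h1, h2, hsb⟩ := sb
  refine ⟨ε1, h1, h2, fun B A hB hA => ?_⟩
  obtain ⟨A1, X1, hA1, hX1, ha⟩ := sa B A hB hA
  obtain ⟨A2, X2, hA2, hX2, hb⟩ := hsb B A hB hA
  refine ⟨max A1 A2, max (max X1 X2) (Real.exp (7 ^ 50)), lt_max_of_lt_left hA1,
    le_max_of_le_left (le_max_of_le_left hX1), ?_⟩
  intro X hX q _ hq χ e E hlow hup hsm hE hEt hvol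
  have hXX1 : X1 ≤ X := (le_max_left _ _).trans ((le_max_left _ _).trans hX)
  have hXX2 : X2 ≤ X := (le_max_right _ _).trans ((le_max_left _ _).trans hX)
  have hXe : Real.exp (7 ^ 50) ≤ X := (le_max_right _ _).trans hX
  have hX0 : 0 < X := lt_of_lt_of_le (Real.exp_pos _) hXe
  have hX1' : 1 ≤ X := by linarith
  have hl : (7 : ℝ) ^ 50 ≤ Real.log X := by
    have := Real.log_le_log (Real.exp_pos _) hXe
    rwa [Real.log_exp] at this
  have hl100 : (100 : ℝ) ≤ Real.log X := le_trans (by norm_num) hl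
  have hl1 : (1 : ℝ) ≤ Real.log X := by linarith
  have hl0 : (0 : ℝ) < Real.log X := by linarith
  have hmax : ∀ A' : ℝ, A' ≤ max A1 A2 → ∀ t ∈ E, (Real.log X) ^ A' ≤ |t| ∧ |t| ≤ X := by
    intro A' hA' t ht
    exact ⟨(Real.rpow_le_rpow_of_exponent_le hl1 hA').trans (hEt t ht).1, (hEt t ht).2⟩
  by_cases hcase : ∃ i, Real.exp ((Real.log X) ^ (0.98 : ℝ)) ≤ 2 ^ (e i) ∧
      (2 : ℝ) ^ (e i) ≤ X ^ ((3 : ℝ) / 8)
  · refine ha X hXX1 q hq χ e E hlow hup hcase hE (hmax A1 (le_max_left _ _)) (hvol.trans ?_)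
    exact ENNReal.ofReal_le_ofReal (Real.rpow_le_rpow_of_exponent_le hX1' h2)
  · push Not at hcase
    refine hb X hXX2 q hq χ e E hup ?_ hE (hmax A2 (le_max_right _ _)) hvol
    have hex : ∃ i, X ^ ((3 : ℝ) / 8) < (2 : ℝ) ^ (e i) := by
      by_contra hno
      push Not at hno
      have hlt : ∀ i, (2 : ℝ) ^ (e i) ≤ Real.exp ((Real.log X) ^ (0.98 : ℝ)) := by
        intro i
        by_contra h3
        push Not at h3
        exact absurd (hcase i h3.le) (not_lt.2 (hno i))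
      have h3 : (2 : ℝ) ^ (∑ i, e i) ≤ Real.exp (6 * (Real.log X) ^ (0.98 : ℝ)) := by
        rw [← prod_pow_eq_pow_sum]
        calc ∏ i, (2 : ℝ) ^ (e i) ≤ ∏ _i : Fin 6, Real.exp ((Real.log X) ^ (0.98 : ℝ)) :=
              prod_le_prod (fun _ _ => by positivity) fun i _ => hlt i
          _ = Real.exp (6 * (Real.log X) ^ (0.98 : ℝ)) := by
              rw [prod_const, card_univ, Fintype.card_fin, ← Real.exp_nat_mul]
              norm_num
      have h4 : X ^ ((99 : ℝ) / 100) = Real.exp (Real.log X * (99 / 100)) :=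
        Real.rpow_def_of_pos hX0 _
      rw [h4] at hlow
      have h5 := Real.exp_le_exp.1 (hlow.trans h3)
      have h6 : (7 : ℝ) ≤ (Real.log X) ^ (0.02 : ℝ) := by
        have h7 : ((7 : ℝ) ^ 50) ^ (0.02 : ℝ) = 7 := by
          rw [← Real.rpow_natCast, ← Real.rpow_mul (by norm_num)]
          norm_num
        rw [← h7]
        exact Real.rpow_le_rpow (by positivity) hl (by norm_num)
      have h7 : Real.log X = (Real.log X) ^ (0.98 : ℝ) * (Real.log X) ^ (0.02 : ℝ) := by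
        rw [← Real.rpow_add hl0]
        norm_num
      have h8 : 0 < (Real.log X) ^ (0.98 : ℝ) := Real.rpow_pos_of_pos hl0 _
      have h9 : (Real.log X) ^ (0.98 : ℝ) * 7 ≤ Real.log X := by
        calc (Real.log X) ^ (0.98 : ℝ) * 7 ≤
              (Real.log X) ^ (0.98 : ℝ) * (Real.log X) ^ (0.02 : ℝ) :=
            mul_le_mul_of_nonneg_left h6 h8.le
          _ = Real.log X := h7.symm
      linarith
    obtain ⟨i, hi⟩ := hex
    refine ⟨i, ?_, hi.le⟩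
    by_contra h3
    have h4 := hsm i (by omega)
    have h5 : X ^ ((3 : ℝ) / 8) = X ^ ((1 : ℝ) / 3) * X ^ ((1 : ℝ) / 24) := by
      rw [← Real.rpow_add hX0]
      norm_num
    have h6 : 0 < X ^ ((1 : ℝ) / 3) := Real.rpow_pos_of_pos hX0 _
    have h7 : (8 : ℝ) ≤ X ^ ((1 : ℝ) / 24) := by
      rw [Real.rpow_def_of_pos hX0]
      have h8 : (3 : ℝ) ≤ Real.log X * (1 / 24) := by linarith
      have h9 : (8 : ℝ) ≤ Real.exp 3 := by
        have h10 := Real.add_one_le_exp (1 : ℝ)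
        have h11 : Real.exp 3 = Real.exp 1 ^ 3 := by
          rw [← Real.exp_nat_mul]
          norm_num
        rw [h11]
        calc (8 : ℝ) = 2 ^ 3 := by norm_num
          _ ≤ Real.exp 1 ^ 3 := pow_le_pow_left₀ (by norm_num) (by linarith) 3
      exact h9.trans (Real.exp_le_exp.2 h8)
    have h8 : 8 * X ^ ((1 : ℝ) / 3) ≤ X ^ ((3 : ℝ) / 8) := by
      rw [h5, mul_comm]
      exact mul_le_mul_of_nonneg_left h7 h6.le
    linarith

end Pool.Agent.H43.TP
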