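import Pool.Agent.H43.SI.Mvp
import Pool.Agent.H43.SI.Freq
import Pool.Agent.H43.TP.Bset
import Pool.Agent.H43.TP.Sp

/-!
# [H43 TP FRM] The middle frequencies

PROOF. `ℓ = log X`, `ε1` from `sp`, `α`, `A2'` from `bset ε1`; `A0` from `sp` with `(B, A+1)`; `C, Bm` from `SI.mvp`;
`A2 = max A2' ((A + Bm + 3)/(2α))`. Let `T1 = X ℓ^(-A3-2)`, `W = {t : ℓ^A0 <= |t| <= T1}`. `‖pp χ D D' t‖ <= 1`
(`Σ_{D<n<=2D} 1/n <= 1`). `E = {t ∈ W : D^(-α) < ‖pp‖}` (measurable: `pp` is continuous), `vol E <= X^ε1` by `bset`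
(`T1 <= X`, `D <= ℓ^A3 <= X^(ε1/8)` for `X` large), so by `sp` `∫_E ‖pp bp‖^2 <= ∫_E ‖bp‖^2 <= ℓ^(-A-1)` (`2^S >= X/(2D) >= X^(99/100)`,
`2^S <= D 2^S <= 2^9 X`). On `W \ E`: `‖pp‖^2 <= D^(-2α) <= ℓ^(-2αA2) <= ℓ^(-A-Bm-3)`, and by `SI.mvp` (`s = univ`, `T = T1`)
`∫_{-T1}^{T1} ‖bp‖^2 <= C (1+S)^Bm (T1/2^S + 1) <= 2C (3ℓ)^Bm` as `T1/2^S <= 2D T1/X <= 2 ℓ^(-2) <= 1`. Total
`<= ℓ^(-A-1) + 2C 3^Bm ℓ^(-A-3) <= ℓ^(-A)` for `X` large.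
-/

namespace Pool.Agent.H43.TP

open Finset

private theorem frm_pp_le {q : ℕ} (χ : DirichletCharacter ℂ q) {D D' : ℕ} (hD : 1 ≤ D)
    (hD' : D' ≤ 2 * D) (t : ℝ) : ‖pp χ D D' t‖ ≤ 1 := by
  unfold pp
  have hDpos : (0 : ℝ) < D := by exact_mod_cast hD
  have h1 : ∀ p ∈ (Ioc D D').filter Nat.Prime,
      ‖χ p * (p : ℂ) ^ (-(1 + (t : ℂ) * Complex.I))‖ ≤ 1 / (D : ℝ) := by
    intro p hp
    rw [mem_filter, mem_Ioc] at hp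
    have hpD : (D : ℝ) < p := by exact_mod_cast hp.1.1
    have hppos : (0 : ℝ) < p := by linarith
    have h2 : ‖(p : ℂ) ^ (-(1 + (t : ℂ) * Complex.I))‖ = (p : ℝ)⁻¹ := by
      have : (p : ℂ) = ((p : ℝ) : ℂ) := by push_cast; rfl
      rw [this, Complex.norm_cpow_eq_rpow_re_of_pos hppos]
      simp [Real.rpow_neg_one]
    rw [norm_mul, h2]
    have h3 := χ.norm_le_one (p : ZMod q)
    calc ‖χ (p : ZMod q)‖ * (p : ℝ)⁻¹ ≤ 1 * (p : ℝ)⁻¹ := by gcongr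
      _ ≤ 1 / (D : ℝ) := by
          rw [one_mul, one_div]
          exact inv_anti₀ hDpos hpD.le
  calc _ ≤ ∑ p ∈ (Ioc D D').filter Nat.Prime,
          ‖χ p * (p : ℂ) ^ (-(1 + (t : ℂ) * Complex.I))‖ := norm_sum_le _ _
    _ ≤ ∑ p ∈ (Ioc D D').filter Nat.Prime, 1 / (D : ℝ) := Finset.sum_le_sum h1
    _ = ((Ioc D D').filter Nat.Prime).card * (1 / (D : ℝ)) := by
        rw [Finset.sum_const, nsmul_eq_mul]
    _ ≤ D * (1 / (D : ℝ)) := by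
        have h2 : ((Ioc D D').filter Nat.Prime).card ≤ D :=
          (Finset.card_filter_le _ _).trans (by rw [Nat.card_Ioc]; omega)
        have h3 : (((Ioc D D').filter Nat.Prime).card : ℝ) ≤ D := by exact_mod_cast h2
        gcongr
    _ = 1 := by field_simp

private theorem frm_pp_cont {q : ℕ} (χ : DirichletCharacter ℂ q) (D D' : ℕ) :
    Continuous (pp χ D D') := by
  unfold pp
  apply continuous_finsetSum
  intro p hp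
  rw [mem_filter] at hp
  apply Continuous.mul continuous_const
  apply Continuous.const_cpow (by fun_prop)
  left
  have := hp.2.ne_zero
  exact_mod_cast this

private theorem frm_abs (P b : ℝ → ℂ) (hP : Continuous P) (hb : Continuous b)
    (hP1 : ∀ t, ‖P t‖ ≤ 1) (T0 T1 κ M1 M2 : ℝ) (hT1 : 0 ≤ T1) (hκ : 0 ≤ κ)
    (h1 : ∫ t in {t : ℝ | (T0 ≤ |t| ∧ |t| ≤ T1) ∧ κ < ‖P t‖}, ‖b t‖ ^ 2 ≤ M1)
    (h2 : ∫ t in (-T1)..T1, ‖b t‖ ^ 2 ≤ M2) :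
    ∫ t in {t : ℝ | T0 ≤ |t| ∧ |t| ≤ T1}, ‖P t * b t‖ ^ 2 ≤ M1 + κ ^ 2 * M2 := by
  have hE : MeasurableSet {t : ℝ | κ < ‖P t‖} :=
    (isOpen_lt continuous_const hP.norm).measurableSet
  have hWm : MeasurableSet {t : ℝ | T0 ≤ |t| ∧ |t| ≤ T1} :=
    ((isClosed_le continuous_const continuous_abs).inter
      (isClosed_le continuous_abs continuous_const)).measurableSet
  have hsub : {t : ℝ | T0 ≤ |t| ∧ |t| ≤ T1} ⊆ Set.Icc (-T1) T1 := fun t ht => abs_le.1 ht.2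
  have hbb : Continuous fun t => ‖b t‖ ^ 2 := hb.norm.pow 2
  have hpb : Continuous fun t => ‖P t * b t‖ ^ 2 := (hP.mul hb).norm.pow 2
  have hib : ∀ s : Set ℝ, s ⊆ Set.Icc (-T1) T1 →
      MeasureTheory.IntegrableOn (fun t => ‖b t‖ ^ 2) s := fun s hs =>
    (hbb.continuousOn.integrableOn_compact isCompact_Icc).mono_set hs
  have hip : ∀ s : Set ℝ, s ⊆ Set.Icc (-T1) T1 →
      MeasureTheory.IntegrableOn (fun t => ‖P t * b t‖ ^ 2) s := fun s hs =>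
    (hpb.continuousOn.integrableOn_compact isCompact_Icc).mono_set hs
  rw [← MeasureTheory.integral_inter_add_sdiff hE (hip _ hsub)]
  have e1 : {t : ℝ | T0 ≤ |t| ∧ |t| ≤ T1} ∩ {t : ℝ | κ < ‖P t‖} =
      {t : ℝ | (T0 ≤ |t| ∧ |t| ≤ T1) ∧ κ < ‖P t‖} := rfl
  have hs1 : {t : ℝ | T0 ≤ |t| ∧ |t| ≤ T1} ∩ {t : ℝ | κ < ‖P t‖} ⊆ Set.Icc (-T1) T1 :=
    Set.inter_subset_left.trans hsub
  have hs2 : {t : ℝ | T0 ≤ |t| ∧ |t| ≤ T1} \ {t : ℝ | κ < ‖P t‖} ⊆ Set.Icc (-T1) T1 :=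
    Set.sdiff_subset.trans hsub
  have p1 : ∫ t in {t : ℝ | T0 ≤ |t| ∧ |t| ≤ T1} ∩ {t : ℝ | κ < ‖P t‖}, ‖P t * b t‖ ^ 2 ≤
      M1 := by
    refine le_trans (MeasureTheory.setIntegral_mono_on (hip _ hs1) (hib _ hs1)
      (hWm.inter hE) fun t _ => ?_) (by rw [e1]; exact h1)
    rw [norm_mul, mul_pow]
    have h3 : ‖P t‖ ^ 2 ≤ 1 := pow_le_one₀ (norm_nonneg _) (hP1 t)
    calc ‖P t‖ ^ 2 * ‖b t‖ ^ 2 ≤ 1 * ‖b t‖ ^ 2 := by gcongr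
      _ = _ := one_mul _
  have p2 : ∫ t in {t : ℝ | T0 ≤ |t| ∧ |t| ≤ T1} \ {t : ℝ | κ < ‖P t‖}, ‖P t * b t‖ ^ 2 ≤
      κ ^ 2 * M2 := by
    have q1 : ∫ t in {t : ℝ | T0 ≤ |t| ∧ |t| ≤ T1} \ {t : ℝ | κ < ‖P t‖},
        ‖P t * b t‖ ^ 2 ≤ ∫ t in {t : ℝ | T0 ≤ |t| ∧ |t| ≤ T1} \ {t : ℝ | κ < ‖P t‖},
          κ ^ 2 * ‖b t‖ ^ 2 := by
      refine MeasureTheory.setIntegral_mono_on (hip _ hs2) ((hib _ hs2).const_mul _)
        (hWm.diff hE) fun t ht => ?_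
      have h3 : ‖P t‖ ≤ κ := not_lt.1 ht.2
      rw [norm_mul, mul_pow]
      have h4 : ‖P t‖ ^ 2 ≤ κ ^ 2 := pow_le_pow_left₀ (norm_nonneg _) h3 2
      gcongr
    have q2 : ∫ t in {t : ℝ | T0 ≤ |t| ∧ |t| ≤ T1} \ {t : ℝ | κ < ‖P t‖}, ‖b t‖ ^ 2 ≤
        ∫ t in Set.Icc (-T1) T1, ‖b t‖ ^ 2 :=
      MeasureTheory.setIntegral_mono_set (hib _ subset_rfl)
        (Filter.Eventually.of_forall fun t => sq_nonneg _) (HasSubset.Subset.eventuallyLE hs2)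
    have q3 : ∫ t in Set.Icc (-T1) T1, ‖b t‖ ^ 2 ≤ M2 := by
      rw [MeasureTheory.integral_Icc_eq_integral_Ioc,
        ← intervalIntegral.integral_of_le (by linarith)]
      exact h2
    rw [MeasureTheory.integral_const_mul] at q1
    exact q1.trans (mul_le_mul_of_nonneg_left (q2.trans q3) (sq_nonneg _))
  linarith

theorem frm (B A : ℝ) (hB : 0 < B) (hA : 0 < A) : ∃ A0 A2 : ℝ, 0 < A0 ∧ 0 < A2 ∧
    ∀ A3 : ℝ, A2 ≤ A3 → ∃ X0 : ℝ, 10 ≤ X0 ∧ ∀ X : ℝ, X0 ≤ X →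
    ∀ (q : ℕ) [NeZero q], (q : ℝ) ≤ (Real.log X) ^ B → ∀ (χ : DirichletCharacter ℂ q) (D D' : ℕ),
    (Real.log X) ^ A2 ≤ D → (D : ℝ) ≤ (Real.log X) ^ A3 → D' ≤ 2 * D → ∀ e : Fin 6 → ℕ,
    X ≤ 2 * D * 2 ^ (∑ i, e i) → D * (2 : ℝ) ^ (∑ i, e i) ≤ 2 ^ 9 * X →
    (∀ i : Fin 6, (i : ℕ) < 3 → (2 : ℝ) ^ (e i) ≤ 8 * X ^ ((1 : ℝ) / 3)) →
    ∫ t in {t : ℝ | (Real.log X) ^ A0 ≤ |t| ∧ |t| ≤ X * (Real.log X) ^ (-A3 - 2)},
      ‖pp χ D D' t * SI.bp χ e t‖ ^ 2 ≤ (Real.log X) ^ (-A) := by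
  obtain ⟨ε1, hε1, hε1', hsp⟩ := sp
  obtain ⟨α, A2', Xb, hα, hA2', hXb, hbset⟩ := bset ε1 hε1 (by linarith)
  obtain ⟨A0, Xs, hA0, hXs, hsp'⟩ := hsp B (A + 1) hB (by linarith)
  obtain ⟨C, hC, Bm, hmvp⟩ := SI.mvp
  refine ⟨A0, max A2' ((A + Bm + 3) / (2 * α)), hA0, lt_of_lt_of_le hA2' (le_max_left _ _), ?_⟩
  intro A3 hA3
  obtain ⟨A2, hA2⟩ : ∃ A2, A2 = max A2' ((A + Bm + 3) / (2 * α)) := ⟨_, rfl⟩
  rw [← hA2] at hA3 ⊢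
  have hA2pos : 0 < A2 := by
    rw [hA2]
    exact lt_of_lt_of_le hA2' (le_max_left _ _)
  have hA2a : A2' ≤ A2 := by
    rw [hA2]
    exact le_max_left _ _
  have hA2b : A + Bm + 3 ≤ 2 * α * A2 := by
    have h1 : (A + Bm + 3) / (2 * α) ≤ A2 := by
      rw [hA2]
      exact le_max_right _ _
    rw [div_le_iff₀ (by positivity)] at h1
    linarith
  have ev1 : ∀ᶠ X : ℝ in Filter.atTop, max 100 (4 * C * 3 ^ Bm) ≤ Real.log X :=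
    Real.tendsto_log_atTop.eventually_ge_atTop _
  have ev2 : ∀ᶠ X : ℝ in Filter.atTop, 2 * (Real.log X) ^ A3 ≤ X ^ (ε1 / 8) := by
    have h := (isLittleO_log_rpow_rpow_atTop A3 (s := ε1 / 8) (by linarith)).bound
      (c := 1 / 2) (by norm_num)
    filter_upwards [h, Filter.eventually_ge_atTop (1 : ℝ)] with X hX hX1
    rw [Real.norm_eq_abs, Real.norm_eq_abs,
      abs_of_nonneg (Real.rpow_nonneg (by linarith : 0 ≤ X) _)] at hX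
    have h1 := le_trans (le_abs_self _) hX
    linarith
  have ev3 : ∀ᶠ X : ℝ in Filter.atTop, (Real.log X) ^ (A3 + 2) ≤ X := by
    have h := (isLittleO_log_rpow_rpow_atTop (A3 + 2) (s := 1) (by norm_num)).bound
      (c := 1) (by norm_num)
    filter_upwards [h, Filter.eventually_ge_atTop (1 : ℝ)] with X hX hX1
    rw [Real.rpow_one, Real.norm_eq_abs, Real.norm_eq_abs,
      abs_of_nonneg (by linarith : 0 ≤ X)] at hX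
    have h1 := le_trans (le_abs_self _) hX
    linarith
  obtain ⟨X1, hX1⟩ := Filter.eventually_atTop.1 (ev1.and (ev2.and ev3))
  refine ⟨max X1 (max Xb Xs), le_trans hXb (le_trans (le_max_left _ _) (le_max_right _ _)), ?_⟩
  intro X hX q _ hq χ D D' hD1 hD2 hD' e he1 he2 he3
  obtain ⟨c1, c2, c3⟩ := hX1 X (le_trans (le_max_left _ _) hX)
  have hXXb : Xb ≤ X := le_trans (le_trans (le_max_left _ _) (le_max_right _ _)) hX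
  have hXXs : Xs ≤ X := le_trans (le_trans (le_max_right _ _) (le_max_right _ _)) hX
  have hX10 : 10 ≤ X := le_trans hXb hXXb
  have hXpos : 0 < X := by linarith
  obtain ⟨ℓ, hℓ⟩ : ∃ ℓ, ℓ = Real.log X := ⟨_, rfl⟩
  rw [← hℓ] at hq hD1 hD2 c1 c2 c3 ⊢
  have hℓ100 : 100 ≤ ℓ := le_trans (le_max_left _ _) c1
  have hℓC : 4 * C * 3 ^ Bm ≤ ℓ := le_trans (le_max_right _ _) c1
  have hℓpos : 0 < ℓ := by linarith
  have hℓone : 1 ≤ ℓ := by linarith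
  -- D
  have hDone : (1 : ℝ) ≤ D := (Real.one_le_rpow hℓone hA2pos.le).trans hD1
  have hD1' : 1 ≤ D := by exact_mod_cast hDone
  have hDpos : (0 : ℝ) < D := by linarith
  -- T1
  obtain ⟨T1, hT1⟩ : ∃ T1, T1 = X * ℓ ^ (-A3 - 2) := ⟨_, rfl⟩
  rw [← hT1]
  have hpw : ℓ ^ (-A3 - 2) * ℓ ^ (A3 + 2) = 1 := by
    rw [← Real.rpow_add hℓpos]
    have : -A3 - 2 + (A3 + 2) = 0 := by ring
    rw [this, Real.rpow_zero]
  have hpos1 : 0 < ℓ ^ (-A3 - 2) := Real.rpow_pos_of_pos hℓpos _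
  have hT1one : 1 ≤ T1 := by
    rw [hT1]
    have h1 := mul_le_mul_of_nonneg_left c3 hpos1.le
    rw [hpw] at h1
    linarith
  have hT1X : T1 ≤ X := by
    rw [hT1]
    have h1 : ℓ ^ (-A3 - 2) ≤ 1 := Real.rpow_le_one_of_one_le_of_nonpos hℓone (by linarith)
    calc X * ℓ ^ (-A3 - 2) ≤ X * 1 := by gcongr
      _ = X := mul_one X
  -- S
  obtain ⟨S, hS⟩ : ∃ S : ℕ, S = ∑ i, e i := ⟨_, rfl⟩
  rw [← hS] at he1 he2
  have h2S : (0 : ℝ) < 2 ^ S := by positivity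
  have hS1 : (2 : ℝ) ^ S ≤ 2 ^ 9 * X := by
    calc (2 : ℝ) ^ S = 1 * 2 ^ S := (one_mul _).symm
      _ ≤ D * 2 ^ S := by gcongr
      _ ≤ _ := he2
  have hS2 : X ^ ((99 : ℝ) / 100) ≤ 2 ^ S := by
    have h1 : 2 * (D : ℝ) ≤ X ^ ((1 : ℝ) / 100) := by
      calc 2 * (D : ℝ) ≤ 2 * ℓ ^ A3 := by linarith
        _ ≤ X ^ (ε1 / 8) := c2
        _ ≤ X ^ ((1 : ℝ) / 100) :=
            Real.rpow_le_rpow_of_exponent_le (by linarith) (by linarith)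
    have h2 : X ^ ((99 : ℝ) / 100) * X ^ ((1 : ℝ) / 100) = X := by
      rw [← Real.rpow_add hXpos]
      norm_num
    have h3 : 0 < X ^ ((1 : ℝ) / 100) := Real.rpow_pos_of_pos hXpos _
    have h4 : X ≤ X ^ ((1 : ℝ) / 100) * 2 ^ S := he1.trans (by gcongr)
    have h5 : X ^ ((99 : ℝ) / 100) * X ^ ((1 : ℝ) / 100) ≤ 2 ^ S * X ^ ((1 : ℝ) / 100) := by
      rw [h2]
      linarith
    exact le_of_mul_le_mul_right h5 h3
  have hSl : 1 + (S : ℝ) ≤ 3 * ℓ := by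
    have h1 := Real.log_le_log h2S hS1
    rw [Real.log_pow, Real.log_mul (by norm_num) hXpos.ne', Real.log_pow, ← hℓ] at h1
    have h2 := Real.log_two_gt_d9
    have h3 := Real.log_two_lt_d9
    push_cast at h1
    have h4 : (S : ℝ) * 0.69 ≤ S * Real.log 2 := by
      have : (0 : ℝ) ≤ S := Nat.cast_nonneg S
      gcongr
      linarith
    linarith
  have hTS : T1 / 2 ^ S ≤ 1 := by
    rw [div_le_one h2S]
    have h1 : T1 = X * ℓ ^ (-A3 - 2) := hT1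
    have h2 : (D : ℝ) * ℓ ^ (-A3 - 2) ≤ ℓ ^ (-2 : ℝ) := by
      calc (D : ℝ) * ℓ ^ (-A3 - 2) ≤ ℓ ^ A3 * ℓ ^ (-A3 - 2) := by gcongr
        _ = ℓ ^ (-2 : ℝ) := by
            rw [← Real.rpow_add hℓpos]
            congr 1
            ring
    have h3 : ℓ ^ (-2 : ℝ) ≤ 1 / 2 := by
      calc ℓ ^ (-2 : ℝ) ≤ ℓ ^ (-1 : ℝ) :=
            Real.rpow_le_rpow_of_exponent_le hℓone (by norm_num)
        _ = ℓ⁻¹ := Real.rpow_neg_one ℓ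
        _ ≤ 2⁻¹ := inv_anti₀ (by norm_num) (by linarith)
        _ = 1 / 2 := by norm_num
    calc T1 = X * ℓ ^ (-A3 - 2) := h1
      _ ≤ (2 * D * 2 ^ S) * ℓ ^ (-A3 - 2) := by gcongr
      _ = 2 ^ S * (2 * ((D : ℝ) * ℓ ^ (-A3 - 2))) := by ring
      _ ≤ 2 ^ S * (2 * (1 / 2)) := by
          have := h2.trans h3
          gcongr
      _ = 2 ^ S := by ring
  -- the set E
  obtain ⟨κ, hκ⟩ : ∃ κ, κ = (D : ℝ) ^ (-α) := ⟨_, rfl⟩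
  have hκ0 : 0 ≤ κ := by
    rw [hκ]
    exact Real.rpow_nonneg hDpos.le _
  have hκ2 : κ ^ 2 ≤ ℓ ^ (-(A + Bm + 3)) := by
    have h1 : κ ≤ ℓ ^ (-(α * A2)) := by
      rw [hκ]
      calc (D : ℝ) ^ (-α) ≤ (ℓ ^ A2) ^ (-α) :=
            Real.rpow_le_rpow_of_nonpos (Real.rpow_pos_of_pos hℓpos _) hD1 (by linarith)
        _ = ℓ ^ (-(α * A2)) := by
            rw [← Real.rpow_mul hℓpos.le]
            congr 1
            ring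
    calc κ ^ 2 ≤ (ℓ ^ (-(α * A2))) ^ 2 := pow_le_pow_left₀ hκ0 h1 2
      _ = ℓ ^ (-(2 * α * A2)) := by
          rw [← Real.rpow_natCast, ← Real.rpow_mul hℓpos.le]
          congr 1
          push_cast
          ring
      _ ≤ ℓ ^ (-(A + Bm + 3)) := Real.rpow_le_rpow_of_exponent_le hℓone (by linarith)
  have hPc := frm_pp_cont χ D D'
  have hbc : Continuous (SI.bp χ e) := by
    unfold SI.bp
    exact continuous_finsetProd _ fun i _ => SI.pol_cont _ _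
  have hEm : MeasurableSet {t : ℝ | (ℓ ^ A0 ≤ |t| ∧ |t| ≤ T1) ∧ κ < ‖pp χ D D' t‖} :=
    (((isClosed_le continuous_const continuous_abs).inter
      (isClosed_le continuous_abs continuous_const)).measurableSet).inter
      (isOpen_lt continuous_const hPc.norm).measurableSet
  have hEv : MeasureTheory.volume {t : ℝ | (ℓ ^ A0 ≤ |t| ∧ |t| ≤ T1) ∧ κ < ‖pp χ D D' t‖} ≤
      ENNReal.ofReal (X ^ ε1) := by
    refine le_trans (MeasureTheory.measure_mono ?_) (hbset X hXXb q χ D D' ?_ ?_ hD')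
    · rintro t ⟨⟨h1, h2⟩, h3⟩
      exact ⟨h2.trans hT1X, by rw [← hκ]; exact h3⟩
    · rw [← hℓ]
      exact (Real.rpow_le_rpow_of_exponent_le hℓone hA2a).trans hD1
    · refine hD2.trans (le_trans ?_ c2)
      have : 0 ≤ ℓ ^ A3 := Real.rpow_nonneg hℓpos.le _
      linarith
  have hI1 : ∫ t in {t : ℝ | (ℓ ^ A0 ≤ |t| ∧ |t| ≤ T1) ∧ κ < ‖pp χ D D' t‖},
      ‖SI.bp χ e t‖ ^ 2 ≤ ℓ ^ (-(A + 1)) := by
    have h1 := hsp' X hXXs q (by rw [← hℓ]; exact hq) χ e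
      {t : ℝ | (ℓ ^ A0 ≤ |t| ∧ |t| ≤ T1) ∧ κ < ‖pp χ D D' t‖}
      (by rw [← hS]; exact hS2) (by rw [← hS]; exact hS1) he3 hEm
      (fun t ht => ⟨by rw [← hℓ]; exact ht.1.1, ht.1.2.trans hT1X⟩) hEv
    rw [← hℓ] at h1
    exact h1
  have hI2 : ∫ t in (-T1)..T1, ‖SI.bp χ e t‖ ^ 2 ≤ C * (3 * ℓ) ^ Bm * 2 := by
    refine (hmvp q χ e Finset.univ T1 hT1one).trans ?_
    rw [← hS]
    have h1 : (0 : ℝ) ≤ 1 + (S : ℝ) := by positivity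
    have h2 : 0 ≤ T1 / 2 ^ S + 1 := by positivity
    gcongr
    linarith
  have hmain := frm_abs (pp χ D D') (SI.bp χ e) hPc hbc (fun t => frm_pp_le χ hD1' hD' t)
    (ℓ ^ A0) T1 κ _ _ (by linarith) hκ0 hI1 hI2
  refine hmain.trans ?_
  have hA : 0 < ℓ ^ (-A) := Real.rpow_pos_of_pos hℓpos _
  have k1 : ℓ ^ (-(A + 1)) ≤ ℓ ^ (-A) * (1 / 2) := by
    have h1 : ℓ ^ (-(A + 1)) = ℓ ^ (-A) * ℓ⁻¹ := by
      rw [← Real.rpow_neg_one, ← Real.rpow_add hℓpos]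
      congr 1
      ring
    rw [h1]
    have h2 : ℓ⁻¹ ≤ 1 / 2 := by
      rw [one_div]
      exact inv_anti₀ (by norm_num) (by linarith)
    gcongr
  have k2 : κ ^ 2 * (C * (3 * ℓ) ^ Bm * 2) ≤ ℓ ^ (-A) * (1 / 2) := by
    have h1 : ℓ ^ (-(A + Bm + 3)) * ℓ ^ Bm = ℓ ^ (-A) * ℓ ^ (-3 : ℝ) := by
      rw [← Real.rpow_natCast ℓ Bm, ← Real.rpow_add hℓpos, ← Real.rpow_add hℓpos]
      congr 1
      ring
    have h2 : ℓ ^ (-3 : ℝ) ≤ ℓ⁻¹ := by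
      rw [← Real.rpow_neg_one]
      exact Real.rpow_le_rpow_of_exponent_le hℓone (by norm_num)
    have h3 : 4 * C * 3 ^ Bm * ℓ⁻¹ ≤ 1 := by
      rw [← div_eq_mul_inv, div_le_one hℓpos]
      exact hℓC
    calc κ ^ 2 * (C * (3 * ℓ) ^ Bm * 2)
        ≤ ℓ ^ (-(A + Bm + 3)) * (C * (3 * ℓ) ^ Bm * 2) := by gcongr
      _ = (ℓ ^ (-(A + Bm + 3)) * ℓ ^ Bm) * (2 * C * 3 ^ Bm) := by
          rw [mul_pow]
          ring
      _ = ℓ ^ (-A) * (2 * C * 3 ^ Bm * ℓ ^ (-3 : ℝ)) := by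
          rw [h1]
          ring
      _ ≤ ℓ ^ (-A) * (2 * C * 3 ^ Bm * ℓ⁻¹) := by gcongr
      _ ≤ ℓ ^ (-A) * (1 / 2) := by
          have h4 : 2 * C * 3 ^ Bm * ℓ⁻¹ ≤ 1 / 2 := by linarith
          gcongr
  linarith

end Pool.Agent.H43.TP
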