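import Pool.Agent.H43.LF.Em
import Pool.Agent.H43.LF.Vdx
import Pool.Agent.H43.SI.Pw
import Pool.Agent.H43.TP.Defs

/-!
# [H43 TP KER] The kernel `Σ_{n<=N} n^(-iv)`

PROOF. For `|v| < 1`: trivially `<= N <= 2N/(1+|v|)`. Let `|v| >= 1`. Split `[1,N]` into `{1}` and the intervals
`(N_{j+1}, N_j]`, `N_0 = N`, `N_{j+1} = ⌊N_j/2⌋` (`N_j <= 2 N_{j+1} + 1`: at most one extra term in each; or use the
intervals `(2^j, 2^(j+1)] ∩ [1,N]`). On a dyadic interval `(K, K']`, `1 <= K`, `K' <= 2K`: with the trivial character mod 1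
`n^(-iv) = n * n^(-1-iv)`, and removing the increasing factor `n <= 2K` costs a factor `4K`:
`|Σ_{K<n<=K'} n^(-iv)| <= 4K sup_u |ds 1 K u v|`. If `|v| <= √K`: `LF.em` (`q = 1`): `<= 40 (K/|v| + 1 + |v|)`
`<= 40 (K/|v| + 2√K)`. If `|v| > √K`: `LF.vdx 1`: `<= 4C (√|v| + K/√|v|) <= 4C (√|v| + K^(3/4))`. Sum over the dyadic
intervals (at most `1 + 2 log N` of them): `<= C' (N/|v| + N^(3/4) (1 + log N) + √|v| (1 + log N))`.
-/

namespace Pool.Agent.H43.TP

open Finset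

/-- partial summation with the factor `n` -/
private theorem lin_abel (a : ℕ → ℂ) (N N' : ℕ) (hNN : N + 1 ≤ N') (B : ℝ)
    (h : ∀ K ≤ N', ‖∑ n ∈ Ioc N K, a n‖ ≤ B) :
    ‖∑ n ∈ Ioc N N', (n : ℂ) * a n‖ ≤ 2 * N' * B := by
  have hB : 0 ≤ B := (norm_nonneg _).trans (h 0 (Nat.zero_le _))
  have hN' : (0 : ℝ) ≤ N' := Nat.cast_nonneg _
  set w : ℕ → ℝ := fun n => max 0 ((N' : ℝ) - n) with hw
  have h1 : ∀ n ∈ Ioc N N', (n : ℂ) * a n = (N' : ℂ) * a n - (w n : ℂ) * a n := by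
    intro n hn
    rw [mem_Ioc] at hn
    have h2 : (n : ℝ) ≤ N' := by exact_mod_cast hn.2
    have h3 : w n = (N' : ℝ) - n := max_eq_right (by linarith)
    rw [h3]
    push_cast
    ring
  rw [Finset.sum_congr rfl h1, Finset.sum_sub_distrib, ← Finset.mul_sum]
  refine (norm_sub_le _ _).trans ?_
  have h4 : ‖(N' : ℂ) * ∑ n ∈ Ioc N N', a n‖ ≤ N' * B := by
    rw [norm_mul, Complex.norm_natCast]
    exact mul_le_mul_of_nonneg_left (h N' le_rfl) hN'
  have h5 := LF.cls_abel a w ?_ (fun n => le_max_left _ _) N N' B h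
  · have h6 : w (N + 1) ≤ N' := by
      refine max_le hN' ?_
      have : (0 : ℝ) ≤ ((N + 1 : ℕ) : ℝ) := Nat.cast_nonneg _
      linarith
    have h7 := mul_le_mul_of_nonneg_right h6 hB
    linarith
  · intro n
    refine max_le_max le_rfl ?_
    push_cast
    linarith

private theorem dy : ∃ C : ℝ, 1 ≤ C ∧ ∀ (K K' : ℕ) (v : ℝ), 1 ≤ K → K' ≤ 2 * K → 1 ≤ |v| →
    ‖∑ n ∈ Ioc K K', (n : ℂ) ^ (-((v : ℂ) * Complex.I))‖ ≤
      C * (K / |v| + (K : ℝ) ^ ((3 : ℝ) / 4) + Real.sqrt |v|) := by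
  obtain ⟨C0, hC0, hv⟩ := LF.vdx 1
  refine ⟨80 + 4 * C0, by linarith, ?_⟩
  intro K K' v hK hK' hv1
  have hK0 : (1 : ℝ) ≤ K := by exact_mod_cast hK
  have hKp : (0 : ℝ) < K := by linarith
  have hvp : 0 < |v| := by linarith
  have hs0 : 0 < Real.sqrt |v| := Real.sqrt_pos.2 hvp
  have hK34 : (0 : ℝ) < (K : ℝ) ^ ((3 : ℝ) / 4) := by positivity
  rcases lt_or_ge K K' with hlt | hge
  · have key : ∀ B : ℝ, (∀ u ≤ K', ‖LF.ds (fun n => (1 : DirichletCharacter ℂ 1) n) K u v‖ ≤ B) →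
        ‖∑ n ∈ Ioc K K', (n : ℂ) ^ (-((v : ℂ) * Complex.I))‖ ≤ 4 * K * B := by
      intro B hB
      have hB0 : 0 ≤ B := (norm_nonneg _).trans (hB 0 (Nat.zero_le _))
      have h1 := lin_abel (fun n : ℕ => (1 : DirichletCharacter ℂ 1) n *
        (n : ℂ) ^ (-(1 + (v : ℂ) * Complex.I))) K K' hlt B hB
      have h2 : ∑ n ∈ Ioc K K', (n : ℂ) * ((1 : DirichletCharacter ℂ 1) n *
          (n : ℂ) ^ (-(1 + (v : ℂ) * Complex.I))) =
          ∑ n ∈ Ioc K K', (n : ℂ) ^ (-((v : ℂ) * Complex.I)) := by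
        refine Finset.sum_congr rfl fun n hn => ?_
        rw [mem_Ioc] at hn
        have hn0 : (n : ℂ) ≠ 0 := by
          have : n ≠ 0 := by omega
          exact_mod_cast this
        rw [MulChar.one_apply (isUnit_of_subsingleton _), one_mul, neg_add,
          Complex.cpow_add _ _ hn0, Complex.cpow_neg_one, ← mul_assoc, mul_inv_cancel₀ hn0,
          one_mul]
      rw [h2] at h1
      refine h1.trans ?_
      have h3 : (K' : ℝ) ≤ 2 * K := by exact_mod_cast hK'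
      nlinarith
    rcases le_or_gt |v| (Real.sqrt K) with hc | hc
    · have h1 := key (10 * (1 / |v| + (1 + |v|) / K)) (by
        intro u hu
        have := LF.em (1 : DirichletCharacter ℂ 1) K u hK (hu.trans hK') v (abs_pos.1 hvp)
        simpa using this)
      refine h1.trans ?_
      have hsK : Real.sqrt K ≤ (K : ℝ) ^ ((3 : ℝ) / 4) := by
        rw [Real.sqrt_eq_rpow]
        exact Real.rpow_le_rpow_of_exponent_le hK0 (by norm_num)
      have h2 : 4 * (K : ℝ) * (10 * (1 / |v| + (1 + |v|) / K)) =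
          40 * (K / |v|) + 40 * (1 + |v|) := by
        field_simp
        ring
      rw [h2]
      have h3 : 0 ≤ (K : ℝ) / |v| := by positivity
      have h4 : 1 + |v| ≤ 2 * (K : ℝ) ^ ((3 : ℝ) / 4) := by linarith
      nlinarith [mul_nonneg hC0.le h3, mul_nonneg hC0.le hK34.le, mul_nonneg hC0.le hs0.le]
    · have h1 := key (C0 * (Real.sqrt |v| / K + 1 / Real.sqrt |v|)) (by
        intro u hu
        exact hv (1 : DirichletCharacter ℂ 1) K u v hK (hu.trans hK') hv1)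
      refine h1.trans ?_
      have h2 : 4 * (K : ℝ) * (C0 * (Real.sqrt |v| / K + 1 / Real.sqrt |v|)) =
          4 * C0 * (Real.sqrt |v| + K / Real.sqrt |v|) := by
        field_simp
      rw [h2]
      have h3 : (K : ℝ) / Real.sqrt |v| ≤ (K : ℝ) ^ ((3 : ℝ) / 4) := by
        rw [div_le_iff₀ hs0]
        have h4 : (K : ℝ) ^ ((1 : ℝ) / 4) ≤ Real.sqrt |v| := by
          rw [Real.sqrt_eq_rpow]
          have h5 : (K : ℝ) ^ ((1 : ℝ) / 4) = (Real.sqrt K) ^ ((1 : ℝ) / 2) := by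
            rw [Real.sqrt_eq_rpow, ← Real.rpow_mul hKp.le]
            norm_num
          rw [h5]
          exact Real.rpow_le_rpow (Real.sqrt_nonneg _) hc.le (by norm_num)
        calc (K : ℝ) = (K : ℝ) ^ ((3 : ℝ) / 4) * (K : ℝ) ^ ((1 : ℝ) / 4) := by
              rw [← Real.rpow_add hKp]
              norm_num
          _ ≤ _ := mul_le_mul_of_nonneg_left h4 hK34.le
      have h6 : 0 ≤ (K : ℝ) / |v| := by positivity
      nlinarith [mul_nonneg hC0.le h6, mul_nonneg hC0.le hK34.le, mul_nonneg hC0.le hs0.le,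
        mul_le_mul_of_nonneg_left h3 hC0.le]
  · rw [Ioc_eq_empty_of_le hge, sum_empty, norm_zero]
    positivity

private theorem big : ∃ C : ℝ, 0 < C ∧ ∀ (v : ℝ), 1 ≤ |v| → ∀ (N : ℕ), 1 ≤ N →
    ‖∑ n ∈ Icc 1 N, (n : ℂ) ^ (-((v : ℂ) * Complex.I))‖ ≤
      C * (N / |v| + ((N : ℝ) ^ ((3 : ℝ) / 4) + Real.sqrt |v|) * (1 + Real.log N)) := by
  obtain ⟨C1, hC1, hdy⟩ := dy
  refine ⟨4 * C1, by linarith, ?_⟩
  intro v hv
  have hvp : 0 < |v| := by linarith
  have hs0 : 0 < Real.sqrt |v| := Real.sqrt_pos.2 hvp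
  intro N
  induction N using Nat.strong_induction_on with
  | _ N ih =>
    intro hN
    rcases Nat.lt_or_ge 1 N with h2 | h2
    · set K := (N + 1) / 2 with hK
      have hK1 : 1 ≤ K := by omega
      have hKN : K < N := by omega
      have hN2 : N ≤ 2 * K := by omega
      have h4K : 4 * K ≤ 3 * N := by omega
      have i1 := ih K hKN hK1
      have i2 := hdy K N v hK1 hN2 hv
      have hsplit : ∑ n ∈ Icc 1 N, (n : ℂ) ^ (-((v : ℂ) * Complex.I)) =
          ∑ n ∈ Icc 1 K, (n : ℂ) ^ (-((v : ℂ) * Complex.I)) +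
          ∑ n ∈ Ioc K N, (n : ℂ) ^ (-((v : ℂ) * Complex.I)) := by
        rw [← Finset.sum_union]
        · congr 1
          ext n
          simp only [mem_union, mem_Icc, mem_Ioc]
          omega
        · rw [Finset.disjoint_left]
          intro n h3 h4
          rw [mem_Icc] at h3
          rw [mem_Ioc] at h4
          omega
      rw [hsplit]
      refine (norm_add_le _ _).trans ((add_le_add i1 i2).trans ?_)
      have hKr : (1 : ℝ) ≤ K := by exact_mod_cast hK1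
      have hKp : (0 : ℝ) < K := by linarith
      have hNr : (4 : ℝ) * K ≤ 3 * N := by exact_mod_cast h4K
      have hKNr : (K : ℝ) ≤ N := by exact_mod_cast hKN.le
      have hlog : Real.log K + 1 / 4 ≤ Real.log N := by
        have h5 : Real.log (4 / 3 * K) ≤ Real.log N :=
          Real.log_le_log (by positivity) (by linarith)
        rw [Real.log_mul (by norm_num) hKp.ne'] at h5
        have h6 : (1 : ℝ) / 4 ≤ Real.log (4 / 3) := by
          have := Real.one_sub_inv_le_log_of_pos (show (0 : ℝ) < 4 / 3 by norm_num)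
          norm_num at this ⊢
          linarith
        linarith
      have hlK : 0 ≤ Real.log K := Real.log_nonneg hKr
      have hK34 : (K : ℝ) ^ ((3 : ℝ) / 4) ≤ (N : ℝ) ^ ((3 : ℝ) / 4) :=
        Real.rpow_le_rpow hKp.le hKNr (by norm_num)
      have hK34p : (0 : ℝ) < (K : ℝ) ^ ((3 : ℝ) / 4) := by positivity
      have e1 : 4 * ((K : ℝ) / |v|) ≤ 3 * ((N : ℝ) / |v|) := by
        rw [← mul_div_assoc, ← mul_div_assoc]
        exact div_le_div_of_nonneg_right hNr hvp.le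
      have hkv : 0 ≤ (K : ℝ) / |v| := by positivity
      have e2 : ((K : ℝ) ^ ((3 : ℝ) / 4) + Real.sqrt |v|) * (1 + Real.log K) +
          ((K : ℝ) ^ ((3 : ℝ) / 4) + Real.sqrt |v|) / 4 ≤
          ((N : ℝ) ^ ((3 : ℝ) / 4) + Real.sqrt |v|) * (1 + Real.log N) := by
        calc _ = ((K : ℝ) ^ ((3 : ℝ) / 4) + Real.sqrt |v|) * (1 + (Real.log K + 1 / 4)) := by ring
          _ ≤ _ := by gcongr
      have e3 : 4 * C1 * (((K : ℝ) ^ ((3 : ℝ) / 4) + Real.sqrt |v|) * (1 + Real.log K) +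
          ((K : ℝ) ^ ((3 : ℝ) / 4) + Real.sqrt |v|) / 4) ≤
          4 * C1 * (((N : ℝ) ^ ((3 : ℝ) / 4) + Real.sqrt |v|) * (1 + Real.log N)) :=
        mul_le_mul_of_nonneg_left e2 (by linarith)
      have e4 : 4 * C1 * ((K : ℝ) / |v|) + C1 * ((K : ℝ) / |v|) ≤ 4 * C1 * ((N : ℝ) / |v|) := by
        nlinarith
      linarith
    · have hN1 : N = 1 := by omega
      subst hN1
      simp only [Icc_self, sum_singleton, Nat.cast_one, Complex.one_cpow, norm_one,
        Real.one_rpow, Real.log_one, add_zero, mul_one]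
      have : 0 ≤ 1 / |v| := by positivity
      nlinarith

theorem ker : ∃ C : ℝ, 0 < C ∧ ∀ (N : ℕ) (v : ℝ), 1 ≤ N →
    ‖∑ n ∈ Icc 1 N, (n : ℂ) ^ (-((v : ℂ) * Complex.I))‖ ≤
      C * (N / (1 + |v|) + ((N : ℝ) ^ ((3 : ℝ) / 4) + Real.sqrt |v|) * (1 + Real.log N)) := by
  obtain ⟨C, hC, hb⟩ := big
  refine ⟨2 * C + 2, by linarith, ?_⟩
  intro N v hN
  have hN0 : (1 : ℝ) ≤ N := by exact_mod_cast hN
  have hl : 0 ≤ Real.log N := Real.log_nonneg hN0
  have hR : 0 ≤ ((N : ℝ) ^ ((3 : ℝ) / 4) + Real.sqrt |v|) * (1 + Real.log N) := by positivity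
  rcases le_or_gt 1 |v| with h | h
  · refine (hb v h N hN).trans ?_
    have h1 : (N : ℝ) / |v| ≤ 2 * (N / (1 + |v|)) := by
      rw [← mul_div_assoc, div_le_div_iff₀ (by linarith) (by linarith)]
      nlinarith
    have h2 : 0 ≤ (N : ℝ) / (1 + |v|) := by positivity
    nlinarith
  · have h1 : ‖∑ n ∈ Icc 1 N, (n : ℂ) ^ (-((v : ℂ) * Complex.I))‖ ≤ N := by
      refine (norm_sum_le _ _).trans ?_
      have h2 : ∀ n ∈ Icc 1 N, ‖(n : ℂ) ^ (-((v : ℂ) * Complex.I))‖ ≤ 1 := by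
        intro n hn
        rw [mem_Icc] at hn
        rw [Complex.norm_natCast_cpow_of_pos (by omega)]
        simp
      refine (Finset.sum_le_card_nsmul _ _ _ h2).trans ?_
      simp
    refine h1.trans ?_
    have h2 : (N : ℝ) ≤ 2 * (N / (1 + |v|)) := by
      rw [← mul_div_assoc, le_div_iff₀ (by positivity)]
      nlinarith
    have h3 : 0 ≤ (N : ℝ) / (1 + |v|) := by positivity
    nlinarith

end Pool.Agent.H43.TP
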