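import Pool.Agent.H43.TP.Ram

/-!
# [H43 TP LOC] The local identity

PROOF. `h(r) = μ(r) c_r(a)/φ(r)` is multiplicative in `r` (`ram_mul`) and vanishes unless `r` is squarefree, so
`Σ_{r ∣ q} h(r) = ∏_{p ∣ q} (1 + h(p))` (e.g. make `h` an `ArithmeticFunction ℝ`, `IsMultiplicative`, and use
`ArithmeticFunction.IsMultiplicative.prodPrimeFactors_one_add_of_squarefree` for the radical of `q`, or induct on `q` over
prime powers; the divisors of `q` which are not squarefree contribute `0`). `h(p) = -c_p(a)/(p-1)`, which is `-1` if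
`p ∣ a` and `1/(p-1)` otherwise (`ram_prime`). So the product is `0` if `(a,q) > 1` and `∏ p/(p-1) = q/φ(q)` otherwise
(`Nat.totient_eq_mul_prod_factors`).
-/

namespace Pool.Agent.H43.TP

open Finset

private noncomputable def locG (a : ℕ) : ArithmeticFunction ℝ :=
  ⟨fun r => ((ArithmeticFunction.moebius r : ℤ) : ℝ) / (r.totient : ℝ) * (crd r a : ℝ), by simp⟩

private theorem locG_apply (a r : ℕ) :
    locG a r = ((ArithmeticFunction.moebius r : ℤ) : ℝ) / (r.totient : ℝ) * (crd r a : ℝ) := rfl

private theorem locG_mult (a : ℕ) : (locG a).IsMultiplicative := by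
  refine ⟨?_, ?_⟩
  · rw [locG_apply, ram_one]
    simp
  · intro m n hmn
    rw [locG_apply, locG_apply, locG_apply, ram_mul m n a hmn, Nat.totient_mul hmn,
      ArithmeticFunction.isMultiplicative_moebius.map_mul_of_coprime hmn]
    push_cast
    rw [mul_div_mul_comm]
    ring

private noncomputable def locR (a : ℕ) : ArithmeticFunction ℝ :=
  ⟨fun q => if Nat.Coprime a q then (q : ℝ) / q.totient else 0, by simp⟩

private theorem locR_apply (a q : ℕ) :
    locR a q = if Nat.Coprime a q then (q : ℝ) / q.totient else 0 := rfl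

private theorem locR_mult (a : ℕ) : (locR a).IsMultiplicative := by
  refine ⟨?_, ?_⟩
  · rw [locR_apply]
    simp
  · intro m n hmn
    rw [locR_apply, locR_apply, locR_apply, Nat.totient_mul hmn]
    by_cases h1 : Nat.Coprime a m
    · by_cases h2 : Nat.Coprime a n
      · rw [if_pos (Nat.Coprime.mul_right h1 h2), if_pos h1, if_pos h2]
        push_cast
        rw [mul_div_mul_comm]
      · rw [if_neg (fun h => h2 (Nat.Coprime.coprime_mul_left_right h)), if_neg h2, mul_zero]
    · rw [if_neg (fun h => h1 (Nat.Coprime.coprime_mul_right_right h)), if_neg h1, zero_mul]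

theorem loc (q a : ℕ) (hq : 1 ≤ q) :
    ∑ r ∈ q.divisors, ((ArithmeticFunction.moebius r : ℤ) : ℝ) / (r.totient : ℝ) * (crd r a : ℝ) =
      if Nat.Coprime a q then (q : ℝ) / q.totient else 0 := by
  have hZ : ((ArithmeticFunction.zeta : ArithmeticFunction ℕ) : ArithmeticFunction ℝ).IsMultiplicative :=
    ArithmeticFunction.isMultiplicative_zeta.natCast
  have hmain : ((ArithmeticFunction.zeta : ArithmeticFunction ℕ) : ArithmeticFunction ℝ) * locG a =
      locR a := by
    rw [ArithmeticFunction.IsMultiplicative.eq_iff_eq_on_prime_powers _ (hZ.mul (locG_mult a)) _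
      (locR_mult a)]
    intro p k hp
    rw [ArithmeticFunction.coe_zeta_mul_apply, Nat.sum_divisors_prime_pow hp]
    rcases k with _ | k
    · rw [zero_add, Finset.sum_range_one, pow_zero, (locG_mult a).1, (locR_mult a).1]
    · rw [Finset.sum_range_succ', Finset.sum_range_succ']
      have h0 : ∑ j ∈ range k, locG a (p ^ (j + 1 + 1)) = 0 := by
        refine Finset.sum_eq_zero (fun j _ => ?_)
        rw [locG_apply, ArithmeticFunction.moebius_apply_prime_pow hp (by omega),
          if_neg (by omega)]
        simp
      rw [h0, zero_add, zero_add, pow_one, pow_zero, (locG_mult a).1, locG_apply, locR_apply,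
        ArithmeticFunction.moebius_apply_prime hp, ram_prime p a hp, Nat.totient_prime hp,
        Nat.totient_prime_pow hp (Nat.succ_pos k)]
      have hp1 : (1 : ℝ) < p := by exact_mod_cast hp.one_lt
      have hp1' : (p : ℝ) - 1 ≠ 0 := (sub_pos.mpr hp1).ne'
      have hpk : ((p : ℝ) ^ k) ≠ 0 := by positivity
      have hc : Nat.Coprime a (p ^ (k + 1)) ↔ ¬ p ∣ a := by
        rw [Nat.coprime_pow_right_iff (Nat.succ_pos k), Nat.coprime_comm,
          hp.coprime_iff_not_dvd]
      by_cases hd : p ∣ a
      · rw [if_pos hd, if_neg (fun h => (hc.mp h) hd)]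
        push_cast [Nat.cast_sub hp.one_le]
        field_simp
        ring
      · rw [if_neg hd, if_pos (hc.mpr hd)]
        push_cast [Nat.cast_sub hp.one_le]
        field_simp
        ring
  have h := congrArg (fun f : ArithmeticFunction ℝ => f q) hmain
  simp only [ArithmeticFunction.coe_zeta_mul_apply, locR_apply] at h
  rw [← h]
  rfl

end Pool.Agent.H43.TP
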