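import Pool.Agent.H43.SI.Mvt
import Pool.Agent.H43.TP.Defs

/-!
# [H43 TP MOM] High moments of the polynomial of the primes of `(D,D']`

PROOF. Let `pr` be the indicator of the primes of `(D,D']` as an arithmetic function with values in `ℕ`,
`r_l = pr^l` (Dirichlet power), `r_l(n) <= l!`, and `r_l(n) ≠ 0` implies `Ω(n) = l`: induction,
`r_{l+1}(n) = Σ_{p ∣ n, p ∈ (D,D']} r_l(n/p)`, and if it is `≠ 0` then `n` has at most `Ω(n) = l+1` different prime
divisors. `pp χ D D' t ^ l = Σ_{n <= (2D)^l} χ(n) r_l(n) n^(-(1+it))` (induction on `l`, product of two finite sums; or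
`LSeries_mul` as in `SI/Poly.lean`, `SI/Mvp.lean`). `Σ_n (r_l(n)/n)^2 <= l! Σ_n r_l(n) n^(-2) = l! (Σ_p p^(-2))^l <= l! D^(-l)`,
as `Σ_{n>D} n^(-2) <= 1/D`. `SI.mvt` with `N = (2D)^l`, `a_n = χ(n) r_l(n)/n`.
-/

namespace Pool.Agent.H43.TP

open Finset

private theorem ls (f : ArithmeticFunction ℂ) (N : ℕ) (hf : ∀ n, f n ≠ 0 → n ≤ N) (w : ℂ) :
    LSeriesSummable (fun n => f n) w ∧
      LSeries (fun n => f n) w = ∑ n ∈ Icc 1 N, f n * (n : ℂ) ^ (-w) := by
  have h0 : ∀ n ∉ Icc 1 N, LSeries.term (fun n => f n) w n = 0 := by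
    intro n hn
    rw [Finset.mem_Icc] at hn
    rcases Nat.eq_zero_or_pos n with h | h
    · subst h; simp
    · have h1 : f n = 0 := by
        by_contra h2
        exact hn ⟨h, hf n h2⟩
      rw [LSeries.term_of_ne_zero (by omega), h1, zero_div]
  refine ⟨summable_of_ne_finset_zero h0, ?_⟩
  unfold LSeries
  rw [tsum_eq_sum h0]
  refine Finset.sum_congr rfl fun n hn => ?_
  rw [Finset.mem_Icc] at hn
  rw [LSeries.term_of_ne_zero (by omega), Complex.cpow_neg, div_eq_mul_inv]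

/-- the indicator of the primes of `(D,D']` -/
private noncomputable def pr (D D' : ℕ) : ArithmeticFunction ℕ :=
  ⟨fun n => if n ∈ (Ioc D D').filter Nat.Prime then 1 else 0, by simp⟩

private theorem pr_apply (D D' n : ℕ) :
    pr D D' n = if n ∈ (Ioc D D').filter Nat.Prime then 1 else 0 := rfl

private theorem pa_apply {q : ℕ} (χ : DirichletCharacter ℂ q) (D D' n : ℕ) :
    pa χ D D' n = if n ∈ (Ioc D D').filter Nat.Prime then χ n else 0 := rfl

private theorem pr_ne (D D' : ℕ) : ∀ (l n : ℕ), ((pr D D') ^ l) n ≠ 0 →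
    ArithmeticFunction.cardFactors n = l := by
  intro l
  induction l with
  | zero =>
    intro n hn
    rw [pow_zero] at hn
    have : n = 1 := by
      by_contra h
      exact hn (ArithmeticFunction.one_apply_ne h)
    subst this
    simp
  | succ l ih =>
    intro n hn
    rw [pow_succ', ArithmeticFunction.mul_apply] at hn
    obtain ⟨x, hx, hx0⟩ := Finset.exists_ne_zero_of_sum_ne_zero hn
    obtain ⟨h1, h2⟩ := Nat.mem_divisorsAntidiagonal.1 hx
    have h3 : pr D D' x.1 ≠ 0 := left_ne_zero_of_mul hx0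
    have h4 := ih x.2 (right_ne_zero_of_mul hx0)
    have h5 : x.1.Prime := by
      rw [pr_apply] at h3
      by_contra h
      exact h3 (if_neg (by simp [h]))
    have hx1 : x.1 ≠ 0 := by rintro h0; rw [h0, zero_mul] at h1; exact h2 h1.symm
    have hx2 : x.2 ≠ 0 := by rintro h0; rw [h0, mul_zero] at h1; exact h2 h1.symm
    rw [← h1, ArithmeticFunction.cardFactors_mul hx1 hx2,
      ArithmeticFunction.cardFactors_apply_prime h5, h4]
    omega

private theorem pr_le (D D' : ℕ) : ∀ (l n : ℕ), ((pr D D') ^ l) n ≤ l.factorial := by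
  intro l
  induction l with
  | zero =>
    intro n
    rw [pow_zero]
    by_cases h : n = 1
    · subst h; simp
    · rw [ArithmeticFunction.one_apply_ne h]; simp
  | succ l ih =>
    intro n
    by_cases hn : ((pr D D') ^ (l + 1)) n = 0
    · rw [hn]; exact Nat.zero_le _
    · have hO := pr_ne D D' (l + 1) n hn
      have hn0 : n ≠ 0 := by
        rintro rfl
        exact hn (ArithmeticFunction.map_zero)
      rw [pow_succ', ArithmeticFunction.mul_apply]
      have h1 : ∀ x ∈ n.divisorsAntidiagonal, pr D D' x.1 * ((pr D D') ^ l) x.2 ≤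
          if x.1 ∈ n.primeFactors then l.factorial else 0 := by
        intro x hx
        obtain ⟨h1, h2⟩ := Nat.mem_divisorsAntidiagonal.1 hx
        rw [pr_apply]
        by_cases h3 : x.1 ∈ (Ioc D D').filter Nat.Prime
        · rw [if_pos h3, one_mul, if_pos]
          · exact ih _
          · rw [Nat.mem_primeFactors]
            exact ⟨(mem_filter.1 h3).2, ⟨x.2, h1.symm⟩, hn0⟩
        · rw [if_neg h3, zero_mul]
          exact Nat.zero_le _
      refine (Finset.sum_le_sum h1).trans ?_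
      have h2 : ∑ x ∈ n.divisorsAntidiagonal, (if x.1 ∈ n.primeFactors then l.factorial else 0) =
          ∑ d ∈ n.divisors, (if d ∈ n.primeFactors then l.factorial else 0) := by
        rw [← Nat.map_div_right_divisors, Finset.sum_map]
        rfl
      rw [h2, ← Finset.sum_filter, Finset.sum_const, smul_eq_mul, Nat.factorial_succ]
      refine Nat.mul_le_mul_right _ ?_
      calc (n.divisors.filter (fun d => d ∈ n.primeFactors)).card ≤ n.primeFactors.card :=
            Finset.card_le_card fun d hd => (mem_filter.1 hd).2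
        _ ≤ ArithmeticFunction.cardFactors n := by
            rw [ArithmeticFunction.cardFactors_apply]
            exact List.toFinset_card_le _
        _ = l + 1 := hO

private theorem pa_le {q : ℕ} (χ : DirichletCharacter ℂ q) (D D' : ℕ) : ∀ (l n : ℕ),
    ‖((pa χ D D') ^ l) n‖ ≤ ((((pr D D') ^ l) n : ℕ) : ℝ) := by
  intro l
  induction l with
  | zero =>
    intro n
    rw [pow_zero, pow_zero]
    by_cases h : n = 1
    · subst h; simp
    · rw [ArithmeticFunction.one_apply_ne h, ArithmeticFunction.one_apply_ne h]; simp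
  | succ l ih =>
    intro n
    rw [pow_succ', pow_succ', ArithmeticFunction.mul_apply, ArithmeticFunction.mul_apply]
    push_cast
    refine (norm_sum_le _ _).trans (Finset.sum_le_sum fun x _ => ?_)
    rw [norm_mul]
    refine mul_le_mul ?_ (ih _) (norm_nonneg _) (Nat.cast_nonneg _)
    rw [pa_apply, pr_apply]
    split_ifs
    · simpa using χ.norm_le_one _
    · simp

private theorem pa_supp {q : ℕ} (χ : DirichletCharacter ℂ q) {D D' : ℕ} (hD : D' ≤ 2 * D) :
    ∀ (l n : ℕ), ((pa χ D D') ^ l) n ≠ 0 → n ≤ (2 * D) ^ l := by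
  intro l
  induction l with
  | zero =>
    intro n hn
    rw [pow_zero] at hn
    have : n = 1 := by
      by_contra h
      exact hn (ArithmeticFunction.one_apply_ne h)
    subst this
    simp
  | succ l ih =>
    intro n hn
    rw [pow_succ', ArithmeticFunction.mul_apply] at hn
    obtain ⟨x, hx, hx0⟩ := Finset.exists_ne_zero_of_sum_ne_zero hn
    obtain ⟨h1, h2⟩ := Nat.mem_divisorsAntidiagonal.1 hx
    have h3 : pa χ D D' x.1 ≠ 0 := left_ne_zero_of_mul hx0
    have h4 := ih x.2 (right_ne_zero_of_mul hx0)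
    have h5 : x.1 ≤ 2 * D := by
      rw [pa_apply] at h3
      by_contra h
      refine h3 (if_neg ?_)
      rw [mem_filter, mem_Ioc]
      rintro ⟨⟨_, h6⟩, _⟩
      omega
    rw [← h1, pow_succ']
    exact Nat.mul_le_mul h5 h4

private theorem pa_series {q : ℕ} (χ : DirichletCharacter ℂ q) {D D' : ℕ} (hD : D' ≤ 2 * D)
    (w : ℂ) (l : ℕ) : (∑ p ∈ (Ioc D D').filter Nat.Prime, χ p * (p : ℂ) ^ (-w)) ^ l =
      ∑ n ∈ Icc 1 ((2 * D) ^ l), ((pa χ D D') ^ l) n * (n : ℂ) ^ (-w) := by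
  rw [← (ls _ _ (pa_supp χ hD l) w).2]
  induction l with
  | zero =>
    rw [pow_zero, pow_zero, (ls 1 1 (fun n hn => by
      by_contra h
      exact hn (ArithmeticFunction.one_apply_ne (by omega))) w).2]
    simp
  | succ l ih =>
    have h1 := (ls _ _ (fun n => by
      have := pa_supp χ hD 1 n
      rwa [pow_one, pow_one] at this) w : LSeriesSummable (fun n => (pa χ D D') n) w ∧ _)
    have h2 := ls _ _ (pa_supp χ hD l) w
    rw [pow_succ', ih, pow_succ']
    have h3 : LSeries (fun n => (pa χ D D' * pa χ D D' ^ l) n) w =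
        LSeries (fun n => (pa χ D D') n) w * LSeries (fun n => (pa χ D D' ^ l) n) w :=
      ArithmeticFunction.LSeries_mul' h1.1 h2.1
    rw [h3, h1.2]
    congr 1
    have hsub : (Ioc D D').filter Nat.Prime ⊆ Icc 1 (2 * D) := by
      intro n hn
      rw [mem_filter, mem_Ioc] at hn
      rw [mem_Icc]
      omega
    rw [← Finset.sum_subset hsub]
    · refine Finset.sum_congr rfl fun n hn => ?_
      rw [pa_apply, if_pos hn]
    · intro n _ hn
      rw [pa_apply, if_neg hn, zero_mul]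

private theorem pa_one (D D' : ℕ) : ∀ (l n : ℕ),
    ((pa (1 : DirichletCharacter ℂ 1) D D') ^ l) n = ((((pr D D') ^ l) n : ℕ) : ℂ) := by
  intro l
  induction l with
  | zero =>
    intro n
    rw [pow_zero, pow_zero]
    by_cases h : n = 1
    · subst h; simp
    · rw [ArithmeticFunction.one_apply_ne h, ArithmeticFunction.one_apply_ne h]; simp
  | succ l ih =>
    intro n
    rw [pow_succ', pow_succ', ArithmeticFunction.mul_apply, ArithmeticFunction.mul_apply]
    push_cast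
    refine Finset.sum_congr rfl fun x _ => ?_
    rw [ih, pa_apply, pr_apply]
    congr 1
    split_ifs
    · rw [MulChar.one_apply]
      · simp
      · exact isUnit_of_subsingleton _
    · simp

private theorem pr_sum {D D' : ℕ} (hD1 : 1 ≤ D) (hD : D' ≤ 2 * D) (l : ℕ) :
    ∑ n ∈ Icc 1 ((2 * D) ^ l), ((((pr D D') ^ l) n : ℕ) : ℝ) / (n : ℝ) ^ 2 ≤ 1 / (D : ℝ) ^ l := by
  have h1 := pa_series (1 : DirichletCharacter ℂ 1) hD 2 l
  have hD0 : (0 : ℝ) < D := by exact_mod_cast hD1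
  have h2 : ((∑ n ∈ Icc 1 ((2 * D) ^ l), ((((pr D D') ^ l) n : ℕ) : ℝ) / (n : ℝ) ^ 2 : ℝ) : ℂ) =
      (((∑ p ∈ (Ioc D D').filter Nat.Prime, 1 / (p : ℝ) ^ 2) ^ l : ℝ) : ℂ) := by
    push_cast
    have e1 : ∑ p ∈ (Ioc D D').filter Nat.Prime, (1 : ℂ) / (p : ℂ) ^ 2 =
        ∑ p ∈ (Ioc D D').filter Nat.Prime, (1 : DirichletCharacter ℂ 1) p * (p : ℂ) ^ (-(2 : ℂ)) := by
      refine Finset.sum_congr rfl fun p _ => ?_
      rw [MulChar.one_apply (isUnit_of_subsingleton _), one_mul, Complex.cpow_neg, one_div]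
      congr 1
      exact (Complex.cpow_ofNat _ 2).symm
    rw [e1, h1]
    refine Finset.sum_congr rfl fun n _ => ?_
    rw [pa_one, Complex.cpow_neg, div_eq_mul_inv]
    congr 2
    exact (Complex.cpow_ofNat _ 2).symm
  rw [Complex.ofReal_injective h2]
  have h3 : ∑ p ∈ (Ioc D D').filter Nat.Prime, 1 / (p : ℝ) ^ 2 ≤ 1 / (D : ℝ) := by
    have h4 : ∀ p ∈ (Ioc D D').filter Nat.Prime, 1 / (p : ℝ) ^ 2 ≤ 1 / (D : ℝ) ^ 2 := by
      intro p hp
      rw [mem_filter, mem_Ioc] at hp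
      have : (D : ℝ) ≤ p := by exact_mod_cast hp.1.1.le
      exact one_div_le_one_div_of_le (by positivity) (by gcongr)
    refine (Finset.sum_le_card_nsmul _ _ _ h4).trans ?_
    have h5 : ((Ioc D D').filter Nat.Prime).card ≤ D := by
      refine (Finset.card_filter_le _ _).trans ?_
      rw [Nat.card_Ioc]
      omega
    rw [nsmul_eq_mul]
    have h6 : ((((Ioc D D').filter Nat.Prime).card : ℕ) : ℝ) ≤ D := by exact_mod_cast h5
    calc ((((Ioc D D').filter Nat.Prime).card : ℕ) : ℝ) * (1 / (D : ℝ) ^ 2)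
        ≤ D * (1 / (D : ℝ) ^ 2) := mul_le_mul_of_nonneg_right h6 (by positivity)
      _ = 1 / D := by field_simp
  calc (∑ p ∈ (Ioc D D').filter Nat.Prime, 1 / (p : ℝ) ^ 2) ^ l ≤ (1 / (D : ℝ)) ^ l :=
        pow_le_pow_left₀ (Finset.sum_nonneg fun _ _ => by positivity) h3 l
    _ = 1 / (D : ℝ) ^ l := by rw [div_pow, one_pow]

theorem mom : ∃ C : ℝ, 0 < C ∧ ∀ (q : ℕ) (χ : DirichletCharacter ℂ q) (D D' l : ℕ) (T : ℝ),
    1 ≤ D → D' ≤ 2 * D → 1 ≤ T →
    ∫ t in (-T)..T, ‖pp χ D D' t‖ ^ (2 * l) ≤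
      C * (T + (2 * (D : ℝ)) ^ l) * (l.factorial : ℝ) / (D : ℝ) ^ l := by
  obtain ⟨C, hC, hmvt⟩ := SI.mvt
  refine ⟨C, hC, ?_⟩
  intro q χ D D' l T hD1 hD hT
  set g := (pa χ D D') ^ l with hg
  have hD0 : (0 : ℝ) < D := by exact_mod_cast hD1
  have h1 : ∀ t : ℝ, (pp χ D D' t) ^ l =
      ∑ n ∈ Icc 1 ((2 * D) ^ l), (g n * (n : ℂ)⁻¹) * (n : ℂ) ^ (-((t : ℂ) * Complex.I)) := by
    intro t
    unfold pp
    rw [pa_series χ hD]
    refine Finset.sum_congr rfl fun n hn => ?_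
    rw [Finset.mem_Icc] at hn
    have hn0 : (n : ℂ) ≠ 0 := by
      have : n ≠ 0 := by omega
      exact_mod_cast this
    rw [neg_add, Complex.cpow_add _ _ hn0, Complex.cpow_neg_one, mul_assoc]
  have h2 := hmvt ((2 * D) ^ l) T (fun n => g n * (n : ℂ)⁻¹) (Nat.one_le_pow _ _ (by omega)) hT
  have h3 : ∫ t in (-T)..T, ‖pp χ D D' t‖ ^ (2 * l) =
      ∫ t in (-T)..T, ‖∑ n ∈ Icc 1 ((2 * D) ^ l), (g n * (n : ℂ)⁻¹) *
        (n : ℂ) ^ (-((t : ℂ) * Complex.I))‖ ^ 2 := by
    congr 1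
    funext t
    rw [← h1 t, norm_pow, ← pow_mul, mul_comm 2 l]
  rw [h3]
  refine h2.trans ?_
  have h4 : ∑ n ∈ Icc 1 ((2 * D) ^ l), ‖g n * (n : ℂ)⁻¹‖ ^ 2 ≤
      (l.factorial : ℝ) * (1 / (D : ℝ) ^ l) := by
    refine le_trans ?_ (mul_le_mul_of_nonneg_left (pr_sum hD1 hD l) (Nat.cast_nonneg _))
    rw [Finset.mul_sum]
    refine Finset.sum_le_sum fun n hn => ?_
    have h5 := pa_le χ D D' l n
    rw [← hg] at h5
    have h6 : ((((pr D D') ^ l) n : ℕ) : ℝ) ≤ (l.factorial : ℝ) := by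
      exact_mod_cast pr_le D D' l n
    rw [norm_mul, norm_inv, Complex.norm_natCast, mul_pow]
    have h7 : ‖g n‖ ^ 2 ≤ (l.factorial : ℝ) * ((((pr D D') ^ l) n : ℕ) : ℝ) := by
      have h8 : (0 : ℝ) ≤ ((((pr D D') ^ l) n : ℕ) : ℝ) := Nat.cast_nonneg _
      calc ‖g n‖ ^ 2 ≤ ((((pr D D') ^ l) n : ℕ) : ℝ) ^ 2 := pow_le_pow_left₀ (norm_nonneg _) h5 2
        _ = ((((pr D D') ^ l) n : ℕ) : ℝ) * ((((pr D D') ^ l) n : ℕ) : ℝ) := sq _
        _ ≤ _ := mul_le_mul_of_nonneg_right h6 h8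
    calc ‖g n‖ ^ 2 * ((n : ℝ)⁻¹) ^ 2 ≤
          ((l.factorial : ℝ) * ((((pr D D') ^ l) n : ℕ) : ℝ)) * ((n : ℝ)⁻¹) ^ 2 :=
          mul_le_mul_of_nonneg_right h7 (by positivity)
      _ = _ := by rw [inv_pow, div_eq_mul_inv, mul_assoc]
  calc C * (T + (((2 * D) ^ l : ℕ) : ℝ)) * ∑ n ∈ Icc 1 ((2 * D) ^ l), ‖g n * (n : ℂ)⁻¹‖ ^ 2
      ≤ C * (T + (((2 * D) ^ l : ℕ) : ℝ)) * ((l.factorial : ℝ) * (1 / (D : ℝ) ^ l)) := by
        apply mul_le_mul_of_nonneg_left h4
        positivity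
    _ = _ := by
        push_cast
        ring

end Pool.Agent.H43.TP
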