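import Pool.Agent.H43.LR.Rel
import Pool.Agent.H43.TP.Fms
import Pool.Agent.H43.TP.Cnt

/-!
# [H43 TP REL] The theorem

PROOF. `rel2`: copy the proof of `LR.rel_gen` with `y^(-1/2)`, `y^(1/2)` in place of `y^(-1/24)`, `y^(1/24)`.
`final`: `ℓ = log X`, `A0`, `K1` from `fms`; `C` from `fms`; `η = y^(-1/6)/2`. `W(k) = Σ_m ge(m^3+k)`, `R = log 2 * M/ℓ` (`> 0`),
`L' = ℓ - (2A+1) log ℓ`. For `k > ηX`: `W/ℓ <= cE <= W/L'` (`cnt`), so `0 <= cE - W/ℓ <= ρ W/ℓ`, `ρ = ℓ/L' - 1 -> 0`, and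
`|cE - S R| <= (1+ρ) |W/ℓ - S R| + ρ S R`. Put `A_k = W(k)/ℓ` for `k > ηX` and `A_k = S y k * R` for `k <= ηX`.
Mean square: `W/ℓ - S R = (1/ℓ)(W - kap S M) + (1/ℓ)(kap - log 2) S M`; `fms`, and `S y k <= Sb(y)` (a finite product, bounded for
fixed `y`), `|kap - log 2|^2 Sb(y)^2 <= y^(-1/2)` for `X` large (`mert`):
`Σ_k (A_k - S R)^2 <= (2/ℓ^2)(K1 + 1) y^(-1/2) X M^2 <= 5 (K1+1) y^(-1/2) X R^2`. `rel2` with `δ/2` and `K2 = 5(K1+1)`
(`HL.mean_inv` for the sum of `S⁻¹`): `#{k : (δ/2) S R < |A_k - S R|} <= (4e^46 + K2/4) (δ^2 y^(1/2)/4)^(-1/3) X`.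
Let `D = δ^2 y^(1/2)`. If `D <= 1` the claim is trivial for `K >= 1` (`D^(-1/3) >= 1`). Otherwise `δ >= y^(-1/4)`, and for `X` large (depending
on `y` only) `ρ <= y^(-1/4)/10 <= δ/10`. Then for `k > ηX` with `δ S R < |cE - S R|`: `(1+ρ)|A_k - S R| > (δ - ρ) S R`, so
`|A_k - S R| > (δ/2) S R`. The `k <= ηX`: at most `ηX = y^(-1/6) X/2 <= D^(-1/3) X` (`δ <= 1`). Total `<= K D^(-1/3) X` with
`K = 2 (4e^46 + K2/4) + 1`.
-/

namespace Pool.Agent.H43.TP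

open Finset

theorem rel2 (y X : ℕ) (hy : 1 ≤ y) (K : ℝ) (hK : 0 ≤ K) (A : ℕ → ℝ) (R : ℝ) (hR : 0 < R)
    (hms : ∑ k ∈ Icc 1 X, (A k - HL.S y k * R) ^ 2 ≤ K * (y : ℝ) ^ (-(1 : ℝ) / 2) * X * R ^ 2)
    (hB : ∑ k ∈ Icc 1 X, (HL.S y k)⁻¹ ≤ 2 * Real.exp 46 * X) (δ : ℝ) (hδ : 0 < δ) :
    ((((Icc 1 X).filter (fun k => δ * (HL.S y k * R) < |A k - HL.S y k * R|)).card : ℕ) : ℝ) ≤
      (4 * Real.exp 46 + K / 4) * (δ ^ 2 * (y : ℝ) ^ ((1 : ℝ) / 2)) ^ (-(1 : ℝ) / 3) * X := by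
  have hypos : (0 : ℝ) < y := by exact_mod_cast hy
  set D : ℝ := δ ^ 2 * (y : ℝ) ^ ((1 : ℝ) / 2) with hD
  have hD0 : 0 < D := by positivity
  set c : ℝ := D ^ (-(1 : ℝ) / 3) with hc
  have hc0 : 0 < c := Real.rpow_pos_of_pos hD0 _
  have hc3 : c ^ 3 * D = 1 := by
    rw [hc, ← Real.rpow_natCast, ← Real.rpow_mul hD0.le]
    norm_num
    rw [Real.rpow_neg_one, inv_mul_cancel₀ hD0.ne']
  set U := (Icc 1 X).filter (fun k => HL.S y k < 2 * c) with hUdef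
  set B := (Icc 1 X).filter (fun k => (2 * c * δ * R) ^ 2 ≤ (A k - HL.S y k * R) ^ 2) with hBdef
  have hsub : (Icc 1 X).filter (fun k => δ * (HL.S y k * R) < |A k - HL.S y k * R|) ⊆ U ∪ B := by
    intro k hk
    rw [mem_filter] at hk
    rw [mem_union]
    by_cases h : HL.S y k < 2 * c
    · left
      exact mem_filter.2 ⟨hk.1, h⟩
    · right
      push Not at h
      refine mem_filter.2 ⟨hk.1, ?_⟩
      have h1 : 2 * c * δ * R ≤ |A k - HL.S y k * R| := by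
        refine le_trans ?_ hk.2.le
        have h2 := mul_le_mul_of_nonneg_left h (mul_pos hδ hR).le
        calc 2 * c * δ * R = δ * R * (2 * c) := by ring
          _ ≤ δ * R * HL.S y k := h2
          _ = δ * (HL.S y k * R) := by ring
      rw [← sq_abs (A k - HL.S y k * R)]
      exact pow_le_pow_left₀ (by positivity) h1 2
  have hUcard : (U.card : ℝ) ≤ 4 * Real.exp 46 * c * X := by
    have h1 : (U.card : ℝ) * (1 / (2 * c)) ≤ ∑ k ∈ Icc 1 X, (HL.S y k)⁻¹ := by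
      calc (U.card : ℝ) * (1 / (2 * c)) = ∑ _k ∈ U, 1 / (2 * c) := by simp
        _ ≤ ∑ k ∈ U, (HL.S y k)⁻¹ := by
            apply Finset.sum_le_sum
            intro k hk
            have := (mem_filter.1 hk).2
            rw [← one_div]
            exact one_div_le_one_div_of_le (HL.S_pos y k) this.le
        _ ≤ ∑ k ∈ Icc 1 X, (HL.S y k)⁻¹ := by
            apply Finset.sum_le_sum_of_subset_of_nonneg (filter_subset _ _)
            intro k _ _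
            exact (inv_pos.2 (HL.S_pos y k)).le
    have h2 := h1.trans hB
    rw [mul_one_div, div_le_iff₀ (by positivity)] at h2
    calc (U.card : ℝ) ≤ 2 * Real.exp 46 * X * (2 * c) := h2
      _ = 4 * Real.exp 46 * c * X := by ring
  have hBcard : (B.card : ℝ) ≤ K / 4 * c * X := by
    have h1 : (B.card : ℝ) * (2 * c * δ * R) ^ 2 ≤
        ∑ k ∈ Icc 1 X, (A k - HL.S y k * R) ^ 2 := by
      calc (B.card : ℝ) * (2 * c * δ * R) ^ 2 = ∑ _k ∈ B, (2 * c * δ * R) ^ 2 := by simp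
        _ ≤ ∑ k ∈ B, (A k - HL.S y k * R) ^ 2 :=
            Finset.sum_le_sum (fun k hk => (mem_filter.1 hk).2)
        _ ≤ ∑ k ∈ Icc 1 X, (A k - HL.S y k * R) ^ 2 :=
            Finset.sum_le_sum_of_subset_of_nonneg (filter_subset _ _) (fun _ _ _ => sq_nonneg _)
    have h4 := h1.trans hms
    have hy24 : (y : ℝ) ^ (-(1 : ℝ) / 2) * (y : ℝ) ^ ((1 : ℝ) / 2) = 1 := by
      rw [← Real.rpow_add hypos, show -(1 : ℝ) / 2 + 1 / 2 = 0 by ring, Real.rpow_zero]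
    have h5 : 0 < (2 * c * δ * R) ^ 2 := by positivity
    have h6 : K * (y : ℝ) ^ (-(1 : ℝ) / 2) * X * R ^ 2 = (K / 4 * c * X) * (2 * c * δ * R) ^ 2 := by
      have e1 : (K / 4 * c * X) * (2 * c * δ * R) ^ 2 = K * X * R ^ 2 * (c ^ 3 * δ ^ 2) := by ring
      have e2 : c ^ 3 * δ ^ 2 = (y : ℝ) ^ (-(1 : ℝ) / 2) := by
        calc c ^ 3 * δ ^ 2 = c ^ 3 * δ ^ 2 * ((y : ℝ) ^ (-(1 : ℝ) / 2) * (y : ℝ) ^ ((1 : ℝ) / 2)) := by
              rw [hy24, mul_one]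
          _ = (c ^ 3 * (δ ^ 2 * (y : ℝ) ^ ((1 : ℝ) / 2))) * (y : ℝ) ^ (-(1 : ℝ) / 2) := by ring
          _ = (y : ℝ) ^ (-(1 : ℝ) / 2) := by rw [← hD, hc3, one_mul]
      rw [e1, e2]
      ring
    rw [h6] at h4
    exact le_of_mul_le_mul_right h4 h5
  calc ((((Icc 1 X).filter (fun k => δ * (HL.S y k * R) < |A k - HL.S y k * R|)).card : ℕ) : ℝ)
      ≤ ((U ∪ B).card : ℝ) := by exact_mod_cast Finset.card_le_card hsub
    _ ≤ (U.card : ℝ) + B.card := by exact_mod_cast Finset.card_union_le U B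
    _ ≤ (4 * Real.exp 46 + K / 4) * c * X := by linarith

/-- a trivial upper bound for the local product -/
private theorem rel_S_le (y k : ℕ) : HL.S y k ≤ 2 ^ y := by
  unfold HL.S
  have hcard : ((Icc 1 y).filter Nat.Prime).card ≤ y := by
    refine (Finset.card_filter_le _ _).trans ?_
    simp
  have h1 : ∀ p ∈ (Icc 1 y).filter Nat.Prime,
      (1 - (HL.nu p k : ℝ) / p) / (1 - 1 / (p : ℝ)) ≤ 2 := by
    intro p hp
    have hp2 : (2 : ℝ) ≤ p := by exact_mod_cast (mem_filter.1 hp).2.two_le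
    have h2 : (1 : ℝ) / p ≤ 1 / 2 := one_div_le_one_div_of_le (by norm_num) hp2
    have h3 : 0 ≤ (HL.nu p k : ℝ) / p := by positivity
    rw [div_le_iff₀ (by linarith)]
    linarith
  have h0 : ∀ p ∈ (Icc 1 y).filter Nat.Prime,
      0 ≤ (1 - (HL.nu p k : ℝ) / p) / (1 - 1 / (p : ℝ)) := by
    intro p hp
    have hp2 : (2 : ℝ) ≤ p := by exact_mod_cast (mem_filter.1 hp).2.two_le
    have h2 : (1 : ℝ) / p ≤ 1 / 2 := one_div_le_one_div_of_le (by norm_num) hp2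
    have h3 : (HL.nu p k : ℝ) / p ≤ 1 := by
      rw [div_le_one (by linarith)]
      have : HL.nu p k ≤ p := by
        unfold HL.nu
        refine (Finset.card_filter_le _ _).trans ?_
        simp
      exact_mod_cast this
    apply div_nonneg <;> linarith
  calc ∏ p ∈ (Icc 1 y).filter Nat.Prime, (1 - (HL.nu p k : ℝ) / p) / (1 - 1 / (p : ℝ))
      ≤ ∏ _p ∈ (Icc 1 y).filter Nat.Prime, (2 : ℝ) := Finset.prod_le_prod h0 h1
    _ = 2 ^ ((Icc 1 y).filter Nat.Prime).card := by rw [Finset.prod_const]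
    _ ≤ 2 ^ y := pow_le_pow_right₀ (by norm_num) hcard

/-- the error in the weight is small -/
private theorem rel_rho (A : ℕ) (ρ : ℝ) (hρ : 0 < ρ) : ∃ X0 : ℕ, ∀ X : ℕ, X0 ≤ X →
    0 < Real.log X ∧ 0 < Real.log X - (2 * A + 1) * Real.log (Real.log X) ∧
    Real.log X ≤ (1 + ρ) * (Real.log X - (2 * A + 1) * Real.log (Real.log X)) := by
  set c : ℝ := ρ / ((1 + ρ) * (2 * A + 1)) with hc
  have hc0 : 0 < c := by positivity
  have h1 : ∀ᶠ x : ℝ in Filter.atTop, ‖Real.log x‖ ≤ c * ‖x‖ :=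
    (Asymptotics.isLittleO_iff.1 Real.isLittleO_log_id_atTop hc0)
  have h2 : Filter.Tendsto (fun X : ℕ => Real.log (X : ℝ)) Filter.atTop Filter.atTop :=
    Real.tendsto_log_atTop.comp tendsto_natCast_atTop_atTop
  have h3 := (h2.eventually h1).and (h2.eventually (Filter.eventually_ge_atTop 1))
  obtain ⟨X0, hX0⟩ := Filter.eventually_atTop.1 h3
  refine ⟨X0, fun X hX => ?_⟩
  obtain ⟨h4, h5⟩ := hX0 X hX
  have hl0 : 0 < Real.log X := by linarith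
  have h6 : Real.log (Real.log X) ≤ c * Real.log X := by
    have := (le_abs_self _).trans h4
    rwa [Real.norm_of_nonneg hl0.le] at this
  have h7 : (2 * (A : ℝ) + 1) * Real.log (Real.log X) ≤ ρ / (1 + ρ) * Real.log X := by
    calc (2 * (A : ℝ) + 1) * Real.log (Real.log X) ≤ (2 * (A : ℝ) + 1) * (c * Real.log X) :=
          mul_le_mul_of_nonneg_left h6 (by positivity)
      _ = ρ / (1 + ρ) * Real.log X := by
          rw [hc]
          field_simp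
  have h8 : Real.log X - ρ / (1 + ρ) * Real.log X = Real.log X / (1 + ρ) := by
    field_simp
    ring
  have h9 : 0 < Real.log X / (1 + ρ) := by positivity
  refine ⟨hl0, by linarith, ?_⟩
  have h10 : Real.log X / (1 + ρ) ≤ Real.log X - (2 * A + 1) * Real.log (Real.log X) := by linarith
  rw [div_le_iff₀ (by positivity)] at h10
  linarith

theorem final : ∃ (A0 : ℕ) (K : ℝ), ∀ A : ℕ, A0 ≤ A → ∃ C : ℝ, 0 < C ∧ ∀ y : ℕ, 1 ≤ y →
    ∃ X0 : ℕ, ∀ X : ℕ, X0 ≤ X → ∀ M : ℕ, (Real.log X) ^ C ≤ M → M ^ 3 ≤ X → ∀ δ : ℝ, 0 < δ →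
    δ ≤ 1 →
    ((((Icc 1 X).filter (fun k => δ * (HL.S y k * (Real.log 2 * M / Real.log X)) <
      |(cE A X M k : ℝ) - HL.S y k * (Real.log 2 * M / Real.log X)|)).card : ℕ) : ℝ) ≤
      K * (δ ^ 2 * (y : ℝ) ^ ((1 : ℝ) / 2)) ^ (-(1 : ℝ) / 3) * X := by
  obtain ⟨A0, K1, hA0, hK1, hf⟩ := fms
  refine ⟨A0, 2 * (4 * Real.exp 46 + (5 * (K1 + 1)) / 4) + 1, fun A hA => ?_⟩
  have hA1 : 1 ≤ A := hA0.trans hA
  obtain ⟨C, hC, hf⟩ := hf A hA
  refine ⟨C, hC, fun y hy => ?_⟩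
  have hypos : (0 : ℝ) < y := by exact_mod_cast hy
  have hy1 : (1 : ℝ) ≤ y := by exact_mod_cast hy
  set η : ℝ := (y : ℝ) ^ (-(1 : ℝ) / 6) / 2 with hη
  have hη0 : 0 < η := by positivity
  have hη1 : η ≤ 1 := by
    have : (y : ℝ) ^ (-(1 : ℝ) / 6) ≤ 1 := Real.rpow_le_one_of_one_le_of_nonpos hy1 (by norm_num)
    rw [hη]; linarith
  set ρ : ℝ := (y : ℝ) ^ (-(1 : ℝ) / 4) / 10 with hρ
  have hρ0 : 0 < ρ := by positivity
  set ε : ℝ := (y : ℝ) ^ (-(1 : ℝ) / 4) / 2 ^ y with hε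
  have hε0 : 0 < ε := by positivity
  obtain ⟨X1, h1⟩ := hf y η hy hη0 hη1
  obtain ⟨X2, h2⟩ := cnt A η hA1 hη0 hη1
  obtain ⟨X3, h3⟩ := rel_rho A ρ hρ0
  obtain ⟨X4, h4⟩ := mert A hA1 ε hε0
  obtain ⟨X5, h5⟩ := HL.mean_inv y
  refine ⟨max (max X1 X2) (max X3 (max X4 X5)), ?_⟩
  intro X hX M hM1 hM3 δ hδ hδ1
  have hX1 : X1 ≤ X := (le_max_left _ _).trans ((le_max_left _ _).trans hX)
  have hX2 : X2 ≤ X := (le_max_right _ _).trans ((le_max_left _ _).trans hX)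
  have hX3 : X3 ≤ X := (le_max_left _ _).trans ((le_max_right _ _).trans hX)
  have hX4 : X4 ≤ X :=
    (le_max_left _ _).trans ((le_max_right _ _).trans ((le_max_right _ _).trans hX))
  have hX5 : X5 ≤ X :=
    (le_max_right _ _).trans ((le_max_right _ _).trans ((le_max_right _ _).trans hX))
  obtain ⟨hl0, hL0, hL1⟩ := h3 X hX3
  have g1 := h1 X hX1 M hM1 hM3
  have g4 := h4 X hX4
  have g5 := h5 X hX5
  set l : ℝ := Real.log X with hl
  set L : ℝ := l - (2 * A + 1) * Real.log l with hL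
  set P : ℕ := ⌊l ^ A⌋₊ with hP
  set P2 : ℕ := ⌊l ^ (2 * A)⌋₊ with hP2
  set kp : ℝ := kap P P2 with hkp
  have hM0 : (0 : ℝ) < M := lt_of_lt_of_le (Real.rpow_pos_of_pos hl0 _) hM1
  set R : ℝ := Real.log 2 * M / l with hR
  have hlog2 : (0.69 : ℝ) < Real.log 2 := lt_trans (by norm_num) Real.log_two_gt_d9
  have hR0 : 0 < R := by positivity
  set D : ℝ := δ ^ 2 * (y : ℝ) ^ ((1 : ℝ) / 2) with hD
  have hD0 : 0 < D := by positivity
  have hDc : 0 < D ^ (-(1 : ℝ) / 3) := Real.rpow_pos_of_pos hD0 _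
  have hK2 : 0 ≤ 5 * (K1 + 1) := by positivity
  have hX0 : (0 : ℝ) ≤ X := Nat.cast_nonneg _
  rcases le_or_gt D 1 with hD1 | hD1
  · have e1 : 1 ≤ D ^ (-(1 : ℝ) / 3) :=
      Real.one_le_rpow_of_pos_of_le_one_of_nonpos hD0 hD1 (by norm_num)
    have e2 : ((((Icc 1 X).filter (fun k => δ * (HL.S y k * R) <
        |(cE A X M k : ℝ) - HL.S y k * R|)).card : ℕ) : ℝ) ≤ X := by
      have : ((Icc 1 X).filter (fun k => δ * (HL.S y k * R) <
        |(cE A X M k : ℝ) - HL.S y k * R|)).card ≤ X := by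
        refine (Finset.card_filter_le _ _).trans ?_
        simp
      exact_mod_cast this
    refine e2.trans ?_
    have e3 : 0 ≤ 2 * (4 * Real.exp 46 + (5 * (K1 + 1)) / 4) := by positivity
    have e4 : 1 ≤ (2 * (4 * Real.exp 46 + (5 * (K1 + 1)) / 4) + 1) * D ^ (-(1 : ℝ) / 3) := by
      calc (1 : ℝ) = 1 * 1 := by ring
        _ ≤ _ := mul_le_mul (by linarith) e1 (by norm_num) (by linarith)
    calc (X : ℝ) = 1 * X := by ring
      _ ≤ _ := mul_le_mul_of_nonneg_right e4 hX0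
  -- the main case
  have hyy : ((y : ℝ) ^ (-(1 : ℝ) / 4)) ^ 2 = (y : ℝ) ^ (-(1 : ℝ) / 2) := by
    rw [← Real.rpow_natCast, ← Real.rpow_mul hypos.le]
    norm_num
  have hyy2 : (y : ℝ) ^ (-(1 : ℝ) / 2) * (y : ℝ) ^ ((1 : ℝ) / 2) = 1 := by
    rw [← Real.rpow_add hypos, show -(1 : ℝ) / 2 + 1 / 2 = 0 by ring, Real.rpow_zero]
  have hδy : (y : ℝ) ^ (-(1 : ℝ) / 4) ≤ δ := by
    have e1 : (y : ℝ) ^ (-(1 : ℝ) / 2) ≤ δ ^ 2 := by
      calc (y : ℝ) ^ (-(1 : ℝ) / 2) = (y : ℝ) ^ (-(1 : ℝ) / 2) * 1 := by ring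
        _ ≤ (y : ℝ) ^ (-(1 : ℝ) / 2) * D := mul_le_mul_of_nonneg_left hD1.le (by positivity)
        _ = δ ^ 2 * ((y : ℝ) ^ (-(1 : ℝ) / 2) * (y : ℝ) ^ ((1 : ℝ) / 2)) := by rw [hD]; ring
        _ = δ ^ 2 := by rw [hyy2, mul_one]
    rw [← hyy] at e1
    exact le_of_sq_le_sq e1 hδ.le
  set W : ℕ → ℝ := fun k => ∑ m ∈ Icc 1 M, ge P P2 (m ^ 3 + k) with hW
  set Ak : ℕ → ℝ := fun k => if ⌊η * X⌋₊ < k then W k / l else HL.S y k * R with hAk
  have hms : ∑ k ∈ Icc 1 X, (Ak k - HL.S y k * R) ^ 2 ≤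
      (5 * (K1 + 1)) * (y : ℝ) ^ (-(1 : ℝ) / 2) * X * R ^ 2 := by
    have e1 : ∑ k ∈ Icc 1 X, (Ak k - HL.S y k * R) ^ 2 =
        ∑ k ∈ Ioc ⌊η * X⌋₊ X, (W k / l - HL.S y k * R) ^ 2 := by
      have e2 : ∑ k ∈ Ioc ⌊η * X⌋₊ X, (W k / l - HL.S y k * R) ^ 2 =
          ∑ k ∈ Ioc ⌊η * X⌋₊ X, (Ak k - HL.S y k * R) ^ 2 := by
        apply Finset.sum_congr rfl
        intro k hk
        rw [hAk]
        simp only
        rw [if_pos (mem_Ioc.1 hk).1]
      rw [e2]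
      symm
      apply Finset.sum_subset
      · intro k hk
        rw [mem_Ioc] at hk
        rw [mem_Icc]
        omega
      · intro k hk hk2
        rw [mem_Icc] at hk
        rw [mem_Ioc] at hk2
        have : ¬ ⌊η * X⌋₊ < k := fun h => hk2 ⟨h, hk.2⟩
        rw [hAk]
        simp only
        rw [if_neg this, sub_self]
        norm_num
    rw [e1]
    have e3 : ∀ k ∈ Ioc ⌊η * X⌋₊ X, (W k / l - HL.S y k * R) ^ 2 ≤
        2 / l ^ 2 * ((W k - kp * HL.S y k * M) ^ 2 + (y : ℝ) ^ (-(1 : ℝ) / 2) * M ^ 2) := by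
      intro k _
      have f1 : W k / l - HL.S y k * R =
          ((W k - kp * HL.S y k * M) + (kp - Real.log 2) * HL.S y k * M) / l := by
        rw [hR]
        field_simp
        ring
      have f2 : ((kp - Real.log 2) * HL.S y k * M) ^ 2 ≤ (y : ℝ) ^ (-(1 : ℝ) / 2) * M ^ 2 := by
        have f3 : |(kp - Real.log 2) * HL.S y k| ≤ (y : ℝ) ^ (-(1 : ℝ) / 4) := by
          rw [abs_mul, abs_of_pos (HL.S_pos y k)]
          calc |kp - Real.log 2| * HL.S y k ≤ ε * 2 ^ y :=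
                mul_le_mul g4 (rel_S_le y k) (HL.S_pos y k).le hε0.le
            _ = (y : ℝ) ^ (-(1 : ℝ) / 4) := by
                rw [hε]
                field_simp
        rw [mul_pow, ← hyy]
        apply mul_le_mul_of_nonneg_right _ (sq_nonneg _)
        rw [← sq_abs]
        exact pow_le_pow_left₀ (abs_nonneg _) f3 2
      rw [f1, div_pow]
      have f4 : ((W k - kp * HL.S y k * M) + (kp - Real.log 2) * HL.S y k * M) ^ 2 ≤
          2 * ((W k - kp * HL.S y k * M) ^ 2 + ((kp - Real.log 2) * HL.S y k * M) ^ 2) := by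
        nlinarith [sq_nonneg ((W k - kp * HL.S y k * M) - (kp - Real.log 2) * HL.S y k * M)]
      have f5 : 0 < l ^ 2 := by positivity
      rw [div_mul_eq_mul_div]
      apply div_le_div_of_nonneg_right _ f5.le
      linarith
    refine (Finset.sum_le_sum e3).trans ?_
    rw [← Finset.mul_sum, Finset.sum_add_distrib, Finset.sum_const, nsmul_eq_mul]
    have e4 : (((Ioc ⌊η * X⌋₊ X).card : ℕ) : ℝ) ≤ X := by
      rw [Nat.card_Ioc]
      exact_mod_cast Nat.sub_le _ _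
    have e5 : ∑ k ∈ Ioc ⌊η * X⌋₊ X, (W k - kp * HL.S y k * M) ^ 2 ≤
        K1 * (y : ℝ) ^ (-(1 : ℝ) / 2) * X * M ^ 2 := g1
    have e6 : (((Ioc ⌊η * X⌋₊ X).card : ℕ) : ℝ) * ((y : ℝ) ^ (-(1 : ℝ) / 2) * M ^ 2) ≤
        X * ((y : ℝ) ^ (-(1 : ℝ) / 2) * M ^ 2) := mul_le_mul_of_nonneg_right e4 (by positivity)
    calc 2 / l ^ 2 * (∑ k ∈ Ioc ⌊η * X⌋₊ X, (W k - kp * HL.S y k * M) ^ 2 +
          (((Ioc ⌊η * X⌋₊ X).card : ℕ) : ℝ) * ((y : ℝ) ^ (-(1 : ℝ) / 2) * M ^ 2))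
        ≤ 2 / l ^ 2 * (K1 * (y : ℝ) ^ (-(1 : ℝ) / 2) * X * M ^ 2 +
          X * ((y : ℝ) ^ (-(1 : ℝ) / 2) * M ^ 2)) :=
          mul_le_mul_of_nonneg_left (add_le_add e5 e6) (by positivity)
      _ = ((K1 + 1) * (y : ℝ) ^ (-(1 : ℝ) / 2) * X) * (2 * (M ^ 2 / l ^ 2)) := by
          field_simp
      _ ≤ ((K1 + 1) * (y : ℝ) ^ (-(1 : ℝ) / 2) * X) * (5 * R ^ 2) := by
          apply mul_le_mul_of_nonneg_left _ (by positivity)
          have w1 : (2 : ℝ) ≤ 5 * Real.log 2 ^ 2 := by nlinarith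
          have w2 : 5 * R ^ 2 = (5 * Real.log 2 ^ 2) * ((M : ℝ) ^ 2 / l ^ 2) := by
            rw [hR]
            ring
          rw [w2]
          exact mul_le_mul_of_nonneg_right w1 (by positivity)
      _ = (5 * (K1 + 1)) * (y : ℝ) ^ (-(1 : ℝ) / 2) * X * R ^ 2 := by ring
  have hr := rel2 y X hy (5 * (K1 + 1)) hK2 Ak R hR0 hms g5 (δ / 2) (by positivity)
  set B1 := (Icc 1 X).filter (fun k => δ / 2 * (HL.S y k * R) < |Ak k - HL.S y k * R|) with hB1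
  have hsub : (Icc 1 X).filter (fun k => δ * (HL.S y k * R) <
      |(cE A X M k : ℝ) - HL.S y k * R|) ⊆ B1 ∪ Icc 1 ⌊η * X⌋₊ := by
    intro k hk
    rw [mem_filter, mem_Icc] at hk
    rw [mem_union]
    by_cases hkη : ⌊η * X⌋₊ < k
    · left
      rw [hB1, mem_filter, mem_Icc]
      refine ⟨hk.1, ?_⟩
      have q := h2 X hX2 M k hM3 hkη hk.1.2
      have q1 : L * cE A X M k ≤ W k := q.1
      have q2 : W k ≤ l * cE A X M k := q.2
      have hAkk : Ak k = W k / l := by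
        rw [hAk]
        simp only
        rw [if_pos hkη]
      rw [hAkk]
      set a : ℝ := W k / l with ha
      set c : ℝ := (cE A X M k : ℝ) with hc
      set s : ℝ := HL.S y k * R with hs
      have hs0 : 0 < s := mul_pos (HL.S_pos y k) hR0
      have hc0 : 0 ≤ c := Nat.cast_nonneg _
      have q3 : a ≤ c := by
        rw [ha, div_le_iff₀ hl0]
        linarith
      have q4 : c ≤ (1 + ρ) * a := by
        rw [ha, mul_div_assoc', le_div_iff₀ hl0]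
        calc c * l ≤ c * ((1 + ρ) * L) := mul_le_mul_of_nonneg_left hL1 hc0
          _ = (1 + ρ) * (L * c) := by ring
          _ ≤ (1 + ρ) * W k := mul_le_mul_of_nonneg_left q1 (by positivity)
      have hρδ : ρ ≤ δ / 10 := by
        rw [hρ]
        linarith
      have q5 : δ * s < |c - s| := hk.2
      have q6 : |c - s| ≤ |a - s| + (c - a) := by
        calc |c - s| = |(a - s) + (c - a)| := by ring_nf
          _ ≤ |a - s| + |c - a| := abs_add_le _ _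
          _ = |a - s| + (c - a) := by rw [abs_of_nonneg (show 0 ≤ c - a by linarith)]
      have q7 : a ≤ |a - s| + s := by
        have := le_abs_self (a - s)
        linarith
      have q8 : c - a ≤ ρ * (|a - s| + s) := by
        have : c - a ≤ ρ * a := by linarith
        exact this.trans (mul_le_mul_of_nonneg_left q7 hρ0.le)
      have q9 : ρ * (|a - s| + s) ≤ δ / 10 * (|a - s| + s) :=
        mul_le_mul_of_nonneg_right hρδ (by positivity)
      have q10 : δ / 10 * |a - s| ≤ 1 / 10 * |a - s| :=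
        mul_le_mul_of_nonneg_right (by linarith) (abs_nonneg _)
      have q11 : δ * s < |a - s| + (1 / 10 * |a - s| + δ / 10 * s) := by
        have : δ / 10 * (|a - s| + s) = δ / 10 * |a - s| + δ / 10 * s := by ring
        linarith
      have q12 : 0 < δ * s := mul_pos hδ hs0
      nlinarith
    · right
      rw [mem_Icc]
      exact ⟨hk.1.1, not_lt.1 hkη⟩
  have hc4 : ((δ / 2) ^ 2 * (y : ℝ) ^ ((1 : ℝ) / 2)) ^ (-(1 : ℝ) / 3) ≤ 2 * D ^ (-(1 : ℝ) / 3) := by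
    have e1 : (δ / 2) ^ 2 * (y : ℝ) ^ ((1 : ℝ) / 2) = D * (1 / 4) := by
      rw [hD]
      ring
    have e2 : (1 / 8 : ℝ) ^ (-(1 : ℝ) / 3) = 2 := by
      rw [show (1 / 8 : ℝ) = (2 : ℝ) ^ (-3 : ℝ) by
        rw [Real.rpow_neg (by norm_num)]; norm_num, ← Real.rpow_mul (by norm_num)]
      norm_num
    rw [e1, Real.mul_rpow hD0.le (by norm_num), mul_comm]
    apply mul_le_mul_of_nonneg_right _ hDc.le
    rw [← e2]
    exact Real.rpow_le_rpow_of_nonpos (by norm_num) (by norm_num) (by norm_num)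
  have hηD : η * X ≤ D ^ (-(1 : ℝ) / 3) * X := by
    apply mul_le_mul_of_nonneg_right _ hX0
    have e1 : D ≤ (y : ℝ) ^ ((1 : ℝ) / 2) := by
      rw [hD]
      calc δ ^ 2 * (y : ℝ) ^ ((1 : ℝ) / 2) ≤ 1 * (y : ℝ) ^ ((1 : ℝ) / 2) :=
            mul_le_mul_of_nonneg_right (by nlinarith) (by positivity)
        _ = _ := one_mul _
    have e2 : (y : ℝ) ^ (-(1 : ℝ) / 6) ≤ D ^ (-(1 : ℝ) / 3) := by
      calc (y : ℝ) ^ (-(1 : ℝ) / 6) = ((y : ℝ) ^ ((1 : ℝ) / 2)) ^ (-(1 : ℝ) / 3) := by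
            rw [← Real.rpow_mul hypos.le]
            norm_num
        _ ≤ D ^ (-(1 : ℝ) / 3) := Real.rpow_le_rpow_of_nonpos hD0 e1 (by norm_num)
    have e3 : 0 < (y : ℝ) ^ (-(1 : ℝ) / 6) := by positivity
    rw [hη]
    linarith
  calc ((((Icc 1 X).filter (fun k => δ * (HL.S y k * R) <
        |(cE A X M k : ℝ) - HL.S y k * R|)).card : ℕ) : ℝ)
      ≤ ((B1 ∪ Icc 1 ⌊η * X⌋₊).card : ℝ) := by exact_mod_cast Finset.card_le_card hsub
    _ ≤ (B1.card : ℝ) + (Icc 1 ⌊η * X⌋₊).card := by exact_mod_cast Finset.card_union_le _ _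
    _ ≤ (4 * Real.exp 46 + (5 * (K1 + 1)) / 4) *
          ((δ / 2) ^ 2 * (y : ℝ) ^ ((1 : ℝ) / 2)) ^ (-(1 : ℝ) / 3) * X + D ^ (-(1 : ℝ) / 3) * X := by
        apply add_le_add hr
        rw [Nat.card_Icc, Nat.add_sub_cancel]
        exact (Nat.floor_le (by positivity)).trans hηD
    _ ≤ (4 * Real.exp 46 + (5 * (K1 + 1)) / 4) * (2 * D ^ (-(1 : ℝ) / 3)) * X +
          D ^ (-(1 : ℝ) / 3) * X := by
        apply add_le_add _ le_rfl
        apply mul_le_mul_of_nonneg_right _ hX0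
        exact mul_le_mul_of_nonneg_left hc4 (by positivity)
    _ = (2 * (4 * Real.exp 46 + (5 * (K1 + 1)) / 4) + 1) * D ^ (-(1 : ℝ) / 3) * X := by ring

end Pool.Agent.H43.TP
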