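import Pool.Agent.H43.UF.Pw
import Pool.Agent.H43.TP.Rest

/-!
# [H43 TP SA] Sparse sets, one factor of medium length

PROOF. `ℓ = log X`. `C`, `Bm` from `rest` (absolute). `A' = A + Bm + 3`, `A0 = A' + B + 3`. `UF.pwu B A'`:
`‖pol (cf χ i) (e i) t‖ <= ℓ^(-A')` on `E`. `rest` with `s = univ.erase i`, `T = X` (`E ⊆ [-X,X]`): with `S_s = S - e_i`,
`2^(S_s) >= X^(99/100-3/8) = X^(0.615)`: `|E| (2^(-S_s/4) + √X/2^(S_s)) <= X^(0.01) (X^(-0.153) + X^(-0.115)) <= 1` for `X`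
large. `1 + S_s <= 1 + S <= 3ℓ` (`2^S <= 2^9 X`). So `∫_E ‖bp‖^2 <= ℓ^(-2A') C (3ℓ)^Bm (1+ℓ) 2 <= ℓ^(-A)` for `X` large.
(`bp = pol_i * ∏_{erase i}`; see `SI/Me1.lean`.)
-/

namespace Pool.Agent.H43.TP

open Finset

theorem sa_cont (c : ℕ → ℂ) (a : ℕ) : Continuous (SI.pol c a) := by
  unfold SI.pol LF.ds
  refine continuous_finsetSum _ fun n _ => ?_
  refine continuous_const.mul ?_
  refine Continuous.const_cpow (by fun_prop) (Or.inr fun t h => ?_)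
  have := congrArg Complex.re h
  simp at this

theorem sa (B A : ℝ) (hB : 0 < B) (hA : 0 < A) : ∃ A0 X0 : ℝ, 0 < A0 ∧ 10 ≤ X0 ∧
    ∀ X : ℝ, X0 ≤ X → ∀ (q : ℕ) [NeZero q], (q : ℝ) ≤ (Real.log X) ^ B →
    ∀ (χ : DirichletCharacter ℂ q) (e : Fin 6 → ℕ) (E : Set ℝ),
    X ^ ((99 : ℝ) / 100) ≤ 2 ^ (∑ i, e i) → (2 : ℝ) ^ (∑ i, e i) ≤ 2 ^ 9 * X →
    (∃ i, Real.exp ((Real.log X) ^ (0.98 : ℝ)) ≤ 2 ^ (e i) ∧ (2 : ℝ) ^ (e i) ≤ X ^ ((3 : ℝ) / 8)) →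
    MeasurableSet E → (∀ t ∈ E, (Real.log X) ^ A0 ≤ |t| ∧ |t| ≤ X) →
    MeasureTheory.volume E ≤ ENNReal.ofReal (X ^ ((1 : ℝ) / 100)) →
    ∫ t in E, ‖SI.bp χ e t‖ ^ 2 ≤ (Real.log X) ^ (-A) := by
  obtain ⟨C, hC, Bm, hrest⟩ := rest
  obtain ⟨X1, hX1, hpw⟩ := UF.pwu B (A + Bm + 3) hB (by positivity)
  refine ⟨A + Bm + 3 + B + 3, max X1 (Real.exp (max 10 (4 * C * 3 ^ Bm))), by positivity,
    hX1.trans (le_max_left _ _), ?_⟩
  intro X hX q _ hq χ e E hXS hSX hi hEm hE hvol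
  obtain ⟨i, hi1, hi2⟩ := hi
  have hXX1 : X1 ≤ X := (le_max_left _ _).trans hX
  have hX0 : 0 < X := by linarith
  have hX1' : 1 ≤ X := by linarith
  have hLM : max 10 (4 * C * 3 ^ Bm) ≤ Real.log X :=
    (Real.le_log_iff_exp_le hX0).2 ((le_max_right _ _).trans hX)
  have hpw' : ∀ t ∈ E, ‖SI.pol (SI.cf χ i) (e i) t‖ ≤ (Real.log X) ^ (-(A + Bm + 3)) := by
    intro t ht
    have heX : (2 : ℝ) ^ (e i) ≤ X := by
      refine hi2.trans ?_
      have := Real.rpow_le_rpow_of_exponent_le hX1' (show (3 : ℝ) / 8 ≤ 1 by norm_num)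
      rwa [Real.rpow_one] at this
    exact hpw X hXX1 q hq χ i (e i) t hi1 heX (hE t ht).1 (hE t ht).2
  set L := Real.log X with hL
  have hL10 : 10 ≤ L := (le_max_left _ _).trans hLM
  have hLC : 4 * C * 3 ^ Bm ≤ L := (le_max_right _ _).trans hLM
  have hL0 : 0 < L := by linarith
  have hL1 : 1 ≤ L := by linarith
  set g : ℝ → ℝ := fun t => ‖∏ j ∈ univ.erase i, SI.pol (SI.cf χ j) (e j) t‖ ^ 2 with hg
  have hgc : Continuous g := by
    refine (Continuous.norm ?_).pow 2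
    exact continuous_finsetProd _ fun j _ => sa_cont _ _
  have hbc : Continuous (fun t => ‖SI.bp χ e t‖ ^ 2) := by
    refine (Continuous.norm ?_).pow 2
    unfold SI.bp
    exact continuous_finsetProd _ fun j _ => sa_cont _ _
  have hEsub : E ⊆ Set.Icc (-X) X := fun t ht => abs_le.1 (hE t ht).2
  have hgi : MeasureTheory.IntegrableOn g (Set.Icc (-X) X) := hgc.integrableOn_Icc
  have hbi : MeasureTheory.IntegrableOn (fun t => ‖SI.bp χ e t‖ ^ 2) (Set.Icc (-X) X) :=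
    hbc.integrableOn_Icc
  set c : ℝ := (L ^ (-(A + Bm + 3))) ^ 2 with hc
  have hc0 : 0 ≤ c := by positivity
  have hpt : ∀ t ∈ E, ‖SI.bp χ e t‖ ^ 2 ≤ c * g t := by
    intro t ht
    have h2 : SI.bp χ e t = SI.pol (SI.cf χ i) (e i) t *
        ∏ j ∈ univ.erase i, SI.pol (SI.cf χ j) (e j) t := by
      unfold SI.bp
      rw [Finset.mul_prod_erase univ (fun j => SI.pol (SI.cf χ j) (e j) t) (mem_univ i)]
    rw [h2, norm_mul, mul_pow]
    exact mul_le_mul_of_nonneg_right (pow_le_pow_left₀ (norm_nonneg _) (hpw' t ht) 2)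
      (by positivity)
  have h1 : ∫ t in E, ‖SI.bp χ e t‖ ^ 2 ≤ ∫ t in E, c * g t :=
    MeasureTheory.setIntegral_mono_on (hbi.mono_set hEsub) ((hgi.mono_set hEsub).const_mul c)
      hEm hpt
  have h2 : ∫ t in E, c * g t = c * ∫ t in E, g t := MeasureTheory.integral_const_mul c _
  have h5 := hrest q χ e (univ.erase i) X E hX1' hEm hEsub
  have hS : ∑ j ∈ univ.erase i, e j + e i = ∑ j, e j := Finset.sum_erase_add univ e (mem_univ i)
  set S' : ℕ := ∑ j ∈ univ.erase i, e j with hS'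
  have h6 : X ^ ((615 : ℝ) / 1000) ≤ 2 ^ S' := by
    have h7 : X ^ ((99 : ℝ) / 100) ≤ 2 ^ S' * X ^ ((3 : ℝ) / 8) := by
      refine hXS.trans ?_
      rw [← hS, pow_add]
      exact mul_le_mul_of_nonneg_left hi2 (by positivity)
    have h8 : X ^ ((615 : ℝ) / 1000) * X ^ ((3 : ℝ) / 8) ≤ X ^ ((99 : ℝ) / 100) := by
      rw [← Real.rpow_add hX0]
      exact Real.rpow_le_rpow_of_exponent_le hX1' (by norm_num)
    exact le_of_mul_le_mul_right (h8.trans h7) (by positivity)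
  have h7 : (2 : ℝ) ^ (-(S' : ℝ) / 4) ≤ X ^ (-(15375 : ℝ) / 100000) := by
    have e1 : (2 : ℝ) ^ (-(S' : ℝ) / 4) = (2 ^ S' : ℝ) ^ (-(1 : ℝ) / 4) := by
      rw [← Real.rpow_natCast, ← Real.rpow_mul (by norm_num)]
      congr 1
      ring
    have e2 : X ^ (-(15375 : ℝ) / 100000) = (X ^ ((615 : ℝ) / 1000)) ^ (-(1 : ℝ) / 4) := by
      rw [← Real.rpow_mul hX0.le]
      congr 1
      norm_num
    rw [e1, e2]
    exact Real.rpow_le_rpow_of_nonpos (by positivity) h6 (by norm_num)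
  have h8 : Real.sqrt X / 2 ^ S' ≤ X ^ (-(115 : ℝ) / 1000) := by
    rw [div_le_iff₀ (by positivity), Real.sqrt_eq_rpow]
    have e3 : X ^ ((1 : ℝ) / 2) = X ^ (-(115 : ℝ) / 1000) * X ^ ((615 : ℝ) / 1000) := by
      rw [← Real.rpow_add hX0]
      congr 1
      norm_num
    rw [e3]
    exact mul_le_mul_of_nonneg_left h6 (by positivity)
  have hv : (MeasureTheory.volume E).toReal ≤ X ^ ((1 : ℝ) / 100) :=
    ENNReal.toReal_le_of_le_ofReal (by positivity) hvol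
  have hX1024 : (1024 : ℝ) ≤ X := by
    have h9 : Real.exp 10 ≤ X := (Real.le_log_iff_exp_le hX0).1 hL10
    have h10 : (1024 : ℝ) ≤ Real.exp 10 := by
      have h11 : (2 : ℝ) ≤ Real.exp 1 := by
        have := Real.add_one_le_exp (1 : ℝ)
        linarith
      have h12 : Real.exp 10 = Real.exp 1 ^ 10 := by
        rw [← Real.exp_nat_mul]
        norm_num
      rw [h12]
      calc (1024 : ℝ) = 2 ^ 10 := by norm_num
        _ ≤ Real.exp 1 ^ 10 := pow_le_pow_left₀ (by norm_num) h11 10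
    linarith
  have hX10 : X ^ (-(1 : ℝ) / 10) ≤ 1 / 2 := by
    have e4 : (1 : ℝ) / 2 = (1024 : ℝ) ^ (-(1 : ℝ) / 10) := by
      have : (1024 : ℝ) = 2 ^ (10 : ℝ) := by norm_num
      rw [this, ← Real.rpow_mul (by norm_num)]
      rw [show (10 : ℝ) * (-1 / 10) = -1 by norm_num, Real.rpow_neg_one]
      norm_num
    rw [e4]
    exact Real.rpow_le_rpow_of_nonpos (by norm_num) hX1024 (by norm_num)
  have h13 : (MeasureTheory.volume E).toReal *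
      ((2 : ℝ) ^ (-(S' : ℝ) / 4) + Real.sqrt X / 2 ^ S') ≤ 1 := by
    have e5 : (2 : ℝ) ^ (-(S' : ℝ) / 4) ≤ X ^ (-(11 : ℝ) / 100) :=
      h7.trans (Real.rpow_le_rpow_of_exponent_le hX1' (by norm_num))
    have e6 : Real.sqrt X / 2 ^ S' ≤ X ^ (-(11 : ℝ) / 100) :=
      h8.trans (Real.rpow_le_rpow_of_exponent_le hX1' (by norm_num))
    have e7 : X ^ ((1 : ℝ) / 100) * X ^ (-(11 : ℝ) / 100) = X ^ (-(1 : ℝ) / 10) := by
      rw [← Real.rpow_add hX0]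
      congr 1
      norm_num
    calc (MeasureTheory.volume E).toReal *
        ((2 : ℝ) ^ (-(S' : ℝ) / 4) + Real.sqrt X / 2 ^ S')
        ≤ X ^ ((1 : ℝ) / 100) * (X ^ (-(11 : ℝ) / 100) + X ^ (-(11 : ℝ) / 100)) :=
          mul_le_mul hv (add_le_add e5 e6) (by positivity) (by positivity)
      _ = 2 * (X ^ ((1 : ℝ) / 100) * X ^ (-(11 : ℝ) / 100)) := by ring
      _ ≤ 1 := by rw [e7]; linarith
  have h9 : (1 + (S' : ℝ)) ≤ 3 * L := by
    have h10 : (S' : ℝ) ≤ ((∑ j, e j : ℕ) : ℝ) := by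
      exact_mod_cast (by omega : S' ≤ ∑ j, e j)
    have h11 : ((∑ j, e j : ℕ) : ℝ) * Real.log 2 ≤ 9 * Real.log 2 + L := by
      have h12 := Real.log_le_log (by positivity) hSX
      rw [Real.log_mul (by positivity) hX0.ne', Real.log_pow, Real.log_pow] at h12
      push_cast at h12 ⊢
      exact h12
    have h13 : (0.69 : ℝ) < Real.log 2 := by
      have := Real.log_two_gt_d9
      linarith
    have h14 : Real.log 2 < 0.7 := by
      have := Real.log_two_lt_d9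
      linarith
    have h15 : (0 : ℝ) ≤ ((∑ j, e j : ℕ) : ℝ) := Nat.cast_nonneg _
    nlinarith
  have h16 : (1 + (S' : ℝ)) ^ Bm ≤ (3 * L) ^ Bm := pow_le_pow_left₀ (by positivity) h9 Bm
  have h17 : C * (1 + (S' : ℝ)) ^ Bm * (1 + L) * (1 + (MeasureTheory.volume E).toReal *
      ((2 : ℝ) ^ (-(S' : ℝ) / 4) + Real.sqrt X / 2 ^ S')) ≤ C * (3 * L) ^ Bm * (2 * L) * 2 := by
    refine mul_le_mul (mul_le_mul (mul_le_mul_of_nonneg_left h16 hC.le) (by linarith)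
      (by positivity) (by positivity)) (by linarith) (by positivity) (by positivity)
  have h18 : c * (C * (3 * L) ^ Bm * (2 * L) * 2) ≤ L ^ (-A) := by
    have e1 : c = L ^ (-A) * (L ^ (-(A + Bm + 4)) * L ^ (-(Bm : ℝ)) * L ^ (-1 : ℝ) *
        L ^ (-1 : ℝ)) := by
      rw [hc, ← Real.rpow_natCast, ← Real.rpow_mul hL0.le, ← Real.rpow_add hL0,
        ← Real.rpow_add hL0, ← Real.rpow_add hL0, ← Real.rpow_add hL0]
      congr 1
      push_cast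
      ring
    have e2 : (3 * L) ^ Bm = 3 ^ Bm * L ^ (Bm : ℝ) := by
      rw [mul_pow, Real.rpow_natCast]
    have e3 : L ^ (-(Bm : ℝ)) * L ^ (Bm : ℝ) = 1 := by
      rw [← Real.rpow_add hL0]
      simp
    have e6 : L ^ (-1 : ℝ) * L = 1 := by
      rw [Real.rpow_neg_one, inv_mul_cancel₀ hL0.ne']
    have e5 : L ^ (-(A + Bm + 4)) ≤ 1 := by
      refine Real.rpow_le_one_of_one_le_of_nonpos hL1 ?_
      have : (0 : ℝ) ≤ Bm := Nat.cast_nonneg _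
      linarith
    have hLA : 0 < L ^ (-A) := by positivity
    rw [e1, e2]
    have e7 : L ^ (-A) * (L ^ (-(A + Bm + 4)) * L ^ (-(Bm : ℝ)) * L ^ (-1 : ℝ) *
        L ^ (-1 : ℝ)) * (C * (3 ^ Bm * L ^ (Bm : ℝ)) * (2 * L) * 2) =
        L ^ (-A) * (L ^ (-(A + Bm + 4)) * (L ^ (-1 : ℝ) * (4 * C * 3 ^ Bm)) *
          (L ^ (-(Bm : ℝ)) * L ^ (Bm : ℝ)) * (L ^ (-1 : ℝ) * L)) := by ring
    rw [e7, e3, e6, mul_one, mul_one]
    have e8 : L ^ (-1 : ℝ) * (4 * C * 3 ^ Bm) ≤ 1 := by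
      calc L ^ (-1 : ℝ) * (4 * C * 3 ^ Bm) ≤ L ^ (-1 : ℝ) * L :=
            mul_le_mul_of_nonneg_left hLC (by positivity)
        _ = 1 := e6
    have e9 : L ^ (-(A + Bm + 4)) * (L ^ (-1 : ℝ) * (4 * C * 3 ^ Bm)) ≤ 1 * 1 :=
      mul_le_mul e5 e8 (by positivity) zero_le_one
    calc L ^ (-A) * (L ^ (-(A + Bm + 4)) * (L ^ (-1 : ℝ) * (4 * C * 3 ^ Bm)))
        ≤ L ^ (-A) * (1 * 1) := mul_le_mul_of_nonneg_left e9 hLA.le
      _ = L ^ (-A) := by ring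
  calc ∫ t in E, ‖SI.bp χ e t‖ ^ 2 ≤ c * ∫ t in E, g t := h1.trans h2.le
    _ ≤ c * (C * (1 + (S' : ℝ)) ^ Bm * (1 + L) * (1 + (MeasureTheory.volume E).toReal *
      ((2 : ℝ) ^ (-(S' : ℝ) / 4) + Real.sqrt X / 2 ^ S'))) := mul_le_mul_of_nonneg_left h5 hc0
    _ ≤ c * (C * (3 * L) ^ Bm * (2 * L) * 2) := mul_le_mul_of_nonneg_left h17 hc0
    _ ≤ L ^ (-A) := h18

end Pool.Agent.H43.TP
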