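import Pool.Agent.H43.TP.Ram

/-!
# [H43 TP SING] The singular series as a product

PROOF. `ar_prime`: `Σ_{m<p} c_p(m^3+k) = ν(p-1) - (p-ν) = p(ν-1)` (`ram_prime`, `HL.nu`), so
`ar p k = -(1/(p-1)) (ν-1) = (1-ν)/(p-1)`. `ar_mul`: for coprime `r, s` the map `m mod rs ↦ (m mod r, m mod s)` is a
bijection (`Nat.chineseRemainder`, or `ZMod.chineseRemainder`), `crd (rs) = crd r crd s` (`ram_mul`) and each factor depends
only on `m` modulo `r` resp. `s` (`ram_mod`), so the mean over `m mod rs` is the product of the means; `μ`, `φ` are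
multiplicative. `ar_one`. `sing`: `Σ_{r ∣ Wy y} ar r k = ∏_{p <= y} (1 + ar p k)` by induction over the primes (for a
squarefree number `W = W' p` with `p ∤ W'` the divisors of `W` are `r` and `p r`, `r ∣ W'`), and
`1 + (1-ν)/(p-1) = (1-ν/p)/(1-1/p)`. `ar_abs`: for squarefree `r` (otherwise `μ(r) = 0`) `|ar r k| <= (1/φ(r)) φ(r) = 1`
by `ram_abs`. `ar_mod`: `m^3 + k mod r` depends on `k mod r`.
-/

namespace Pool.Agent.H43.TP

open Finset

theorem ar_one (k : ℕ) : ar 1 k = 1 := by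
  unfold ar
  simp [ram_one]

theorem ar_prime (p k : ℕ) (hp : p.Prime) : ar p k = (1 - (HL.nu p k : ℝ)) / ((p : ℝ) - 1) := by
  have hp1 : (1 : ℝ) < p := by exact_mod_cast hp.one_lt
  have h1 : ∑ m ∈ range p, (crd p (m ^ 3 + k) : ℝ) = (p : ℝ) * ((HL.nu p k : ℝ) - 1) := by
    have e : ∀ m ∈ range p, (crd p (m ^ 3 + k) : ℝ) =
        (if p ∣ m ^ 3 + k then (p : ℝ) else 0) - 1 := by
      intro m _
      rw [ram_prime p _ hp]
      split_ifs
      · push_cast; ring
      · push_cast; ring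
    rw [sum_congr rfl e, sum_sub_distrib, ← sum_filter, sum_const, sum_const, card_range]
    unfold HL.nu
    rw [nsmul_eq_mul, nsmul_eq_mul]
    ring
  unfold ar
  rw [h1, ArithmeticFunction.moebius_apply_prime hp, Nat.totient_prime hp,
    Nat.cast_sub hp.one_lt.le]
  have h0 : (p : ℝ) ≠ 0 := by positivity
  have h2 : (p : ℝ) - 1 ≠ 0 := by linarith
  push_cast
  field_simp
  ring

/-- sum of a product over a period -/
theorem sum_crt (r s : ℕ) (h : Nat.Coprime r s) (hr : r ≠ 0) (hs : s ≠ 0) (f g : ℕ → ℝ)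
    (hf : ∀ m n, m % r = n % r → f m = f n) (hg : ∀ m n, m % s = n % s → g m = g n) :
    ∑ m ∈ range (r * s), f m * g m = (∑ a ∈ range r, f a) * ∑ b ∈ range s, g b := by
  rw [sum_mul_sum, ← sum_product']
  refine sum_bij' (fun m _ => (m % r, m % s))
    (fun ab _ => ((Nat.chineseRemainder h ab.1 ab.2 : { k // k ≡ ab.1 [MOD r] ∧ k ≡ ab.2 [MOD s] }) : ℕ))
    ?_ ?_ ?_ ?_ ?_
  · intro m _
    exact mem_product.2 ⟨mem_range.2 (Nat.mod_lt _ (Nat.pos_of_ne_zero hr)),
      mem_range.2 (Nat.mod_lt _ (Nat.pos_of_ne_zero hs))⟩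
  · intro ab _
    exact mem_range.2 (Nat.chineseRemainder_lt_mul h _ _ hr hs)
  · intro m hm
    have h1 : m ≡ Nat.chineseRemainder h (m % r) (m % s) [MOD r * s] :=
      Nat.chineseRemainder_modEq_unique h (Nat.mod_modEq m r).symm (Nat.mod_modEq m s).symm
    exact (Nat.ModEq.eq_of_lt_of_lt h1 (mem_range.1 hm)
      (Nat.chineseRemainder_lt_mul h _ _ hr hs)).symm
  · rintro ⟨a, b⟩ hab
    obtain ⟨ha, hb⟩ := mem_product.1 hab
    have h1 := (Nat.chineseRemainder h a b).2
    refine Prod.ext ?_ ?_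
    · exact Nat.mod_eq_of_modEq h1.1 (mem_range.1 ha)
    · exact Nat.mod_eq_of_modEq h1.2 (mem_range.1 hb)
  · intro m _
    rw [hf m (m % r) (Nat.mod_mod _ _).symm, hg m (m % s) (Nat.mod_mod _ _).symm]

theorem crd_cube_mod (r k m n : ℕ) (h : m % r = n % r) : crd r (m ^ 3 + k) = crd r (n ^ 3 + k) :=
  ram_mod r _ _ ((Nat.ModEq.pow 3 h).add_right k)

theorem ar_mul (r s k : ℕ) (h : Nat.Coprime r s) : ar (r * s) k = ar r k * ar s k := by
  rcases Nat.eq_zero_or_pos r with rfl | hr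
  · have h1 : s = 1 := by simpa using h
    rw [h1, ar_one, mul_one, mul_one]
  rcases Nat.eq_zero_or_pos s with rfl | hs
  · have h1 : r = 1 := by simpa using h
    rw [h1, ar_one, one_mul, one_mul]
  have h1 : ∑ m ∈ range (r * s), (crd (r * s) (m ^ 3 + k) : ℝ) =
      (∑ a ∈ range r, (crd r (a ^ 3 + k) : ℝ)) * ∑ b ∈ range s, (crd s (b ^ 3 + k) : ℝ) := by
    rw [← sum_crt r s h hr.ne' hs.ne' (fun m => (crd r (m ^ 3 + k) : ℝ))
      (fun m => (crd s (m ^ 3 + k) : ℝ)) (fun m n hmn => by rw [crd_cube_mod r k m n hmn])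
      (fun m n hmn => by rw [crd_cube_mod s k m n hmn])]
    refine sum_congr rfl fun m _ => ?_
    rw [ram_mul r s _ h]
    push_cast
    rfl
  unfold ar
  rw [h1, ArithmeticFunction.isMultiplicative_moebius.map_mul_of_coprime h, Nat.totient_mul h]
  have hr0 : (r : ℝ) ≠ 0 := by positivity
  have hs0 : (s : ℝ) ≠ 0 := by positivity
  have hr1 : (r.totient : ℝ) ≠ 0 := by
    have := Nat.totient_pos.2 hr
    positivity
  have hs1 : (s.totient : ℝ) ≠ 0 := by
    have := Nat.totient_pos.2 hs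
    positivity
  push_cast
  field_simp

theorem ar_abs (r k : ℕ) : |ar r k| ≤ 1 := by
  rcases Nat.eq_zero_or_pos r with rfl | hr
  · unfold ar
    simp
  have hr0 : (0 : ℝ) < r := by exact_mod_cast hr
  have hr1 : (0 : ℝ) < r.totient := by exact_mod_cast Nat.totient_pos.2 hr
  unfold ar
  rw [abs_mul, abs_div, abs_mul, Nat.abs_cast, abs_of_pos (by positivity : (0 : ℝ) < 1 / r)]
  have h1 : |((ArithmeticFunction.moebius r : ℤ) : ℝ)| ≤ 1 := by
    have := ArithmeticFunction.abs_moebius_le_one (n := r)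
    exact_mod_cast this
  have h2 : |∑ m ∈ range r, (crd r (m ^ 3 + k) : ℝ)| ≤ r * r.totient := by
    refine (abs_sum_le_sum_abs _ _).trans ?_
    refine (sum_le_sum fun m _ => ram_abs r _ hr).trans ?_
    rw [sum_const, card_range, nsmul_eq_mul]
  calc |((ArithmeticFunction.moebius r : ℤ) : ℝ)| / (r.totient : ℝ) *
        (1 / (r : ℝ) * |∑ m ∈ range r, (crd r (m ^ 3 + k) : ℝ)|)
      ≤ 1 / (r.totient : ℝ) * (1 / (r : ℝ) * (r * r.totient)) := by
        gcongr
    _ = 1 := by field_simp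

theorem ar_mod (r k k' : ℕ) (h : k % r = k' % r) : ar r k = ar r k' := by
  unfold ar
  congr 2
  refine sum_congr rfl fun m _ => ?_
  rw [ram_mod r (m ^ 3 + k) (m ^ 3 + k') (Nat.ModEq.add_left (m ^ 3) h)]

theorem ar_sqf (r k : ℕ) (h : ¬ Squarefree r) : ar r k = 0 := by
  unfold ar
  rw [ArithmeticFunction.moebius_eq_zero_of_not_squarefree h]
  simp

theorem Wy_eq (y : ℕ) : Wy y = primorial y := by
  unfold Wy primorial
  refine prod_congr ?_ fun _ _ => rfl
  ext p
  simp only [mem_filter, mem_Icc, mem_range]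
  constructor
  · rintro ⟨h1, h2⟩
    exact ⟨by omega, h2⟩
  · rintro ⟨h1, h2⟩
    exact ⟨⟨h2.one_lt.le, by omega⟩, h2⟩

/-- `ar · k` as an arithmetic function -/
noncomputable def arF (k : ℕ) : ArithmeticFunction ℝ := ⟨fun r => ar r k, by unfold ar; simp⟩

theorem arF_mult (k : ℕ) : (arF k).IsMultiplicative :=
  ⟨ar_one k, fun {_ _} h => ar_mul _ _ k h⟩

theorem sing (y k : ℕ) : HL.S y k = ∑ r ∈ (Wy y).divisors, ar r k := by
  have hsq : Squarefree (Wy y) := by
    rw [Wy_eq]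
    exact squarefree_primorial y
  have h := (arF_mult k).prodPrimeFactors_one_add_of_squarefree hsq
  have hpf : (Wy y).primeFactors = (Icc 1 y).filter Nat.Prime := by
    unfold Wy
    exact Nat.primeFactors_prod fun p hp => (mem_filter.1 hp).2
  rw [hpf] at h
  change _ = ∑ r ∈ (Wy y).divisors, ar r k at h
  rw [← h]
  unfold HL.S
  refine prod_congr rfl fun p hp => ?_
  have hpp := (mem_filter.1 hp).2
  change _ = 1 + ar p k
  rw [ar_prime p k hpp]
  have hp1 : (1 : ℝ) < p := by exact_mod_cast hpp.one_lt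
  have h0 : (p : ℝ) ≠ 0 := by positivity
  have h2 : (p : ℝ) - 1 ≠ 0 := by linarith
  have h3 : 1 - 1 / (p : ℝ) ≠ 0 := by
    have : 1 / (p : ℝ) < 1 := by
      rw [div_lt_one (by linarith)]
      exact hp1
    linarith
  field_simp
  ring

end Pool.Agent.H43.TP
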