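import Pool.Agent.H43.TP.Add

/-!
# [H43 TP TH] From `gg` to `ge`, all residue classes

PROOF. `ℓ = log X`. (1) `0 <= gg - ge = Σ_{p ∣ n, n/p a proper prime power} Λ(n/p)`, and `(gg - ge)(n) ≠ 0` only if `n = p p'^r`,
`p ∈ (P,P2]`, `r >= 2`: the number of such `n <= 3X` is at most `P2 * #{proper prime powers <= 3X} <= ℓ^A3 * 4 √X ℓ`
(e.g. `p'^r <= 3X`, `r >= 2`: `p' <= √(3X)`, `r <= 2 log(3X)`); `gg(n) <= P2 log n`. So
`Σ_{n<=3X} (gg-ge)(n)^2 <= X^(0.6)` for `X` large. For windows: `(Σ_{m ∈ window} (gg-ge)(m))^2 <= H Σ_window (gg-ge)^2`, and each `m`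
lies in at most `H` windows: the total is `<= H^2 X^(0.6)`.
(2) `(c,q) = 1`: `c` is a unit of `ZMod q`, `m % q = c` iff `(m : ZMod q) = c` (`c < q`), `addw` with `(B, A+1)` and (1).
(3) `(c,q) > 1`: a prime `p0` divides `c` and `q`, so it divides every `m ≡ c`. If `ge m ≠ 0` then `m = p p'` with primes `p > P`, so
`p0 = p` or `p0 = p'`; `p0 <= q <= ℓ^B < ℓ^A2 <= P < p` (take `A2 >= B + 1`), so `p0 = p'`, `m <= P2 q <= ℓ^(A3+B) < X` for `X` large:
all windows sums over `m > X` are `0`. `(a+b)^2 <= 2a^2 + 2b^2`.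
-/

namespace Pool.Agent.H43.TP

open Finset

private noncomputable def bb (m : ℕ) : ℝ := if m.Prime then 0 else ArithmeticFunction.vonMangoldt m

private theorem bb_nonneg (m : ℕ) : 0 ≤ bb m := by
  unfold bb
  split_ifs
  · exact le_rfl
  · exact ArithmeticFunction.vonMangoldt_nonneg

/-- the difference `gg - ge` -/
private noncomputable def ddf (D D' n : ℕ) : ℝ :=
  ∑ p ∈ (Ioc D D').filter (fun p => p.Prime ∧ p ∣ n), bb (n / p)

private theorem ddf_nonneg (D D' n : ℕ) : 0 ≤ ddf D D' n := sum_nonneg fun _ _ => bb_nonneg _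

private theorem gg_eq (D D' n : ℕ) : gg D D' n = ge D D' n + ddf D D' n := by
  unfold gg ge ddf
  have h : (Ioc D D').filter (fun p => p.Prime ∧ p ∣ n ∧ (n / p).Prime) =
      ((Ioc D D').filter (fun p => p.Prime ∧ p ∣ n)).filter (fun p => (n / p).Prime) := by
    ext p
    simp only [mem_filter]
    tauto
  have h0 : ∑ p ∈ ((Ioc D D').filter (fun p => p.Prime ∧ p ∣ n)).filter (fun p => (n / p).Prime),
      Real.log ((n / p : ℕ) : ℝ) = ∑ p ∈ (Ioc D D').filter (fun p => p.Prime ∧ p ∣ n),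
      if (n / p).Prime then Real.log ((n / p : ℕ) : ℝ) else 0 := sum_filter _ _
  rw [h, h0, ← sum_add_distrib]
  refine sum_congr rfl fun p _ => ?_
  unfold bb
  split_ifs with h1
  · rw [ArithmeticFunction.vonMangoldt_apply_prime h1, add_zero]
  · rw [zero_add]

private theorem ddf_le {D D' n M : ℕ} (hn : n ∈ Ioc 0 M) :
    ddf D D' n ≤ D' * Real.log M := by
  rw [mem_Ioc] at hn
  have hM : (1 : ℝ) ≤ (M : ℝ) := by exact_mod_cast (by omega : 1 ≤ M)
  have hl : 0 ≤ Real.log M := Real.log_nonneg hM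
  unfold ddf
  calc ∑ p ∈ (Ioc D D').filter (fun p => p.Prime ∧ p ∣ n), bb (n / p)
      ≤ ∑ p ∈ (Ioc D D').filter (fun p => p.Prime ∧ p ∣ n), Real.log M := by
        refine sum_le_sum fun p hp => ?_
        rw [mem_filter] at hp
        unfold bb
        split_ifs
        · exact hl
        · refine ArithmeticFunction.vonMangoldt_le_log.trans ?_
          have h1 : 0 < n / p := Nat.div_pos (Nat.le_of_dvd hn.1 hp.2.2) hp.2.1.pos
          exact Real.log_le_log (by exact_mod_cast h1)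
            (by exact_mod_cast (Nat.div_le_self n p).trans hn.2)
    _ = (((Ioc D D').filter (fun p => p.Prime ∧ p ∣ n)).card : ℝ) * Real.log M := by
        rw [sum_const, nsmul_eq_mul]
    _ ≤ D' * Real.log M := by
        refine mul_le_mul_of_nonneg_right ?_ hl
        have h2 : ((Ioc D D').filter (fun p => p.Prime ∧ p ∣ n)).card ≤ D' := by
          refine (card_le_card (filter_subset _ _)).trans ?_
          rw [Nat.card_Ioc]
          omega
        exact_mod_cast h2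

private theorem bb_sum (M : ℕ) (hM : 1 ≤ M) :
    ∑ k ∈ Ioc 0 M, bb k ≤ 2 * Real.sqrt M * Real.log M := by
  have h1 := Chebyshev.psi_sub_theta_le (x := (M : ℝ)) (by exact_mod_cast hM)
  rw [Chebyshev.psi_sub_theta_eq_sum_not_prime, Nat.floor_natCast, sum_filter] at h1
  refine le_trans (le_of_eq (sum_congr rfl fun k _ => ?_)) h1
  unfold bb
  split_ifs <;> rfl

private theorem ddf_sum (D D' M : ℕ) (hM : 1 ≤ M) :
    ∑ n ∈ Ioc 0 M, ddf D D' n ≤ D' * (2 * Real.sqrt M * Real.log M) := by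
  have hM1 : (1 : ℝ) ≤ (M : ℝ) := by exact_mod_cast hM
  have hl : 0 ≤ Real.log M := Real.log_nonneg hM1
  have h0 : ∀ n, ddf D D' n =
      ∑ p ∈ (Ioc D D').filter Nat.Prime, if p ∣ n then bb (n / p) else 0 := by
    intro n
    unfold ddf
    rw [← sum_filter, filter_filter]
  simp only [h0]
  rw [sum_comm]
  calc ∑ p ∈ (Ioc D D').filter Nat.Prime, ∑ n ∈ Ioc 0 M, (if p ∣ n then bb (n / p) else 0)
      ≤ ∑ p ∈ (Ioc D D').filter Nat.Prime, 2 * Real.sqrt M * Real.log M := by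
        refine sum_le_sum fun p hp => ?_
        have hpp : p.Prime := (mem_filter.1 hp).2
        refine le_trans ?_ (bb_sum M hM)
        rw [← sum_filter]
        have h3 : Set.InjOn (fun n => n / p) (((Ioc 0 M).filter fun n => p ∣ n : Finset ℕ) : Set ℕ) := by
          intro a ha b hb hab
          rw [mem_coe, mem_filter] at ha hb
          simp only at hab
          rw [← Nat.div_mul_cancel ha.2, ← Nat.div_mul_cancel hb.2, hab]
        rw [← sum_image (f := bb) h3]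
        refine sum_le_sum_of_subset_of_nonneg ?_ fun _ _ _ => bb_nonneg _
        intro k hk
        rw [mem_image] at hk
        obtain ⟨n, hn, rfl⟩ := hk
        rw [mem_filter, mem_Ioc] at hn
        rw [mem_Ioc]
        exact ⟨Nat.div_pos (Nat.le_of_dvd hn.1.1 hn.2) hpp.pos, (Nat.div_le_self n p).trans hn.1.2⟩
    _ = (((Ioc D D').filter Nat.Prime).card : ℝ) * (2 * Real.sqrt M * Real.log M) := by
        rw [sum_const, nsmul_eq_mul]
    _ ≤ D' * (2 * Real.sqrt M * Real.log M) := by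
        refine mul_le_mul_of_nonneg_right ?_ (by positivity)
        have h2 : ((Ioc D D').filter Nat.Prime).card ≤ D' := by
          refine (card_le_card (filter_subset _ _)).trans ?_
          rw [Nat.card_Ioc]
          omega
        exact_mod_cast h2

private theorem ddf_sq (D D' M : ℕ) (hM : 1 ≤ M) :
    ∑ n ∈ Ioc 0 M, ddf D D' n ^ 2 ≤ 2 * (D' : ℝ) ^ 2 * Real.sqrt M * (Real.log M) ^ 2 := by
  have hM1 : (1 : ℝ) ≤ (M : ℝ) := by exact_mod_cast hM
  have hl : 0 ≤ Real.log M := Real.log_nonneg hM1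
  calc ∑ n ∈ Ioc 0 M, ddf D D' n ^ 2 ≤ ∑ n ∈ Ioc 0 M, (D' * Real.log M) * ddf D D' n := by
        refine sum_le_sum fun n hn => ?_
        rw [sq]
        exact mul_le_mul_of_nonneg_right (ddf_le hn) (ddf_nonneg _ _ _)
    _ = (D' * Real.log M) * ∑ n ∈ Ioc 0 M, ddf D D' n := by rw [mul_sum]
    _ ≤ (D' * Real.log M) * (D' * (2 * Real.sqrt M * Real.log M)) :=
        mul_le_mul_of_nonneg_left (ddf_sum D D' M hM) (by positivity)
    _ = 2 * (D' : ℝ) ^ 2 * Real.sqrt M * (Real.log M) ^ 2 := by ring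

private theorem win_sq (f : ℕ → ℝ) (hf : ∀ n, 0 ≤ f n) (q c N1 N2 H M : ℕ) (hM : N2 + H ≤ M) :
    ∑ n ∈ Ioc N1 N2, (∑ m ∈ (Ioc n (n + H)).filter (fun m => m % q = c), f m) ^ 2 ≤
      (H : ℝ) ^ 2 * ∑ m ∈ Ioc 0 M, f m ^ 2 := by
  calc ∑ n ∈ Ioc N1 N2, (∑ m ∈ (Ioc n (n + H)).filter (fun m => m % q = c), f m) ^ 2
      ≤ ∑ n ∈ Ioc N1 N2, (H : ℝ) * ∑ i ∈ Ioc 0 H, f (n + i) ^ 2 := by
        refine sum_le_sum fun n _ => ?_
        have h1 : ∑ m ∈ (Ioc n (n + H)).filter (fun m => m % q = c), f m ≤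
            ∑ m ∈ Ioc n (n + H), f m :=
          sum_le_sum_of_subset_of_nonneg (filter_subset _ _) fun _ _ _ => hf _
        have h2 : 0 ≤ ∑ m ∈ (Ioc n (n + H)).filter (fun m => m % q = c), f m :=
          sum_nonneg fun _ _ => hf _
        have h3 : Ioc n (n + H) = (Ioc 0 H).map (addLeftEmbedding n) := by
          rw [map_add_left_Ioc, add_zero]
        have h4 : ∑ m ∈ Ioc n (n + H), f m = ∑ i ∈ Ioc 0 H, f (n + i) := by
          rw [h3, sum_map]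
          rfl
        have h5 := sq_sum_le_card_mul_sum_sq (s := Ioc 0 H) (f := fun i => f (n + i))
        rw [Nat.card_Ioc, Nat.sub_zero] at h5
        refine le_trans (pow_le_pow_left₀ h2 h1 2) ?_
        rw [h4]
        exact h5
    _ = (H : ℝ) * ∑ i ∈ Ioc 0 H, ∑ n ∈ Ioc N1 N2, f (n + i) ^ 2 := by
        rw [← mul_sum, sum_comm]
    _ ≤ (H : ℝ) * ∑ i ∈ Ioc 0 H, ∑ m ∈ Ioc 0 M, f m ^ 2 := by
        refine mul_le_mul_of_nonneg_left (sum_le_sum fun i hi => ?_) (by positivity)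
        rw [mem_Ioc] at hi
        have h3 : ∑ n ∈ Ioc N1 N2, f (n + i) ^ 2 = ∑ m ∈ Ioc (N1 + i) (N2 + i), f m ^ 2 := by
          rw [← map_add_right_Ioc, sum_map]
          rfl
        rw [h3]
        refine sum_le_sum_of_subset_of_nonneg ?_ fun _ _ _ => sq_nonneg _
        intro m hm
        rw [mem_Ioc] at hm ⊢
        omega
    _ = (H : ℝ) ^ 2 * ∑ m ∈ Ioc 0 M, f m ^ 2 := by
        rw [sum_const, Nat.card_Ioc, nsmul_eq_mul, Nat.sub_zero]
        ring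

private theorem ge_zero {P P2 q c m n : ℕ} {X : ℝ} {B A3 ℓ : ℝ} (hℓ : 0 < ℓ) (hq1 : 1 ≤ q)
    (hqP : q ≤ P) (hq : (q : ℝ) ≤ ℓ ^ B) (hP2 : (P2 : ℝ) ≤ ℓ ^ A3) (hX : ℓ ^ (A3 + B) < X)
    (hn : X < n) (hnm : n < m) (hm : m % q = c) (hc : ¬ Nat.Coprime c q) : ge P P2 m = 0 := by
  unfold ge
  refine sum_eq_zero fun p hp => ?_
  exfalso
  rw [mem_filter, mem_Ioc] at hp
  obtain ⟨⟨hp1, hp2⟩, hp3, hp4, hp5⟩ := hp
  obtain ⟨p0, h0, h0c, h0q⟩ := Nat.Prime.not_coprime_iff_dvd.1 hc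
  have h0m : p0 ∣ m := by
    rw [← hm] at h0c
    exact (Nat.dvd_mod_iff h0q).1 h0c
  have hp0q : p0 ≤ q := Nat.le_of_dvd hq1 h0q
  have hmp : m = p * (m / p) := (Nat.mul_div_cancel' hp4).symm
  rw [hmp] at h0m
  rcases h0.dvd_mul.1 h0m with h | h
  · have := (Nat.prime_dvd_prime_iff_eq h0 hp3).1 h
    omega
  · have h1 := (Nat.prime_dvd_prime_iff_eq h0 hp5).1 h
    rw [← h1] at hmp
    have h2 : (m : ℝ) = p * p0 := by exact_mod_cast hmp
    have h3 : (p : ℝ) * p0 ≤ ℓ ^ A3 * ℓ ^ B := by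
      refine mul_le_mul ?_ ?_ (by positivity) (by positivity)
      · exact le_trans (by exact_mod_cast hp2) hP2
      · exact le_trans (by exact_mod_cast hp0q) hq
    rw [← Real.rpow_add hℓ, ← h2] at h3
    have h4 : (n : ℝ) < m := by exact_mod_cast hnm
    linarith

theorem thw (B A : ℝ) (hB : 0 < B) (hA : 0 < A) : ∃ A2 : ℝ, 0 < A2 ∧ ∀ A3 : ℝ, A2 ≤ A3 →
    ∃ C1 A1 X0 : ℝ, 0 < C1 ∧ 0 < A1 ∧ 10 ≤ X0 ∧ ∀ X : ℝ, X0 ≤ X →
    ∀ q c : ℕ, 1 ≤ q → (q : ℝ) ≤ (Real.log X) ^ B → c < q → ∀ P P2 H : ℕ,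
    (Real.log X) ^ A2 ≤ P → P ≤ P2 → (P2 : ℝ) ≤ (Real.log X) ^ A3 →
    (Real.log X) ^ C1 ≤ H → (H : ℝ) ≤ X * (Real.log X) ^ (-A1) →
    ∑ n ∈ Ioc ⌊X⌋₊ ⌊2 * X⌋₊,
      (∑ m ∈ (Ioc n (n + H)).filter (fun m => m % q = c), ge P P2 m -
        (if Nat.Coprime c q then kap P P2 * H / q.totient else 0)) ^ 2 ≤
      X * (H : ℝ) ^ 2 * (Real.log X) ^ (-A) := by
  obtain ⟨A2', hA2', hadd⟩ := addw B (A + 1) hB (by linarith)
  refine ⟨max A2' (B + 1), lt_max_of_lt_left hA2', fun A3 hA3 => ?_⟩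
  obtain ⟨C1, A1, X1, hC1, hA1, hX1, hadd⟩ := hadd A3 ((le_max_left _ _).trans hA3)
  have ev1 : ∀ᶠ X : ℝ in Filter.atTop, 64 * (Real.log X) ^ (2 * A3 + 2 + A) ≤ X ^ (1 / 2 : ℝ) := by
    have h := (isLittleO_log_rpow_rpow_atTop (2 * A3 + 2 + A)
      (by norm_num : (0 : ℝ) < 1 / 2)).bound (by norm_num : (0 : ℝ) < 1 / 64)
    filter_upwards [h, Filter.eventually_ge_atTop 1] with X hX hX1
    have h1 : 0 ≤ (Real.log X) ^ (2 * A3 + 2 + A) :=
      Real.rpow_nonneg (Real.log_nonneg hX1) _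
    have h2 : 0 ≤ X ^ (1 / 2 : ℝ) := Real.rpow_nonneg (by linarith) _
    rw [Real.norm_of_nonneg h1, Real.norm_of_nonneg h2] at hX
    linarith
  have ev2 : ∀ᶠ X : ℝ in Filter.atTop, (Real.log X) ^ (A3 + B) < X := by
    have h := (isLittleO_log_rpow_rpow_atTop (A3 + B)
      (by norm_num : (0 : ℝ) < 1)).bound (by norm_num : (0 : ℝ) < 1 / 2)
    filter_upwards [h, Filter.eventually_ge_atTop 1] with X hX hX1
    have h1 : 0 ≤ (Real.log X) ^ (A3 + B) :=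
      Real.rpow_nonneg (Real.log_nonneg hX1) _
    rw [Real.norm_of_nonneg h1, Real.rpow_one, Real.norm_of_nonneg (by linarith : (0 : ℝ) ≤ X)] at hX
    linarith
  have ev3 : ∀ᶠ X : ℝ in Filter.atTop, 4 ≤ Real.log X :=
    Real.tendsto_log_atTop.eventually_ge_atTop 4
  obtain ⟨X2, hX2⟩ := Filter.eventually_atTop.1 (ev1.and (ev2.and ev3))
  refine ⟨C1, A1, max X1 (max X2 10), hC1, hA1, le_max_of_le_left hX1, ?_⟩
  intro X hX q c hq1 hq hcq P P2 H hP hPP hP2 hH1 hH2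
  have hXX1 : X1 ≤ X := (le_max_left _ _).trans hX
  have hXX2 : X2 ≤ X := ((le_max_left _ _).trans (le_max_right _ _)).trans hX
  have hX10 : 10 ≤ X := hX1.trans hXX1
  obtain ⟨e1, e2, e3⟩ := hX2 X hXX2
  have hX0 : 0 < X := by linarith
  set ℓ := Real.log X with hℓ
  have hℓ0 : 0 < ℓ := by linarith
  have hℓ1 : 1 ≤ ℓ := by linarith
  have hA3' : B + 1 ≤ A3 := (le_max_right _ _).trans hA3
  have hP' : ℓ ^ A2' ≤ P :=
    (Real.rpow_le_rpow_of_exponent_le hℓ1 (le_max_left _ _)).trans hP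
  have hPB : ℓ ^ B ≤ P :=
    (Real.rpow_le_rpow_of_exponent_le hℓ1
      ((by linarith : B ≤ B + 1).trans (le_max_right _ _))).trans hP
  have hqP : q ≤ P := by exact_mod_cast hq.trans hPB
  have : NeZero q := ⟨by omega⟩
  have hrhs : 0 ≤ X * (H : ℝ) ^ 2 * ℓ ^ (-A) := by positivity
  by_cases hc : Nat.Coprime c q
  · have hu : IsUnit (c : ZMod q) := (ZMod.isUnit_iff_coprime c q).2 hc
    have h1 := hadd X hXX1 q hq (c : ZMod q) hu P P2 H hP' hPP hP2 hH1 hH2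
    have hfil : ∀ n, (Ioc n (n + H)).filter (fun m : ℕ => (m : ZMod q) = (c : ZMod q)) =
        (Ioc n (n + H)).filter (fun m => m % q = c) := by
      intro n
      ext m
      simp only [mem_filter]
      rw [ZMod.natCast_eq_natCast_iff, Nat.ModEq, Nat.mod_eq_of_lt hcq]
    simp only [hfil] at h1
    simp only [if_pos hc]
    set M : ℕ := ⌊2 * X⌋₊ + H with hM
    have hHX : (H : ℝ) ≤ X := by
      refine hH2.trans ?_
      have : ℓ ^ (-A1) ≤ 1 := Real.rpow_le_one_of_one_le_of_nonpos hℓ1 (by linarith)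
      nlinarith
    have hMX : (M : ℝ) ≤ 3 * X := by
      rw [hM]
      push_cast
      have := Nat.floor_le (by linarith : 0 ≤ 2 * X)
      linarith
    have hM1 : 1 ≤ M := by
      have : 1 ≤ ⌊2 * X⌋₊ := Nat.le_floor (by push_cast; linarith)
      omega
    have hM1r : (1 : ℝ) ≤ (M : ℝ) := by exact_mod_cast hM1
    have h2 := win_sq (ddf P P2) (ddf_nonneg P P2) q c ⌊X⌋₊ ⌊2 * X⌋₊ H M le_rfl
    have h3 := ddf_sq P P2 M hM1
    have hlM : Real.log M ≤ 2 * ℓ := by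
      have h4 : (M : ℝ) ≤ X ^ 2 := by nlinarith
      have h5 := Real.log_le_log (by linarith) h4
      rw [Real.log_pow] at h5
      push_cast at h5
      exact h5
    have hlM0 : 0 ≤ Real.log M := Real.log_nonneg hM1r
    have hsM : Real.sqrt M ≤ 2 * X ^ (1 / 2 : ℝ) := by
      rw [← Real.sqrt_eq_rpow]
      have h6 : Real.sqrt M ≤ Real.sqrt (2 ^ 2 * X) := Real.sqrt_le_sqrt (by linarith)
      rw [Real.sqrt_mul (by norm_num), Real.sqrt_sq (by norm_num)] at h6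
      exact h6
    have hP2s : (P2 : ℝ) ^ 2 ≤ ℓ ^ (2 * A3) := by
      rw [two_mul, Real.rpow_add hℓ0, ← sq]
      exact pow_le_pow_left₀ (by positivity) hP2 2
    have hS : 2 * (P2 : ℝ) ^ 2 * Real.sqrt M * (Real.log M) ^ 2 ≤
        16 * ℓ ^ (2 * A3 + 2) * X ^ (1 / 2 : ℝ) := by
      have h7 : (Real.log M) ^ 2 ≤ 4 * ℓ ^ (2 : ℝ) := by
        have h8 := pow_le_pow_left₀ hlM0 hlM 2
        rw [Real.rpow_two]
        linarith
      calc 2 * (P2 : ℝ) ^ 2 * Real.sqrt M * (Real.log M) ^ 2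
          ≤ 2 * ℓ ^ (2 * A3) * (2 * X ^ (1 / 2 : ℝ)) * (4 * ℓ ^ (2 : ℝ)) := by
            gcongr
        _ = 16 * (ℓ ^ (2 * A3) * ℓ ^ (2 : ℝ)) * X ^ (1 / 2 : ℝ) := by ring
        _ = 16 * ℓ ^ (2 * A3 + 2) * X ^ (1 / 2 : ℝ) := by rw [← Real.rpow_add hℓ0]
    have hfin1 : 2 * ℓ ^ (-(A + 1)) ≤ ℓ ^ (-A) / 2 := by
      have h9 : ℓ ^ (-(A + 1)) = ℓ ^ (-A) * ℓ⁻¹ := by
        rw [← Real.rpow_neg_one, ← Real.rpow_add hℓ0]
        congr 1
        ring
      rw [h9]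
      have h10 : ℓ⁻¹ ≤ 1 / 4 := by
        rw [inv_eq_one_div]
        exact one_div_le_one_div_of_le (by norm_num) e3
      have h11 : 0 ≤ ℓ ^ (-A) := by positivity
      nlinarith
    have hfin2 : 32 * ℓ ^ (2 * A3 + 2) * X ^ (1 / 2 : ℝ) ≤ X * ℓ ^ (-A) / 2 := by
      have h12 : ℓ ^ (2 * A3 + 2) = ℓ ^ (2 * A3 + 2 + A) * ℓ ^ (-A) := by
        rw [← Real.rpow_add hℓ0]
        congr 1
        ring
      have h13 : X = X ^ (1 / 2 : ℝ) * X ^ (1 / 2 : ℝ) := by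
        rw [← Real.rpow_add hX0]
        norm_num
      have h14 : 0 ≤ ℓ ^ (-A) * X ^ (1 / 2 : ℝ) := by positivity
      calc 32 * ℓ ^ (2 * A3 + 2) * X ^ (1 / 2 : ℝ)
          = (64 * ℓ ^ (2 * A3 + 2 + A)) * (ℓ ^ (-A) * X ^ (1 / 2 : ℝ)) / 2 := by
            rw [h12]
            ring
        _ ≤ X ^ (1 / 2 : ℝ) * (ℓ ^ (-A) * X ^ (1 / 2 : ℝ)) / 2 := by
            have := mul_le_mul_of_nonneg_right e1 h14
            linarith
        _ = (X ^ (1 / 2 : ℝ) * X ^ (1 / 2 : ℝ)) * ℓ ^ (-A) / 2 := by ring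
        _ = X * ℓ ^ (-A) / 2 := by rw [← h13]
    have hgg : ∀ n, (∑ m ∈ (Ioc n (n + H)).filter (fun m => m % q = c), ge P P2 m -
        kap P P2 * H / q.totient) ^ 2 ≤
        2 * (∑ m ∈ (Ioc n (n + H)).filter (fun m => m % q = c), gg P P2 m -
          kap P P2 * H / q.totient) ^ 2 +
        2 * (∑ m ∈ (Ioc n (n + H)).filter (fun m => m % q = c), ddf P P2 m) ^ 2 := by
      intro n
      have h15 : ∑ m ∈ (Ioc n (n + H)).filter (fun m => m % q = c), gg P P2 m =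
          ∑ m ∈ (Ioc n (n + H)).filter (fun m => m % q = c), ge P P2 m +
          ∑ m ∈ (Ioc n (n + H)).filter (fun m => m % q = c), ddf P P2 m := by
        rw [← sum_add_distrib]
        exact sum_congr rfl fun m _ => gg_eq P P2 m
      rw [h15]
      nlinarith [sq_nonneg (∑ m ∈ (Ioc n (n + H)).filter (fun m => m % q = c), ge P P2 m -
        kap P P2 * H / q.totient +
          2 * ∑ m ∈ (Ioc n (n + H)).filter (fun m => m % q = c), ddf P P2 m)]
    refine (sum_le_sum fun n _ => hgg n).trans ?_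
    rw [sum_add_distrib, ← mul_sum, ← mul_sum]
    have hH0 : 0 ≤ (H : ℝ) ^ 2 := by positivity
    have h16 : (H : ℝ) ^ 2 * ∑ m ∈ Ioc 0 M, ddf P P2 m ^ 2 ≤
        (H : ℝ) ^ 2 * (16 * ℓ ^ (2 * A3 + 2) * X ^ (1 / 2 : ℝ)) :=
      mul_le_mul_of_nonneg_left (h3.trans hS) hH0
    have h17 : (H : ℝ) ^ 2 * (32 * ℓ ^ (2 * A3 + 2) * X ^ (1 / 2 : ℝ)) ≤
        (H : ℝ) ^ 2 * (X * ℓ ^ (-A) / 2) := mul_le_mul_of_nonneg_left hfin2 hH0
    have h18 : X * (H : ℝ) ^ 2 * (2 * ℓ ^ (-(A + 1))) ≤ X * (H : ℝ) ^ 2 * (ℓ ^ (-A) / 2) :=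
      mul_le_mul_of_nonneg_left hfin1 (by positivity)
    linarith
  · have hz : ∀ n ∈ Ioc ⌊X⌋₊ ⌊2 * X⌋₊,
        (∑ m ∈ (Ioc n (n + H)).filter (fun m => m % q = c), ge P P2 m -
          (if Nat.Coprime c q then kap P P2 * H / q.totient else 0)) ^ 2 = 0 := by
      intro n hn
      rw [mem_Ioc] at hn
      have hXn : X < n := Nat.lt_of_floor_lt hn.1
      rw [if_neg hc, sub_zero, sum_eq_zero, zero_pow (by norm_num)]
      intro m hm
      rw [mem_filter, mem_Ioc] at hm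
      exact ge_zero hℓ0 hq1 hqP hq hP2 e2 hXn hm.1.1 hm.2 hc
    rw [sum_eq_zero hz]
    exact hrhs

end Pool.Agent.H43.TP
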